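import Mathlib

/-!
# Tensor powers of matrices
-/

set_option autoImplicit false
set_option linter.unusedSectionVars false
set_option linter.unusedDecidableInType false
set_option linter.unusedFintypeInType false

namespace Pool.Agent.X259.T

open Matrix Finset

noncomputable section

variable {R : Type} [Fintype R] [DecidableEq R] {κ : Type} [Fintype κ] [DecidableEq κ]
  {μ : Type} [Fintype μ] [DecidableEq μ]

/-- The tensor product of the matrices `g k`. -/
def krf (g : κ → Matrix R R ℂ) : Matrix (κ → R) (κ → R) ℂ := fun I J => ∏ k, g k (I k) (J k)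

lemma krf_apply (g : κ → Matrix R R ℂ) (I J : κ → R) : krf g I J = ∏ k, g k (I k) (J k) := rfl

lemma krf_mul (g h : κ → Matrix R R ℂ) : krf g * krf h = krf (fun k => g k * h k) := by
  ext I J
  rw [Matrix.mul_apply, krf_apply]
  simp only [krf_apply, Matrix.mul_apply]
  rw [Finset.prod_univ_sum, Fintype.piFinset_univ]
  exact Finset.sum_congr rfl fun L _ => by rw [Finset.prod_mul_distrib]

lemma krf_one : krf (fun _ : κ => (1 : Matrix R R ℂ)) = 1 := by
  ext I J
  rw [krf_apply]
  by_cases h : I = J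
  · subst h
    rw [Matrix.one_apply_eq]
    exact Finset.prod_eq_one fun k _ => Matrix.one_apply_eq _
  · rw [Matrix.one_apply_ne h]
    obtain ⟨k, hk⟩ := Function.ne_iff.1 h
    exact Finset.prod_eq_zero (Finset.mem_univ k) (Matrix.one_apply_ne hk)

variable (κ) in
/-- The tensor power of a matrix. -/
def kr (g : Matrix R R ℂ) : Matrix (κ → R) (κ → R) ℂ := krf fun _ : κ => g

lemma kr_apply (g : Matrix R R ℂ) (I J : κ → R) : kr κ g I J = ∏ k, g (I k) (J k) := rfl

lemma kr_mul (g h : Matrix R R ℂ) : kr κ (g * h) = kr κ g * kr κ h := (krf_mul _ _).symm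

lemma kr_one : kr κ (1 : Matrix R R ℂ) = 1 := krf_one

lemma kr_trace (g : Matrix R R ℂ) : (kr κ g).trace = g.trace ^ Fintype.card κ := by
  rw [Matrix.trace, Matrix.trace, Fintype.card, ← Finset.prod_const, Finset.prod_univ_sum,
    Fintype.piFinset_univ]
  rfl

lemma kr_conjTranspose (g : Matrix R R ℂ) : kr κ gᴴ = (kr κ g)ᴴ := by
  ext I J
  rw [Matrix.conjTranspose_apply, kr_apply, kr_apply, star_prod]
  rfl

/-- The derivation attached to a matrix. -/
def dk (κ : Type) [Fintype κ] [DecidableEq κ] (A : Matrix R R ℂ) :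
    Matrix (κ → R) (κ → R) ℂ :=
  ∑ k, krf (Function.update (fun _ : κ => (1 : Matrix R R ℂ)) k A)

lemma dk_conj {P P' A : Matrix R R ℂ} (h : P' * P = 1) :
    dk κ (P * A * P') * kr κ P = kr κ P * dk κ A := by
  rw [dk, dk, Finset.sum_mul, Finset.mul_sum]
  refine Finset.sum_congr rfl fun k _ => ?_
  rw [kr, krf_mul, krf_mul]
  congr 1
  funext l
  by_cases hl : l = k
  · subst hl
    rw [Function.update_self, Function.update_self, mul_assoc, h, mul_one]
  · rw [Function.update_of_ne hl, Function.update_of_ne hl, one_mul, mul_one]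

lemma krf_update_mulVec (k : κ) (A : Matrix R R ℂ) (F : (κ → R) → ℂ) (I : κ → R) :
    (krf (Function.update (fun _ : κ => (1 : Matrix R R ℂ)) k A) *ᵥ F) I =
      ∑ y, A (I k) y * F (Function.update I k y) := by
  rw [Matrix.mulVec, dotProduct]
  have h1 : ∀ J : κ → R, krf (Function.update (fun _ : κ => (1 : Matrix R R ℂ)) k A) I J * F J =
      ∑ y, if J = Function.update I k y then A (I k) y * F (Function.update I k y) else 0 := by
    intro J
    by_cases hJ : ∃ y, J = Function.update I k y
    · obtain ⟨y, rfl⟩ := hJ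
      rw [Finset.sum_eq_single y]
      · rw [if_pos rfl, krf_apply, Finset.prod_eq_single k]
        · rw [Function.update_self, Function.update_self]
        · intro l _ hl
          rw [Function.update_of_ne hl, Function.update_of_ne hl, Matrix.one_apply_eq]
        · intro h
          exact absurd (Finset.mem_univ k) h
      · intro z _ hz
        rw [if_neg]
        intro h
        have := congrFun h k
        rw [Function.update_self, Function.update_self] at this
        exact hz this.symm
      · intro h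
        exact absurd (Finset.mem_univ y) h
    · rw [Finset.sum_eq_zero fun y _ => if_neg fun h => hJ ⟨y, h⟩, krf_apply]
      have h2 : ∃ l, l ≠ k ∧ I l ≠ J l := by
        by_contra hcon
        push Not at hcon
        refine hJ ⟨J k, ?_⟩
        funext l
        by_cases hl : l = k
        · subst hl
          rw [Function.update_self]
        · rw [Function.update_of_ne hl, hcon l hl]
      obtain ⟨l, hl, hlJ⟩ := h2
      rw [Finset.prod_eq_zero (Finset.mem_univ l), zero_mul]
      rw [Function.update_of_ne hl, Matrix.one_apply_ne hlJ]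
  rw [Finset.sum_congr rfl fun J _ => h1 J, Finset.sum_comm]
  refine Finset.sum_congr rfl fun y _ => ?_
  rw [Finset.sum_ite_eq' Finset.univ, if_pos (Finset.mem_univ _)]

lemma dk_mulVec (A : Matrix R R ℂ) (F : (κ → R) → ℂ) (I : κ → R) :
    (dk κ A *ᵥ F) I = ∑ k, ∑ y, A (I k) y * F (Function.update I k y) := by
  rw [dk, Matrix.sum_mulVec, Finset.sum_apply]
  exact Finset.sum_congr rfl fun k _ => krf_update_mulVec k A F I

lemma kr_diagonal_mulVec (a : R → ℂ) (F : (κ → R) → ℂ) (I : κ → R) :
    (kr κ (Matrix.diagonal a) *ᵥ F) I = (∏ k, a (I k)) * F I := by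
  rw [Matrix.mulVec, dotProduct, Finset.sum_eq_single I]
  · rw [kr_apply]
    simp only [Matrix.diagonal_apply_eq]
  · intro J _ hJ
    obtain ⟨k, hk⟩ := Function.ne_iff.1 hJ
    rw [kr_apply, Finset.prod_eq_zero (Finset.mem_univ k), zero_mul]
    exact Matrix.diagonal_apply_ne _ (Ne.symm hk)
  · intro h
    exact absurd (Finset.mem_univ I) h

lemma dk_diagonal_mulVec (a : R → ℂ) (F : (κ → R) → ℂ) (I : κ → R) :
    (dk κ (Matrix.diagonal a) *ᵥ F) I = (∑ k, a (I k)) * F I := by
  rw [dk_mulVec, Finset.sum_mul]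
  refine Finset.sum_congr rfl fun k _ => ?_
  rw [Finset.sum_eq_single (I k)]
  · rw [Matrix.diagonal_apply_eq, Function.update_eq_self]
  · intro y _ hy
    rw [Matrix.diagonal_apply_ne _ hy.symm, zero_mul]
  · intro h
    exact absurd (Finset.mem_univ _) h

/-- The tensor product. -/
def tp (F : (κ → R) → ℂ) (F' : (μ → R) → ℂ) : (κ ⊕ μ → R) → ℂ :=
  fun I => F (fun k => I (Sum.inl k)) * F' (fun k => I (Sum.inr k))

lemma tp_apply (F : (κ → R) → ℂ) (F' : (μ → R) → ℂ) (I : κ → R) (J : μ → R) :
    tp F F' (Sum.elim I J) = F I * F' J := rfl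

/-- Sums over words on a disjoint union. -/
lemma sum_elim {M : Type*} [AddCommMonoid M] (f : (κ ⊕ μ → R) → M) :
    ∑ I, f I = ∑ I : κ → R, ∑ J : μ → R, f (Sum.elim I J) := by
  rw [← (Equiv.sumArrowEquivProdArrow κ μ R).symm.sum_comp, Fintype.sum_prod_type]
  rfl

lemma kr_mulVec (g : Matrix R R ℂ) (F : (κ → R) → ℂ) (I : κ → R) :
    (kr κ g *ᵥ F) I = ∑ J : κ → R, (∏ k, g (I k) (J k)) * F J := rfl

lemma kr_tp (g : Matrix R R ℂ) (F : (κ → R) → ℂ) (F' : (μ → R) → ℂ) :
    kr (κ ⊕ μ) g *ᵥ tp F F' = tp (kr κ g *ᵥ F) (kr μ g *ᵥ F') := by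
  funext I
  rw [kr_mulVec, sum_elim]
  change _ = (kr κ g *ᵥ F) _ * (kr μ g *ᵥ F') _
  rw [kr_mulVec, kr_mulVec, Finset.sum_mul_sum]
  refine Finset.sum_congr rfl fun J _ => Finset.sum_congr rfl fun J' _ => ?_
  rw [tp_apply, Fintype.prod_sum_type]
  simp only [Sum.elim_inl, Sum.elim_inr]
  ring

/-- Transport along a bijection. -/
def ri (e : κ ≃ μ) (F : (κ → R) → ℂ) : (μ → R) → ℂ := fun I => F (fun k => I (e k))

lemma kr_ri (g : Matrix R R ℂ) (e : κ ≃ μ) (F : (κ → R) → ℂ) :
    kr μ g *ᵥ ri e F = ri e (kr κ g *ᵥ F) := by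
  funext I
  rw [kr_mulVec]
  change _ = (kr κ g *ᵥ F) _
  rw [kr_mulVec, ← (e.arrowCongr (Equiv.refl R)).sum_comp]
  refine Finset.sum_congr rfl fun J _ => ?_
  rw [← e.prod_comp]
  congr 1
  · refine Finset.prod_congr rfl fun k _ => ?_
    simp
  · change F _ = F _
    congr 1
    funext k
    simp

end

end Pool.Agent.X259.T
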