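import Pool.Agent.X259.T.T9

/-!
# The moments of the trace
-/

set_option autoImplicit false
set_option linter.unusedSectionVars false
set_option linter.unusedDecidableInType false
set_option linter.unusedFintypeInType false

namespace Pool.Agent.X259.T

open Matrix Finset MeasureTheory Module

noncomputable section

variable {R : Type} [Fintype R] [DecidableEq R]
  {G : Type} [Group G] [TopologicalSpace G] [IsTopologicalGroup G] [CompactSpace G]
  [MeasurableSpace G] [BorelSpace G] (r : G →* Matrix R R ℂ)

/-- The monomials in the matrix entries. -/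
def mo {m : ℕ} (α : Fin m → R × R) : G → ℂ := fun g => ∏ s, r g (α s).1 (α s).2

/-- The span of the monomials of degree `m`. -/
def MO (m : ℕ) : Submodule ℂ (G → ℂ) := Submodule.span ℂ (Set.range (mo (m := m) r))

/-- Monomials by their exponents. -/
def me {m : ℕ} (c : R × R → Fin (m + 1)) : G → ℂ := fun g => ∏ p, r g p.1 p.2 ^ (c p : ℕ)

lemma mo_eq {m : ℕ} (α : Fin m → R × R) : mo r α = me r (m := m) (fun p =>
    ⟨(Finset.univ.filter fun s => α s = p).card, Nat.lt_succ_of_le ((Finset.card_filter_le _ _).trans
      (by simp))⟩) := by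
  funext g
  rw [mo, me]
  rw [← Finset.prod_fiberwise_of_maps_to (g := α) (t := Finset.univ)
    (fun s _ => Finset.mem_univ _)]
  refine Finset.prod_congr rfl fun p _ => ?_
  rw [← Finset.prod_const]
  refine Finset.prod_congr rfl fun s hs => ?_
  rw [(Finset.mem_filter.1 hs).2]

lemma MO_le (m : ℕ) : MO r m ≤ Submodule.span ℂ (Set.range (me (m := m) r)) := by
  refine Submodule.span_mono ?_
  rintro _ ⟨α, rfl⟩
  exact ⟨_, (mo_eq r α).symm⟩

instance (m : ℕ) : FiniteDimensional ℂ (Submodule.span ℂ (Set.range (me (m := m) r))) :=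
  FiniteDimensional.span_of_finite ℂ (Set.finite_range _)

instance (m : ℕ) : FiniteDimensional ℂ (MO r m) :=
  FiniteDimensional.span_of_finite ℂ (Set.finite_range _)

lemma MO_finrank (m : ℕ) : finrank ℂ (MO r m) ≤ (m + 1) ^ (Fintype.card R * Fintype.card R) := by
  refine (Submodule.finrank_mono (MO_le r m)).trans ?_
  refine (finrank_range_le_card (me (m := m) r)).trans (le_of_eq ?_)
  rw [Fintype.card_fun, Fintype.card_fin, Fintype.card_prod]

lemma MO_cont (hr : Continuous r) (m : ℕ) (f : G → ℂ) (hf : f ∈ MO r m) : Continuous f := by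
  induction hf using Submodule.span_induction with
  | mem f hf =>
    obtain ⟨α, rfl⟩ := hf
    refine continuous_finsetProd _ fun s _ => ?_
    exact (continuous_apply (α s).2).comp ((continuous_apply (α s).1).comp hr)
  | zero => exact continuous_const
  | add f f' _ _ hf hf' => exact hf.add hf'
  | smul c f _ hf => exact continuous_const.mul hf

lemma MO_trans (m : ℕ) (f : G → ℂ) (hf : f ∈ MO r m) (q : G) : (fun g => f (q * g)) ∈ MO r m := by
  induction hf using Submodule.span_induction with
  | mem f hf =>
    obtain ⟨α, rfl⟩ := hf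
    have h1 : (fun g => mo r α (q * g)) = ∑ L : Fin m → R, (∏ s, r q (α s).1 (L s)) •
        mo r (fun s => (L s, (α s).2)) := by
      funext g
      rw [Finset.sum_apply]
      change ∏ s, r (q * g) (α s).1 (α s).2 = _
      simp only [map_mul, Matrix.mul_apply]
      rw [Finset.prod_univ_sum, Fintype.piFinset_univ]
      refine Finset.sum_congr rfl fun L _ => ?_
      rw [Finset.prod_mul_distrib]
      rfl
    rw [h1]
    exact Submodule.sum_mem _ fun L _ => Submodule.smul_mem _ _ (Submodule.subset_span ⟨_, rfl⟩)
  | zero => exact Submodule.zero_mem _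
  | add f f' _ _ hf hf' => exact Submodule.add_mem _ hf hf'
  | smul c f _ hf => exact Submodule.smul_mem _ c hf

lemma trace_mem (m : ℕ) : (fun g => (r g).trace ^ m) ∈ MO r m := by
  have h1 : (fun g => (r g).trace ^ m) = ∑ L : Fin m → R, mo r (fun s => (L s, L s)) := by
    funext g
    rw [Finset.sum_apply]
    have h2 := Finset.prod_univ_sum (fun _ : Fin m => (Finset.univ : Finset R))
      (fun _ x => r g x x)
    rw [Fintype.piFinset_univ, Finset.prod_const, Finset.card_univ, Fintype.card_fin] at h2
    exact h2
  rw [h1]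
  exact Submodule.sum_mem _ fun L _ => Submodule.subset_span ⟨_, rfl⟩

/-- **The moments of the trace.** -/
theorem moment (hr : Continuous r) (m : ℕ) :
    (Fintype.card R : ℝ) ^ (2 * m) ≤ ((m : ℝ) + 1) ^ (Fintype.card R * Fintype.card R) *
      ∫ g, ‖(r g).trace‖ ^ (2 * m) ∂(hm G) := by
  have h1 := sup_le (MO r m) (MO_cont r hr m) (fun f hf q => MO_trans r m f hf q) _ (trace_mem r m)
  simp only [map_one, Matrix.trace_one, norm_pow, ← pow_mul, mul_comm m 2] at h1
  rw [Complex.norm_natCast] at h1
  refine h1.trans ?_
  refine mul_le_mul_of_nonneg_right ?_ (integral_nonneg fun g => by positivity)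
  have := MO_finrank r m
  exact_mod_cast this

end

end Pool.Agent.X259.T
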