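import Pool.Agent.X259.T.T8

/-!
# Unitary matrices are diagonalizable
-/

set_option autoImplicit false
set_option linter.unusedSectionVars false
set_option linter.unusedDecidableInType false
set_option linter.unusedFintypeInType false

namespace Pool.Agent.X259.T

open Matrix Finset Module

noncomputable section

variable {R : Type} [Fintype R] [DecidableEq R]

lemma exists_basis (g : Matrix.unitaryGroup R ℂ) : ∃ (b : Basis R ℂ (R → ℂ)) (μ : R → ℂ),
    ∀ x, (g : Matrix R R ℂ) *ᵥ b x = μ x • b x := by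
  let L := WithLp.linearEquiv 2 ℂ (R → ℂ)
  let f : Module.End ℂ (EuclideanSpace ℂ R) :=
    L.symm.toLinearMap ∘ₗ (Matrix.toLin' (g : Matrix R R ℂ)) ∘ₗ L.toLinearMap
  have hf : ∀ x, L (f x) = (g : Matrix R R ℂ) *ᵥ L x := fun x => by
    change L (L.symm _) = _
    rw [LinearEquiv.apply_symm_apply]
    rfl
  have hu : (g : Matrix R R ℂ)ᴴ * (g : Matrix R R ℂ) = 1 := Matrix.mem_unitaryGroup_iff'.1 g.2
  have hinner : ∀ x y : EuclideanSpace ℂ R, inner ℂ x y = L y ⬝ᵥ star (L x) := fun x y =>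
    EuclideanSpace.inner_eq_star_dotProduct x y
  have hiso : ∀ x y, inner ℂ (f x) (f y) = inner ℂ x y := by
    intro x y
    rw [hinner, hinner, hf, hf, Matrix.star_mulVec, dotProduct_comm, ← Matrix.dotProduct_mulVec,
      Matrix.mulVec_mulVec, hu, Matrix.one_mulVec, dotProduct_comm]
  have hinj : Function.Injective f := by
    rw [injective_iff_map_eq_zero]
    intro x hx
    have h1 := hiso x x
    rw [hx, inner_zero_left] at h1
    exact inner_self_eq_zero.1 h1.symm
  have hss : f.IsSemisimple := by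
    rw [Module.End.isSemisimple_iff]
    intro p hp
    refine ⟨pᗮ, ?_, Submodule.isCompl_orthogonal _⟩
    rw [Module.End.mem_invtSubmodule] at hp ⊢
    have hp' : p.map f = p := by
      refine Submodule.eq_of_le_of_finrank_le ?_ ?_
      · rw [Submodule.map_le_iff_le_comap]
        exact hp
      · exact (Submodule.equivMapOfInjective f hinj p).finrank_eq.le
    intro x hx
    rw [Submodule.mem_comap, Submodule.mem_orthogonal]
    intro y hy
    rw [← hp'] at hy
    obtain ⟨z, hz, rfl⟩ := hy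
    rw [hiso]
    exact (Submodule.mem_orthogonal _ _).1 hx z hz
  let S : Set (EuclideanSpace ℂ R) := {v | ∃ a : ℂ, f v = a • v}
  have hS : ⊤ ≤ Submodule.span ℂ S := by
    rw [← hss.iSup_eigenspace_eq_top]
    refine iSup_le fun a v hv => Submodule.subset_span ⟨a, ?_⟩
    exact Module.End.mem_eigenspace_iff.1 hv
  let b₀ := Basis.ofSpan hS
  have hb₀ : ∀ i, b₀ i ∈ S := fun i => Basis.ofSpan_subset hS (Set.mem_range_self i)
  have hfin := Module.Finite.finite_basis b₀
  have hft := Fintype.ofFinite (LinearIndepOn.extend (linearIndepOn_empty ℂ id)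
    (Set.empty_subset S))
  have hcard := Module.finrank_eq_card_basis b₀
  rw [finrank_euclideanSpace] at hcard
  let e := Fintype.equivOfCardEq hcard
  choose a ha using hb₀
  refine ⟨(b₀.reindex e.symm).map L, fun x => a (e x), fun x => ?_⟩
  rw [Basis.map_apply, Basis.reindex_apply, Equiv.symm_symm, ← hf, ha, map_smul]

open scoped ComplexOrder in
/-- Unitary matrices are diagonalizable. -/
lemma exists_diag (g : Matrix.unitaryGroup R ℂ) : ∃ (P P' : Matrix R R ℂ) (μ : R → ℂ),
    P' * P = 1 ∧ P * P' = 1 ∧ (g : Matrix R R ℂ) = P * Matrix.diagonal μ * P' ∧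
      (∀ x, ‖μ x‖ = 1) := by
  obtain ⟨b, μ, hb⟩ := exists_basis g
  let P : Matrix R R ℂ := (Pi.basisFun ℂ R).toMatrix b
  let P' : Matrix R R ℂ := b.toMatrix (Pi.basisFun ℂ R)
  have h1 : P' * P = 1 := Basis.toMatrix_mul_toMatrix_flip b (Pi.basisFun ℂ R)
  have h2 : P * P' = 1 := Basis.toMatrix_mul_toMatrix_flip (Pi.basisFun ℂ R) b
  have hP : ∀ i x, P i x = b x i := fun i x => by
    change (Pi.basisFun ℂ R).repr (b x) i = b x i
    rw [Pi.basisFun_repr]
  have h3 : (g : Matrix R R ℂ) * P = P * Matrix.diagonal μ := by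
    ext i x
    rw [Matrix.mul_diagonal, Matrix.mul_apply, hP]
    have h4 := congrFun (hb x) i
    rw [Matrix.mulVec, dotProduct, Pi.smul_apply, smul_eq_mul] at h4
    rw [mul_comm, ← h4]
    exact Finset.sum_congr rfl fun j _ => by rw [hP]
  refine ⟨P, P', μ, h1, h2, ?_, fun x => ?_⟩
  · rw [← h3, mul_assoc, h2, mul_one]
  · have hu : (g : Matrix R R ℂ)ᴴ * (g : Matrix R R ℂ) = 1 := Matrix.mem_unitaryGroup_iff'.1 g.2
    have h4 : star ((g : Matrix R R ℂ) *ᵥ b x) ⬝ᵥ ((g : Matrix R R ℂ) *ᵥ b x) =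
        star (b x) ⬝ᵥ b x := by
      rw [Matrix.star_mulVec, ← Matrix.dotProduct_mulVec, Matrix.mulVec_mulVec, hu,
        Matrix.one_mulVec]
    rw [hb, star_smul, smul_dotProduct, dotProduct_smul, smul_eq_mul, smul_eq_mul,
      ← mul_assoc] at h4
    have h5 : star (b x) ⬝ᵥ b x ≠ 0 := by
      rw [ne_eq, dotProduct_star_self_eq_zero]
      exact b.ne_zero x
    have h6 : star (μ x) * μ x = 1 := mul_right_cancel₀ h5 (by rw [h4, one_mul])
    have h7 : ((‖μ x‖ ^ 2 : ℝ) : ℂ) = 1 := by
      have := Complex.mul_conj (μ x)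
      rw [Complex.normSq_eq_norm_sq] at this
      rw [← this, mul_comm]
      exact h6
    have h8 : ‖μ x‖ ^ 2 = 1 := by exact_mod_cast h7
    exact (pow_eq_one_iff_of_nonneg (norm_nonneg _) two_ne_zero).1 h8

end

end Pool.Agent.X259.T
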