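import Pool.Agent.X259.T.T11
import Pool.Agent.X259.T.T10

/-!
# The gap of the trace
-/

set_option autoImplicit false
set_option linter.unusedSectionVars false
set_option linter.unusedDecidableInType false
set_option linter.unusedFintypeInType false

namespace Pool.Agent.X259.T

open Matrix Finset MeasureTheory Pool.Agent.H204R3.SP

noncomputable section

variable {R : Type} [Fintype R] [DecidableEq R] {Q : Type} [DecidableEq Q]
  {cls : R → Q} {inv : R → R} {jj : R → ℂ} {B C : ∀ κ : Type, Submodule ℂ ((κ → R) → ℂ)}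
  {κ : Type} [Fintype κ] [DecidableEq κ]

/-- The tensors in the family are determined, at the level of Lie algebras, in degree at most
`N`. -/
def LieDet (B : ∀ κ : Type, Submodule ℂ ((κ → R) → ℂ)) (N : ℕ) : Prop :=
  ∀ A : Matrix R R ℂ, (∀ n ≤ N, ∀ F ∈ B (Fin n), dk (Fin n) A *ᵥ F = 0) →
    ∀ n, ∀ F ∈ B (Fin n), dk (Fin n) A *ᵥ F = 0

lemma exp_arg {z : ℂ} (hz : ‖z‖ = 1) : Complex.exp ((z.arg : ℂ) * Complex.I) = z := by
  have := Complex.norm_mul_exp_arg_mul_I z
  rwa [hz, Complex.ofReal_one, one_mul] at this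

lemma kr_conj_diag {P P' : Matrix R R ℂ} (h : P' * P = 1) (a : Matrix R R ℂ) (F : (κ → R) → ℂ) :
    kr κ P' *ᵥ (kr κ (P * a * P') *ᵥ F) = kr κ a *ᵥ (kr κ P' *ᵥ F) := by
  rw [Matrix.mulVec_mulVec, Matrix.mulVec_mulVec, ← kr_mul, ← kr_mul, ← mul_assoc, ← mul_assoc, h,
    one_mul]

lemma dk_conj_diag {P P' : Matrix R R ℂ} (h : P' * P = 1) (h' : P * P' = 1) (a : Matrix R R ℂ)
    (F : (κ → R) → ℂ) :
    dk κ (P * a * P') *ᵥ F = kr κ P *ᵥ (dk κ a *ᵥ (kr κ P' *ᵥ F)) := by
  rw [Matrix.mulVec_mulVec, ← dk_conj h, Matrix.mulVec_mulVec, mul_assoc (dk κ _), ← kr_mul, h',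
    kr_one, mul_one]

lemma kr_inj {P P' : Matrix R R ℂ} (h : P' * P = 1) {F : (κ → R) → ℂ} (hF : kr κ P *ᵥ F = 0) :
    F = 0 := by
  have h1 := congrArg (fun x => kr κ P' *ᵥ x) hF
  simp only [Matrix.mulVec_zero] at h1
  rwa [Matrix.mulVec_mulVec, ← kr_mul, h, kr_one, Matrix.one_mulVec] at h1

/-- An element whose eigenvalues are near to one and which fixes the tensors in low degree fixes all
tensors. -/
lemma near_one {N : ℕ} (hN : 0 < N) (hL : LieDet B N) {g : Matrix R R ℂ} {P P' : Matrix R R ℂ}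
    {μ : R → ℂ} (h1 : P' * P = 1) (h2 : P * P' = 1) (hg : g = P * Matrix.diagonal μ * P')
    (hμ : ∀ x, ‖μ x‖ = 1) (hθ : ∀ x, |(μ x).arg| < 2 * Real.pi / N)
    (hfix : ∀ n ≤ N, ∀ F ∈ B (Fin n), kr (Fin n) g *ᵥ F = F) (n : ℕ) (F : (Fin n → R) → ℂ)
    (hF : F ∈ B (Fin n)) : kr (Fin n) g *ᵥ F = F := by
  let θ : R → ℂ := fun x => ((μ x).arg : ℂ)
  have hprod : ∀ (n : ℕ) (I : Fin n → R), ∏ k, μ (I k) = Complex.exp ((∑ k, θ (I k)) * Complex.I) := by
    intro n I
    rw [Finset.sum_mul, Complex.exp_sum]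
    exact Finset.prod_congr rfl fun k _ => (exp_arg (hμ _)).symm
  have hA : ∀ n ≤ N, ∀ F ∈ B (Fin n), dk (Fin n) (P * Matrix.diagonal θ * P') *ᵥ F = 0 := by
    intro n hn F hF
    rw [dk_conj_diag h1 h2]
    have h3 : kr (Fin n) (Matrix.diagonal μ) *ᵥ (kr (Fin n) P' *ᵥ F) = kr (Fin n) P' *ᵥ F := by
      rw [← kr_conj_diag h1, ← hg, hfix n hn F hF]
    have h4 : dk (Fin n) (Matrix.diagonal θ) *ᵥ (kr (Fin n) P' *ᵥ F) = 0 := by
      funext I
      rw [dk_diagonal_mulVec, Pi.zero_apply]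
      have h5 := congrFun h3 I
      rw [kr_diagonal_mulVec] at h5
      by_cases h6 : (kr (Fin n) P' *ᵥ F) I = 0
      · rw [h6, mul_zero]
      · have h7 : ∏ k, μ (I k) = 1 := mul_right_cancel₀ h6 (by rw [h5, one_mul])
        rw [hprod] at h7
        have h8 : (∑ k, θ (I k)) = ((∑ k, (μ (I k)).arg : ℝ) : ℂ) := by
          push_cast
          rfl
        rw [Complex.exp_eq_one_iff] at h7
        obtain ⟨z, hz⟩ := h7
        rw [h8] at hz ⊢
        have h9 : (∑ k, (μ (I k)).arg : ℝ) = z * (2 * Real.pi) := by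
          have h10 : (((∑ k, (μ (I k)).arg : ℝ) : ℂ)) = ((z * (2 * Real.pi) : ℝ) : ℂ) := by
            apply mul_right_cancel₀ Complex.I_ne_zero
            rw [hz]
            push_cast
            ring
          exact_mod_cast h10
        have h11 : |(∑ k, (μ (I k)).arg : ℝ)| < 2 * Real.pi := by
          rcases Nat.eq_zero_or_pos n with h0 | h0
          · subst h0
            rw [Finset.univ_eq_empty, Finset.sum_empty, abs_zero]
            positivity
          · have h12 : (∑ k : Fin n, |(μ (I k)).arg|) < ∑ _k : Fin n, 2 * Real.pi / N := by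
              refine Finset.sum_lt_sum_of_nonempty ?_ fun k _ => hθ _
              exact ⟨⟨0, h0⟩, Finset.mem_univ _⟩
            rw [Finset.sum_const, Finset.card_univ, Fintype.card_fin, nsmul_eq_mul] at h12
            refine (Finset.abs_sum_le_sum_abs _ _).trans_lt (h12.trans_le ?_)
            have hN' : (0 : ℝ) < N := by exact_mod_cast hN
            have hn' : (n : ℝ) ≤ N := by exact_mod_cast hn
            rw [mul_div_assoc', div_le_iff₀ hN']
            have := Real.pi_pos
            nlinarith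
        have h13 : z = 0 := by
          rw [h9, abs_mul, abs_of_pos (by positivity : (0 : ℝ) < 2 * Real.pi)] at h11
          have h14 : |(z : ℝ)| < 1 := by
            have : (0 : ℝ) < 2 * Real.pi := by positivity
            by_contra hcon
            push Not at hcon
            nlinarith
          have h15 : |z| < 1 := by exact_mod_cast h14
          exact Int.abs_lt_one_iff.1 h15
        rw [h9, h13]
        simp
    rw [h4, Matrix.mulVec_zero]
  have h3 := hL _ hA n F hF
  rw [dk_conj_diag h1 h2] at h3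
  have h4 := kr_inj h1 h3
  have h5 : kr (Fin n) (Matrix.diagonal μ) *ᵥ (kr (Fin n) P' *ᵥ F) = kr (Fin n) P' *ᵥ F := by
    funext I
    rw [kr_diagonal_mulVec]
    have h6 := congrFun h4 I
    rw [dk_diagonal_mulVec, Pi.zero_apply] at h6
    rcases mul_eq_zero.1 h6 with h7 | h7
    · rw [hprod, h7, zero_mul, Complex.exp_zero, one_mul]
    · rw [h7, mul_zero]
  rw [← kr_conj_diag h1, ← hg] at h5
  have h6 := congrArg (fun x => kr (Fin n) P *ᵥ x) h5
  simp only [Matrix.mulVec_mulVec, ← kr_mul] at h6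
  rw [← mul_assoc, h2, one_mul, kr_one, Matrix.one_mulVec] at h6
  exact h6

lemma trace_real (hB : Bas cls inv jj) {g : Matrix.unitaryGroup R ℂ}
    (hg : g ∈ stabG (forms cls inv jj)) :
    ((((g : Matrix R R ℂ).trace).re : ℝ) : ℂ) = (g : Matrix R R ℂ).trace := by
  rw [← Complex.conj_eq_iff_re]
  change star (g : Matrix R R ℂ).trace = _
  rw [Matrix.trace, star_sum]
  let e : R ≃ R := ⟨inv, inv, hB.inv2, hB.inv2⟩
  rw [← e.sum_comp]
  refine Finset.sum_congr rfl fun x _ => ?_
  change star ((g : Matrix R R ℂ) (inv x) (inv x)) = _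
  rw [g_star hB hg, jj_sq hB, one_mul]
  rfl

/-- The eigenvalues come in conjugate pairs. -/
lemma exists_conj (hB : Bas cls inv jj) {g : Matrix.unitaryGroup R ℂ}
    (hg : g ∈ stabG (forms cls inv jj)) {P P' : Matrix R R ℂ} {μ : R → ℂ}
    (h1 : P' * P = 1) (h2 : P * P' = 1) (hgP : (g : Matrix R R ℂ) = P * Matrix.diagonal μ * P')
    (hμ : ∀ x, ‖μ x‖ = 1) (x : R) : ∃ y, y ≠ x ∧ μ y = star (μ x) := by
  have h3 := form_of_mem hg
  have h4 : (g : Matrix R R ℂ)ᵀ * Jm inv jj * (g : Matrix R R ℂ) = Jm inv jj := by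
    have hd : IsUnit (g : Matrix R R ℂ).det := by
      rw [← Matrix.isUnit_iff_isUnit_det]
      exact ⟨⟨_, _, Matrix.mem_unitaryGroup_iff.1 g.2, Matrix.mem_unitaryGroup_iff'.1 g.2⟩, rfl⟩
    have hd' : IsUnit ((g : Matrix R R ℂ)ᵀ).det := by rwa [Matrix.det_transpose]
    have h5 := congrArg (fun M => M⁻¹) h3
    simp only [Matrix.mul_inv_rev, Jm_inv hB] at h5
    have h6 : (g : Matrix R R ℂ)ᵀ * -Jm inv jj * (g : Matrix R R ℂ) = -Jm inv jj := by
      conv_lhs => rw [← h5]
      rw [← mul_assoc, ← mul_assoc, Matrix.mul_nonsing_inv _ hd', one_mul, mul_assoc,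
        Matrix.nonsing_inv_mul _ hd, mul_one]
    rw [mul_neg, neg_mul, neg_inj] at h6
    exact h6
  set M := Pᵀ * Jm inv jj * P with hM
  have hMe : M = Matrix.diagonal μ * M * Matrix.diagonal μ := by
    have h5 : (g : Matrix R R ℂ) * P = P * Matrix.diagonal μ := by
      rw [hgP, mul_assoc, h1, mul_one]
    have h6 : Pᵀ * (g : Matrix R R ℂ)ᵀ = Matrix.diagonal μ * Pᵀ := by
      rw [← Matrix.transpose_mul, h5, Matrix.transpose_mul, Matrix.diagonal_transpose]
    calc M = Pᵀ * ((g : Matrix R R ℂ)ᵀ * Jm inv jj * (g : Matrix R R ℂ)) * P := by rw [h4]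
      _ = (Pᵀ * (g : Matrix R R ℂ)ᵀ) * Jm inv jj * ((g : Matrix R R ℂ) * P) := by
        simp only [mul_assoc]
      _ = _ := by
        rw [h5, h6, hM]
        simp only [mul_assoc]
  have hMx : M x x = 0 := by
    have h5 : Mᵀ = -M := by
      rw [hM, Matrix.transpose_mul, Matrix.transpose_mul, Matrix.transpose_transpose]
      have h6 : (Jm inv jj)ᵀ = -Jm inv jj := by
        ext u v
        rw [Matrix.transpose_apply, Matrix.neg_apply]
        change (if u = inv v then jj v else 0) = -(if v = inv u then jj u else 0)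
        by_cases h : u = inv v
        · rw [if_pos h, if_pos (by rw [h, hB.inv2]), h, hB.neg, neg_neg]
        · rw [if_neg h, if_neg (fun h' => h (by rw [h', hB.inv2])), neg_zero]
      rw [h6, neg_mul, mul_neg, mul_assoc]
    have h6 := congrFun (congrFun h5 x) x
    rw [Matrix.transpose_apply, Matrix.neg_apply] at h6
    have h7 : (2 : ℂ) * M x x = 0 := by linear_combination h6
    exact (mul_eq_zero.1 h7).resolve_left two_ne_zero
  obtain ⟨y, hy⟩ : ∃ y, M x y ≠ 0 := by
    by_contra hcon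
    push Not at hcon
    have h5 : M * (P' * -Jm inv jj * P'ᵀ) = 1 := by
      calc M * (P' * -Jm inv jj * P'ᵀ) = Pᵀ * (Jm inv jj * ((P * P') * -Jm inv jj)) * P'ᵀ := by
            rw [hM]
            simp only [mul_assoc]
        _ = 1 := by
            rw [h2, one_mul, mul_neg, Jm_sq hB, neg_neg, mul_one, ← Matrix.transpose_mul, h1,
              Matrix.transpose_one]
    have h6 := congrFun (congrFun h5 x) x
    rw [Matrix.mul_apply, Matrix.one_apply_eq, Finset.sum_eq_zero fun z _ => by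
      rw [hcon z, zero_mul]] at h6
    exact zero_ne_one h6
  refine ⟨y, ?_, ?_⟩
  · rintro rfl
    exact hy hMx
  · have h5 := congrFun (congrFun hMe x) y
    rw [Matrix.mul_diagonal, Matrix.diagonal_mul] at h5
    have h6 : μ x * μ y = 1 := mul_right_cancel₀ hy (by linear_combination -h5)
    have h7 : star (μ x) * μ x = 1 := by
      have := Complex.mul_conj (μ x)
      rw [Complex.normSq_eq_norm_sq, hμ] at this
      rw [mul_comm]
      simpa using this
    calc μ y = (star (μ x) * μ x) * μ y := by rw [h7, one_mul]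
      _ = star (μ x) * (μ x * μ y) := by ring
      _ = _ := by rw [h6, mul_one]

/-- The gap of the real part of the trace. -/
lemma gap (hB : Bas cls inv jj) {N : ℕ} (hN : 2 ≤ N) (hL : LieDet B N)
    (g : Matrix.unitaryGroup R ℂ) (hgf : g ∈ stabG (forms cls inv jj))
    (hfix : ∀ n ≤ N, ∀ F ∈ B (Fin n), kr (Fin n) (g : Matrix R R ℂ) *ᵥ F = F)
    (hg : g ∉ stabG (tens B)) :
    ((g : Matrix R R ℂ).trace).re ≤ Fintype.card R - 2 * (1 - Real.cos (2 * Real.pi / N)) := by
  obtain ⟨P, P', μ, h1, h2, hgP, hμ⟩ := exists_diag g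
  have h3 : ∃ x, 2 * Real.pi / N ≤ |(μ x).arg| := by
    by_contra hcon
    push Not at hcon
    exact hg fun s hs => near_one (by omega) hL h1 h2 hgP hμ hcon hfix s.1 s.2 hs
  obtain ⟨x, hx⟩ := h3
  obtain ⟨x', hx', hxx'⟩ := exists_conj hB hgf h1 h2 hgP hμ x
  have h4 : (g : Matrix R R ℂ).trace = ∑ x, μ x := by
    rw [hgP, Matrix.trace_mul_comm, ← mul_assoc, h1, one_mul, Matrix.trace_diagonal]
  rw [h4, Complex.re_sum, ← Finset.add_sum_erase _ _ (Finset.mem_univ x),
    ← Finset.add_sum_erase _ _ (Finset.mem_erase.2 ⟨hx', Finset.mem_univ x'⟩)]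
  have h5 : ∀ y, (μ y).re ≤ 1 := fun y => (Complex.re_le_norm _).trans (hμ y).le
  have h6 : ∑ y ∈ (Finset.univ.erase x).erase x', (μ y).re ≤ Fintype.card R - 2 := by
    refine (Finset.sum_le_sum fun y _ => h5 y).trans ?_
    have hc : 2 ≤ Fintype.card R := by
      have : ({x, x'} : Finset R).card = 2 := Finset.card_pair (Ne.symm hx')
      rw [← this]
      exact Finset.card_le_univ _
    rw [Finset.sum_const, Finset.card_erase_of_mem (Finset.mem_erase.2 ⟨hx', Finset.mem_univ x'⟩),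
      Finset.card_erase_of_mem (Finset.mem_univ x), Finset.card_univ, nsmul_eq_mul, mul_one,
      Nat.sub_sub, Nat.cast_sub hc]
    norm_num
  have h7 : (μ x).re ≤ Real.cos (2 * Real.pi / N) := by
    have h8 : (μ x).re = Real.cos (μ x).arg := by
      have h9 : μ x ≠ 0 := by
        intro h
        have := hμ x
        rw [h, norm_zero] at this
        exact zero_ne_one this
      rw [Complex.cos_arg h9, hμ, div_one]
    rw [h8, ← Real.cos_abs (μ x).arg]
    refine Real.cos_le_cos_of_nonneg_of_le_pi ?_ (Complex.abs_arg_le_pi _) hx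
    positivity
  have h8 : (μ x').re = (μ x).re := by
    rw [hxx']
    rfl
  linarith

end

end Pool.Agent.X259.T
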