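import Pool.Agent.X259.T.T12

/-!
# The effective theorem
-/

set_option autoImplicit false
set_option linter.unusedSectionVars false
set_option linter.unusedDecidableInType false
set_option linter.unusedFintypeInType false

namespace Pool.Agent.X259.T

open Matrix Finset MeasureTheory Pool.Agent.H204R3.SP

noncomputable section

variable {R : Type} [Fintype R] [DecidableEq R] {Q : Type} [DecidableEq Q]
  {cls : R → Q} {inv : R → R} {jj : R → ℂ} {B C : ∀ κ : Type, Submodule ℂ ((κ → R) → ℂ)}

/-- One step down. -/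
lemma down (hB : Bas cls inv jj) [Nonempty R] (hC : Fam cls inv jj C) (hBf : Fam cls inv jj B)
    {n : ℕ} (h : ∀ F ∈ B (Fin (n + 2)), F ∈ C (Fin (n + 2))) (F : (Fin n → R) → ℂ)
    (hF : F ∈ B (Fin n)) : F ∈ C (Fin n) := by
  obtain ⟨x₀⟩ := (inferInstance : Nonempty R)
  let c := cls x₀
  have h1 : tp F (fm cls inv jj c) ∈ C (Fin n ⊕ Fin 2) := by
    have h2 := h _ (hBf.ri (finSumFinEquiv : Fin n ⊕ Fin 2 ≃ Fin (n + 2)) (hBf.tp hF (hBf.fm c)))
    have h3 := hC.ri (finSumFinEquiv : Fin n ⊕ Fin 2 ≃ Fin (n + 2)).symm h2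
    convert h3 using 1
    funext I
    change tp F (fm cls inv jj c) I = tp F (fm cls inv jj c)
      (fun k => I (finSumFinEquiv.symm (finSumFinEquiv k)))
    simp only [Equiv.symm_apply_apply]
  have h2 := hC.ct h1
  have h3 : ct inv jj (tp F (fm cls inv jj c)) =
      (-((Finset.univ.filter fun x => cls (inv x) = c).card : ℂ)) • F := by
    funext I
    rw [ct, Pi.smul_apply, smul_eq_mul]
    have h4 : ∀ x, (jj x)⁻¹ * tp F (fm cls inv jj c) (Sum.elim I ![inv x, x]) =
        if cls (inv x) = c then -F I else 0 := by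
      intro x
      rw [tp_apply, fm]
      change _ * (_ * (if cls (inv x) = c then JJ inv jj (inv x) x else 0)) = _
      split_ifs
      · rw [JJ, if_pos (hB.inv2 x).symm, hB.neg]
        have : jj x ≠ 0 := by
          rcases hB.sq x with h | h <;> rw [h] <;> norm_num
        field_simp
      · rw [mul_zero, mul_zero]
    rw [Finset.sum_congr rfl fun x _ => h4 x, ← Finset.sum_filter, Finset.sum_const,
      nsmul_eq_mul]
    ring
  rw [h3] at h2
  have h5 : (-((Finset.univ.filter fun x => cls (inv x) = c).card : ℂ)) ≠ 0 := by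
    rw [neg_ne_zero, Nat.cast_ne_zero, Finset.card_ne_zero]
    exact ⟨inv x₀, Finset.mem_filter.2 ⟨Finset.mem_univ _, by rw [hB.inv2]⟩⟩
  have h6 := (C (Fin n)).smul_mem (-((Finset.univ.filter fun x => cls (inv x) = c).card : ℂ))⁻¹ h2
  rwa [smul_smul, inv_mul_cancel₀ h5, one_smul] at h6

lemma down_all (hB : Bas cls inv jj) [Nonempty R] (hC : Fam cls inv jj C) (hBf : Fam cls inv jj B)
    {m : ℕ} (h : ∀ F ∈ B (Fin (2 * m)), F ∈ C (Fin (2 * m))) :
    ∀ j ≤ m, ∀ F ∈ B (Fin (2 * j)), F ∈ C (Fin (2 * j)) := by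
  intro j hj
  obtain ⟨l, rfl⟩ := Nat.exists_eq_add_of_le hj
  clear hj
  induction l with
  | zero => exact h
  | succ l ih =>
    refine ih fun F hF => ?_
    exact down hB hC hBf (n := 2 * (j + l)) (fun F hF => h F hF) F hF

/-- **The effective theorem.** -/
theorem effective (hB : Bas cls inv jj) (hC : Fam cls inv jj C) (hBf : Fam cls inv jj B)
    (hle : ∀ κ : Type, C κ ≤ B κ) (hodd : ∀ n, Odd n → ∀ F ∈ B (Fin n), F = 0) {N : ℕ}
    (hN : 2 ≤ N) (hL : LieDet B N) {m : ℕ} (hNm : N ≤ 2 * m)
    (heq : ∀ F ∈ B (Fin (2 * m)), F ∈ C (Fin (2 * m)))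
    (hnum : ((m : ℝ) + 1) ^ (Fintype.card R * Fintype.card R) *
      (Fintype.card R - 2 * (1 - Real.cos (2 * Real.pi / N))) ^ (2 * m) <
        (Fintype.card R : ℝ) ^ (2 * m)) (κ : Type) [Fintype κ] [DecidableEq κ] : B κ ≤ C κ := by
  have hne : Nonempty R := by
    by_contra hcon
    rw [not_nonempty_iff] at hcon
    have h0 : (Fintype.card R : ℝ) = 0 := by
      rw [Fintype.card_eq_zero, Nat.cast_zero]
    have h1 : (Fintype.card R : ℝ) ^ (2 * m) = 0 := by
      rw [h0, zero_pow (by omega)]
    rw [h1] at hnum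
    have h2 : 0 ≤ ((m : ℝ) + 1) ^ (Fintype.card R * Fintype.card R) *
      (Fintype.card R - 2 * (1 - Real.cos (2 * Real.pi / N))) ^ (2 * m) := by
      rw [pow_mul _ 2 m]
      positivity
    linarith
  have hlow : ∀ n ≤ N, ∀ F ∈ B (Fin n), F ∈ C (Fin n) := by
    intro n hn F hF
    rcases Nat.even_or_odd n with he | ho
    · obtain ⟨j, hj⟩ := he
      have hj' : n = 2 * j := by omega
      subst hj'
      exact down_all hB hC hBf heq j (by omega) F hF
    · rw [hodd n ho F hF]
      exact Submodule.zero_mem _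
  have hsub : stabG (tens B) ≤ stabG (tens C) := fun g hg s hs => hg s (hle _ hs)
  -- the groups agree
  have hgrp : stabG (tens C) ≤ stabG (tens B) := by
    intro q hq
    by_contra hqB
    set c : ℝ := Fintype.card R - 2 * (1 - Real.cos (2 * Real.pi / N)) with hc
    -- the bound for the trace
    have hfixC : ∀ g ∈ stabG (tens C), ∀ n ≤ N, ∀ F ∈ B (Fin n),
        kr (Fin n) (g : Matrix R R ℂ) *ᵥ F = F := fun g hg n hn F hF =>
      hg ⟨n, F⟩ (hlow n hn F hF)
    have hm1 : (-1 : Matrix.unitaryGroup R ℂ) ∈ stabG (tens B) := by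
      intro s hs
      have h5 : ((-1 : Matrix.unitaryGroup R ℂ) : Matrix R R ℂ) = Matrix.diagonal fun _ => -1 := by
        change (-1 : Matrix R R ℂ) = _
        ext i j
        by_cases hij : i = j
        · subst hij
          simp
        · simp [Matrix.one_apply_ne hij, Matrix.diagonal_apply_ne _ hij]
      rcases Nat.even_or_odd s.1 with he | ho
      · funext I
        rw [h5, kr_diagonal_mulVec, Finset.prod_const, Finset.card_univ, Fintype.card_fin,
          he.neg_one_pow, one_mul]
      · rw [hodd s.1 ho s.2 hs, Matrix.mulVec_zero]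
    have hup : ∀ g ∈ stabG (tens C), g ∉ stabG (tens B) → ((g : Matrix R R ℂ).trace).re ≤ c :=
      fun g hg hgB => gap hB hN hL g (stab_le hC hg) (hfixC g hg) hgB
    have habs : ∀ g ∈ stabG (tens C), g ∉ stabG (tens B) → ‖(g : Matrix R R ℂ).trace‖ ≤ c := by
      intro g hg hgB
      have h1 := hup g hg hgB
      have h2 := hup (-1 * g) ((stabG (tens C)).mul_mem (hsub hm1) hg) (fun h3 => hgB (by
        have h4 := (stabG (tens B)).mul_mem ((stabG (tens B)).inv_mem hm1) h3
        rwa [inv_mul_cancel_left] at h4))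
      have h3 : ((-1 * g : Matrix.unitaryGroup R ℂ) : Matrix R R ℂ).trace =
          -(g : Matrix R R ℂ).trace := by
        change ((-1 : Matrix R R ℂ) * (g : Matrix R R ℂ)).trace = _
        rw [neg_mul, one_mul, Matrix.trace_neg]
      rw [h3, Complex.neg_re] at h2
      rw [← trace_real hB (stab_le hC hg), Complex.norm_real, Real.norm_eq_abs, abs_le]
      constructor <;> linarith
    -- the averages
    let _ : MeasurableSpace (stabG (tens B)) := borel _
    have _ : BorelSpace (stabG (tens B)) := ⟨rfl⟩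
    let r := inc (stabG (tens B))
    have hr : Continuous r := inc_cont _
    have hqav : kr (Fin (2 * m)) (q : Matrix R R ℂ) * av (Fin (2 * m)) r = av (Fin (2 * m)) r := by
      ext I J
      have h1 : (fun L => av (Fin (2 * m)) r L J) ∈ B (Fin (2 * m)) := by
        refine tannaka hB hBf _ fun g hg => ?_
        funext I
        have h2 := congrFun (congrFun (av_inv (κ := Fin (2 * m)) hr ⟨g, hg⟩) I) J
        rw [Matrix.mul_apply] at h2
        exact h2
      have h2 := congrFun (hq ⟨2 * m, _⟩ (heq _ h1)) I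
      rw [Matrix.mul_apply]
      exact h2
    have htr : (∫ g, ((q : Matrix R R ℂ) * r g).trace ^ (2 * m) ∂(hm (stabG (tens B)))) =
        (av (Fin (2 * m)) r).trace := by
      conv_rhs => rw [← hqav]
      rw [Matrix.trace]
      simp only [Matrix.diag_apply, Matrix.mul_apply]
      have h1 : ∀ g, ((q : Matrix R R ℂ) * r g).trace ^ (2 * m) =
          ∑ I, ∑ L, kr (Fin (2 * m)) (q : Matrix R R ℂ) I L * kr (Fin (2 * m)) (r g) L I := by
        intro g
        have h2 := kr_trace (κ := Fin (2 * m)) ((q : Matrix R R ℂ) * r g)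
        rw [Fintype.card_fin] at h2
        rw [← h2, kr_mul, Matrix.trace]
        simp only [Matrix.diag_apply, Matrix.mul_apply]
      simp only [h1]
      rw [integral_finsetSum]
      · refine Finset.sum_congr rfl fun I _ => ?_
        rw [integral_finsetSum]
        · exact Finset.sum_congr rfl fun L _ => integral_const_mul _ _
        · exact fun L _ => (integrable_of_continuous (kr_cont hr L I)).const_mul _
      · exact fun I _ => integrable_of_continuous (continuous_finsetSum _ fun L _ =>
          continuous_const.mul (kr_cont hr L I))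
    have hb : ‖(av (Fin (2 * m)) r).trace‖ ≤ c ^ (2 * m) := by
      rw [← htr]
      have h1 : ∀ g : stabG (tens B), ‖((q : Matrix R R ℂ) * r g).trace ^ (2 * m)‖ ≤
          c ^ (2 * m) := by
        intro g
        rw [norm_pow]
        refine pow_le_pow_left₀ (norm_nonneg _) ?_ _
        refine habs (q * g) ((stabG (tens C)).mul_mem hq (hsub g.2)) fun h3 => hqB ?_
        have h4 := (stabG (tens B)).mul_mem h3 ((stabG (tens B)).inv_mem g.2)
        rwa [mul_inv_cancel_right] at h4
      have h2 := norm_integral_le_of_norm_le_const (μ := hm (stabG (tens B)))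
        (Filter.Eventually.of_forall h1)
      rw [probReal_univ, mul_one] at h2
      exact h2
    have hmom := moment r hr m
    have hreal : ((∫ g, ‖(r g).trace‖ ^ (2 * m) ∂(hm (stabG (tens B))) : ℝ) : ℂ) =
        (av (Fin (2 * m)) r).trace := by
      have h1 := av_trace (κ := Fin (2 * m)) hr 1
      simp only [one_mul, Fintype.card_fin] at h1
      rw [← h1, ← integral_complex_ofReal]
      refine integral_congr_ae (Filter.Eventually.of_forall fun g => ?_)
      simp only
      have h2 := trace_real hB (stab_le hBf g.2)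
      change (((‖(r g).trace‖ ^ (2 * m) : ℝ)) : ℂ) = (r g).trace ^ (2 * m)
      have h3 : (r g).trace = ((((r g).trace).re : ℝ) : ℂ) := h2.symm
      rw [h3, Complex.norm_real, Real.norm_eq_abs, pow_mul, sq_abs, ← pow_mul]
      push_cast
      rfl
    have hI : (∫ g, ‖(r g).trace‖ ^ (2 * m) ∂(hm (stabG (tens B)))) ≤ c ^ (2 * m) := by
      refine le_trans ?_ hb
      rw [← hreal, Complex.norm_real]
      exact le_abs_self _
    have hfin := hmom.trans (mul_le_mul_of_nonneg_left hI (by positivity))
    exact absurd hnum (not_lt.2 hfin)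
  intro F hF
  refine tannaka hB hC F fun g hg => ?_
  exact (mem_stab hBf).1 (hgrp hg) κ F hF

end

end Pool.Agent.X259.T
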