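import Pool.Agent.X259.T.T13
import Pool.Agent.W516.MT.Casimir2

/-!
# The Lie algebra of a family is determined in degree four
-/

set_option autoImplicit false
set_option linter.unusedSectionVars false
set_option linter.unusedDecidableInType false
set_option linter.unusedFintypeInType false

namespace Pool.Agent.X259.T

open Matrix Finset Module Pool.Agent.H204R3.SP Pool.Agent.W516

noncomputable section

variable {R : Type} [Fintype R] [DecidableEq R] {Q : Type} [DecidableEq Q]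
  {cls : R → Q} {inv : R → R} {jj : R → ℂ} {B : ∀ κ : Type, Submodule ℂ ((κ → R) → ℂ)}
  {κ : Type} [Fintype κ] [DecidableEq κ]

/-- The Lie algebra of a family. -/
def LL (B : ∀ κ : Type, Submodule ℂ ((κ → R) → ℂ)) : Submodule ℂ (Matrix R R ℂ) where
  carrier := {A | ∀ n, ∀ F ∈ B (Fin n), dk (Fin n) A *ᵥ F = 0}
  zero_mem' := fun n F _ => by
    funext I
    rw [dk_mulVec]
    simp
  add_mem' := fun {a b} ha hb n F hF => by
    have h1 := dk_smul_add (κ := Fin n) a b 1 F
    rw [one_smul, ha n F hF, hb n F hF, smul_zero, add_zero] at h1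
    exact h1
  smul_mem' := fun c a ha n F hF => by
    have h1 := dk_smul_add (κ := Fin n) 0 a c F
    rw [zero_add, ha n F hF, smul_zero, add_zero] at h1
    rw [h1]
    funext I
    rw [dk_mulVec]
    simp

lemma mem_LL {A : Matrix R R ℂ} : A ∈ LL B ↔ ∀ n, ∀ F ∈ B (Fin n), dk (Fin n) A *ᵥ F = 0 :=
  Iff.rfl

lemma dk_ri {κ μ : Type} [Fintype κ] [DecidableEq κ] [Fintype μ] [DecidableEq μ]
    (A : Matrix R R ℂ) (e : κ ≃ μ) (F : (κ → R) → ℂ) :
    dk μ A *ᵥ ri e F = ri e (dk κ A *ᵥ F) := by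
  funext I
  rw [dk_mulVec]
  change _ = (dk κ A *ᵥ F) _
  rw [dk_mulVec, ← e.sum_comp]
  refine Finset.sum_congr rfl fun k _ => Finset.sum_congr rfl fun y _ => ?_
  change _ * F (fun l => Function.update I (e k) y (e l)) = _
  congr 2
  funext l
  by_cases hl : l = k
  · subst hl
    rw [Function.update_self, Function.update_self]
  · rw [Function.update_of_ne hl, Function.update_of_ne fun h => hl (e.injective h)]

lemma LL_gen (hBf : Fam cls inv jj B) {A : Matrix R R ℂ} (hA : A ∈ LL B) {F : (κ → R) → ℂ}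
    (hF : F ∈ B κ) : dk κ A *ᵥ F = 0 := by
  let e : κ ≃ Fin (Fintype.card κ) := Fintype.equivFin κ
  have h1 := hA _ (ri e F) (hBf.ri e hF)
  rw [dk_ri] at h1
  funext I
  have h2 := congrFun h1 (fun k => I (e.symm k))
  simp only [ri, Equiv.symm_apply_apply, Pi.zero_apply] at h2
  exact h2

/-- The bilinear form. -/
def om (inv : R → R) (jj : R → ℂ) : (R → ℂ) →ₗ[ℂ] (R → ℂ) →ₗ[ℂ] ℂ :=
  LinearMap.mk₂ ℂ (fun u v => u ⬝ᵥ (Jm inv jj *ᵥ v)) (fun _ _ _ => add_dotProduct _ _ _)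
    (fun _ _ _ => smul_dotProduct _ _ _)
    (fun _ _ _ => by rw [Matrix.mulVec_add, dotProduct_add])
    (fun _ _ _ => by rw [Matrix.mulVec_smul, dotProduct_smul])

lemma om_apply (u v : R → ℂ) : om inv jj u v = u ⬝ᵥ (Jm inv jj *ᵥ v) := rfl

lemma om_mul (M N : Matrix R R ℂ) (u v : R → ℂ) :
    om inv jj (Mᵀ *ᵥ u) (Nᵀ *ᵥ v) = u ⬝ᵥ ((M * Jm inv jj * Nᵀ) *ᵥ v) := by
  rw [om_apply, Matrix.mulVec_transpose, ← Matrix.dotProduct_mulVec, Matrix.mulVec_mulVec,
    Matrix.mulVec_mulVec]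

lemma om_nondeg (hB : Bas cls inv jj) (u : R → ℂ) (hu : ∀ v, om inv jj u v = 0) : u = 0 := by
  have h1 : ∀ v, u ⬝ᵥ v = 0 := by
    intro v
    have h2 := hu (-Jm inv jj *ᵥ v)
    rw [om_apply, Matrix.mulVec_mulVec, mul_neg, Jm_sq hB, neg_neg, Matrix.one_mulVec] at h2
    exact h2
  exact dotProduct_eq_zero_iff.1 h1

lemma skew_iff {A : Matrix R R ℂ} (hA : A * Jm inv jj = -(Jm inv jj * Aᵀ)) :
    KC.IsSkew (om inv jj) (Matrix.toLin' Aᵀ) := by
  intro u v
  rw [Matrix.toLin'_apply, Matrix.toLin'_apply]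
  have h1 := om_mul (inv := inv) (jj := jj) A 1 u v
  have h2 := om_mul (inv := inv) (jj := jj) 1 A u v
  rw [Matrix.transpose_one, Matrix.one_mulVec, mul_one] at h1
  rw [Matrix.transpose_one, Matrix.one_mulVec, one_mul] at h2
  rw [h1, h2, ← dotProduct_add, ← Matrix.add_mulVec, hA, neg_add_cancel,
    Matrix.zero_mulVec, dotProduct_zero]

/-- The coefficients of a multilinear form. -/
def co (φ : MultilinearMap ℂ (fun _ : κ => R → ℂ) ℂ) : (κ → R) → ℂ :=
  fun I => φ fun k => Pi.single (I k) 1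

lemma transpose_single (A : Matrix R R ℂ) (x : R) :
    Aᵀ *ᵥ (Pi.single x 1 : R → ℂ) = ∑ y, A x y • (Pi.single y 1 : R → ℂ) := by
  funext z
  rw [Matrix.mulVec_single_one, Finset.sum_apply, Finset.sum_eq_single z]
  · simp
  · intro y _ hy
    rw [Pi.smul_apply, Pi.single_eq_of_ne (Ne.symm hy), smul_zero]
  · intro h
    exact absurd (Finset.mem_univ _) h

lemma co_mul (φ : MultilinearMap ℂ (fun _ : κ => R → ℂ) ℂ) (g : κ → Matrix R R ℂ) (I : κ → R) :
    φ (fun k => (g k)ᵀ *ᵥ (Pi.single (I k) 1 : R → ℂ)) = (krf g *ᵥ co φ) I := by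
  simp only [transpose_single]
  rw [MultilinearMap.map_sum]
  change _ = ∑ J, krf g I J * co φ J
  refine Finset.sum_congr rfl fun J _ => ?_
  rw [MultilinearMap.map_smul_univ]
  rfl

lemma kills_of_co (φ : MultilinearMap ℂ (fun _ : κ => R → ℂ) ℂ) (A : Matrix R R ℂ)
    (h : dk κ A *ᵥ co φ = 0) : Kills (Matrix.toLin' Aᵀ) φ := by
  let Ψ : MultilinearMap ℂ (fun _ : κ => R → ℂ) ℂ := ∑ k, φ.compLinearMap
    (Function.update (fun _ : κ => (LinearMap.id : (R → ℂ) →ₗ[ℂ] (R → ℂ))) k (Matrix.toLin' Aᵀ))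
  have hΨ : ∀ v, Ψ v = ∑ k, φ (Function.update v k (Matrix.toLin' Aᵀ (v k))) := by
    intro v
    rw [_root_.sum_apply]
    refine Finset.sum_congr rfl fun k _ => ?_
    rw [MultilinearMap.compLinearMap_apply]
    congr 1
    funext l
    by_cases hl : l = k
    · subst hl
      rw [Function.update_self, Function.update_self]
    · rw [Function.update_of_ne hl, Function.update_of_ne hl]
      rfl
  have h0 : Ψ = 0 := by
    refine Basis.ext_multilinear (fun _ => Pi.basisFun ℂ R) fun I => ?_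
    simp only [Pi.basisFun_apply]
    rw [_root_.sum_apply, _root_.zero_apply]
    have h1 := congrFun h I
    rw [dk, Matrix.sum_mulVec, Finset.sum_apply, Pi.zero_apply] at h1
    rw [← h1]
    refine Finset.sum_congr rfl fun k _ => ?_
    rw [← co_mul, MultilinearMap.compLinearMap_apply]
    congr 1
    funext l
    by_cases hl : l = k
    · subst hl
      rw [Function.update_self, Function.update_self]
      rfl
    · rw [Function.update_of_ne hl, Function.update_of_ne hl, Matrix.transpose_one,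
        Matrix.one_mulVec]
      rfl
  intro v
  rw [← hΨ, h0]
  rfl

/-- The Lie algebra as a space of endomorphisms. -/
def HH (B : ∀ κ : Type, Submodule ℂ ((κ → R) → ℂ)) : Submodule ℂ (Module.End ℂ (R → ℂ)) :=
  (LL B).map ((Matrix.toLin' : Matrix R R ℂ ≃ₗ[ℂ] _).toLinearMap ∘ₗ
    (Matrix.transposeLinearEquiv R R ℂ ℂ).toLinearMap)

lemma mem_HH {A : Matrix R R ℂ} : Matrix.toLin' Aᵀ ∈ HH B ↔ A ∈ LL B := by
  constructor
  · rintro ⟨A', hA', h⟩
    have h1 : Matrix.toLin' A'ᵀ = Matrix.toLin' Aᵀ := h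
    have h2 := Matrix.transpose_injective (Matrix.toLin'.injective h1)
    rwa [← h2]
  · intro h
    exact ⟨A, h, rfl⟩

lemma exists_of_HH {f : Module.End ℂ (R → ℂ)} (hf : f ∈ HH B) :
    ∃ A ∈ LL B, f = Matrix.toLin' Aᵀ := by
  obtain ⟨A, hA, h⟩ := hf
  exact ⟨A, hA, h.symm⟩

end

end Pool.Agent.X259.T
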