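import Pool.Agent.X259.T.T14

/-!
# The Lie algebra is determined in degree four, part two
-/

set_option autoImplicit false
set_option linter.unusedSectionVars false
set_option linter.unusedDecidableInType false
set_option linter.unusedFintypeInType false

namespace Pool.Agent.X259.T

open Matrix Finset Module Pool.Agent.H204R3.SP Pool.Agent.W516

noncomputable section

variable {R : Type} [Fintype R] [DecidableEq R] {Q : Type} [DecidableEq Q]
  {cls : R → Q} {inv : R → R} {jj : R → ℂ} {B : ∀ κ : Type, Submodule ℂ ((κ → R) → ℂ)}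
  {κ : Type} [Fintype κ] [DecidableEq κ]

/-- A matrix as a tensor with two places. -/
def mt (M : Matrix R R ℂ) : (Fin 2 → R) → ℂ := fun J => M (J 0) (J 1)

lemma dk_two (A M : Matrix R R ℂ) (I : Fin 2 → R) :
    (dk (Fin 2) A *ᵥ mt M) I = (A * M + M * Aᵀ) (I 0) (I 1) := by
  rw [dk_mulVec, Fin.sum_univ_two, Matrix.add_apply, Matrix.mul_apply, Matrix.mul_apply]
  congr 1
  refine Finset.sum_congr rfl fun y _ => ?_
  rw [Matrix.transpose_apply, mul_comm]
  rfl

lemma dk_two_zero {A M : Matrix R R ℂ} :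
    dk (Fin 2) A *ᵥ mt M = 0 ↔ A * M = -(M * Aᵀ) := by
  rw [eq_neg_iff_add_eq_zero]
  constructor
  · intro h
    ext x y
    have := congrFun h ![x, y]
    rw [dk_two] at this
    exact this
  · intro h
    funext I
    rw [dk_two, h]
    rfl

lemma Jm_eq_sum (cls : R → Q) : Jm inv jj = ∑ c ∈ Finset.univ.image cls, Pm cls c * Jm inv jj := by
  rw [← Finset.sum_mul]
  have h3 : ∑ c ∈ Finset.univ.image cls, Pm cls c = (1 : Matrix R R ℂ) := by
    ext x y
    rw [Matrix.sum_apply]
    by_cases h : x = y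
    · subst h
      rw [Matrix.one_apply_eq, Finset.sum_eq_single (cls x)]
      · rw [Pm, Matrix.diagonal_apply_eq, if_pos rfl]
      · intro c _ hc
        rw [Pm, Matrix.diagonal_apply_eq, if_neg (Ne.symm hc)]
      · intro hx
        exact absurd (Finset.mem_image_of_mem _ (Finset.mem_univ x)) hx
    · rw [Matrix.one_apply_ne h]
      exact Finset.sum_eq_zero fun c _ => Matrix.diagonal_apply_ne _ h
  rw [h3, one_mul]

lemma skew_of_two (hBf : Fam cls inv jj B) {A : Matrix R R ℂ}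
    (hA : ∀ F ∈ B (Fin 2), dk (Fin 2) A *ᵥ F = 0) : A * Jm inv jj = -(Jm inv jj * Aᵀ) := by
  rw [← dk_two_zero]
  have h1 : mt (Jm inv jj) ∈ B (Fin 2) := by
    have h2 : mt (Jm inv jj) = ∑ c ∈ Finset.univ.image cls, fm cls inv jj c := by
      funext I
      rw [Finset.sum_apply]
      conv_lhs => rw [Jm_eq_sum cls (inv := inv) (jj := jj)]
      change (∑ c ∈ Finset.univ.image cls, Pm cls c * Jm inv jj) (I 0) (I 1) = _
      rw [Matrix.sum_apply]
      exact Finset.sum_congr rfl fun c _ => by rw [fm_eq]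
    rw [h2]
    exact Submodule.sum_mem _ fun c _ => hBf.fm c
  exact hA _ h1

lemma LL_skew (hBf : Fam cls inv jj B) {A : Matrix R R ℂ} (hA : A ∈ LL B) :
    A * Jm inv jj = -(Jm inv jj * Aᵀ) := skew_of_two hBf (hA 2)

lemma skew_apply (hB : Bas cls inv jj) {A : Matrix R R ℂ} (hA : A * Jm inv jj = -(Jm inv jj * Aᵀ))
    (x y : R) : A (inv x) (inv y) = -(jj x * jj y * A y x) := by
  have h1 := congrFun (congrFun hA (inv x)) y
  rw [Matrix.neg_apply, Matrix.mul_apply, Matrix.mul_apply, Finset.sum_eq_single (inv y),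
    Finset.sum_eq_single x] at h1
  · change _ * (if y = inv (inv y) then jj (inv y) else 0) =
      -((if x = inv (inv x) then jj (inv x) else 0) * _) at h1
    rw [if_pos (hB.inv2 x).symm, if_pos (hB.inv2 y).symm, hB.neg, hB.neg,
      Matrix.transpose_apply] at h1
    have e1 := jj_sq hB y
    linear_combination (-(jj y)) * h1 - (A (inv x) (inv y)) * e1
  · intro z _ hz
    change (if z = inv (inv x) then jj (inv x) else 0) * _ = 0
    rw [if_neg (fun h => hz (by rw [h, hB.inv2])), zero_mul]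
  · intro h
    exact absurd (Finset.mem_univ _) h
  · intro z _ hz
    change _ * (if y = inv z then jj z else 0) = 0
    rw [if_neg (fun h => hz (by rw [h, hB.inv2])), mul_zero]
  · intro h
    exact absurd (Finset.mem_univ _) h

lemma star_jj (hB : Bas cls inv jj) (x : R) : star (jj x) = jj x := by
  rcases hB.sq x with h1 | h1 <;> rw [h1] <;> simp

lemma st_dk (hB : Bas cls inv jj) {A : Matrix R R ℂ} (hA : A * Jm inv jj = -(Jm inv jj * Aᵀ))
    (F : (κ → R) → ℂ) : st inv jj (dk κ A *ᵥ F) = dk κ (-Aᴴ) *ᵥ st inv jj F := by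
  funext I
  rw [dk_mulVec]
  change (∏ k, jj (I k)) * star ((dk κ A *ᵥ F) _) = _
  rw [dk_mulVec, star_sum, Finset.mul_sum]
  refine Finset.sum_congr rfl fun k _ => ?_
  rw [star_sum, Finset.mul_sum]
  let e : R ≃ R := ⟨inv, inv, hB.inv2, hB.inv2⟩
  rw [← e.sum_comp]
  refine Finset.sum_congr rfl fun y _ => ?_
  change (∏ k, jj (I k)) * star (A (inv (I k)) (inv y) * F _) = _ * ((∏ l, jj _) * star (F _))
  rw [skew_apply hB hA, Matrix.neg_apply, Matrix.conjTranspose_apply, star_mul', star_neg,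
    star_mul', star_mul', star_jj hB, star_jj hB]
  have h1 : (fun l => inv (Function.update I k y l)) =
      Function.update (fun l => inv (I l)) k (inv y) := by
    funext l
    by_cases hl : l = k
    · subst hl
      rw [Function.update_self, Function.update_self]
    · rw [Function.update_of_ne hl, Function.update_of_ne hl]
  have h2 : (∏ l, jj (Function.update I k y l)) = jj y * (∏ l ∈ Finset.univ.erase k, jj (I l)) := by
    rw [← Finset.mul_prod_erase _ _ (Finset.mem_univ k), Function.update_self]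
    congr 1
    exact Finset.prod_congr rfl fun l hl => by
      rw [Function.update_of_ne (Finset.ne_of_mem_erase hl)]
  have h3 : (∏ l, jj (I l)) = jj (I k) * (∏ l ∈ Finset.univ.erase k, jj (I l)) := by
    rw [← Finset.mul_prod_erase _ _ (Finset.mem_univ k)]
  rw [h1, h2, h3]
  have e1 := jj_sq hB (I k)
  linear_combination (-(jj y * (∏ l ∈ Finset.univ.erase k, jj (I l)) * star (A y (I k)) *
    star (F (Function.update (fun l => inv (I l)) k (inv y))))) * e1

lemma st_st (hB : Bas cls inv jj) (F : (κ → R) → ℂ) :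
    st inv jj (st inv jj F) = fun I => (-1) ^ (Fintype.card κ) * F I := by
  funext I
  change (∏ k, jj (I k)) * star ((∏ k, jj (inv (I k))) * star (F fun k => inv (inv (I k)))) = _
  rw [star_mul', star_star, star_prod]
  simp only [star_jj hB, hB.inv2]
  rw [← mul_assoc, ← Finset.prod_mul_distrib]
  congr 1
  rw [Fintype.card, ← Finset.prod_const]
  refine Finset.prod_congr rfl fun k _ => ?_
  rw [hB.neg]
  have e1 := jj_sq hB (I k)
  linear_combination -e1

lemma dk_neg (A : Matrix R R ℂ) (F : (κ → R) → ℂ) : dk κ (-A) *ᵥ F = -(dk κ A *ᵥ F) := by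
  funext I
  rw [dk_mulVec, Pi.neg_apply, dk_mulVec, ← Finset.sum_neg_distrib]
  refine Finset.sum_congr rfl fun k _ => ?_
  rw [← Finset.sum_neg_distrib]
  refine Finset.sum_congr rfl fun y _ => ?_
  rw [Matrix.neg_apply, neg_mul]

lemma LL_star (hB : Bas cls inv jj) (hBf : Fam cls inv jj B) {A : Matrix R R ℂ} (hA : A ∈ LL B) :
    Aᴴ ∈ LL B := by
  intro n F hF
  have h1 := st_dk hB (LL_skew hBf hA) (st inv jj F)
  rw [hA n _ (hBf.st hF), st_st hB, dk_neg] at h1
  have h2 : st inv jj (0 : (Fin n → R) → ℂ) = 0 := by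
    funext I
    change (∏ k, jj (I k)) * star (0 : ℂ) = 0
    rw [star_zero, mul_zero]
  rw [h2] at h1
  have h3 : (fun I => (-1) ^ (Fintype.card (Fin n)) * F I) = ((-1 : ℂ) ^ (Fintype.card (Fin n))) • F :=
    rfl
  rw [h3, Matrix.mulVec_smul] at h1
  have h4 : ((-1 : ℂ) ^ (Fintype.card (Fin n))) ≠ 0 := pow_ne_zero _ (by norm_num)
  have h5 := neg_eq_zero.1 h1.symm
  exact (smul_eq_zero.1 h5).resolve_left h4

lemma krf_update_sub (k : κ) (X Y : Matrix R R ℂ) :
    krf (Function.update (fun _ : κ => (1 : Matrix R R ℂ)) k (X - Y)) =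
      krf (Function.update (fun _ : κ => (1 : Matrix R R ℂ)) k X) -
        krf (Function.update (fun _ : κ => (1 : Matrix R R ℂ)) k Y) := by
  ext I J
  rw [Matrix.sub_apply, krf_apply, krf_apply, krf_apply,
    ← Finset.mul_prod_erase _ _ (Finset.mem_univ k),
    ← Finset.mul_prod_erase _ _ (Finset.mem_univ k),
    ← Finset.mul_prod_erase _ _ (Finset.mem_univ k), Function.update_self, Function.update_self,
    Function.update_self, Matrix.sub_apply, sub_mul]
  have h : ∀ Z : Matrix R R ℂ, ∏ x ∈ Finset.univ.erase k,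
      Function.update (fun _ : κ => (1 : Matrix R R ℂ)) k Z x (I x) (J x) =
      ∏ x ∈ Finset.univ.erase k, (1 : Matrix R R ℂ) (I x) (J x) := fun Z =>
    Finset.prod_congr rfl fun l hl => by rw [Function.update_of_ne (Finset.ne_of_mem_erase hl)]
  rw [h, h, h]

lemma dk_bracket (X Y : Matrix R R ℂ) :
    dk κ (X * Y - Y * X) = dk κ X * dk κ Y - dk κ Y * dk κ X := by
  have h1 : ∀ X Y : Matrix R R ℂ, dk κ X * dk κ Y = ∑ k, ∑ l,
      krf (fun j => Function.update (fun _ : κ => (1 : Matrix R R ℂ)) k X j *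
        Function.update (fun _ : κ => (1 : Matrix R R ℂ)) l Y j) := by
    intro X Y
    rw [dk, dk, Finset.sum_mul_sum]
    exact Finset.sum_congr rfl fun k _ => Finset.sum_congr rfl fun l _ => krf_mul _ _
  rw [h1, h1, Finset.sum_comm, ← Finset.sum_sub_distrib]
  rw [dk]
  refine Finset.sum_congr rfl fun k _ => ?_
  rw [← Finset.sum_sub_distrib, Finset.sum_eq_single k]
  · rw [krf_update_sub]
    congr 2
    · funext j
      by_cases hj : j = k
      · subst hj
        simp only [Function.update_self]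
      · simp only [Function.update_of_ne hj, mul_one]
    · funext j
      by_cases hj : j = k
      · subst hj
        simp only [Function.update_self]
      · simp only [Function.update_of_ne hj, mul_one]
  · intro l _ hl
    rw [sub_eq_zero]
    congr 1
    funext j
    by_cases hj : j = k
    · subst hj
      rw [Function.update_self, Function.update_of_ne hl.symm, one_mul, mul_one]
    · rw [Function.update_of_ne hj, one_mul, mul_one]
  · intro h
    exact absurd (Finset.mem_univ _) h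

lemma LL_bracket {X Y : Matrix R R ℂ} (hX : X ∈ LL B) (hY : Y ∈ LL B) : X * Y - Y * X ∈ LL B := by
  intro n F hF
  rw [dk_bracket, Matrix.sub_mulVec, ← Matrix.mulVec_mulVec, ← Matrix.mulVec_mulVec, hX n F hF,
    hY n F hF, Matrix.mulVec_zero, Matrix.mulVec_zero, sub_zero]

lemma LL_conj (hBf : Fam cls inv jj B) {g : Matrix.unitaryGroup R ℂ} (hg : g ∈ stabG (tens B))
    {A : Matrix R R ℂ} (hA : A ∈ LL B) : (g : Matrix R R ℂ) * A * (g : Matrix R R ℂ)ᴴ ∈ LL B := by
  intro n F hF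
  have h1 : (g : Matrix R R ℂ)ᴴ * (g : Matrix R R ℂ) = 1 := Matrix.mem_unitaryGroup_iff'.1 g.2
  have h2 := congrArg (fun M => M *ᵥ F) (dk_conj (κ := Fin n) (A := A) h1)
  simp only [← Matrix.mulVec_mulVec] at h2
  rw [(mem_stab hBf).1 hg (Fin n) F hF, hA n F hF, Matrix.mulVec_zero] at h2
  exact h2

open scoped ComplexOrder in
lemma traceNondeg (hB : Bas cls inv jj) (hBf : Fam cls inv jj B) : KC2.TraceNondeg (HH B) := by
  intro X hX htr
  obtain ⟨A, hA, rfl⟩ := exists_of_HH hX
  have h1 := htr _ (mem_HH.2 (LL_star hB hBf hA))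
  have h2 : (Matrix.toLin' Aᵀ * Matrix.toLin' (Aᴴ)ᵀ : Module.End ℂ (R → ℂ)) =
      Matrix.toLin' ((Aᴴ * A)ᵀ) := by
    rw [Matrix.transpose_mul, Matrix.toLin'_mul]
    rfl
  rw [h2, Matrix.trace_toLin'_eq, Matrix.trace_transpose] at h1
  have h3 : A = 0 := Matrix.trace_conjTranspose_mul_self_eq_zero_iff.1 h1
  rw [h3, Matrix.transpose_zero, map_zero]

lemma HH_bracket : ∀ X ∈ HH B, ∀ Y ∈ HH B, X * Y - Y * X ∈ HH B := by
  intro X hX Y hY
  obtain ⟨A, hA, rfl⟩ := exists_of_HH hX
  obtain ⟨A', hA', rfl⟩ := exists_of_HH hY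
  have h1 : (Matrix.toLin' Aᵀ * Matrix.toLin' A'ᵀ - Matrix.toLin' A'ᵀ * Matrix.toLin' Aᵀ :
      Module.End ℂ (R → ℂ)) = Matrix.toLin' ((A' * A - A * A')ᵀ) := by
    rw [Matrix.transpose_sub, Matrix.transpose_mul, Matrix.transpose_mul, map_sub,
      Matrix.toLin'_mul, Matrix.toLin'_mul]
    rfl
  rw [h1]
  exact mem_HH.2 (LL_bracket hA' hA)

/-- The Casimir tensor. -/
def cas (hB : Bas cls inv jj) (hBf : Fam cls inv jj B) :
    MultilinearMap ℂ (fun _ : Fin 2 × Fin 2 => R → ℂ) ℂ :=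
  KC2.casimir (HH B) (traceNondeg hB hBf) (om inv jj)

lemma cas_mem (hB : Bas cls inv jj) (hBf : Fam cls inv jj B) :
    co (cas hB hBf) ∈ B (Fin 2 × Fin 2) := by
  refine tannaka hB hBf _ fun g hg => ?_
  have hu : (g : Matrix R R ℂ)ᴴ * (g : Matrix R R ℂ) = 1 := Matrix.mem_unitaryGroup_iff'.1 g.2
  have hu' : (g : Matrix R R ℂ) * (g : Matrix R R ℂ)ᴴ = 1 := Matrix.mem_unitaryGroup_iff.1 g.2
  have hgi : g⁻¹ ∈ stabG (tens B) := Subgroup.inv_mem _ hg
  have hgi' : ((g⁻¹ : Matrix.unitaryGroup R ℂ) : Matrix R R ℂ) = (g : Matrix R R ℂ)ᴴ := rfl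
  funext I
  have h1 := co_mul (cas hB hBf) (fun _ => (g : Matrix R R ℂ)) I
  change (krf (fun _ => (g : Matrix R R ℂ)) *ᵥ co (cas hB hBf)) I = _
  rw [← h1]
  have h2 := KC2.casimir_inv (HH B) (traceNondeg hB hBf) (om inv jj)
    (g := Matrix.toLin' (g : Matrix R R ℂ)ᵀ) (g' := Matrix.toLin' ((g : Matrix R R ℂ)ᴴ)ᵀ)
    (χ := 1) ?_ ?_ ?_ ?_ ?_ (fun k => Pi.single (I k) 1)
  · rw [one_pow, one_mul] at h2
    exact h2
  · rw [Module.End.mul_eq_comp, ← Matrix.toLin'_mul, ← Matrix.transpose_mul, hu',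
      Matrix.transpose_one, Matrix.toLin'_one]
    rfl
  · rw [Module.End.mul_eq_comp, ← Matrix.toLin'_mul, ← Matrix.transpose_mul, hu,
      Matrix.transpose_one, Matrix.toLin'_one]
    rfl
  · intro u v
    rw [Matrix.toLin'_apply, Matrix.toLin'_apply, om_mul, one_mul,
      form_of_mem (stab_le hBf hg), om_apply]
  · intro X hX
    obtain ⟨A, hA, rfl⟩ := exists_of_HH hX
    have h3 : (Matrix.toLin' (g : Matrix R R ℂ)ᵀ * Matrix.toLin' Aᵀ *
        Matrix.toLin' ((g : Matrix R R ℂ)ᴴ)ᵀ : Module.End ℂ (R → ℂ)) =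
        Matrix.toLin' (((g : Matrix R R ℂ)ᴴ * A * (g : Matrix R R ℂ))ᵀ) := by
      rw [Matrix.transpose_mul, Matrix.transpose_mul, Matrix.toLin'_mul, Matrix.toLin'_mul]
      rfl
    rw [h3]
    have h4 := LL_conj hBf hgi hA
    rw [hgi', Matrix.conjTranspose_conjTranspose] at h4
    exact mem_HH.2 h4
  · intro X hX
    obtain ⟨A, hA, rfl⟩ := exists_of_HH hX
    have h3 : (Matrix.toLin' ((g : Matrix R R ℂ)ᴴ)ᵀ * Matrix.toLin' Aᵀ *
        Matrix.toLin' (g : Matrix R R ℂ)ᵀ : Module.End ℂ (R → ℂ)) =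
        Matrix.toLin' (((g : Matrix R R ℂ) * A * (g : Matrix R R ℂ)ᴴ)ᵀ) := by
      rw [Matrix.transpose_mul, Matrix.transpose_mul, Matrix.toLin'_mul, Matrix.toLin'_mul]
      rfl
    rw [h3]
    exact mem_HH.2 (LL_conj hBf hg hA)

/-- The Lie algebra of a family is determined by the tensors of degree at most four, if the family
contains all tensors of degree two that are killed by the Lie algebra and if the central skew
elements of the commutant lie in the Lie algebra. -/
theorem lieDet_four (hB : Bas cls inv jj) (hBf : Fam cls inv jj B)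
    (hconn : ∀ M : Matrix R R ℂ, (∀ A ∈ LL B, A * M = -(M * Aᵀ)) → mt M ∈ B (Fin 2))
    (hZ : ∀ c : Matrix R R ℂ, c * Jm inv jj = -(Jm inv jj * cᵀ) → (∀ A ∈ LL B, A * c = c * A) →
      (∀ P : Matrix R R ℂ, (∀ A ∈ LL B, A * P = P * A) → c * P = P * c) → c ∈ LL B) :
    LieDet B 4 := by
  intro A hA
  have hsk : A * Jm inv jj = -(Jm inv jj * Aᵀ) := skew_of_two hBf (hA 2 (by norm_num))
  have hk : Kills (Matrix.toLin' Aᵀ) (KC2.casimir (HH B) (traceNondeg hB hBf) (om inv jj)) := by
    refine kills_of_co _ _ ?_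
    have h1 := cas_mem hB hBf
    have h2 := hA 4 le_rfl _ (hBf.ri (finProdFinEquiv : Fin 2 × Fin 2 ≃ Fin (2 * 2)) h1)
    change dk (Fin 4) A *ᵥ ri (finProdFinEquiv : Fin 2 × Fin 2 ≃ Fin (2 * 2)) _ = 0 at h2
    rw [dk_ri] at h2
    funext I
    have h3 := congrFun h2 (fun k => I ((finProdFinEquiv : Fin 2 × Fin 2 ≃ Fin (2 * 2)).symm k))
    simp only [ri, Equiv.symm_apply_apply, Pi.zero_apply] at h3
    exact h3
  obtain ⟨Y, hY, hcom⟩ := KC2.mem_of_kills_casimir (HH B) (traceNondeg hB hBf) (om inv jj)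
    HH_bracket (om_nondeg hB) (skew_iff hsk) hk
  obtain ⟨A₀, hA₀, rfl⟩ := exists_of_HH hY
  have hc : ∀ D ∈ LL B, D * (A - A₀) = (A - A₀) * D := by
    intro D hD
    have h1 := hcom _ (mem_HH.2 hD)
    rw [← map_sub, ← Matrix.transpose_sub, Module.End.mul_eq_comp, Module.End.mul_eq_comp,
      ← Matrix.toLin'_mul, ← Matrix.toLin'_mul, ← Matrix.transpose_mul,
      ← Matrix.transpose_mul] at h1
    exact (Matrix.transpose_injective (Matrix.toLin'.injective h1)).symm
  have hsk' : (A - A₀) * Jm inv jj = -(Jm inv jj * (A - A₀)ᵀ) := by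
    rw [sub_mul, hsk, LL_skew hBf hA₀, Matrix.transpose_sub, mul_sub]
    abel
  have hP : ∀ P : Matrix R R ℂ, (∀ D ∈ LL B, D * P = P * D) →
      (A - A₀) * P = P * (A - A₀) := by
    intro P hP
    have h1 : mt (P * Jm inv jj) ∈ B (Fin 2) := by
      refine hconn _ fun D hD => ?_
      rw [← mul_assoc, hP D hD, mul_assoc, LL_skew hBf hD, mul_neg, mul_assoc]
    have h2 := hA 2 (by norm_num) _ h1
    have h3 := hA₀ 2 _ h1
    rw [dk_two_zero] at h2 h3
    have h4 : (A - A₀) * (P * Jm inv jj) = -(P * Jm inv jj * (A - A₀)ᵀ) := by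
      rw [sub_mul, h2, h3, Matrix.transpose_sub, mul_sub]
      abel
    rw [mul_assoc P, ← neg_eq_iff_eq_neg.2 hsk', mul_neg, neg_neg, ← mul_assoc, ← mul_assoc] at h4
    have h5 := congrArg (fun M => M * Jm inv jj) h4
    simp only [mul_assoc, Jm_sq hB, mul_neg, mul_one, neg_inj] at h5
    exact h5
  have hmem := hZ _ hsk' hc hP
  have h6 : A = A₀ + (A - A₀) := by abel
  have h7 : A ∈ LL B := by
    rw [h6]
    exact Submodule.add_mem _ hA₀ hmem
  exact h7

end

end Pool.Agent.X259.T
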