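import Pool.Agent.X259.T.T15

/-!
# Contractions and changes of coordinates
-/

set_option autoImplicit false
set_option linter.unusedSectionVars false
set_option linter.unusedDecidableInType false
set_option linter.unusedFintypeInType false

namespace Pool.Agent.X259.T

open Matrix Finset Module Pool.Agent.H204R3.SP Pool.Agent.W516

noncomputable section

variable {R : Type} [Fintype R] [DecidableEq R] {Q : Type} [DecidableEq Q]
  {cls : R → Q} {inv : R → R} {jj : R → ℂ} {κ : Type}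

/-- Contraction with a matrix. -/
def cK (K : Matrix R R ℂ) (F : (κ ⊕ Fin 2 → R) → ℂ) : (κ → R) → ℂ := fun I =>
  ∑ y, ∑ z, K y z * F (Sum.elim I ![y, z])

lemma cK_add (K : Matrix R R ℂ) (F F' : (κ ⊕ Fin 2 → R) → ℂ) :
    cK K (F + F') = cK K F + cK K F' := by
  funext I
  simp only [cK, Pi.add_apply, mul_add, Finset.sum_add_distrib]

lemma cK_smul (K : Matrix R R ℂ) (a : ℂ) (F : (κ ⊕ Fin 2 → R) → ℂ) :
    cK K (a • F) = a • cK K F := by
  funext I
  simp only [cK, Pi.smul_apply, smul_eq_mul, Finset.mul_sum]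
  refine Finset.sum_congr rfl fun y _ => Finset.sum_congr rfl fun z _ => ?_
  ring

lemma cK_neg (K : Matrix R R ℂ) (F : (κ ⊕ Fin 2 → R) → ℂ) :
    cK (-K) F = -cK K F := by
  funext I
  simp only [cK, Pi.neg_apply, Matrix.neg_apply, neg_mul, Finset.sum_neg_distrib]

lemma ct_eq (hB : Bas cls inv jj) (F : (κ ⊕ Fin 2 → R) → ℂ) :
    ct inv jj F = cK (-Jm inv jj) F := by
  funext I
  rw [ct, cK, Finset.sum_comm]
  refine Finset.sum_congr rfl fun x _ => ?_
  rw [Finset.sum_eq_single (inv x)]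
  · rw [Matrix.neg_apply]
    simp only [Jm, JJ]
    rw [if_pos (hB.inv2 x).symm, hB.neg, neg_neg, jj_inv hB]
  · intro y _ hy
    rw [Matrix.neg_apply]
    simp only [Jm, JJ]
    rw [if_neg (fun h => hy (by rw [h, hB.inv2])), neg_zero, zero_mul]
  · intro h
    exact absurd (Finset.mem_univ _) h

lemma cK_kr [Fintype κ] [DecidableEq κ] (K M : Matrix R R ℂ) (F : (κ ⊕ Fin 2 → R) → ℂ) :
    cK K (kr (κ ⊕ Fin 2) M *ᵥ F) = kr κ M *ᵥ cK (Mᵀ * K * M) F := by
  funext I
  rw [kr_mulVec]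
  simp only [cK, kr_mulVec]
  have h1 : ∀ y z, ∑ J : κ ⊕ Fin 2 → R, (∏ k, M (Sum.elim I ![y, z] k) (J k)) * F J =
      ∑ J : κ → R, ∑ y', ∑ z', (∏ k, M (I k) (J k)) * (M y y' * M z z') *
        F (Sum.elim J ![y', z']) := by
    intro y z
    rw [sum_elim]
    refine Finset.sum_congr rfl fun J _ => ?_
    rw [← (finTwoArrowEquiv R).symm.sum_comp, Fintype.sum_prod_type]
    refine Finset.sum_congr rfl fun y' _ => Finset.sum_congr rfl fun z' _ => ?_
    rw [Fintype.prod_sum_type, Fin.prod_univ_two]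
    simp only [finTwoArrowEquiv_symm_apply, Sum.elim_inl, Sum.elim_inr, Matrix.cons_val_zero,
      Matrix.cons_val_one]
  simp only [h1]
  have h2 : ∀ y' z', (Mᵀ * K * M) y' z' = ∑ y, ∑ z, K y z * (M y y' * M z z') := by
    intro y' z'
    rw [Matrix.mul_apply]
    simp only [Matrix.mul_apply, Matrix.transpose_apply, Finset.sum_mul]
    rw [Finset.sum_comm]
    refine Finset.sum_congr rfl fun y _ => Finset.sum_congr rfl fun z _ => ?_
    ring
  simp only [h2]
  simp only [Finset.mul_sum, Finset.sum_mul]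
  -- LHS: ∑ y z J y' z', RHS : ∑ J y' z' y z
  calc _ = ∑ y, ∑ J : κ → R, ∑ z, ∑ y', ∑ z', K y z * ((∏ k, M (I k) (J k)) * (M y y' * M z z') *
        F (Sum.elim J ![y', z'])) :=
        Finset.sum_congr rfl fun y _ => Finset.sum_comm
    _ = ∑ J : κ → R, ∑ y, ∑ z, ∑ y', ∑ z', K y z * ((∏ k, M (I k) (J k)) * (M y y' * M z z') *
        F (Sum.elim J ![y', z'])) := Finset.sum_comm
    _ = _ := by
      refine Finset.sum_congr rfl fun J _ => ?_
      calc _ = ∑ y, ∑ y', ∑ z, ∑ z', K y z * ((∏ k, M (I k) (J k)) * (M y y' * M z z') *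
            F (Sum.elim J ![y', z'])) := Finset.sum_congr rfl fun y _ => Finset.sum_comm
        _ = ∑ y', ∑ y, ∑ z, ∑ z', K y z * ((∏ k, M (I k) (J k)) * (M y y' * M z z') *
            F (Sum.elim J ![y', z'])) := Finset.sum_comm
        _ = _ := by
          refine Finset.sum_congr rfl fun y' _ => ?_
          calc _ = ∑ y, ∑ z', ∑ z, K y z * ((∏ k, M (I k) (J k)) * (M y y' * M z z') *
                F (Sum.elim J ![y', z'])) := Finset.sum_congr rfl fun y _ => Finset.sum_comm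
            _ = ∑ z', ∑ y, ∑ z, K y z * ((∏ k, M (I k) (J k)) * (M y y' * M z z') *
                F (Sum.elim J ![y', z'])) := Finset.sum_comm
            _ = _ := by
              refine Finset.sum_congr rfl fun z' _ => Finset.sum_congr rfl fun y _ =>
                Finset.sum_congr rfl fun z _ => ?_
              ring

variable {W : Type} [AddCommGroup W] [Module ℚ W] (b : Basis R ℚ W)

/-- The coefficients of a rational form. -/
def gt (ψ : MultilinearMap ℚ (fun _ : κ => W) ℚ) : (κ → R) → ℂ :=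
  fun J => ((ψ fun k => b (J k) : ℚ) : ℂ)

lemma gt_add (ψ ψ' : MultilinearMap ℚ (fun _ : κ => W) ℚ) :
    gt b (ψ + ψ') = gt b ψ + gt b ψ' := by
  funext J
  simp [gt]

lemma gt_smul (a : ℚ) (ψ : MultilinearMap ℚ (fun _ : κ => W) ℚ) :
    gt b (a • ψ) = (a : ℂ) • gt b ψ := by
  funext J
  simp [gt]

lemma gt_dom {μ : Type} (e : κ ≃ μ) (ψ : MultilinearMap ℚ (fun _ : κ => W) ℚ) :
    gt b (ψ.domDomCongr e) = ri e (gt b ψ) := rfl

/-- The coordinates of a vector. -/
lemma gt_eq_sum [Fintype κ] [DecidableEq κ] (ψ : MultilinearMap ℚ (fun _ : κ => W) ℚ)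
    (v : κ → W) : ((ψ v : ℚ) : ℂ) = ∑ J : κ → R, (∏ k, ((b.repr (v k) (J k) : ℚ) : ℂ)) * gt b ψ J := by
  have h1 : v = fun k => ∑ x, b.repr (v k) x • b x := by
    funext k
    exact (b.sum_repr (v k)).symm
  conv_lhs => rw [h1]
  rw [MultilinearMap.map_sum, Rat.cast_sum]
  refine Finset.sum_congr rfl fun J _ => ?_
  rw [MultilinearMap.map_smul_univ, smul_eq_mul, Rat.cast_mul, Rat.cast_prod]
  rfl

end

end Pool.Agent.X259.T
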