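import Pool.Agent.X259.T.T16
import Pool.Agent.W516.DRHodge

/-!
# Hodge tensors in coordinates
-/

set_option autoImplicit false
set_option linter.unusedSectionVars false
set_option linter.unusedDecidableInType false
set_option linter.unusedFintypeInType false

namespace Pool.Agent.X259.T

open Matrix Finset Module Pool.Agent.H204R3.SP Pool.Agent.H204R3.GP Pool.Agent.W516

noncomputable section

variable {R : Type} [Fintype R] [DecidableEq R] {κ : Type} [Fintype κ] [DecidableEq κ]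
  {W T : Type} [AddCommGroup W] [Module ℚ W] [AddCommGroup T] [Module ℂ T]
  (per : W →+ T) (b : Basis R ℚ W) (b' : Basis R ℝ T)

/-- The matrix of a complex number. -/
def Nz (z : ℂ) : Matrix R R ℂ := fun i j => ((b'.repr (z • b' i) j : ℝ) : ℂ)

/-- The coefficients of a real form. -/
def gr (Ψ : MultilinearMap ℝ (fun _ : κ => T) ℝ) : (κ → R) → ℂ :=
  fun J => ((Ψ fun k => b' (J k) : ℝ) : ℂ)

lemma gr_eq_sum (Ψ : MultilinearMap ℝ (fun _ : κ => T) ℝ) (v : κ → T) :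
    ((Ψ v : ℝ) : ℂ) = ∑ J : κ → R, (∏ k, ((b'.repr (v k) (J k) : ℝ) : ℂ)) * gr b' Ψ J := by
  have h1 : v = fun k => ∑ x, b'.repr (v k) x • b' x := by
    funext k
    exact (b'.sum_repr (v k)).symm
  conv_lhs => rw [h1]
  rw [MultilinearMap.map_sum, Complex.ofReal_sum]
  refine Finset.sum_congr rfl fun J _ => ?_
  rw [MultilinearMap.map_smul_univ, smul_eq_mul, Complex.ofReal_mul, Complex.ofReal_prod]
  rfl

lemma gr_Nz (Ψ : MultilinearMap ℝ (fun _ : κ => T) ℝ) (z : ℂ) (J : κ → R) :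
    (kr κ (Nz b' z) *ᵥ gr b' Ψ) J = ((Ψ fun k => z • b' (J k) : ℝ) : ℂ) := by
  rw [gr_eq_sum b' Ψ, kr_mulVec]
  rfl

lemma inv_iff (Ψ : MultilinearMap ℝ (fun _ : κ => T) ℝ) (z : ℂ) :
    (∀ u : κ → T, Ψ (fun l => z • u l) = Ψ u) ↔ kr κ (Nz b' z) *ᵥ gr b' Ψ = gr b' Ψ := by
  constructor
  · intro h
    funext J
    rw [gr_Nz, h]
    rfl
  · intro h
    let m : T →ₗ[ℝ] T :=
      { toFun := fun x => z • x
        map_add' := fun _ _ => smul_add _ _ _
        map_smul' := fun _ _ => smul_comm _ _ _ }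
    have h1 : Ψ.compLinearMap (fun _ => m) = Ψ := by
      refine Basis.ext_multilinear (fun _ => b') fun J => ?_
      have h2 := congrFun h J
      rw [gr_Nz] at h2
      exact Complex.ofReal_injective h2
    intro u
    conv_rhs => rw [← h1]
    rfl

variable (hb : ∀ i, b' i = per (b i))

include hb in
lemma per_repr (w : W) (x : R) : b'.repr (per w) x = ((b.repr w x : ℚ) : ℝ) := by
  have h1 : per w = ∑ y, ((b.repr w y : ℚ) : ℝ) • b' y := by
    let _ : Module ℚ T := Module.compHom T (algebraMap ℚ ℝ)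
    conv_lhs => rw [← b.sum_repr w]
    rw [map_sum]
    refine Finset.sum_congr rfl fun y _ => ?_
    rw [hb, map_rat_smul per]
    rfl
  rw [h1, map_sum, Finset.sum_apply']
  rw [Finset.sum_eq_single x]
  · rw [map_smul, Basis.repr_self, Finsupp.smul_single, smul_eq_mul, mul_one,
      Finsupp.single_eq_same]
  · intro y _ hy
    rw [map_smul, Basis.repr_self, Finsupp.smul_single, Finsupp.single_eq_of_ne hy.symm]
  · intro h
    exact absurd (Finset.mem_univ _) h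

include hb in
/-- Hodge tensors in coordinates. -/
theorem hodge_iff_kr (ψ : MultilinearMap ℚ (fun _ : κ => W) ℚ) :
    IsHodgeTensor per ψ ↔ ∀ z : ℂ, ‖z‖ = 1 → kr κ (Nz b' z) *ᵥ gt b ψ = gt b ψ := by
  constructor
  · rintro ⟨Ψ, hΨ, hinv⟩ z hz
    have h1 : gt b ψ = gr b' Ψ := by
      funext J
      rw [gt, gr, ← Complex.ofReal_ratCast, ← hΨ]
      simp only [hb]
    rw [h1]
    exact (inv_iff b' Ψ z).1 fun u => hinv z hz u
  · intro h
    have : FiniteDimensional ℚ W := Module.Finite.of_basis b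
    let Ψ : MultilinearMap ℝ (fun _ : κ => T) ℝ :=
      (bcm (Ω := ℝ) b ψ).compLinearMap (fun _ => (DR.eqT b b').toLinearMap)
    have hbas : ∀ I : κ → R, Ψ (fun l => b' (I l)) = ((ψ (fun l => b (I l)) : ℚ) : ℝ) := by
      intro I
      have h0 : Ψ (fun l => b' (I l)) = bcm (Ω := ℝ) b ψ (fun l => DR.eqT b b' (b' (I l))) := rfl
      rw [h0]
      simp only [DR.eqT_basis]
      rw [bcm_one]
      rfl
    have h1 : gt b ψ = gr b' Ψ := by
      funext J
      rw [gt, gr, hbas, Complex.ofReal_ratCast]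
    refine ⟨Ψ, fun v => ?_, fun z hz u => (inv_iff b' Ψ z).2 ?_ u⟩
    · apply Complex.ofReal_injective
      rw [gr_eq_sum b' Ψ, ← h1, Complex.ofReal_ratCast, gt_eq_sum b]
      refine Finset.sum_congr rfl fun J _ => ?_
      congr 1
      refine Finset.prod_congr rfl fun k _ => ?_
      rw [per_repr per b b' hb, Complex.ofReal_ratCast]
    · rw [← h1]
      exact h z hz

lemma Nz_mul (z w : ℂ) : Nz b' (z * w) = Nz b' w * Nz b' z := by
  ext i j
  rw [Matrix.mul_apply]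
  simp only [Nz]
  have h1 : (z * w) • b' i = ∑ l, b'.repr (w • b' i) l • (z • b' l) := by
    rw [mul_smul]
    conv_lhs => rw [← b'.sum_repr (w • b' i)]
    rw [Finset.smul_sum]
    refine Finset.sum_congr rfl fun l _ => ?_
    rw [smul_comm]
  rw [h1, map_sum, Finset.sum_apply', Complex.ofReal_sum]
  refine Finset.sum_congr rfl fun l _ => ?_
  rw [map_smul, Finsupp.smul_apply, smul_eq_mul, Complex.ofReal_mul]

lemma Nz_one : Nz b' 1 = 1 := by
  ext i j
  simp only [Nz]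
  rw [one_smul, Basis.repr_self, Matrix.one_apply, Finsupp.single_apply]
  split_ifs <;> simp

/-- The matrix of the polarization. -/
def Om (ω₀ : W →ₗ[ℚ] W →ₗ[ℚ] ℚ) : Matrix R R ℂ := fun i j => ((ω₀ (b i) (b j) : ℚ) : ℂ)

lemma Om_real (ω₀ : W →ₗ[ℚ] W →ₗ[ℚ] ℚ) (E : T →ₗ[ℝ] T →ₗ[ℝ] ℝ)
    (hE : ∀ x y, E (per x) (per y) = ω₀ x y) (hb : ∀ i, b' i = per (b i)) (i j : R) :
    Om b ω₀ i j = ((E (b' i) (b' j) : ℝ) : ℂ) := by
  rw [Om, hb, hb, hE, Complex.ofReal_ratCast]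

lemma E_expand (E : T →ₗ[ℝ] T →ₗ[ℝ] ℝ) (u v : T) :
    ((E u v : ℝ) : ℂ) = ∑ i, ∑ j, ((b'.repr u i : ℝ) : ℂ) * ((E (b' i) (b' j) : ℝ) : ℂ) *
      ((b'.repr v j : ℝ) : ℂ) := by
  conv_lhs => rw [← b'.sum_repr u, ← b'.sum_repr v]
  rw [map_sum E, LinearMap.sum_apply, Complex.ofReal_sum]
  refine Finset.sum_congr rfl fun i _ => ?_
  rw [map_sum, Complex.ofReal_sum]
  refine Finset.sum_congr rfl fun j _ => ?_
  rw [map_smul, map_smul, LinearMap.smul_apply, smul_eq_mul, smul_eq_mul, Complex.ofReal_mul,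
    Complex.ofReal_mul]
  ring

lemma Nz_Om (ω₀ : W →ₗ[ℚ] W →ₗ[ℚ] ℚ) (E : T →ₗ[ℝ] T →ₗ[ℝ] ℝ)
    (hE : ∀ x y, E (per x) (per y) = ω₀ x y) (hb : ∀ i, b' i = per (b i)) {z : ℂ}
    (hz : ∀ u v, E (z • u) (z • v) = E u v) :
    Nz b' z * Om b ω₀ * (Nz b' z)ᵀ = Om b ω₀ := by
  ext i j
  rw [Om_real per b b' ω₀ E hE hb, ← hz, E_expand b' E, Matrix.mul_apply]
  simp only [Matrix.mul_apply, Finset.sum_mul]
  rw [Finset.sum_comm]
  refine Finset.sum_congr rfl fun k _ => Finset.sum_congr rfl fun l _ => ?_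
  rw [Om_real per b b' ω₀ E hE hb, Matrix.transpose_apply]
  rfl

end

end Pool.Agent.X259.T
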