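import Pool.Agent.X259.T.T17

/-!
# Frames
-/

set_option autoImplicit false
set_option linter.unusedSectionVars false
set_option linter.unusedDecidableInType false
set_option linter.unusedFintypeInType false

namespace Pool.Agent.X259.T

open Matrix Finset Module Pool.Agent.H204R3.SP Pool.Agent.H204R3.GP Pool.Agent.W516

noncomputable section

/-- A unitary basis for a Riemann form. -/
theorem exists_unitary {T : Type} [AddCommGroup T] [Module ℂ T] [FiniteDimensional ℂ T]
    (E : T →ₗ[ℝ] T →ₗ[ℝ] ℝ) (hinv : ∀ z : ℂ, ‖z‖ = 1 → ∀ u v, E (z • u) (z • v) = E u v)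
    (halt : ∀ u, E u u = 0) (hpos : ∀ u, u ≠ 0 → 0 < E (Complex.I • u) u) :
    ∃ t : Fin (finrank ℂ T) → T, (∀ a c, E (Complex.I • t a) (t c) = if a = c then 1 else 0) ∧
      ∀ a c, E (t a) (t c) = 0 := by
  have hskew : ∀ u v, E u v = -E v u := by
    intro u v
    have h1 := halt (u + v)
    rw [map_add, map_add, LinearMap.add_apply, LinearMap.add_apply, halt, halt] at h1
    linarith
  have hI : ∀ u v, E (Complex.I • u) v = E (Complex.I • v) u := by
    intro u v
    rw [← hinv Complex.I (by simp) (Complex.I • u) v, smul_smul, Complex.I_mul_I, neg_one_smul,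
      map_neg, LinearMap.neg_apply, hskew u, neg_neg]
  let core : InnerProductSpace.Core ℂ T :=
    { inner := fun x y => (E (Complex.I • x) y : ℂ) - Complex.I * (E x y : ℂ)
      conj_inner_symm := fun x y => by
        rw [map_sub, map_mul, Complex.conj_ofReal, Complex.conj_ofReal, Complex.conj_I, hI y x,
          hskew y x]
        push_cast
        ring
      re_inner_nonneg := fun x => by
        change 0 ≤ ((E (Complex.I • x) x : ℂ) - Complex.I * (E x x : ℂ)).re
        rw [halt]
        simp only [Complex.ofReal_zero, mul_zero, sub_zero, Complex.ofReal_re]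
        by_cases h : x = 0
        · rw [h, map_zero]
        · exact (hpos x h).le
      add_left := fun x y z => by
        rw [smul_add, map_add, map_add, LinearMap.add_apply, LinearMap.add_apply]
        push_cast
        ring
      smul_left := fun x y r => by
        have h1 : ∀ w : T, r • w = r.re • w + r.im • (Complex.I • w) := by
          intro w
          conv_lhs => rw [← Complex.re_add_im r]
          rw [add_smul, mul_smul]
          rfl
        have h2 : ∀ w : T, E (r • w) y = r.re * E w y + r.im * E (Complex.I • w) y := by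
          intro w
          rw [h1, map_add, LinearMap.add_apply, LinearMap.map_smul, LinearMap.map_smul,
            LinearMap.smul_apply, LinearMap.smul_apply, smul_eq_mul, smul_eq_mul]
        rw [smul_comm, h2, h2, smul_smul, Complex.I_mul_I, neg_one_smul, map_neg,
          LinearMap.neg_apply]
        apply Complex.ext <;> simp <;> ring
      definite := fun x h => by
        by_contra hx
        have h1 := hpos x hx
        change (E (Complex.I • x) x : ℂ) - Complex.I * (E x x : ℂ) = 0 at h
        rw [halt] at h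
        simp only [Complex.ofReal_zero, mul_zero, sub_zero] at h
        rw [Complex.ofReal_eq_zero] at h
        exact h1.ne' h }
  let _ : NormedAddCommGroup T := core.toNormedAddCommGroup
  let _ : InnerProductSpace ℂ T := InnerProductSpace.ofCore core.toCore
  have h := (stdOrthonormalBasis ℂ T).orthonormal
  rw [orthonormal_iff_ite] at h
  have h2 : ∀ x y : T, inner ℂ x y = (E (Complex.I • x) y : ℂ) - Complex.I * (E x y : ℂ) :=
    fun x y => rfl
  refine ⟨stdOrthonormalBasis ℂ T, fun a c => ?_, fun a c => ?_⟩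
  · have h3 := congrArg Complex.re (h a c)
    rw [h2] at h3
    simp only [Complex.sub_re, Complex.mul_re, Complex.I_re, Complex.I_im, Complex.ofReal_re,
      Complex.ofReal_im, zero_mul, mul_zero, sub_zero] at h3
    rw [h3]
    split_ifs <;> simp
  · have h3 := congrArg Complex.im (h a c)
    rw [h2] at h3
    simp only [Complex.sub_im, Complex.mul_im, Complex.I_re, Complex.I_im, Complex.ofReal_re,
      Complex.ofReal_im, zero_mul, zero_add, one_mul, zero_sub] at h3
    have h4 : (if a = c then (1 : ℂ) else 0).im = 0 := by split_ifs <;> simp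
    rw [h4] at h3
    linarith

variable {R : Type} [Fintype R] [DecidableEq R] {Q : Type} [DecidableEq Q]
  {W T : Type} [AddCommGroup W] [Module ℚ W] [AddCommGroup T] [Module ℂ T]

/-- Coordinates in which the tensors are in standard form. -/
structure Frame (per : W →+ T) (ω₀ : W →ₗ[ℚ] W →ₗ[ℚ] ℚ) (b : Basis R ℚ W) (b' : Basis R ℝ T)
    (cls : R → Q) (inv : R → R) (jj : R → ℂ) (S S' : Matrix R R ℂ) : Prop where
  hb : ∀ i, b' i = per (b i)
  bas : Bas cls inv jj
  one : S * S' = 1
  one' : S' * S = 1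
  form : S * Om b ω₀ * Sᵀ = Jm inv jj
  star : ∀ x j, jj x * star (S (inv x) j) = (S * Nz b' (-Complex.I)) x j
  pol : ∀ z : ℂ, ‖z‖ = 1 → Nz b' z * Om b ω₀ * (Nz b' z)ᵀ = Om b ω₀

/-- The basis in standard form. -/
def sv {g : ℕ} (t : Fin g → T) (r : ℝ) : Fin g ⊕ Fin g → T × T :=
  Sum.elim (fun a => (r • t a, -(r • (Complex.I • t a))))
    (fun a => (-(r • (Complex.I • t a)), r • t a))

theorem exists_frame [FiniteDimensional ℚ W] (per : W →+ T) (ω₀ : W →ₗ[ℚ] W →ₗ[ℚ] ℚ)
    (hper : ∃ (b : Basis (Fin (finrank ℚ W)) ℚ W) (b' : Basis (Fin (finrank ℚ W)) ℝ T),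
      ∀ i, b' i = per (b i))
    (hω : ∃ E : T →ₗ[ℝ] T →ₗ[ℝ] ℝ, (∀ x y, E (per x) (per y) = ω₀ x y) ∧
      (∀ z : ℂ, ‖z‖ = 1 → ∀ u v, E (z • u) (z • v) = E u v) ∧ (∀ u, E u u = 0) ∧
      ∀ u, u ≠ 0 → 0 < E (Complex.I • u) u) :
    ∃ (g : ℕ) (b : Basis (Fin g ⊕ Fin g) ℚ W) (b' : Basis (Fin g ⊕ Fin g) ℝ T)
      (S S' : Matrix (Fin g ⊕ Fin g) (Fin g ⊕ Fin g) ℂ),
      Frame per ω₀ b b' (fun _ => ()) Sum.swap (Sum.elim (fun _ => 1) (fun _ => -1)) S S' := by
  obtain ⟨b₀, b₀', hb₀⟩ := hper
  obtain ⟨E, hE, hinv, halt, hpos⟩ := hω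
  have hfR : FiniteDimensional ℝ T := Module.Finite.of_basis b₀'
  have hfC : FiniteDimensional ℂ T := Module.Finite.of_restrictScalars_finite ℝ ℂ T
  obtain ⟨t, ht1, ht2⟩ := exists_unitary E hinv halt hpos
  have hcard : finrank ℚ W = Fintype.card (Fin (finrank ℂ T) ⊕ Fin (finrank ℂ T)) := by
    rw [Fintype.card_sum, Fintype.card_fin, ← two_mul, ← finrank_real_of_complex,
      finrank_eq_card_basis b₀', Fintype.card_fin]
  let e : Fin (finrank ℚ W) ≃ Fin (finrank ℂ T) ⊕ Fin (finrank ℂ T) :=
    Fintype.equivOfCardEq (by rw [Fintype.card_fin, hcard])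
  let b := b₀.reindex e
  let b' := b₀'.reindex e
  have hb : ∀ i, b' i = per (b i) := by
    intro i
    rw [Basis.reindex_apply, Basis.reindex_apply]
    exact hb₀ _
  let r : ℝ := 1 / Real.sqrt 2
  have hr : r * r = 1 / 2 := by
    change 1 / Real.sqrt 2 * (1 / Real.sqrt 2) = _
    rw [div_mul_div_comm, one_mul, Real.mul_self_sqrt (by norm_num)]
  let inv : Fin (finrank ℂ T) ⊕ Fin (finrank ℂ T) → Fin (finrank ℂ T) ⊕ Fin (finrank ℂ T) :=
    Sum.swap
  let jj : Fin (finrank ℂ T) ⊕ Fin (finrank ℂ T) → ℂ := Sum.elim (fun _ => 1) (fun _ => -1)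
  let S : Matrix (Fin (finrank ℂ T) ⊕ Fin (finrank ℂ T)) (Fin (finrank ℂ T) ⊕ Fin (finrank ℂ T)) ℂ :=
    fun x j => ((b'.repr (sv t r x).1 j : ℝ) : ℂ) + Complex.I * ((b'.repr (sv t r x).2 j : ℝ) : ℂ)
  have hpol : ∀ z : ℂ, ‖z‖ = 1 → Nz b' z * Om b ω₀ * (Nz b' z)ᵀ = Om b ω₀ := fun z hz =>
    Nz_Om per b b' ω₀ E hE hb (hinv z hz)
  have hbas : Bas (fun _ => ()) inv jj :=
    { inv2 := fun x => Sum.swap_swap x
      neg := fun x => by rcases x with x | x <;> simp [inv, jj]
      sq := fun x => by rcases x with x | x <;> simp [jj]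
      cls := fun _ _ _ => rfl }
  have hskew : ∀ u v, E u v = -E v u := by
    intro u v
    have h1 := halt (u + v)
    rw [map_add, map_add, LinearMap.add_apply, LinearMap.add_apply, halt, halt] at h1
    linarith
  have hI2 : ∀ u v, E (Complex.I • u) (Complex.I • v) = E u v := hinv Complex.I (by simp)
  have ht3 : ∀ a c, E (t a) (Complex.I • t c) = if c = a then -1 else 0 := by
    intro a c
    rw [hskew, ht1]
    split_ifs <;> simp
  have hform : S * Om b ω₀ * Sᵀ = Jm inv jj := by
    have h1 : ∀ x y, (S * Om b ω₀ * Sᵀ) x y =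
        ((E (sv t r x).1 (sv t r y).1 - E (sv t r x).2 (sv t r y).2 : ℝ) : ℂ) +
        Complex.I * ((E (sv t r x).1 (sv t r y).2 + E (sv t r x).2 (sv t r y).1 : ℝ) : ℂ) := by
      intro x y
      push_cast
      rw [E_expand b' E, E_expand b' E, E_expand b' E, E_expand b' E, Matrix.mul_apply]
      simp only [Matrix.mul_apply, Finset.sum_mul, Matrix.transpose_apply]
      rw [Finset.sum_comm]
      simp only [mul_add, Finset.mul_sum, ← Finset.sum_add_distrib, ← Finset.sum_sub_distrib]
      refine Finset.sum_congr rfl fun k _ => Finset.sum_congr rfl fun l _ => ?_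
      rw [Om_real per b b' ω₀ E hE hb]
      have hII := Complex.I_mul_I
      change (((b'.repr (sv t r x).1 k : ℝ) : ℂ) + Complex.I * ((b'.repr (sv t r x).2 k : ℝ) : ℂ)) *
        _ * (((b'.repr (sv t r y).1 l : ℝ) : ℂ) + Complex.I * ((b'.repr (sv t r y).2 l : ℝ) : ℂ)) = _
      linear_combination (((b'.repr (sv t r x).2 k : ℝ) : ℂ) * ((E (b' k) (b' l) : ℝ) : ℂ) *
        ((b'.repr (sv t r y).2 l : ℝ) : ℂ)) * hII
    have hsc1 : ∀ (u v : T), E (r • u) v = r * E u v := fun u v => by
      rw [LinearMap.map_smul, LinearMap.smul_apply, smul_eq_mul]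
    have hsc2 : ∀ (u v : T), E u (r • v) = r * E u v := fun u v => by
      rw [LinearMap.map_smul, smul_eq_mul]
    have hn1 : ∀ (u v : T), E (-u) v = -E u v := fun u v => by
      rw [map_neg, LinearMap.neg_apply]
    have hn2 : ∀ (u v : T), E u (-v) = -E u v := fun u v => map_neg _ _
    ext x y
    rw [h1]
    rcases x with x | x <;> rcases y with y | y
    · simp only [sv, Sum.elim_inl, hn1, hn2, hsc1, hsc2, ht1, ht2, ht3, hI2]
      simp only [Jm, JJ, inv, jj, Sum.swap_inl, reduceCtorEq, if_false]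
      by_cases h : x = y
      · subst h
        simp
      · rw [if_neg h, if_neg (Ne.symm h)]
        simp
    · simp only [sv, Sum.elim_inl, Sum.elim_inr, hn1, hn2, hsc1, hsc2, ht1, ht2, ht3, hI2]
      simp only [Jm, JJ, inv, jj, Sum.swap_inl, Sum.inr.injEq, Sum.elim_inl]
      have hrc : (r : ℂ) * r = 1 / 2 := by
        rw [← Complex.ofReal_mul, hr]
        norm_num
      by_cases h : x = y
      · subst h
        simp only [if_true]
        push_cast
        have hII := Complex.I_mul_I
        linear_combination 2 * hrc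
      · rw [if_neg h, if_neg (Ne.symm h)]
        simp [Ne.symm h]
    · simp only [sv, Sum.elim_inl, Sum.elim_inr, hn1, hn2, hsc1, hsc2, ht1, ht2, ht3, hI2]
      simp only [Jm, JJ, inv, jj, Sum.swap_inr, Sum.inl.injEq, Sum.elim_inr]
      have hrc : (r : ℂ) * r = 1 / 2 := by
        rw [← Complex.ofReal_mul, hr]
        norm_num
      by_cases h : x = y
      · subst h
        simp only [if_true]
        push_cast
        have hII := Complex.I_mul_I
        linear_combination -2 * hrc
      · rw [if_neg h, if_neg (Ne.symm h)]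
        simp [Ne.symm h]
    · simp only [sv, Sum.elim_inr, hn1, hn2, hsc1, hsc2, ht1, ht2, ht3, hI2]
      simp only [Jm, JJ, inv, jj, Sum.swap_inr, reduceCtorEq, if_false]
      by_cases h : x = y
      · subst h
        simp
      · rw [if_neg h, if_neg (Ne.symm h)]
        simp
  refine ⟨finrank ℂ T, b, b', S, Om b ω₀ * Sᵀ * (-Jm inv jj), hb, hbas, ?_, ?_, hform, ?_, hpol⟩
  · rw [← mul_assoc, ← mul_assoc, hform, mul_neg, Jm_sq hbas, neg_neg]
  · have h1 : S * (Om b ω₀ * Sᵀ * (-Jm inv jj)) = 1 := by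
      rw [← mul_assoc, ← mul_assoc, hform, mul_neg, Jm_sq hbas, neg_neg]
    exact mul_eq_one_comm.1 h1
  · have h1 : ∀ x j, (S * Nz b' (-Complex.I)) x j =
        ((b'.repr (-(Complex.I • (sv t r x).1)) j : ℝ) : ℂ) +
        Complex.I * ((b'.repr (-(Complex.I • (sv t r x).2)) j : ℝ) : ℂ) := by
      intro x j
      have h2 : ∀ v : T, ((b'.repr (-(Complex.I • v)) j : ℝ) : ℂ) =
          ∑ l, ((b'.repr v l : ℝ) : ℂ) * Nz b' (-Complex.I) l j := by
        intro v
        have h3 : -(Complex.I • v) = ∑ l, b'.repr v l • ((-Complex.I) • b' l) := by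
          rw [← neg_smul]
          conv_lhs => rw [← b'.sum_repr v]
          rw [Finset.smul_sum]
          exact Finset.sum_congr rfl fun l _ => smul_comm _ _ _
        rw [h3, map_sum, Finset.sum_apply', Complex.ofReal_sum]
        refine Finset.sum_congr rfl fun l _ => ?_
        rw [map_smul, Finsupp.smul_apply, smul_eq_mul, Complex.ofReal_mul]
        rfl
      rw [h2, h2, Matrix.mul_apply, Finset.mul_sum, ← Finset.sum_add_distrib]
      refine Finset.sum_congr rfl fun l _ => ?_
      change (((b'.repr (sv t r x).1 l : ℝ) : ℂ) + Complex.I * ((b'.repr (sv t r x).2 l : ℝ) : ℂ)) *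
        _ = _
      ring
    intro x j
    rw [h1]
    change jj x * star (((b'.repr (sv t r (inv x)).1 j : ℝ) : ℂ) +
      Complex.I * ((b'.repr (sv t r (inv x)).2 j : ℝ) : ℂ)) = _
    rw [star_add, star_mul']
    simp only [Complex.star_def, Complex.conj_ofReal, Complex.conj_I]
    have hI3 : ∀ v : T, Complex.I • (Complex.I • v) = -v := by
      intro v
      rw [smul_smul, Complex.I_mul_I, neg_one_smul]
    rcases x with x | x
    · simp only [sv, inv, jj, Sum.swap_inl, Sum.elim_inl, Sum.elim_inr]
      rw [smul_neg, smul_comm Complex.I r, smul_comm Complex.I r, hI3]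
      simp only [map_neg, Finsupp.neg_apply, smul_neg, neg_neg]
      push_cast
      ring
    · simp only [sv, inv, jj, Sum.swap_inr, Sum.elim_inl, Sum.elim_inr]
      rw [smul_neg, smul_comm Complex.I r, smul_comm Complex.I r, hI3]
      simp only [map_neg, Finsupp.neg_apply, smul_neg, neg_neg]
      push_cast
      ring

end

end Pool.Agent.X259.T
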