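import Pool.Agent.X259.T.T18

/-!
# Families of rational classes
-/

set_option autoImplicit false
set_option linter.unusedSectionVars false
set_option linter.unusedDecidableInType false
set_option linter.unusedFintypeInType false

namespace Pool.Agent.X259.T

open Matrix Finset Module Pool.Agent.H204R3.SP Pool.Agent.H204R3.GP Pool.Agent.W516

noncomputable section

/-- Words with two more letters at the end. -/
def ext2 {m : ℕ} {X : Type} (v : Fin m × Fin 2 → X) (x y : X) : Fin (m + 1) × Fin 2 → X :=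
  fun p => Fin.lastCases (motive := fun _ => X) (![x, y] p.2) (fun j => v (j, p.2)) p.1

/-- The splitting of the last pair. -/
def e1 (m : ℕ) : Fin (m + 1) × Fin 2 ≃ (Fin m × Fin 2) ⊕ Fin 2 where
  toFun p := Fin.lastCases (motive := fun _ => (Fin m × Fin 2) ⊕ Fin 2) (Sum.inr p.2)
    (fun j => Sum.inl (j, p.2)) p.1
  invFun := Sum.elim (fun q => (q.1.castSucc, q.2)) (fun c => (Fin.last m, c))
  left_inv := by
    rintro ⟨k, c⟩
    refine Fin.lastCases ?_ (fun j => ?_) k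
    · simp
    · simp
  right_inv := by
    rintro (⟨j, c⟩ | c)
    · simp
    · simp

lemma ext2_eq {m : ℕ} {X : Type} (v : Fin m × Fin 2 → X) (x y : X) (p : Fin (m + 1) × Fin 2) :
    ext2 v x y p = Sum.elim v ![x, y] (e1 m p) := by
  obtain ⟨k, c⟩ := p
  refine Fin.lastCases ?_ (fun j => ?_) k
  · simp [ext2, e1]
  · simp [ext2, e1]

/-- The splitting of the pairs. -/
def e0 (m m' : ℕ) : (Fin m × Fin 2) ⊕ (Fin m' × Fin 2) ≃ Fin (m + m') × Fin 2 :=
  (Equiv.sumProdDistrib _ _ _).symm.trans (finSumFinEquiv.prodCongr (Equiv.refl _))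

lemma e0_inl (m m' : ℕ) (p : Fin m × Fin 2) : e0 m m' (Sum.inl p) = (Fin.castAdd m' p.1, p.2) := by
  simp [e0]

lemma e0_inr (m m' : ℕ) (p : Fin m' × Fin 2) : e0 m m' (Sum.inr p) = (Fin.natAdd m p.1, p.2) := by
  simp [e0]

variable {W : Type} [AddCommGroup W] [Module ℚ W]

/-- The rational classes in `H^1(A) ^ {⊗ 2 m} (m)`. -/
abbrev RF (W : Type) [AddCommGroup W] [Module ℚ W] (m : ℕ) : Type :=
  MultilinearMap ℚ (fun _ : Fin m × Fin 2 => W) ℚ

/-- The families of classes closed under the operations. -/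
structure Closed {ι : Type} [Fintype ι] (ω₀ : W →ₗ[ℚ] W →ₗ[ℚ] ℚ) (β β' : ι → W)
    (C : ∀ m : ℕ, Submodule ℚ (RF W m)) : Prop where
  one : ∀ ψ : RF W 0, (∀ v, ψ v = 1) → ψ ∈ C 0
  pol : ∀ ψ : RF W 1, (∀ v, ψ v = ω₀ (v (0, 0)) (v (0, 1))) → ψ ∈ C 1
  perm : ∀ (m : ℕ) (σ : Equiv.Perm (Fin m × Fin 2)), ∀ ψ ∈ C m, ψ.domDomCongr σ ∈ C m
  prod : ∀ (m m' : ℕ), ∀ ψ ∈ C m, ∀ ψ' ∈ C m', ∀ ψ'' : RF W (m + m'),
    (∀ v, ψ'' v = ψ (fun p => v (Fin.castAdd m' p.1, p.2)) *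
      ψ' (fun p => v (Fin.natAdd m p.1, p.2))) → ψ'' ∈ C (m + m')
  contr : ∀ (m : ℕ), ∀ ψ ∈ C (m + 1), ∀ ψ' : RF W m,
    (∀ v, ψ' v = ∑ i, ψ (ext2 v (β i) (β' i))) → ψ' ∈ C m

/-- The product. -/
def mprod {m m' : ℕ} (ψ : RF W m) (ψ' : RF W m') : RF W (m + m') :=
  ((LinearMap.mul' ℚ ℚ).compMultilinearMap (ψ.domCoprod ψ')).domDomCongr (e0 m m')

lemma mprod_apply {m m' : ℕ} (ψ : RF W m) (ψ' : RF W m') (v : Fin (m + m') × Fin 2 → W) :
    mprod ψ ψ' v = ψ (fun p => v (Fin.castAdd m' p.1, p.2)) *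
      ψ' (fun p => v (Fin.natAdd m p.1, p.2)) := by
  rw [mprod, MultilinearMap.domDomCongr_apply, LinearMap.compMultilinearMap_apply,
    MultilinearMap.domCoprod_apply, LinearMap.mul'_apply]
  simp only [e0_inl, e0_inr]

/-- The evaluation. -/
def evl (a : Fin 2 → W) : MultilinearMap ℚ (fun _ : Fin 2 => W) ℚ →ₗ[ℚ] ℚ where
  toFun f := f a
  map_add' _ _ := rfl
  map_smul' _ _ := rfl

/-- The contraction. -/
def mcontr {ι : Type} [Fintype ι] (β β' : ι → W) {m : ℕ} (ψ : RF W (m + 1)) : RF W m :=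
  ∑ i, (evl ![β i, β' i]).compMultilinearMap (ψ.domDomCongr (e1 m)).currySum

lemma mcontr_apply {ι : Type} [Fintype ι] (β β' : ι → W) {m : ℕ} (ψ : RF W (m + 1))
    (v : Fin m × Fin 2 → W) : mcontr β β' ψ v = ∑ i, ψ (ext2 v (β i) (β' i)) := by
  rw [mcontr, _root_.sum_apply]
  refine Finset.sum_congr rfl fun i _ => ?_
  rw [LinearMap.compMultilinearMap_apply]
  change (ψ.domDomCongr (e1 m)).currySum v ![β i, β' i] = _
  rw [MultilinearMap.currySum_apply, MultilinearMap.domDomCongr_apply]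
  congr 1
  funext p
  rw [ext2_eq]
  rcases e1 m p with q | q <;> rfl

variable {R : Type} [Fintype R] [DecidableEq R] (b : Basis R ℚ W)

lemma gt_mprod {m m' : ℕ} (ψ : RF W m) (ψ' : RF W m') :
    gt b (mprod ψ ψ') = ri (e0 m m') (tp (gt b ψ) (gt b ψ')) := by
  funext J
  rw [gt, mprod_apply, Rat.cast_mul]
  change _ = gt b ψ _ * gt b ψ' _
  simp only [gt, e0_inl, e0_inr]

/-- The matrix of the contraction. -/
def Km {ι : Type} [Fintype ι] (β β' : ι → W) : Matrix R R ℂ := fun y z =>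
  ∑ i, ((b.repr (β i) y : ℚ) : ℂ) * ((b.repr (β' i) z : ℚ) : ℂ)

lemma gt_mcontr {ι : Type} [Fintype ι] (β β' : ι → W) {m : ℕ} (ψ : RF W (m + 1)) :
    gt b (mcontr β β' ψ) = cK (Km b β β') (ri (e1 m) (gt b ψ)) := by
  funext J
  rw [gt, mcontr_apply, Rat.cast_sum]
  simp only [cK, Km, Finset.sum_mul]
  have h1 : ∀ i, ((ψ (ext2 (fun k => b (J k)) (β i) (β' i)) : ℚ) : ℂ) =
      ∑ y, ∑ z, ((b.repr (β i) y : ℚ) : ℂ) * ((b.repr (β' i) z : ℚ) : ℂ) *
        ri (e1 m) (gt b ψ) (Sum.elim J ![y, z]) := by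
    intro i
    have h2 : ψ (ext2 (fun k => b (J k)) (β i) (β' i)) =
        evl ![β i, β' i] ((ψ.domDomCongr (e1 m)).currySum (fun k => b (J k))) := by
      change _ = (ψ.domDomCongr (e1 m)).currySum (fun k => b (J k)) ![β i, β' i]
      rw [MultilinearMap.currySum_apply, MultilinearMap.domDomCongr_apply]
      congr 1
      funext p
      rw [ext2_eq]
      rcases e1 m p with q | q <;> rfl
    rw [h2]
    change (((ψ.domDomCongr (e1 m)).currySum (fun k => b (J k)) ![β i, β' i] : ℚ) : ℂ) = _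
    rw [gt_eq_sum b, ← (finTwoArrowEquiv R).symm.sum_comp, Fintype.sum_prod_type]
    refine Finset.sum_congr rfl fun y _ => Finset.sum_congr rfl fun z _ => ?_
    rw [Fin.prod_univ_two]
    simp only [finTwoArrowEquiv_symm_apply, Matrix.cons_val_zero, Matrix.cons_val_one]
    congr 1
    rw [gt, MultilinearMap.currySum_apply, MultilinearMap.domDomCongr_apply]
    change _ = gt b ψ _
    rw [gt]
    congr 2
    funext p
    rcases e1 m p with q | q
    · rfl
    · fin_cases q <;> rfl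
  simp only [h1]
  rw [Finset.sum_comm]
  refine Finset.sum_congr rfl fun y _ => ?_
  rw [Finset.sum_comm]

end

end Pool.Agent.X259.T
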