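import Pool.Agent.X259.T.T1
import Pool.Agent.H204R3.GP.FFT

/-!
# Families of tensors closed under products, permutations and contractions
-/

set_option autoImplicit false
set_option linter.unusedSectionVars false
set_option linter.unusedDecidableInType false
set_option linter.unusedFintypeInType false

namespace Pool.Agent.X259.T

open Matrix Finset Pool.Agent.H204R3.SP Pool.Agent.H204R3.GP

noncomputable section

variable {R : Type} [Fintype R] [DecidableEq R] {Q : Type} [DecidableEq Q]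
  (cls : R → Q) (inv : R → R) (jj : R → ℂ)

/-- A symplectic basis, divided in classes. -/
structure Bas : Prop where
  inv2 : ∀ x, inv (inv x) = x
  neg : ∀ x, jj (inv x) = -jj x
  sq : ∀ x, jj x = 1 ∨ jj x = -1
  cls : ∀ x y, cls x = cls y → cls (inv x) = cls (inv y)

/-- The component of class `c` of the symplectic form. -/
def fm (c : Q) : (Fin 2 → R) → ℂ := fun I => if cls (I 0) = c then JJ inv jj (I 0) (I 1) else 0

/-- Contraction. -/
def ct {κ : Type} (F : (κ ⊕ Fin 2 → R) → ℂ) : (κ → R) → ℂ := fun I =>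
  ∑ x, (jj x)⁻¹ * F (Sum.elim I ![inv x, x])

/-- The conjugation. -/
def st {κ : Type} [Fintype κ] (F : (κ → R) → ℂ) : (κ → R) → ℂ := fun I =>
  (∏ k, jj (I k)) * star (F fun k => inv (I k))

/-- The families of tensors closed under the operations. -/
structure Fam (C : ∀ κ : Type, Submodule ℂ ((κ → R) → ℂ)) : Prop where
  ri : ∀ {κ μ : Type} (e : κ ≃ μ) {F : (κ → R) → ℂ}, F ∈ C κ → ri e F ∈ C μ
  tp : ∀ {κ μ : Type} [Fintype κ] [Fintype μ] {F : (κ → R) → ℂ} {F' : (μ → R) → ℂ},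
    F ∈ C κ → F' ∈ C μ → tp F F' ∈ C (κ ⊕ μ)
  ct : ∀ {κ : Type} [Fintype κ] {F : (κ ⊕ Fin 2 → R) → ℂ}, F ∈ C (κ ⊕ Fin 2) → ct inv jj F ∈ C κ
  one : (fun _ => 1) ∈ C (Fin 0)
  fm : ∀ c, fm cls inv jj c ∈ C (Fin 2)
  st : ∀ {κ : Type} [Fintype κ] {F : (κ → R) → ℂ}, F ∈ C κ → st inv jj F ∈ C κ

variable {cls inv jj} {C : ∀ κ : Type, Submodule ℂ ((κ → R) → ℂ)}

/-- The bijection for the iterated contraction. -/
def eqc (κ : Type) (n : ℕ) : κ ⊕ (Fin (n + 1) ⊕ Fin (n + 1)) ≃ (κ ⊕ (Fin n ⊕ Fin n)) ⊕ Fin 2 where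
  toFun := Sum.elim (fun k => Sum.inl (Sum.inl k))
    (Sum.elim (fun i => Fin.lastCases (motive := fun _ => (κ ⊕ (Fin n ⊕ Fin n)) ⊕ Fin 2)
      (Sum.inr 1) (fun j => Sum.inl (Sum.inr (Sum.inl j))) i)
      (fun i => Fin.lastCases (motive := fun _ => (κ ⊕ (Fin n ⊕ Fin n)) ⊕ Fin 2)
      (Sum.inr 0) (fun j => Sum.inl (Sum.inr (Sum.inr j))) i))
  invFun := Sum.elim (Sum.elim (fun k => Sum.inl k) (Sum.elim (fun j => Sum.inr (Sum.inl j.castSucc))
      (fun j => Sum.inr (Sum.inr j.castSucc))))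
    ![Sum.inr (Sum.inr (Fin.last n)), Sum.inr (Sum.inl (Fin.last n))]
  left_inv := by
    rintro (k | i | i)
    · rfl
    · refine Fin.lastCases ?_ (fun j => ?_) i
      · simp
      · simp
    · refine Fin.lastCases ?_ (fun j => ?_) i
      · simp
      · simp
  right_inv := by
    rintro ((k | i | i) | i)
    · rfl
    · simp
    · simp
    · fin_cases i
      · simp
      · simp

lemma mc (h : Fam cls inv jj C) (n : ℕ) : ∀ (κ : Type) [Fintype κ]
    (F : (κ ⊕ (Fin n ⊕ Fin n) → R) → ℂ), F ∈ C (κ ⊕ (Fin n ⊕ Fin n)) →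
    (fun I : κ → R => ∑ J : Fin n → R, (∏ k, (jj (J k))⁻¹) *
      F (Sum.elim I (Sum.elim J fun k => inv (J k)))) ∈ C κ := by
  induction n with
  | zero =>
    intro κ _ F hF
    let e : κ ⊕ (Fin 0 ⊕ Fin 0) ≃ κ := Equiv.sumEmpty κ (Fin 0 ⊕ Fin 0)
    have h1 := h.ri e hF
    convert h1 using 1
    funext I
    rw [Fintype.sum_eq_single (fun k => k.elim0 : Fin 0 → R)]
    · rw [Finset.univ_eq_empty, Finset.prod_empty, one_mul]
      change F _ = F _
      congr 1
      funext k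
      rcases k with k | k | k
      · rfl
      · exact k.elim0
      · exact k.elim0
    · intro J hJ
      exact absurd (Subsingleton.elim _ _) hJ
  | succ n ih =>
    intro κ _ F hF
    have h1 := ih κ _ (h.ct (h.ri (eqc κ n) hF))
    convert h1 using 1
    funext I
    rw [← (Fin.snocEquiv (fun _ : Fin (n + 1) => R)).sum_comp, Fintype.sum_prod_type,
      Finset.sum_comm]
    refine Finset.sum_congr rfl fun J _ => ?_
    rw [ct, Finset.mul_sum]
    refine Finset.sum_congr rfl fun x _ => ?_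
    rw [Fin.prod_univ_castSucc, ← mul_assoc]
    congr 1
    · congr 1
      · refine Finset.prod_congr rfl fun k _ => ?_
        simp [Fin.snocEquiv]
      · simp [Fin.snocEquiv]
    · change F _ = F _
      congr 1
      funext k
      rcases k with k | k | k
      · rfl
      · refine Fin.lastCases ?_ (fun j => ?_) k
        · simp [eqc, Fin.snocEquiv]
        · simp [eqc, Fin.snocEquiv]
      · refine Fin.lastCases ?_ (fun j => ?_) k
        · simp [eqc, Fin.snocEquiv]
        · simp [eqc, Fin.snocEquiv]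

/-- The pairing over all places of `μ`. -/
def pr (inv : R → R) (jj : R → ℂ) {κ μ : Type} [Fintype μ] [DecidableEq μ] (a : (μ → R) → ℂ)
    (D : (κ ⊕ μ → R) → ℂ) : (κ → R) → ℂ := fun I =>
  ∑ J : μ → R, (∏ k, (jj (J k))⁻¹) * (a (fun k => inv (J k)) * D (Sum.elim I J))

lemma pr_mem (h : Fam cls inv jj C) {κ μ : Type} [Fintype κ] [Fintype μ] [DecidableEq μ]
    {a : (μ → R) → ℂ} {D : (κ ⊕ μ → R) → ℂ} (ha : a ∈ C μ) (hD : D ∈ C (κ ⊕ μ)) :
    pr inv jj a D ∈ C κ := by
  let n := Fintype.card μ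
  let e : μ ≃ Fin n := Fintype.equivFin μ
  have h1 := h.ri (Equiv.sumAssoc κ (Fin n) (Fin n))
    (h.tp (h.ri (Equiv.sumCongr (Equiv.refl κ) e) hD) (h.ri e ha))
  have h2 := mc h n κ _ h1
  convert h2 using 1
  funext I
  rw [pr, ← (e.arrowCongr (Equiv.refl R)).symm.sum_comp]
  refine Finset.sum_congr rfl fun J _ => ?_
  congr 1
  · rw [← e.prod_comp]
    exact Finset.prod_congr rfl fun k _ => by simp
  · rw [mul_comm]
    change D _ * a _ = D _ * a _
    congr 2
    funext k
    rcases k with k | k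
    · rfl
    · simp

end

end Pool.Agent.X259.T
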