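import Pool.Agent.X259.T.T19

/-!
# The family of complex tensors attached to a family of rational classes
-/

set_option autoImplicit false
set_option linter.unusedSectionVars false
set_option linter.unusedDecidableInType false
set_option linter.unusedFintypeInType false

namespace Pool.Agent.X259.T

open Matrix Finset Module Pool.Agent.H204R3.SP Pool.Agent.H204R3.GP Pool.Agent.W516

noncomputable section

variable {W : Type} [AddCommGroup W] [Module ℚ W] {R : Type} [Fintype R] [DecidableEq R]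
  {T : Type} [AddCommGroup T] [Module ℂ T] {Q : Type} [DecidableEq Q]

/-- The complex tensors. -/
def Fm (S : Matrix R R ℂ) (b : Basis R ℚ W) (C : ∀ m : ℕ, Submodule ℚ (RF W m)) (κ : Type) :
    Submodule ℂ ((κ → R) → ℂ) :=
  Submodule.span ℂ {F | ∃ (m : ℕ) (e : Fin m × Fin 2 ≃ κ) (ψ : RF W m), ψ ∈ C m ∧
    F = ri e (kr (Fin m × Fin 2) S *ᵥ gt b ψ)}

variable {S S' : Matrix R R ℂ} {b : Basis R ℚ W} {C : ∀ m : ℕ, Submodule ℚ (RF W m)}
  {κ μ : Type}

lemma ri_add (e : κ ≃ μ) (F F' : (κ → R) → ℂ) : ri e (F + F') = ri e F + ri e F' := rfl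

lemma ri_smul (e : κ ≃ μ) (a : ℂ) (F : (κ → R) → ℂ) : ri e (a • F) = a • ri e F := rfl

lemma ri_zero (e : κ ≃ μ) : ri e (0 : (κ → R) → ℂ) = 0 := rfl

lemma ri_ri {ν : Type} (e : κ ≃ μ) (e' : μ ≃ ν) (F : (κ → R) → ℂ) :
    ri e' (ri e F) = ri (e.trans e') F := rfl

lemma ri_mem (e : κ ≃ μ) {F : (κ → R) → ℂ} (hF : F ∈ Fm S b C κ) : ri e F ∈ Fm S b C μ := by
  induction hF using Submodule.span_induction with
  | mem F h =>
    obtain ⟨m, e', ψ, hψ, rfl⟩ := h
    exact Submodule.subset_span ⟨m, e'.trans e, ψ, hψ, rfl⟩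
  | zero => exact Submodule.zero_mem _
  | add a c _ _ ha hc => exact Submodule.add_mem _ ha hc
  | smul c a _ ha => exact Submodule.smul_mem _ _ ha

lemma gen_mem {m : ℕ} (e : Fin m × Fin 2 ≃ κ) {ψ : RF W m} (hψ : ψ ∈ C m) :
    ri e (kr (Fin m × Fin 2) S *ᵥ gt b ψ) ∈ Fm S b C κ :=
  Submodule.subset_span ⟨m, e, ψ, hψ, rfl⟩

lemma tp_add_left [Fintype κ] [Fintype μ] (F F₁ : (κ → R) → ℂ) (F' : (μ → R) → ℂ) :
    tp (F + F₁) F' = tp F F' + tp F₁ F' := by
  funext I
  change (F _ + F₁ _) * F' _ = F _ * F' _ + F₁ _ * F' _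
  ring

lemma tp_add_right [Fintype κ] [Fintype μ] (F : (κ → R) → ℂ) (F' F₁ : (μ → R) → ℂ) :
    tp F (F' + F₁) = tp F F' + tp F F₁ := by
  funext I
  change F _ * (F' _ + F₁ _) = F _ * F' _ + F _ * F₁ _
  ring

lemma tp_smul_left [Fintype κ] [Fintype μ] (a : ℂ) (F : (κ → R) → ℂ) (F' : (μ → R) → ℂ) :
    tp (a • F) F' = a • tp F F' := by
  funext I
  change (a * F _) * F' _ = a * (F _ * F' _)
  ring

lemma tp_smul_right [Fintype κ] [Fintype μ] (a : ℂ) (F : (κ → R) → ℂ) (F' : (μ → R) → ℂ) :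
    tp F (a • F') = a • tp F F' := by
  funext I
  change F _ * (a * F' _) = a * (F _ * F' _)
  ring

section closed

variable {ι : Type} [Fintype ι] [DecidableEq ι] {ω₀ : W →ₗ[ℚ] W →ₗ[ℚ] ℚ} {β β' : ι → W}
  (hC : Closed ω₀ β β' C)

include hC in
lemma tp_mem [Fintype κ] [Fintype μ] {F : (κ → R) → ℂ} {F' : (μ → R) → ℂ}
    (hF : F ∈ Fm S b C κ) (hF' : F' ∈ Fm S b C μ) : tp F F' ∈ Fm S b C (κ ⊕ μ) := by
  classical
  induction hF using Submodule.span_induction with
  | mem F h =>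
    obtain ⟨m, e, ψ, hψ, rfl⟩ := h
    induction hF' using Submodule.span_induction with
    | mem F' h' =>
      obtain ⟨m', e', ψ', hψ', rfl⟩ := h'
      have h1 : mprod ψ ψ' ∈ C (m + m') := hC.prod m m' ψ hψ ψ' hψ' _ (mprod_apply ψ ψ')
      have h2 := gen_mem (S := S) (b := b) ((e0 m m').symm.trans (Equiv.sumCongr e e')) h1
      rw [gt_mprod, kr_ri, kr_tp] at h2
      convert h2 using 1
      have h3 : ∀ F : ((Fin m × Fin 2) ⊕ (Fin m' × Fin 2) → R) → ℂ,
          ri (e0 m m').symm (ri (e0 m m') F) = F := by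
        intro F
        funext J
        change F _ = F _
        congr 1
        funext k
        simp
      rw [← ri_ri (e0 m m').symm, h3]
      rfl
    | zero =>
      rw [show tp _ (0 : (μ → R) → ℂ) = 0 from by
        funext I
        change _ * (0 : ℂ) = 0
        rw [mul_zero]]
      exact Submodule.zero_mem _
    | add a c _ _ ha hc => rw [tp_add_right]; exact Submodule.add_mem _ ha hc
    | smul c a _ ha => rw [tp_smul_right]; exact Submodule.smul_mem _ _ ha
  | zero =>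
    rw [show tp (0 : (κ → R) → ℂ) F' = 0 from by
      funext I
      change (0 : ℂ) * _ = 0
      rw [zero_mul]]
    exact Submodule.zero_mem _
  | add a c _ _ ha hc => rw [tp_add_left]; exact Submodule.add_mem _ ha hc
  | smul c a _ ha => rw [tp_smul_left]; exact Submodule.smul_mem _ _ ha

lemma cK_ri [Fintype κ] [Fintype μ] (K : Matrix R R ℂ) (e : κ ≃ μ) (F : (κ ⊕ Fin 2 → R) → ℂ) :
    cK K (ri (Equiv.sumCongr e (Equiv.refl (Fin 2))) F) = ri e (cK K F) := by
  funext I
  change ∑ y, ∑ z, _ = ∑ y, ∑ z, _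
  refine Finset.sum_congr rfl fun y _ => Finset.sum_congr rfl fun z _ => ?_
  congr 1
  change F _ = F _
  congr 1
  funext k
  rcases k with k | k <;> rfl

include hC in
/-- Contractions with the matrix of the dual bases. -/
lemma cK_mem [Fintype κ] {M : Matrix R R ℂ} (hM : Sᵀ * M * S = -Km b β β')
    {F : (κ ⊕ Fin 2 → R) → ℂ} (hF : F ∈ Fm S b C (κ ⊕ Fin 2)) : cK M F ∈ Fm S b C κ := by
  classical
  induction hF using Submodule.span_induction with
  | mem F h =>
    obtain ⟨m', e, ψ, hψ, rfl⟩ := h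
    have hc := Fintype.card_congr e
    rw [Fintype.card_prod, Fintype.card_fin, Fintype.card_fin, Fintype.card_sum,
      Fintype.card_fin] at hc
    obtain ⟨m, rfl⟩ : ∃ m, m' = m + 1 := ⟨m' - 1, by omega⟩
    have hc' : Fintype.card (Fin m × Fin 2) = Fintype.card κ := by
      rw [Fintype.card_prod, Fintype.card_fin, Fintype.card_fin]
      omega
    let e2 : Fin m × Fin 2 ≃ κ := Fintype.equivOfCardEq hc'
    let e3 : (Fin m × Fin 2) ⊕ Fin 2 ≃ κ ⊕ Fin 2 := Equiv.sumCongr e2 (Equiv.refl (Fin 2))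
    let σ : Equiv.Perm (Fin (m + 1) × Fin 2) := (e.trans e3.symm).trans (e1 m).symm
    have h1 : ψ.domDomCongr σ ∈ C (m + 1) := hC.perm _ σ ψ hψ
    have h2 : mcontr β β' (ψ.domDomCongr σ) ∈ C m :=
      hC.contr m _ h1 _ (mcontr_apply β β' _)
    have h3 := gen_mem (S := S) (b := b) e2 h2
    have h4 : ri e (kr (Fin (m + 1) × Fin 2) S *ᵥ gt b ψ) =
        ri e3 (kr _ S *ᵥ (ri (e1 m) (gt b (ψ.domDomCongr σ)))) := by
      rw [gt_dom, kr_ri, kr_ri, ri_ri, ri_ri]
      congr 1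
      ext p
      simp [σ]
    rw [h4, cK_ri, cK_kr, hM, cK_neg, ← gt_mcontr, Matrix.mulVec_neg]
    exact Submodule.neg_mem _ h3
  | zero =>
    rw [show cK M (0 : (κ ⊕ Fin 2 → R) → ℂ) = 0 from by
      funext I
      simp [cK]]
    exact Submodule.zero_mem _
  | add a c _ _ ha hc => rw [cK_add]; exact Submodule.add_mem _ ha hc
  | smul c a _ ha => rw [cK_smul]; exact Submodule.smul_mem _ _ ha

end closed

lemma st_add [Fintype κ] (inv : R → R) (jj : R → ℂ) (F F' : (κ → R) → ℂ) :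
    st inv jj (F + F') = st inv jj F + st inv jj F' := by
  funext I
  change _ * star (F _ + F' _) = _ * star (F _) + _ * star (F' _)
  rw [star_add, mul_add]

lemma st_smul [Fintype κ] (inv : R → R) (jj : R → ℂ) (a : ℂ) (F : (κ → R) → ℂ) :
    st inv jj (a • F) = star a • st inv jj F := by
  funext I
  change _ * star (a * F _) = star a * (_ * star (F _))
  rw [star_mul']
  ring

lemma st_ri [Fintype κ] [Fintype μ] (inv : R → R) (jj : R → ℂ) (e : κ ≃ μ) (F : (κ → R) → ℂ) :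
    st inv jj (ri e F) = ri e (st inv jj F) := by
  funext I
  change (∏ k, jj (I k)) * _ = (∏ k, jj (I (e k))) * _
  rw [e.prod_comp fun k => jj (I k)]
  rfl

variable {per : W →+ T} {ω₀ : W →ₗ[ℚ] W →ₗ[ℚ] ℚ} {b' : Basis R ℝ T} {cls : R → Q} {inv : R → R}
  {jj : R → ℂ} (hf : Frame per ω₀ b b' cls inv jj S S')

include hf in
lemma st_gen [Fintype κ] [DecidableEq κ] {ψ : MultilinearMap ℚ (fun _ : κ => W) ℚ}
    (hψ : IsHodgeTensor per ψ) : st inv jj (kr κ S *ᵥ gt b ψ) = kr κ S *ᵥ gt b ψ := by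
  have h1 := (hodge_iff_kr per b b' hf.hb ψ).1 hψ (-Complex.I) (by simp)
  conv_rhs => rw [← h1, Matrix.mulVec_mulVec, ← kr_mul]
  funext I
  change (∏ k, jj (I k)) * star ((kr κ S *ᵥ gt b ψ) (fun k => inv (I k))) = _
  rw [kr_mulVec, kr_mulVec, star_sum, Finset.mul_sum]
  refine Finset.sum_congr rfl fun J _ => ?_
  rw [star_mul', star_prod, ← mul_assoc, ← Finset.prod_mul_distrib]
  congr 1
  · exact Finset.prod_congr rfl fun k _ => hf.star _ _
  · rw [gt]
    simp

include hf in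
lemma st_mem [Fintype κ] (hH : ∀ m, ∀ ψ ∈ C m, IsHodgeTensor per ψ) {F : (κ → R) → ℂ}
    (hF : F ∈ Fm S b C κ) : st inv jj F ∈ Fm S b C κ := by
  induction hF using Submodule.span_induction with
  | mem F h =>
    obtain ⟨m, e, ψ, hψ, rfl⟩ := h
    rw [st_ri, st_gen hf (hH m ψ hψ)]
    exact gen_mem e hψ
  | zero =>
    rw [show st inv jj (0 : (κ → R) → ℂ) = 0 from by
      funext I
      change _ * star (0 : ℂ) = 0
      rw [star_zero, mul_zero]]
    exact Submodule.zero_mem _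
  | add a c _ _ ha hc => rw [st_add]; exact Submodule.add_mem _ ha hc
  | smul c a _ ha => rw [st_smul]; exact Submodule.smul_mem _ _ ha

lemma Jm_transpose (hB : Bas cls inv jj) : (Jm inv jj)ᵀ = -Jm inv jj := by
  ext x y
  rw [Matrix.transpose_apply, Matrix.neg_apply]
  simp only [Jm, JJ]
  by_cases h : x = inv y
  · rw [if_pos h, if_pos (by rw [h, hB.inv2]), h, hB.neg, neg_neg]
  · rw [if_neg h, if_neg (fun h' => h (by rw [h', hB.inv2])), neg_zero]

include hf in
lemma Om_eq : Om b ω₀ = S' * Jm inv jj * S'ᵀ := by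
  rw [← hf.form]
  have h1 : Sᵀ * S'ᵀ = 1 := by rw [← Matrix.transpose_mul, hf.one', Matrix.transpose_one]
  calc Om b ω₀ = (S' * S) * Om b ω₀ * (Sᵀ * S'ᵀ) := by rw [hf.one', h1, one_mul, mul_one]
    _ = _ := by simp only [mul_assoc]

include hf in
lemma Om_transpose : (Om b ω₀)ᵀ = -Om b ω₀ := by
  rw [Om_eq hf, Matrix.transpose_mul, Matrix.transpose_mul, Matrix.transpose_transpose,
    Jm_transpose hf.bas, neg_mul, mul_neg, mul_assoc]

section dual

variable {ι : Type} [Fintype ι] [DecidableEq ι] {β β' : ι → W}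

lemma Om_Km (hβ : ∀ w : W, w = ∑ i, ω₀ w (β' i) • β i) : Om b ω₀ * (Km b β β')ᵀ = 1 := by
  ext x y
  rw [Matrix.mul_apply]
  have h1 : ∀ z, Om b ω₀ x z * (Km b β β')ᵀ z y =
      ∑ i, ((ω₀ (b x) (b z) * b.repr (β' i) z * b.repr (β i) y : ℚ) : ℂ) := by
    intro z
    rw [Matrix.transpose_apply, Om, Km, Finset.mul_sum]
    refine Finset.sum_congr rfl fun i _ => ?_
    push_cast
    ring
  simp only [h1]
  rw [Finset.sum_comm]
  have h2 : ∀ i, ∑ z, ((ω₀ (b x) (b z) * b.repr (β' i) z * b.repr (β i) y : ℚ) : ℂ) =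
      ((ω₀ (b x) (β' i) * b.repr (β i) y : ℚ) : ℂ) := by
    intro i
    rw [← Rat.cast_sum, ← Finset.sum_mul]
    congr 2
    conv_rhs => rw [← b.sum_repr (β' i)]
    rw [map_sum]
    exact Finset.sum_congr rfl fun z _ => by rw [map_smul, smul_eq_mul, mul_comm]
  simp only [h2]
  rw [← Rat.cast_sum]
  have h3 : ∑ i, ω₀ (b x) (β' i) * b.repr (β i) y = b.repr (b x) y := by
    conv_rhs => rw [hβ (b x)]
    rw [map_sum, Finset.sum_apply']
    exact Finset.sum_congr rfl fun i _ => by rw [map_smul, Finsupp.smul_apply, smul_eq_mul]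
  rw [h3, Basis.repr_self, Finsupp.single_apply, Matrix.one_apply]
  split_ifs <;> simp

include hf in
lemma ct_matrix (hβ : ∀ w : W, w = ∑ i, ω₀ w (β' i) • β i) :
    Sᵀ * (-Jm inv jj) * S = -Km b β β' := by
  have h1 : Om b ω₀ * (Sᵀ * (-Jm inv jj) * S) = 1 := by
    have h2 : S'ᵀ * Sᵀ = 1 := by rw [← Matrix.transpose_mul, hf.one, Matrix.transpose_one]
    rw [Om_eq hf]
    calc S' * Jm inv jj * S'ᵀ * (Sᵀ * (-Jm inv jj) * S) =
        S' * (Jm inv jj * ((S'ᵀ * Sᵀ) * (-Jm inv jj))) * S := by simp only [mul_assoc]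
      _ = 1 := by rw [h2, one_mul, mul_neg, Jm_sq hf.bas, neg_neg, mul_one, hf.one']
  have h3 : Om b ω₀ * (-Km b β β') = 1 := by
    have h4 := congrArg Matrix.transpose (Om_Km (b := b) hβ)
    rw [Matrix.transpose_mul, Matrix.transpose_transpose, Om_transpose hf,
      Matrix.transpose_one, mul_neg, ← neg_mul] at h4
    exact mul_eq_one_comm.1 h4
  exact (left_inv_eq_right_inv (mul_eq_one_comm.1 h1) h3)

include hf in
/-- The family is closed under the operations. -/
theorem fam (hcl : ∀ x y, cls x = cls y) (hβ : ∀ w : W, w = ∑ i, ω₀ w (β' i) • β i)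
    (hC : Closed ω₀ β β' C) (hH : ∀ m, ∀ ψ ∈ C m, IsHodgeTensor per ψ) :
    Fam cls inv jj (Fm S b C) where
  ri := fun e _ hF => ri_mem e hF
  tp := fun hF hF' => tp_mem hC hF hF'
  ct := fun hF => by
    rw [ct_eq hf.bas]
    exact cK_mem hC (ct_matrix hf hβ) hF
  one := by
    let ψ : RF W 0 := MultilinearMap.constOfIsEmpty ℚ _ 1
    have h1 : ψ ∈ C 0 := hC.one ψ fun v => rfl
    have h2 := gen_mem (S := S) (b := b) (Equiv.equivOfIsEmpty (Fin 0 × Fin 2) (Fin 0)) h1
    convert h2 using 1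
    funext I
    change (1 : ℂ) = (kr (Fin 0 × Fin 2) S *ᵥ gt b ψ) _
    rw [kr_mulVec, Fintype.sum_unique, Finset.univ_eq_empty, Finset.prod_empty, one_mul]
    change (1 : ℂ) = ((1 : ℚ) : ℂ)
    rw [Rat.cast_one]
  fm := fun c => by
    by_cases hc : ∀ x, cls x = c
    · let e : Fin 1 × Fin 2 ≃ Fin 2 := Equiv.uniqueProd (Fin 2) (Fin 1)
      let ψ : RF W 1 := MultilinearMap.domDomCongr e.symm (MultilinearMap.mk'
        (fun v : Fin 2 → W => ω₀ (v 0) (v 1)) (by
          intro v i x y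
          fin_cases i <;> simp [Function.update]) (by
          intro v i c x
          fin_cases i <;> simp [Function.update]))
      have hψ : ∀ v, ψ v = ω₀ (v (0, 0)) (v (0, 1)) := fun v => rfl
      have h1 := gen_mem (S := S) (b := b) e (hC.pol ψ hψ)
      convert h1 using 1
      rw [← kr_ri]
      have h2 : ri e (gt b ψ) = mt (Om b ω₀) := by
        funext J
        change gt b ψ _ = _
        rw [gt, hψ]
        rfl
      rw [h2]
      funext I
      change _ = (kr (Fin 2) S *ᵥ fun J => Om b ω₀ (J 0) (J 1)) I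
      rw [kr_two, hf.form, fm, if_pos (hc _)]
      rfl
    · have h1 : fm cls inv jj c = 0 := by
        funext I
        rw [fm, if_neg]
        · rfl
        · intro h
          exact hc fun x => by rw [hcl x (I 0), h]
      rw [h1]
      exact Submodule.zero_mem _
  st := fun hF => st_mem hf hH hF

end dual

end

end Pool.Agent.X259.T
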