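import Pool.Agent.X259.T.T20
import Pool.Agent.W516.DRRank
import Pool.Agent.X259.Q6

/-!
# Rational components
-/

set_option autoImplicit false
set_option linter.unusedSectionVars false
set_option linter.unusedDecidableInType false
set_option linter.unusedFintypeInType false

namespace Pool.Agent.X259.T

open Matrix Finset Module Pool.Agent.H204R3.SP Pool.Agent.H204R3.GP Pool.Agent.W516

noncomputable section

/-- A function with values in the complex numbers is in the span of its rational components. -/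
lemma mem_of_comp {X : Type} [Fintype X] (P : Submodule ℂ (X → ℂ)) (F : X → ℂ)
    (h : ∀ lam : ℂ →ₗ[ℚ] ℚ, (fun x => ((lam (F x) : ℚ) : ℂ)) ∈ P) : F ∈ P := by
  classical
  let U : Submodule ℚ ℂ := Submodule.span ℚ (Set.range F)
  have hU : FiniteDimensional ℚ U := FiniteDimensional.span_of_finite ℚ (Set.finite_range F)
  let u := Module.finBasis ℚ U
  have hex : ∀ i, ∃ lam : ℂ →ₗ[ℚ] ℚ, lam ∘ₗ U.subtype = u.coord i := fun i =>
    LinearMap.exists_extend _
  choose lam hlam using hex
  have hF : F = ∑ i, ((u i : U) : ℂ) • (fun x => ((lam i (F x) : ℚ) : ℂ)) := by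
    funext x
    have hx : F x ∈ U := Submodule.subset_span ⟨x, rfl⟩
    have h1 := u.sum_repr ⟨F x, hx⟩
    have h2 := congrArg (fun y : U => (y : ℂ)) h1
    simp only [Submodule.coe_sum, Submodule.coe_smul] at h2
    rw [Finset.sum_apply, ← h2]
    refine Finset.sum_congr rfl fun i _ => ?_
    rw [Pi.smul_apply, smul_eq_mul, mul_comm]
    have h3 : lam i (F x) = u.repr ⟨F x, hx⟩ i := congrArg (fun f : U →ₗ[ℚ] ℚ => f ⟨F x, hx⟩) (hlam i)
    rw [h3, Rat.smul_def]
  rw [hF]
  exact Submodule.sum_mem _ fun i _ => Submodule.smul_mem _ _ (h (lam i))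

lemma eq_zero_of_comp {z : ℂ} (h : ∀ lam : ℂ →ₗ[ℚ] ℚ, lam z = 0) : z = 0 :=
  (Module.forall_dual_apply_eq_zero_iff ℚ z).1 h

variable {W : Type} [AddCommGroup W] [Module ℚ W] {R : Type} [Fintype R] [DecidableEq R]
  (b : Basis R ℚ W) {κ : Type} [Fintype κ] [DecidableEq κ]

/-- The multilinear form with given coefficients. -/
def mkc (G : (κ → R) → ℚ) : MultilinearMap ℚ (fun _ : κ => W) ℚ :=
  ∑ J : κ → R, G J • (MultilinearMap.mkPiAlgebra ℚ κ ℚ).compLinearMap (fun k => b.coord (J k))

lemma mkc_apply (G : (κ → R) → ℚ) (I : κ → R) : mkc b G (fun k => b (I k)) = G I := by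
  rw [mkc, _root_.sum_apply, Finset.sum_eq_single I]
  · rw [_root_.smul_apply, MultilinearMap.compLinearMap_apply, MultilinearMap.mkPiAlgebra_apply,
      smul_eq_mul]
    rw [Finset.prod_eq_one, mul_one]
    intro k _
    rw [Basis.coord_apply, Basis.repr_self, Finsupp.single_eq_same]
  · intro J _ hJ
    obtain ⟨k, hk⟩ := Function.ne_iff.1 hJ
    rw [_root_.smul_apply, MultilinearMap.compLinearMap_apply, MultilinearMap.mkPiAlgebra_apply,
      smul_eq_mul, Finset.prod_eq_zero (Finset.mem_univ k), mul_zero]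
    rw [Basis.coord_apply, Basis.repr_self, Finsupp.single_eq_of_ne hk]
  · intro h
    exact absurd (Finset.mem_univ _) h

lemma gt_mkc (G : (κ → R) → ℚ) : gt b (mkc b G) = fun J => ((G J : ℚ) : ℂ) := by
  funext J
  rw [gt, mkc_apply]

lemma gt_inj {ψ ψ' : MultilinearMap ℚ (fun _ : κ => W) ℚ} (h : gt b ψ = gt b ψ') : ψ = ψ' := by
  refine Basis.ext_multilinear (fun _ => b) fun J => ?_
  have h1 := congrFun h J
  exact Rat.cast_injective (α := ℂ) h1

/-- The matrix of an endomorphism. -/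
def mW (Z : Module.End ℚ W) : Matrix R R ℂ := fun i j => ((b.repr (Z (b i)) j : ℚ) : ℂ)

lemma dk_mW (Z : Module.End ℚ W) (ψ : MultilinearMap ℚ (fun _ : κ => W) ℚ) (J : κ → R) :
    (dk κ (mW b Z) *ᵥ gt b ψ) J =
      ((∑ k, ψ (Function.update (fun k => b (J k)) k (Z (b (J k)))) : ℚ) : ℂ) := by
  rw [dk_mulVec, Rat.cast_sum]
  refine Finset.sum_congr rfl fun k _ => ?_
  have h1 : ψ (Function.update (fun k => b (J k)) k (Z (b (J k)))) =
      ∑ y, b.repr (Z (b (J k))) y * ψ (fun l => b (Function.update J k y l)) := by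
    conv_lhs => rw [← b.sum_repr (Z (b (J k)))]
    rw [MultilinearMap.map_update_sum]
    refine Finset.sum_congr rfl fun y _ => ?_
    rw [MultilinearMap.map_update_smul, smul_eq_mul]
    congr 2
    funext l
    by_cases hl : l = k
    · subst hl
      rw [Function.update_self, Function.update_self]
    · rw [Function.update_of_ne hl, Function.update_of_ne hl]
  rw [h1, Rat.cast_sum]
  refine Finset.sum_congr rfl fun y _ => ?_
  rw [Rat.cast_mul]
  rfl

lemma kills_iff (Z : Module.End ℚ W) (ψ : MultilinearMap ℚ (fun _ : κ => W) ℚ) :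
    Kills Z ψ ↔ dk κ (mW b Z) *ᵥ gt b ψ = 0 := by
  constructor
  · intro h
    funext J
    rw [dk_mW, h]
    simp
  · intro h
    let Ψ : MultilinearMap ℚ (fun _ : κ => W) ℚ := ∑ k, ψ.compLinearMap
      (Function.update (fun _ : κ => (LinearMap.id : W →ₗ[ℚ] W)) k Z)
    have hΨ : ∀ v, Ψ v = ∑ k, ψ (Function.update v k (Z (v k))) := by
      intro v
      rw [_root_.sum_apply]
      refine Finset.sum_congr rfl fun k _ => ?_
      rw [MultilinearMap.compLinearMap_apply]
      congr 1
      funext l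
      by_cases hl : l = k
      · subst hl
        rw [Function.update_self, Function.update_self]
      · rw [Function.update_of_ne hl, Function.update_of_ne hl]
        rfl
    have h0 : Ψ = 0 := by
      refine Basis.ext_multilinear (fun _ => b) fun J => ?_
      rw [hΨ]
      have h1 := congrFun h J
      rw [dk_mW] at h1
      exact Rat.cast_injective (α := ℂ) (by rw [h1]; simp)
    intro v
    rw [← hΨ, h0]
    rfl

/-- The components of a complex matrix. -/
def cmE (lam : ℂ →ₗ[ℚ] ℚ) (A : Matrix R R ℂ) : Module.End ℚ W :=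
  Matrix.toLin b b (A.map lam)ᵀ

lemma mW_cmE (lam : ℂ →ₗ[ℚ] ℚ) (A : Matrix R R ℂ) :
    mW b (cmE b lam A) = fun i j => ((lam (A i j) : ℚ) : ℂ) := by
  ext i j
  rw [mW, cmE, Matrix.toLin_self, map_sum, Finset.sum_apply', Finset.sum_eq_single j]
  · rw [map_smul, Basis.repr_self, Finsupp.smul_apply, Finsupp.single_eq_same, smul_eq_mul, mul_one]
    rfl
  · intro k _ hk
    rw [map_smul, Basis.repr_self, Finsupp.smul_apply, Finsupp.single_eq_of_ne (Ne.symm hk),
      smul_zero]
  · intro h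
    exact absurd (Finset.mem_univ _) h

lemma lam_mul_rat (lam : ℂ →ₗ[ℚ] ℚ) (z : ℂ) (q : ℚ) : lam (z * (q : ℂ)) = lam z * q := by
  have h1 : z * (q : ℂ) = q • z := by rw [Rat.smul_def, mul_comm]
  rw [h1, map_smul, smul_eq_mul, mul_comm]

lemma lam_rat_mul (lam : ℂ →ₗ[ℚ] ℚ) (z : ℂ) (q : ℚ) : lam ((q : ℂ) * z) = q * lam z := by
  have h1 : (q : ℂ) * z = q • z := by rw [Rat.smul_def]
  rw [h1, map_smul, smul_eq_mul]

lemma lam_dk (lam : ℂ →ₗ[ℚ] ℚ) (A : Matrix R R ℂ) (ψ : MultilinearMap ℚ (fun _ : κ => W) ℚ)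
    (J : κ → R) : (dk κ (mW b (cmE b lam A)) *ᵥ gt b ψ) J =
      ((lam ((dk κ A *ᵥ gt b ψ) J) : ℚ) : ℂ) := by
  rw [dk_mulVec, dk_mulVec, map_sum, Rat.cast_sum]
  refine Finset.sum_congr rfl fun k _ => ?_
  rw [map_sum, Rat.cast_sum]
  refine Finset.sum_congr rfl fun y _ => ?_
  rw [mW_cmE, gt, lam_mul_rat, Rat.cast_mul]

/-- A complex matrix kills a rational form if and only if its components do. -/
lemma dk_iff (A : Matrix R R ℂ) (ψ : MultilinearMap ℚ (fun _ : κ => W) ℚ) :
    dk κ A *ᵥ gt b ψ = 0 ↔ ∀ lam : ℂ →ₗ[ℚ] ℚ, Kills (cmE b lam A) ψ := by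
  constructor
  · intro h lam
    rw [kills_iff b]
    funext J
    rw [lam_dk, h]
    simp
  · intro h
    funext J
    refine eq_zero_of_comp fun lam => ?_
    have h1 := congrFun ((kills_iff b _ _).1 (h lam)) J
    rw [lam_dk] at h1
    exact Rat.cast_injective (α := ℂ) (by rw [h1]; simp)

lemma mW_comp (Z Z' : Module.End ℚ W) : mW b (Z * Z') = mW b Z' * mW b Z := by
  ext i j
  rw [Matrix.mul_apply]
  simp only [mW]
  have h1 : b.repr ((Z * Z') (b i)) j = ∑ l, b.repr (Z' (b i)) l * b.repr (Z (b l)) j := by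
    rw [Module.End.mul_apply]
    conv_lhs => rw [← b.sum_repr (Z' (b i))]
    rw [map_sum, map_sum, Finset.sum_apply']
    refine Finset.sum_congr rfl fun l _ => ?_
    rw [map_smul, map_smul, Finsupp.smul_apply, smul_eq_mul]
  rw [h1, Rat.cast_sum]
  exact Finset.sum_congr rfl fun l _ => by rw [Rat.cast_mul]

lemma mW_inj {Z Z' : Module.End ℚ W} (h : mW b Z = mW b Z') : Z = Z' := by
  refine b.ext fun i => b.repr.injective (Finsupp.ext fun j => ?_)
  have h1 := congrFun (congrFun h i) j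
  exact Rat.cast_injective (α := ℂ) h1

/-- A complex matrix commutes with a rational one if and only if its components do. -/
lemma comm_iff (A : Matrix R R ℂ) (Z : Module.End ℚ W) :
    A * mW b Z = mW b Z * A ↔ ∀ lam : ℂ →ₗ[ℚ] ℚ, Z * cmE b lam A = cmE b lam A * Z := by
  have key : ∀ (lam : ℂ →ₗ[ℚ] ℚ) i j, ((lam ((A * mW b Z) i j) : ℚ) : ℂ) =
      (mW b (Z * cmE b lam A)) i j ∧ ((lam ((mW b Z * A) i j) : ℚ) : ℂ) =
      (mW b (cmE b lam A * Z)) i j := by
    intro lam i j
    rw [mW_comp, mW_comp, Matrix.mul_apply, Matrix.mul_apply, Matrix.mul_apply,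
      Matrix.mul_apply, mW_cmE, map_sum, map_sum, Rat.cast_sum, Rat.cast_sum]
    constructor
    · refine Finset.sum_congr rfl fun k _ => ?_
      simp only [mW]
      rw [lam_mul_rat, Rat.cast_mul]
    · refine Finset.sum_congr rfl fun k _ => ?_
      simp only [mW]
      rw [lam_rat_mul, Rat.cast_mul]
  constructor
  · intro h lam
    apply mW_inj b
    ext i j
    rw [← (key lam i j).1, ← (key lam i j).2, h]
  · intro h
    ext i j
    rw [← sub_eq_zero]
    refine eq_zero_of_comp fun lam => ?_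
    rw [map_sub, sub_eq_zero]
    apply Rat.cast_injective (α := ℂ)
    rw [(key lam i j).1, (key lam i j).2, h lam]

end

end Pool.Agent.X259.T
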