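import Pool.Agent.X259.T.T21

/-!
# The family of the Hodge classes
-/

set_option autoImplicit false
set_option linter.unusedSectionVars false
set_option linter.unusedDecidableInType false
set_option linter.unusedFintypeInType false

namespace Pool.Agent.X259.T

open Matrix Finset Module Pool.Agent.H204R3.SP Pool.Agent.H204R3.GP Pool.Agent.W516

noncomputable section

variable {W : Type} [AddCommGroup W] [Module ℚ W] {R : Type} [Fintype R] [DecidableEq R]
  {T : Type} [AddCommGroup T] [Module ℂ T] {Q : Type} [DecidableEq Q]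
  {per : W →+ T} {ω₀ : W →ₗ[ℚ] W →ₗ[ℚ] ℚ} {b : Basis R ℚ W} {b' : Basis R ℝ T} {cls : R → Q}
  {inv : R → R} {jj : R → ℂ} {S S' : Matrix R R ℂ} (hf : Frame per ω₀ b b' cls inv jj S S')
  {κ : Type} [Fintype κ] [DecidableEq κ]

/-- The Hodge classes. -/
abbrev Hd (per : W →+ T) (m : ℕ) : Submodule ℚ (RF W m) :=
  Pool.Agent.X259.Q.hodgeSub per (Fin m × Fin 2)

section closed

variable {ι : Type} [Fintype ι] [DecidableEq ι] {β β' : ι → W}

include hf in
lemma Nz_Km (hβ : ∀ w : W, w = ∑ i, ω₀ w (β' i) • β i) {z : ℂ} (hz : ‖z‖ = 1) :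
    (Nz b' z)ᵀ * Km b β β' * Nz b' z = Km b β β' := by
  have h1 := Om_Km (b := b) hβ
  have h2 := hf.pol z hz
  have hz0 : z ≠ 0 := by
    rintro rfl
    simp at hz
  have h3 : Nz b' z⁻¹ * Nz b' z = 1 := by
    rw [← Nz_mul, mul_inv_cancel₀ hz0, Nz_one]
  have h4 : Om b ω₀ * ((Nz b' z)ᵀ * (Km b β β')ᵀ * Nz b' z) = 1 := by
    have h5 : Nz b' z * (Om b ω₀ * ((Nz b' z)ᵀ * (Km b β β')ᵀ * Nz b' z)) = Nz b' z := by
      calc _ = (Nz b' z * Om b ω₀ * (Nz b' z)ᵀ) * (Km b β β')ᵀ * Nz b' z := by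
            simp only [mul_assoc]
        _ = _ := by rw [h2, h1, one_mul]
    calc _ = (Nz b' z⁻¹ * Nz b' z) * (Om b ω₀ * ((Nz b' z)ᵀ * (Km b β β')ᵀ * Nz b' z)) := by
          rw [h3, one_mul]
      _ = Nz b' z⁻¹ * (Nz b' z * (Om b ω₀ * ((Nz b' z)ᵀ * (Km b β β')ᵀ * Nz b' z))) := by
          rw [mul_assoc]
      _ = 1 := by rw [h5, h3]
  have h6 : (Km b β β')ᵀ = (Nz b' z)ᵀ * (Km b β β')ᵀ * Nz b' z :=
    left_inv_eq_right_inv (mul_eq_one_comm.1 h1) h4
  have h7 := congrArg Matrix.transpose h6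
  rw [Matrix.transpose_mul, Matrix.transpose_mul, Matrix.transpose_transpose,
    Matrix.transpose_transpose, ← mul_assoc] at h7
  exact h7.symm

include hf in
lemma closed_hd (hωH : IsHodgeBilinear per ω₀) (hβ : ∀ w : W, w = ∑ i, ω₀ w (β' i) • β i) :
    Closed ω₀ β β' (Hd per) where
  one := fun ψ hψ => by
    refine (hodge_iff_kr per b b' hf.hb ψ).2 fun z hz => ?_
    funext I
    rw [kr_mulVec, Fintype.sum_unique, Finset.univ_eq_empty, Finset.prod_empty, one_mul]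
    congr 1
    exact Subsingleton.elim _ _
  pol := fun ψ hψ => by
    have : FiniteDimensional ℚ W := Module.Finite.of_basis b
    have h1 : ψ = DR.one2 ω₀ := MultilinearMap.ext fun v => by rw [hψ, DR.one2_apply]
    rw [h1]
    exact DR.one2_hodge per ω₀ hωH
  perm := fun m σ ψ hψ => by
    refine (hodge_iff_kr per b b' hf.hb _).2 fun z hz => ?_
    rw [gt_dom, kr_ri, (hodge_iff_kr per b b' hf.hb ψ).1 hψ z hz]
  prod := fun m m' ψ hψ ψ' hψ' ψ'' h => by
    have h1 : ψ'' = mprod ψ ψ' := MultilinearMap.ext fun v => by rw [h, mprod_apply]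
    rw [h1]
    refine (hodge_iff_kr per b b' hf.hb _).2 fun z hz => ?_
    rw [gt_mprod, kr_ri, kr_tp, (hodge_iff_kr per b b' hf.hb ψ).1 hψ z hz,
      (hodge_iff_kr per b b' hf.hb ψ').1 hψ' z hz]
  contr := fun m ψ hψ ψ' h => by
    have h1 : ψ' = mcontr β β' ψ := MultilinearMap.ext fun v => by rw [h, mcontr_apply]
    rw [h1]
    refine (hodge_iff_kr per b b' hf.hb _).2 fun z hz => ?_
    rw [gt_mcontr]
    have h2 := cK_kr (Km b β β') (Nz b' z) (ri (e1 m) (gt b ψ))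
    rw [Nz_Km hf hβ hz, kr_ri, (hodge_iff_kr per b b' hf.hb ψ).1 hψ z hz] at h2
    exact h2.symm

end closed

include hf in
lemma kr_injS {G : (κ → R) → ℂ} (h : kr κ S *ᵥ G = 0) : G = 0 := by
  have h1 : kr κ S' *ᵥ (kr κ S *ᵥ G) = G := by
    rw [Matrix.mulVec_mulVec, ← kr_mul, hf.one', kr_one, Matrix.one_mulVec]
  rw [← h1, h, Matrix.mulVec_zero]

include hf in
lemma conj_dk (A : Matrix R R ℂ) (G : (κ → R) → ℂ) :
    dk κ A *ᵥ (kr κ S *ᵥ G) = kr κ S *ᵥ (dk κ (S' * A * S) *ᵥ G) := by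
  have h1 := dk_conj (κ := κ) (A := S' * A * S) hf.one'
  have h2 : S * (S' * A * S) * S' = A := by
    calc _ = (S * S') * A * (S * S') := by simp only [mul_assoc]
      _ = A := by rw [hf.one, one_mul, mul_one]
  rw [h2] at h1
  rw [Matrix.mulVec_mulVec, Matrix.mulVec_mulVec, h1]

include hf in
lemma dk_gen (A : Matrix R R ℂ) (ψ : MultilinearMap ℚ (fun _ : κ => W) ℚ) :
    dk κ A *ᵥ (kr κ S *ᵥ gt b ψ) = 0 ↔
      ∀ lam : ℂ →ₗ[ℚ] ℚ, Kills (cmE b lam (S' * A * S)) ψ := by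
  rw [conj_dk hf, ← dk_iff]
  constructor
  · exact kr_injS hf
  · intro h
    rw [h, Matrix.mulVec_zero]

include hf in
lemma mem_LL_of {C : ∀ m : ℕ, Submodule ℚ (RF W m)} {A : Matrix R R ℂ}
    (h : ∀ m, ∀ ψ ∈ C m, dk (Fin m × Fin 2) (S' * A * S) *ᵥ gt b ψ = 0) :
    A ∈ LL (Fm S b C) := by
  intro n F hF
  induction hF using Submodule.span_induction with
  | mem F h' =>
    obtain ⟨m, e, ψ, hψ, rfl⟩ := h'
    rw [dk_ri, conj_dk hf, h m ψ hψ, Matrix.mulVec_zero]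
    rfl
  | zero => rw [Matrix.mulVec_zero]
  | add a c _ _ ha hc => rw [Matrix.mulVec_add, ha, hc, add_zero]
  | smul c a _ ha => rw [Matrix.mulVec_smul, ha, smul_zero]

include hf in
lemma kills_of_LL {C : ∀ m : ℕ, Submodule ℚ (RF W m)} (hBf : Fam cls inv jj (Fm S b C))
    {A : Matrix R R ℂ} (hA : A ∈ LL (Fm S b C)) (lam : ℂ →ₗ[ℚ] ℚ) (m : ℕ) (ψ : RF W m)
    (hψ : ψ ∈ C m) : Kills (cmE b lam (S' * A * S)) ψ := by
  have h1 := LL_gen hBf hA (gen_mem (S := S) (b := b) (Equiv.refl (Fin m × Fin 2)) hψ)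
  exact (dk_gen hf A ψ).1 h1 lam

include hf in
/-- The degree in which the Lie algebra is determined. -/
lemma lieDet_of {C : ∀ m : ℕ, Submodule ℚ (RF W m)} {N : ℕ}
    (hdet : ∀ Z : Module.End ℚ W, (∀ m, 2 * m ≤ N → ∀ ψ ∈ C m, Kills Z ψ) →
      ∀ m, ∀ ψ ∈ C m, Kills Z ψ) : LieDet (Fm S b C) N := by
  intro A hA
  have h1 : A ∈ LL (Fm S b C) := by
    refine mem_LL_of hf fun m ψ hψ => ?_
    refine (dk_iff b _ _).2 fun lam => ?_
    refine hdet _ (fun m' hm' ψ' hψ' => ?_) m ψ hψ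
    refine (dk_gen hf A ψ').1 ?_ lam
    have h2 := hA (m' * 2) (by omega) _ (gen_mem (S := S) (b := b)
      (finProdFinEquiv : Fin m' × Fin 2 ≃ Fin (m' * 2)) hψ')
    rw [dk_ri] at h2
    funext I
    have h3 := congrFun h2
      (fun k => I ((finProdFinEquiv : Fin m' × Fin 2 ≃ Fin (m' * 2)).symm k))
    simp only [ri, Equiv.symm_apply_apply, Pi.zero_apply] at h3
    exact h3
  exact h1

lemma odd_zero {C : ∀ m : ℕ, Submodule ℚ (RF W m)} {n : ℕ} (hn : Odd n) {F : (Fin n → R) → ℂ}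
    (hF : F ∈ Fm S b C (Fin n)) : F = 0 := by
  induction hF using Submodule.span_induction with
  | mem F h =>
    obtain ⟨m, e, ψ, hψ, rfl⟩ := h
    have hc := Fintype.card_congr e
    rw [Fintype.card_prod, Fintype.card_fin, Fintype.card_fin, Fintype.card_fin] at hc
    obtain ⟨k, hk⟩ := hn
    omega
  | zero => rfl
  | add a c _ _ ha hc => rw [ha, hc, add_zero]
  | smul c a _ ha => rw [ha, smul_zero]

include hf in
/-- Descent to the rational classes. -/
lemma mem_of_Fm {C : ∀ m : ℕ, Submodule ℚ (RF W m)}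
    (hperm : ∀ (m : ℕ) (σ : Equiv.Perm (Fin m × Fin 2)), ∀ ψ ∈ C m, ψ.domDomCongr σ ∈ C m)
    {m : ℕ} {ψ : RF W m} (h : kr (Fin m × Fin 2) S *ᵥ gt b ψ ∈ Fm S b C (Fin m × Fin 2)) :
    ψ ∈ C m := by
  have key : ∀ F ∈ Fm S b C (Fin m × Fin 2), ∀ lam : ℂ →ₗ[ℚ] ℚ,
      mkc b (fun J => lam ((kr (Fin m × Fin 2) S' *ᵥ F) J)) ∈ C m := by
    intro F hF
    induction hF using Submodule.span_induction with
    | mem F h' =>
      obtain ⟨m', e, ψ', hψ', rfl⟩ := h'
      intro lam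
      have hc := Fintype.card_congr e
      rw [Fintype.card_prod, Fintype.card_prod, Fintype.card_fin, Fintype.card_fin,
        Fintype.card_fin] at hc
      obtain rfl : m' = m := by omega
      have h1 : kr (Fin m' × Fin 2) S' *ᵥ ri e (kr (Fin m' × Fin 2) S *ᵥ gt b ψ') =
          gt b (ψ'.domDomCongr e) := by
        rw [kr_ri, Matrix.mulVec_mulVec, ← kr_mul, hf.one', kr_one, Matrix.one_mulVec, gt_dom]
      rw [h1]
      have h2 : mkc b (fun J => lam (gt b (ψ'.domDomCongr e) J)) = lam 1 • ψ'.domDomCongr e := by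
        apply gt_inj b
        rw [gt_mkc, gt_smul]
        funext J
        have h3 : lam (gt b (ψ'.domDomCongr e) J) = lam 1 * (ψ'.domDomCongr e fun k => b (J k)) := by
          conv_lhs => rw [gt, ← one_mul (Rat.cast _ : ℂ), lam_mul_rat]
        rw [h3, Rat.cast_mul]
        rfl
      rw [h2]
      exact Submodule.smul_mem _ _ (hperm _ e ψ' hψ')
    | zero =>
      intro lam
      have h1 : mkc b (fun J => lam ((kr (Fin m × Fin 2) S' *ᵥ (0 : (Fin m × Fin 2 → R) → ℂ)) J)) =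
          0 := by
        apply gt_inj b
        rw [gt_mkc, Matrix.mulVec_zero]
        funext J
        simp [gt]
      rw [h1]
      exact Submodule.zero_mem _
    | add a c _ _ ha hc =>
      intro lam
      have h1 : mkc b (fun J => lam ((kr (Fin m × Fin 2) S' *ᵥ (a + c)) J)) =
          mkc b (fun J => lam ((kr (Fin m × Fin 2) S' *ᵥ a) J)) +
          mkc b (fun J => lam ((kr (Fin m × Fin 2) S' *ᵥ c) J)) := by
        apply gt_inj b
        rw [gt_mkc, gt_add, gt_mkc, gt_mkc, Matrix.mulVec_add]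
        funext J
        rw [Pi.add_apply, Pi.add_apply, map_add, Rat.cast_add]
      rw [h1]
      exact Submodule.add_mem _ (ha lam) (hc lam)
    | smul c a _ ha =>
      intro lam
      have h1 : mkc b (fun J => lam ((kr (Fin m × Fin 2) S' *ᵥ (c • a)) J)) =
          mkc b (fun J => (lam ∘ₗ LinearMap.mulLeft ℚ c) ((kr (Fin m × Fin 2) S' *ᵥ a) J)) := by
        congr 1
        funext J
        rw [Matrix.mulVec_smul]
        rfl
      rw [h1]
      exact ha _
  have h1 : kr (Fin m × Fin 2) S' *ᵥ (kr (Fin m × Fin 2) S *ᵥ gt b ψ) = gt b ψ := by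
    rw [Matrix.mulVec_mulVec, ← kr_mul, hf.one', kr_one, Matrix.one_mulVec]
  obtain ⟨lam, hlam⟩ : ∃ lam : ℂ →ₗ[ℚ] ℚ, lam 1 = 1 := by
    obtain ⟨g, hg⟩ := LinearMap.exists_leftInverse_of_injective
      (LinearMap.toSpanSingleton ℚ ℂ 1) (by
        rw [LinearMap.ker_eq_bot']
        intro q hq
        rw [LinearMap.toSpanSingleton_apply] at hq
        exact (smul_eq_zero.1 hq).resolve_right one_ne_zero)
    refine ⟨g, ?_⟩
    have h := congrArg (fun f : ℚ →ₗ[ℚ] ℚ => f 1) hg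
    simpa using h
  have h2 := key _ h lam
  rw [h1] at h2
  have h3 : mkc b (fun J => lam (gt b ψ J)) = ψ := by
    apply gt_inj b
    rw [gt_mkc]
    funext J
    have h4 : lam (gt b ψ J) = ψ fun k => b (J k) := by
      rw [gt, ← one_mul (Rat.cast _ : ℂ), lam_mul_rat, hlam, one_mul]
    rw [h4]
    rfl
  rwa [h3] at h2

include hf in
/-- **One power decides**, in coordinates. -/
theorem one_power_frame {ι : Type} [Fintype ι] [DecidableEq ι] {β β' : ι → W}
    (hcl : ∀ x y, cls x = cls y) (hβ : ∀ w : W, w = ∑ i, ω₀ w (β' i) • β i)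
    (hωH : IsHodgeBilinear per ω₀) {C : ∀ m : ℕ, Submodule ℚ (RF W m)}
    (hC : Closed ω₀ β β' C) (hH : ∀ m, ∀ ψ ∈ C m, IsHodgeTensor per ψ)
    {N : ℕ} (hN : 2 ≤ N) (hdet : LieDet (Fm S b (Hd per)) N) {m : ℕ} (hNm : N ≤ 2 * m)
    (hnum : ((m : ℝ) + 1) ^ (Fintype.card R * Fintype.card R) *
      ((Fintype.card R : ℝ) - 2 * (1 - Real.cos (2 * Real.pi / N))) ^ (2 * m) <
        (Fintype.card R : ℝ) ^ (2 * m))
    (heq : ∀ ψ : RF W m, IsHodgeTensor per ψ → ψ ∈ C m) (m' : ℕ) (ψ : RF W m')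
    (hψ : IsHodgeTensor per ψ) : ψ ∈ C m' := by
  have hCf := fam hf hcl hβ hC hH
  have hBf := fam hf hcl hβ (closed_hd hf hωH hβ) (fun m ψ hψ => hψ)
  have hle : ∀ κ : Type, Fm S b C κ ≤ Fm S b (Hd per) κ := by
    intro κ
    refine Submodule.span_mono ?_
    rintro F ⟨m, e, ψ, hψ, rfl⟩
    exact ⟨m, e, ψ, hH m ψ hψ, rfl⟩
  have heq' : ∀ F ∈ Fm S b (Hd per) (Fin (2 * m)), F ∈ Fm S b C (Fin (2 * m)) := by
    intro F hF
    induction hF using Submodule.span_induction with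
    | mem F h =>
      obtain ⟨m'', e, ψ, hψ, rfl⟩ := h
      have hc := Fintype.card_congr e
      rw [Fintype.card_prod, Fintype.card_fin, Fintype.card_fin, Fintype.card_fin] at hc
      obtain rfl : m'' = m := by omega
      exact gen_mem e (heq ψ hψ)
    | zero => exact Submodule.zero_mem _
    | add a c _ _ ha hc => exact Submodule.add_mem _ ha hc
    | smul c a _ ha => exact Submodule.smul_mem _ _ ha
  have h1 := effective hf.bas hCf hBf hle (fun n hn F hF => odd_zero hn hF) hN hdet hNm heq' hnum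
    (Fin m' × Fin 2)
  exact mem_of_Fm hf hC.perm (h1 (gen_mem (S := S) (b := b) (Equiv.refl (Fin m' × Fin 2)) hψ))

end

end Pool.Agent.X259.T
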