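import Pool.Agent.X259.T.T22

/-!
# The Lie algebra of the Hodge group is determined in degree four without factors of type IV
-/

set_option autoImplicit false
set_option linter.unusedSectionVars false
set_option linter.unusedDecidableInType false
set_option linter.unusedFintypeInType false

namespace Pool.Agent.X259.T

open Matrix Finset Module Pool.Agent.H204R3.SP Pool.Agent.H204R3.GP Pool.Agent.W516

noncomputable section

variable {W : Type} [AddCommGroup W] [Module ℚ W] {R : Type} [Fintype R] [DecidableEq R]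
  {T : Type} [AddCommGroup T] [Module ℂ T] {Q : Type} [DecidableEq Q]
  {per : W →+ T} {ω₀ : W →ₗ[ℚ] W →ₗ[ℚ] ℚ} {b : Basis R ℚ W} {b' : Basis R ℝ T} {cls : R → Q}
  {inv : R → R} {jj : R → ℂ} {S S' : Matrix R R ℂ} (hf : Frame per ω₀ b b' cls inv jj S S')

/-- The Lie algebra of the Hodge group. -/
def LQ (per : W →+ T) : Set (Module.End ℚ W) :=
  {Z | ∀ m, ∀ ψ : RF W m, IsHodgeTensor per ψ → Kills Z ψ}

lemma lam_dk' {κ : Type} [Fintype κ] [DecidableEq κ] (lam : ℂ →ₗ[ℚ] ℚ) (Z : Module.End ℚ W)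
    (F : (κ → R) → ℂ) (J : κ → R) :
    (dk κ (mW b Z) *ᵥ fun J => ((lam (F J) : ℚ) : ℂ)) J =
      ((lam ((dk κ (mW b Z) *ᵥ F) J) : ℚ) : ℂ) := by
  rw [dk_mulVec, dk_mulVec, map_sum, Rat.cast_sum]
  refine Finset.sum_congr rfl fun k _ => ?_
  rw [map_sum, Rat.cast_sum]
  refine Finset.sum_congr rfl fun y _ => ?_
  simp only [mW]
  rw [lam_rat_mul, Rat.cast_mul]

include hf in
lemma conj_mem_LL {Z : Module.End ℚ W} (hZ : Z ∈ LQ per) :
    S * mW b Z * S' ∈ LL (Fm S b (Hd per)) := by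
  refine mem_LL_of hf fun m ψ hψ => ?_
  have h1 : S' * (S * mW b Z * S') * S = mW b Z := by
    calc _ = (S' * S) * mW b Z * (S' * S) := by simp only [mul_assoc]
      _ = _ := by rw [hf.one', one_mul, mul_one]
  rw [h1]
  exact (kills_iff b Z ψ).1 (hZ m ψ hψ)

include hf in
lemma hconn_hd (hper : DR.IsRationalStructure per) (M : Matrix R R ℂ)
    (hM : ∀ A ∈ LL (Fm S b (Hd per)), A * M = -(M * Aᵀ)) : mt M ∈ Fm S b (Hd per) (Fin 2) := by
  have hfd : FiniteDimensional ℚ W := Module.Finite.of_basis b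
  let M' : Matrix R R ℂ := S' * M * S'ᵀ
  have hMM : S * M' * Sᵀ = M := by
    have h1 : S'ᵀ * Sᵀ = 1 := by rw [← Matrix.transpose_mul, hf.one, Matrix.transpose_one]
    calc S * (S' * M * S'ᵀ) * Sᵀ = (S * S') * M * (S'ᵀ * Sᵀ) := by simp only [mul_assoc]
      _ = M := by rw [hf.one, h1, one_mul, mul_one]
  have hmt : mt M = kr (Fin 2) S *ᵥ mt M' := by
    funext I
    change _ = (kr (Fin 2) S *ᵥ fun J => M' (J 0) (J 1)) I
    rw [kr_two, hMM]
    rfl
  let P : Submodule ℂ ((Fin 2 → R) → ℂ) :=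
    (Fm S b (Hd per) (Fin 2)).comap (Matrix.mulVecLin (kr (Fin 2) S))
  have hP : mt M' ∈ P := by
    refine mem_of_comp P _ fun lam => ?_
    change kr (Fin 2) S *ᵥ _ ∈ Fm S b (Hd per) (Fin 2)
    let e : Fin 1 × Fin 2 ≃ Fin 2 := Equiv.uniqueProd (Fin 2) (Fin 1)
    let ψ : RF W 1 := mkc b (fun J => lam (M' (J (0, 0)) (J (0, 1))))
    have hgt : ri e (gt b ψ) = fun J => ((lam (mt M' J) : ℚ) : ℂ) := by
      rw [gt_mkc]
      rfl
    have hψ : IsHodgeTensor per ψ := by
      refine DR.hodge_of_kills per hper ψ fun Z hZ => ?_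
      have hZ' : Z ∈ LQ per := fun m ψ hψ => hZ m ψ hψ
      have h1 := hM _ (conj_mem_LL hf hZ')
      have h2 : mW b Z * M' = -(M' * (mW b Z)ᵀ) := by
        have h3 : S'ᵀ * Sᵀ = 1 := by rw [← Matrix.transpose_mul, hf.one, Matrix.transpose_one]
        have h3' : Sᵀ * S'ᵀ = 1 := by rw [← Matrix.transpose_mul, hf.one', Matrix.transpose_one]
        calc mW b Z * (S' * M * S'ᵀ) = (S' * S) * mW b Z * (S' * M * S'ᵀ) := by
              rw [hf.one', one_mul]
          _ = S' * ((S * mW b Z * S') * M) * S'ᵀ := by simp only [mul_assoc]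
          _ = -(S' * M * S'ᵀ * (mW b Z)ᵀ * (Sᵀ * S'ᵀ)) := by
              rw [h1]
              simp only [Matrix.transpose_mul, mul_neg, neg_mul, mul_assoc]
          _ = _ := by rw [h3', mul_one]
      have h4 : dk (Fin 2) (mW b Z) *ᵥ mt M' = 0 := dk_two_zero.2 h2
      rw [kills_iff b]
      have h5 : dk (Fin 2) (mW b Z) *ᵥ ri e (gt b ψ) = 0 := by
        rw [hgt]
        funext J
        rw [lam_dk', h4]
        simp
      rw [dk_ri] at h5
      funext I
      have h6 := congrFun h5 (fun k => I (e.symm k))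
      simp only [ri, Equiv.symm_apply_apply, Pi.zero_apply] at h6
      exact h6
    have h7 := gen_mem (S := S) (b := b) (C := Hd per) e hψ
    rw [← kr_ri, hgt] at h7
    exact h7
  rw [hmt]
  exact hP

include hf in
lemma om_nd {u : W} (hu : ∀ v, ω₀ u v = 0) : u = 0 := by
  have h1 : ∀ i, ∑ j, ((b.repr u j : ℚ) : ℂ) * Om b ω₀ j i = 0 := by
    intro i
    have h2 := hu (b i)
    conv_lhs at h2 => rw [← b.sum_repr u]
    rw [map_sum, LinearMap.sum_apply] at h2
    have h3 := congrArg (fun q : ℚ => (q : ℂ)) h2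
    simp only [map_smul, LinearMap.smul_apply, smul_eq_mul, Rat.cast_sum, Rat.cast_mul,
      Rat.cast_zero] at h3
    exact h3
  have h2 : Matrix.vecMul (fun j => ((b.repr u j : ℚ) : ℂ)) (Om b ω₀) = 0 := by
    funext i
    exact h1 i
  have h3 : Om b ω₀ * (Sᵀ * (-Jm inv jj) * S) = 1 := by
    have h2 : S'ᵀ * Sᵀ = 1 := by rw [← Matrix.transpose_mul, hf.one, Matrix.transpose_one]
    rw [Om_eq hf]
    calc S' * Jm inv jj * S'ᵀ * (Sᵀ * (-Jm inv jj) * S) =
        S' * (Jm inv jj * ((S'ᵀ * Sᵀ) * (-Jm inv jj))) * S := by simp only [mul_assoc]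
      _ = 1 := by rw [h2, one_mul, mul_neg, Jm_sq hf.bas, neg_neg, mul_one, hf.one']
  have h4 : (fun j => ((b.repr u j : ℚ) : ℂ)) = 0 := by
    have h5 := congrArg (fun v => Matrix.vecMul v (Sᵀ * (-Jm inv jj) * S)) h2
    simp only [Matrix.vecMul_vecMul, h3, Matrix.vecMul_one, Matrix.zero_vecMul] at h5
    exact h5
  refine b.repr.injective (Finsupp.ext fun j => ?_)
  rw [map_zero, Finsupp.zero_apply]
  have h5 := congrFun h4 j
  exact Rat.cast_injective (α := ℂ) (by rw [h5]; simp)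

include hf in
/-- An endomorphism which commutes with the Lie algebra of the Hodge group is a Hodge
endomorphism. -/
lemma hodgeEnd_of_comm (hper : DR.IsRationalStructure per) (hωH : IsHodgeBilinear per ω₀)
    (P : Module.End ℚ W) (hP : ∀ Z ∈ LQ per, Z * P = P * Z) : IsHodgeEnd per P := by
  have hfd : FiniteDimensional ℚ W := Module.Finite.of_basis b
  have h1 : IsHodgeTensor per (DR.one2 (ω₀.comp P)) := by
    refine DR.hodge_of_kills per hper _ fun Z hZ => ?_
    have hZ' : Z ∈ LQ per := fun m ψ hψ => hZ m ψ hψ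
    have h2 := (DR.kills_one2 ω₀ Z).1 (hZ 1 _ (DR.one2_hodge per ω₀ hωH))
    rw [DR.kills_one2]
    intro u v
    rw [LinearMap.comp_apply, LinearMap.comp_apply]
    have h3 : P (Z u) = Z (P u) := by
      have := congrArg (fun f : Module.End ℚ W => f u) (hP Z hZ')
      exact this.symm
    rw [h3]
    exact h2 _ _
  have h2 := (hodge_iff_kr per b b' hf.hb _).1 h1 Complex.I (by simp)
  let e : Fin 1 × Fin 2 ≃ Fin 2 := Equiv.uniqueProd (Fin 2) (Fin 1)
  have h3 : ri e (gt b (DR.one2 (ω₀.comp P))) = mt (mW b P * Om b ω₀) := by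
    funext J
    change gt b (DR.one2 (ω₀.comp P)) _ = (mW b P * Om b ω₀) (J 0) (J 1)
    rw [gt, DR.one2_apply, Matrix.mul_apply]
    change ((ω₀ (P (b (J 0))) (b (J 1)) : ℚ) : ℂ) = _
    conv_lhs => rw [← b.sum_repr (P (b (J 0)))]
    rw [map_sum, LinearMap.sum_apply, Rat.cast_sum]
    refine Finset.sum_congr rfl fun k _ => ?_
    rw [map_smul, LinearMap.smul_apply, smul_eq_mul, Rat.cast_mul]
    rfl
  have h4 := congrArg (ri e) h2
  rw [← kr_ri, h3] at h4
  have h5 : Nz b' Complex.I * (mW b P * Om b ω₀) * (Nz b' Complex.I)ᵀ = mW b P * Om b ω₀ := by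
    ext x y
    have h6 := congrFun h4 ![x, y]
    change (kr (Fin 2) (Nz b' Complex.I) *ᵥ fun J => (mW b P * Om b ω₀) (J 0) (J 1)) ![x, y] = _
      at h6
    rw [kr_two] at h6
    exact h6
  have h6 := hf.pol Complex.I (by simp)
  have h7 : Nz b' Complex.I * mW b P = mW b P * Nz b' Complex.I := by
    have hOm : Om b ω₀ * (Sᵀ * (-Jm inv jj) * S) = 1 := by
      have h2 : S'ᵀ * Sᵀ = 1 := by rw [← Matrix.transpose_mul, hf.one, Matrix.transpose_one]
      rw [Om_eq hf]
      calc S' * Jm inv jj * S'ᵀ * (Sᵀ * (-Jm inv jj) * S) =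
          S' * (Jm inv jj * ((S'ᵀ * Sᵀ) * (-Jm inv jj))) * S := by simp only [mul_assoc]
        _ = 1 := by rw [h2, one_mul, mul_neg, Jm_sq hf.bas, neg_neg, mul_one, hf.one']
    have hI : (Nz b' Complex.I)ᵀ * (Nz b' (-Complex.I))ᵀ = 1 := by
      rw [← Matrix.transpose_mul, ← Nz_mul, mul_neg, Complex.I_mul_I, neg_neg, Nz_one,
        Matrix.transpose_one]
    have h8 : (Nz b' Complex.I * mW b P) * (Om b ω₀ * (Nz b' Complex.I)ᵀ) =
        (mW b P * Nz b' Complex.I) * (Om b ω₀ * (Nz b' Complex.I)ᵀ) := by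
      calc _ = Nz b' Complex.I * (mW b P * Om b ω₀) * (Nz b' Complex.I)ᵀ := by
            simp only [mul_assoc]
        _ = mW b P * (Nz b' Complex.I * Om b ω₀ * (Nz b' Complex.I)ᵀ) := by rw [h5, h6]
        _ = _ := by simp only [mul_assoc]
    have h9 := congrArg (fun X => X * ((Nz b' (-Complex.I))ᵀ * (Sᵀ * (-Jm inv jj) * S))) h8
    have h10 : (Om b ω₀ * (Nz b' Complex.I)ᵀ) * ((Nz b' (-Complex.I))ᵀ *
        (Sᵀ * (-Jm inv jj) * S)) = 1 := by
      calc _ = Om b ω₀ * ((Nz b' Complex.I)ᵀ * (Nz b' (-Complex.I))ᵀ) *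
            (Sᵀ * (-Jm inv jj) * S) := by simp only [mul_assoc]
        _ = 1 := by rw [hI, mul_one, hOm]
    rw [mul_assoc (Nz b' Complex.I * mW b P), mul_assoc (mW b P * Nz b' Complex.I), h10, mul_one,
      mul_one] at h9
    exact h9
  -- the real extension
  let P₁ : T →ₗ[ℝ] T := b'.constr ℝ (fun i => per (P (b i)))
  have hP₁ : ∀ i, P₁ (b' i) = per (P (b i)) := fun i => b'.constr_basis ℝ _ i
  have hPr : ∀ i j, b'.repr (P₁ (b' i)) j = ((b.repr (P (b i)) j : ℚ) : ℝ) := by
    intro i j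
    rw [hP₁, per_repr per b b' hf.hb]
  have hcomm : ∀ v, P₁ (Complex.I • v) = Complex.I • P₁ v := by
    let m : T →ₗ[ℝ] T :=
      { toFun := fun x => Complex.I • x
        map_add' := fun _ _ => smul_add _ _ _
        map_smul' := fun _ _ => smul_comm _ _ _ }
    have h8 : P₁ ∘ₗ m = m ∘ₗ P₁ := by
      refine b'.ext fun i => b'.repr.injective (Finsupp.ext fun j => ?_)
      apply Complex.ofReal_injective
      have h9 := congrFun (congrFun h7 i) j
      rw [Matrix.mul_apply, Matrix.mul_apply] at h9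
      have e1 : ((b'.repr ((P₁ ∘ₗ m) (b' i)) j : ℝ) : ℂ) =
          ∑ k, Nz b' Complex.I i k * mW b P k j := by
        change ((b'.repr (P₁ (Complex.I • b' i)) j : ℝ) : ℂ) = _
        conv_lhs => rw [← b'.sum_repr (Complex.I • b' i)]
        rw [map_sum, map_sum, Finset.sum_apply', Complex.ofReal_sum]
        refine Finset.sum_congr rfl fun k _ => ?_
        rw [map_smul, map_smul, Finsupp.smul_apply, smul_eq_mul, Complex.ofReal_mul, hPr,
          Complex.ofReal_ratCast]
        rfl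
      have e2 : ((b'.repr ((m ∘ₗ P₁) (b' i)) j : ℝ) : ℂ) =
          ∑ k, mW b P i k * Nz b' Complex.I k j := by
        change ((b'.repr (Complex.I • P₁ (b' i)) j : ℝ) : ℂ) = _
        conv_lhs => rw [← b'.sum_repr (P₁ (b' i))]
        rw [Finset.smul_sum, map_sum, Finset.sum_apply', Complex.ofReal_sum]
        refine Finset.sum_congr rfl fun k _ => ?_
        rw [smul_comm, map_smul, Finsupp.smul_apply, smul_eq_mul, Complex.ofReal_mul, hPr,
          Complex.ofReal_ratCast]
        rfl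
      rw [e1, e2, h9]
    intro v
    exact congrArg (fun f : T →ₗ[ℝ] T => f v) h8
  refine ⟨{ toFun := P₁, map_add' := P₁.map_add, map_smul' := fun z v => ?_ }, fun w => ?_⟩
  · have h8 : ∀ w : T, z • w = z.re • w + z.im • (Complex.I • w) := by
      intro w
      conv_lhs => rw [← Complex.re_add_im z]
      rw [add_smul, mul_smul]
      rfl
    rw [h8, map_add, map_smul, map_smul, hcomm, RingHom.id_apply, h8]
  · change P₁ (per w) = per (P w)
    refine b'.repr.injective (Finsupp.ext fun j => ?_)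
    rw [per_repr per b b' hf.hb]
    have h8 : per w = ∑ i, ((b.repr w i : ℚ) : ℝ) • b' i := by
      conv_lhs => rw [← b'.sum_repr (per w)]
      exact Finset.sum_congr rfl fun i _ => by rw [per_repr per b b' hf.hb]
    rw [h8, map_sum, map_sum, Finset.sum_apply']
    conv_rhs => rw [← b.sum_repr w, map_sum, map_sum, Finset.sum_apply', Rat.cast_sum]
    refine Finset.sum_congr rfl fun i _ => ?_
    rw [map_smul, map_smul, map_smul, map_smul, Finsupp.smul_apply, Finsupp.smul_apply, hPr,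
      smul_eq_mul, smul_eq_mul, Rat.cast_mul]

end

end Pool.Agent.X259.T
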