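import Pool.Agent.X259.T.T23

/-!
# One power decides
-/

set_option autoImplicit false
set_option linter.unusedSectionVars false
set_option linter.unusedDecidableInType false
set_option linter.unusedFintypeInType false

namespace Pool.Agent.X259.T

open Matrix Finset Module Pool.Agent.H204R3.SP Pool.Agent.H204R3.GP Pool.Agent.W516

noncomputable section

variable {R : Type} [Fintype R] [DecidableEq R] {Q : Type} [DecidableEq Q]
  {cls : R → Q} {inv : R → R} {jj : R → ℂ}

/-- The Lie algebra of a family is determined by the tensors of degree at most `N`, if the family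
contains all tensors of degree two that are killed by the Lie algebra and if the central skew
elements of the commutant which kill the tensors of degree at most `N` lie in the Lie algebra. -/
theorem lieDet_center {B : ∀ κ : Type, Submodule ℂ ((κ → R) → ℂ)} (hB : Bas cls inv jj)
    (hBf : Fam cls inv jj B) {N : ℕ} (hN : 4 ≤ N)
    (hconn : ∀ M : Matrix R R ℂ, (∀ A ∈ LL B, A * M = -(M * Aᵀ)) → mt M ∈ B (Fin 2))
    (hZ : ∀ c : Matrix R R ℂ, c * Jm inv jj = -(Jm inv jj * cᵀ) → (∀ A ∈ LL B, A * c = c * A) →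
      (∀ P : Matrix R R ℂ, (∀ A ∈ LL B, A * P = P * A) → c * P = P * c) →
      (∀ n ≤ N, ∀ F ∈ B (Fin n), dk (Fin n) c *ᵥ F = 0) → c ∈ LL B) :
    LieDet B N := by
  intro A hA
  have hsk : A * Jm inv jj = -(Jm inv jj * Aᵀ) := skew_of_two hBf (hA 2 (by omega))
  have hk : Kills (Matrix.toLin' Aᵀ) (KC2.casimir (HH B) (traceNondeg hB hBf) (om inv jj)) := by
    refine kills_of_co _ _ ?_
    have h1 := cas_mem hB hBf
    have h2 := hA 4 hN _ (hBf.ri (finProdFinEquiv : Fin 2 × Fin 2 ≃ Fin (2 * 2)) h1)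
    change dk (Fin 4) A *ᵥ ri (finProdFinEquiv : Fin 2 × Fin 2 ≃ Fin (2 * 2)) _ = 0 at h2
    rw [dk_ri] at h2
    funext I
    have h3 := congrFun h2 (fun k => I ((finProdFinEquiv : Fin 2 × Fin 2 ≃ Fin (2 * 2)).symm k))
    simp only [ri, Equiv.symm_apply_apply, Pi.zero_apply] at h3
    exact h3
  obtain ⟨Y, hY, hcom⟩ := KC2.mem_of_kills_casimir (HH B) (traceNondeg hB hBf) (om inv jj)
    HH_bracket (om_nondeg hB) (skew_iff hsk) hk
  obtain ⟨A₀, hA₀, rfl⟩ := exists_of_HH hY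
  have hc : ∀ D ∈ LL B, D * (A - A₀) = (A - A₀) * D := by
    intro D hD
    have h1 := hcom _ (mem_HH.2 hD)
    rw [← map_sub, ← Matrix.transpose_sub, Module.End.mul_eq_comp, Module.End.mul_eq_comp,
      ← Matrix.toLin'_mul, ← Matrix.toLin'_mul, ← Matrix.transpose_mul,
      ← Matrix.transpose_mul] at h1
    exact (Matrix.transpose_injective (Matrix.toLin'.injective h1)).symm
  have hsk' : (A - A₀) * Jm inv jj = -(Jm inv jj * (A - A₀)ᵀ) := by
    rw [sub_mul, hsk, LL_skew hBf hA₀, Matrix.transpose_sub, mul_sub]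
    abel
  have hP : ∀ P : Matrix R R ℂ, (∀ D ∈ LL B, D * P = P * D) →
      (A - A₀) * P = P * (A - A₀) := by
    intro P hP
    have h1 : mt (P * Jm inv jj) ∈ B (Fin 2) := by
      refine hconn _ fun D hD => ?_
      rw [← mul_assoc, hP D hD, mul_assoc, LL_skew hBf hD, mul_neg, mul_assoc]
    have h2 := hA 2 (by omega) _ h1
    have h3 := hA₀ 2 _ h1
    rw [dk_two_zero] at h2 h3
    have h4 : (A - A₀) * (P * Jm inv jj) = -(P * Jm inv jj * (A - A₀)ᵀ) := by
      rw [sub_mul, h2, h3, Matrix.transpose_sub, mul_sub]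
      abel
    rw [mul_assoc P, ← neg_eq_iff_eq_neg.2 hsk', mul_neg, neg_neg, ← mul_assoc, ← mul_assoc] at h4
    have h5 := congrArg (fun M => M * Jm inv jj) h4
    simp only [mul_assoc, Jm_sq hB, mul_neg, mul_one, neg_inj] at h5
    exact h5
  have hlow : ∀ n ≤ N, ∀ F ∈ B (Fin n), dk (Fin n) (A - A₀) *ᵥ F = 0 := by
    intro n hn F hF
    have h1 := dk_smul_add (κ := Fin n) A A₀ (-1) F
    rw [hA n hn F hF, hA₀ n F hF, smul_zero, add_zero, neg_one_smul, ← sub_eq_add_neg] at h1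
    exact h1
  have hmem := hZ _ hsk' hc hP hlow
  have h6 : A = A₀ + (A - A₀) := by abel
  have h7 : A ∈ LL B := by
    rw [h6]
    exact Submodule.add_mem _ hA₀ hmem
  exact h7

variable {W : Type} [AddCommGroup W] [Module ℚ W]
  {T : Type} [AddCommGroup T] [Module ℂ T]
  {per : W →+ T} {ω₀ : W →ₗ[ℚ] W →ₗ[ℚ] ℚ} {b : Basis R ℚ W} {b' : Basis R ℝ T}
  {S S' : Matrix R R ℂ} (hf : Frame per ω₀ b b' cls inv jj S S')

include hf in
lemma comps_skew {c : Matrix R R ℂ} (hc : c * Jm inv jj = -(Jm inv jj * cᵀ))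
    (lam : ℂ →ₗ[ℚ] ℚ) (u v : W) : ω₀ (cmE b lam (S' * c * S) u) v =
      -ω₀ u (cmE b lam (S' * c * S) v) := by
  have h1 : (S' * c * S) * Om b ω₀ = -(Om b ω₀ * (S' * c * S)ᵀ) := by
    rw [Om_eq hf]
    have h3 : Sᵀ * S'ᵀ = 1 := by rw [← Matrix.transpose_mul, hf.one', Matrix.transpose_one]
    have h4 : S'ᵀ * Sᵀ = 1 := by rw [← Matrix.transpose_mul, hf.one, Matrix.transpose_one]
    calc S' * c * S * (S' * Jm inv jj * S'ᵀ) = S' * (c * ((S * S') * Jm inv jj)) * S'ᵀ := by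
          simp only [mul_assoc]
      _ = S' * (-(Jm inv jj * cᵀ)) * S'ᵀ := by rw [hf.one, one_mul, hc]
      _ = -(S' * Jm inv jj * (S'ᵀ * Sᵀ) * cᵀ * S'ᵀ) := by
          rw [h4]
          simp only [mul_neg, neg_mul, mul_assoc, mul_one]
      _ = _ := by
          simp only [Matrix.transpose_mul, mul_assoc]
  let P := cmE b lam (S' * c * S)
  have h2 : ∀ i j, ω₀ (P (b i)) (b j) = -ω₀ (b i) (P (b j)) := by
    intro i j
    have h3 := congrArg lam (congrFun (congrFun h1 i) j)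
    rw [Matrix.neg_apply, Matrix.mul_apply, Matrix.mul_apply, map_neg, map_sum, map_sum] at h3
    have e1 : ω₀ (P (b i)) (b j) = ∑ k, lam ((S' * c * S) i k * Om b ω₀ k j) := by
      conv_lhs => rw [← b.sum_repr (P (b i))]
      rw [map_sum, LinearMap.sum_apply]
      refine Finset.sum_congr rfl fun k _ => ?_
      rw [map_smul, LinearMap.smul_apply, smul_eq_mul, Om, lam_mul_rat]
      congr 1
      apply Rat.cast_injective (α := ℂ)
      exact congrFun (congrFun (mW_cmE b lam (S' * c * S)) i) k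
    have e2 : ω₀ (b i) (P (b j)) = ∑ k, lam (Om b ω₀ i k * (S' * c * S)ᵀ k j) := by
      conv_lhs => rw [← b.sum_repr (P (b j))]
      rw [map_sum]
      refine Finset.sum_congr rfl fun k _ => ?_
      rw [map_smul, smul_eq_mul, Om, lam_rat_mul, Matrix.transpose_apply, mul_comm]
      congr 1
      apply Rat.cast_injective (α := ℂ)
      exact congrFun (congrFun (mW_cmE b lam (S' * c * S)) j) k
    rw [e1, e2]
    exact h3
  have h4 : ω₀.comp P = -(ω₀.flip.comp P).flip := by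
    refine b.ext fun i => b.ext fun j => ?_
    exact h2 i j
  exact congrArg (fun f : W →ₗ[ℚ] W →ₗ[ℚ] ℚ => f u v) h4

include hf in
/-- The Lie algebra of the Hodge group is determined in degree `N`. -/
theorem lieDet_hd (hcl : ∀ x y, cls x = cls y) (hper : DR.IsRationalStructure per)
    (hωH : IsHodgeBilinear per ω₀) {ι : Type} [Fintype ι] [DecidableEq ι] {β β' : ι → W}
    (hβ : ∀ w : W, w = ∑ i, ω₀ w (β' i) • β i) {N : ℕ} (hN : 4 ≤ N)
    (hZ : ∀ P : Module.End ℚ W, IsHodgeEnd per P →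
      (∀ P' : Module.End ℚ W, IsHodgeEnd per P' → P * P' = P' * P) →
      (∀ u v, ω₀ (P u) v = -ω₀ u (P v)) →
      (∀ m, 2 * m ≤ N → ∀ ψ : RF W m, IsHodgeTensor per ψ → Kills P ψ) →
      ∀ m, ∀ ψ : RF W m, IsHodgeTensor per ψ → Kills P ψ) :
    LieDet (Fm S b (Hd per)) N := by
  have hfd : FiniteDimensional ℚ W := Module.Finite.of_basis b
  have hBf := fam hf hcl hβ (closed_hd hf hωH hβ) (fun m ψ hψ => hψ)
  refine lieDet_center hf.bas hBf hN (hconn_hd hf hper) fun c hsk hcomm hbi hlow => ?_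
  refine mem_LL_of hf fun m ψ hψ => ?_
  refine (dk_iff b _ _).2 fun lam => ?_
  have hSS : ∀ X : Matrix R R ℂ, S' * (S * X * S') * S = X := by
    intro X
    calc _ = (S' * S) * X * (S' * S) := by simp only [mul_assoc]
      _ = _ := by rw [hf.one', one_mul, mul_one]
  have hconj : ∀ X Y : Matrix R R ℂ, X * (S * Y * S') = (S * Y * S') * X →
      (S' * X * S) * Y = Y * (S' * X * S) := by
    intro X Y h
    calc (S' * X * S) * Y = S' * X * S * Y * (S' * S) := by rw [hf.one', mul_one]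
      _ = S' * (X * (S * Y * S')) * S := by simp only [mul_assoc]
      _ = S' * ((S * Y * S') * X) * S := by rw [h]
      _ = (S' * S) * Y * (S' * X * S) := by simp only [mul_assoc]
      _ = _ := by rw [hf.one', one_mul]
  refine hZ (cmE b lam (S' * c * S)) ?_ ?_ ?_ ?_ m ψ hψ
  · refine hodgeEnd_of_comm hf hper hωH _ fun Z hZ' => ?_
    refine (comm_iff b _ Z).1 ?_ lam
    exact hconj c (mW b Z) (hcomm _ (conj_mem_LL hf hZ')).symm
  · intro P' hP'
    symm
    refine (comm_iff b _ P').1 ?_ lam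
    refine hconj c (mW b P') (hbi _ fun A hA => ?_)
    -- `A` commutes with `S * mW b P' * S'`
    have h1 : (S' * A * S) * mW b P' = mW b P' * (S' * A * S) := by
      refine (comm_iff b _ P').2 fun mu => ?_
      symm
      exact DR.comm_hodgeEnd per ω₀ (fun u hu => om_nd hf hu) hωH _
        (fun m' ψ' hψ' => kills_of_LL hf hBf hA mu m' ψ' hψ') hP'
    calc A * (S * mW b P' * S') = (S * S') * A * (S * mW b P' * S') := by
          rw [hf.one, one_mul]
      _ = S * ((S' * A * S) * mW b P') * S' := by simp only [mul_assoc]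
      _ = S * (mW b P' * (S' * A * S)) * S' := by rw [h1]
      _ = (S * mW b P' * S') * A * (S * S') := by simp only [mul_assoc]
      _ = _ := by rw [hf.one, mul_one]
  · exact comps_skew hf hsk lam
  · intro m' hm' ψ' hψ'
    refine (dk_gen hf c ψ').1 ?_ lam
    have h2 := hlow (m' * 2) (by omega) _ (gen_mem (S := S) (b := b) (C := Hd per)
      (finProdFinEquiv : Fin m' × Fin 2 ≃ Fin (m' * 2)) hψ')
    rw [dk_ri] at h2
    funext I
    have h3 := congrFun h2
      (fun k => I ((finProdFinEquiv : Fin m' × Fin 2 ≃ Fin (m' * 2)).symm k))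
    simp only [ri, Equiv.symm_apply_apply, Pi.zero_apply] at h3
    exact h3

/-- **One power decides.** -/
theorem one_power [FiniteDimensional ℚ W] (hper : DR.IsRationalStructure per)
    (hω : ∃ E : T →ₗ[ℝ] T →ₗ[ℝ] ℝ, (∀ x y, E (per x) (per y) = ω₀ x y) ∧
      (∀ z : ℂ, ‖z‖ = 1 → ∀ u v, E (z • u) (z • v) = E u v) ∧ (∀ u, E u u = 0) ∧
      ∀ u, u ≠ 0 → 0 < E (Complex.I • u) u)
    {ι : Type} [Fintype ι] [DecidableEq ι] {β β' : ι → W}
    (hβ : ∀ w : W, w = ∑ i, ω₀ w (β' i) • β i)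
    {C : ∀ m : ℕ, Submodule ℚ (RF W m)} (hC : Closed ω₀ β β' C)
    (hH : ∀ m, ∀ ψ ∈ C m, IsHodgeTensor per ψ) {N : ℕ} (hN : 4 ≤ N)
    (hZ : ∀ P : Module.End ℚ W, IsHodgeEnd per P →
      (∀ P' : Module.End ℚ W, IsHodgeEnd per P' → P * P' = P' * P) →
      (∀ u v, ω₀ (P u) v = -ω₀ u (P v)) →
      (∀ m, 2 * m ≤ N → ∀ ψ : RF W m, IsHodgeTensor per ψ → Kills P ψ) →
      ∀ m, ∀ ψ : RF W m, IsHodgeTensor per ψ → Kills P ψ)
    {m : ℕ} (hNm : N ≤ 2 * m)
    (hnum : ((m : ℝ) + 1) ^ (finrank ℚ W * finrank ℚ W) *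
      ((finrank ℚ W : ℝ) - 2 * (1 - Real.cos (2 * Real.pi / N))) ^ (2 * m) <
        (finrank ℚ W : ℝ) ^ (2 * m))
    (heq : ∀ ψ : RF W m, IsHodgeTensor per ψ → ψ ∈ C m) (m' : ℕ) (ψ : RF W m')
    (hψ : IsHodgeTensor per ψ) : ψ ∈ C m' := by
  obtain ⟨g, b, b', S, S', hf⟩ := exists_frame per ω₀ hper hω
  have hωH : IsHodgeBilinear per ω₀ := by
    obtain ⟨E, hE, hinv, _⟩ := hω
    exact ⟨E, hE, hinv⟩
  have hd : finrank ℚ W = Fintype.card (Fin g ⊕ Fin g) := finrank_eq_card_basis b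
  rw [hd] at hnum
  exact one_power_frame hf (fun _ _ => rfl) hβ hωH hC hH (by omega)
    (lieDet_hd hf (fun _ _ => rfl) hper hωH hβ hN hZ) hNm hnum heq m' ψ hψ

end

end Pool.Agent.X259.T
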