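import Mathlib

/-!
# Small integral solutions that are not in the kernel of a linear map
-/

set_option autoImplicit false

namespace Pool.Agent.X259.T

open Finset Module

noncomputable section

attribute [local instance] Matrix.seminormedAddCommGroup

/-- A nonzero integral vector in the kernel of a set of integral rows that are orthogonal to a
nonzero vector. -/
lemma siegel_rows {X : Type} [Fintype X] [DecidableEq X] {G : Type} (δ : G → X → ℤ) (D : ℕ)
    (hD : 1 ≤ D) (hδ : ∀ g a, |δ g a| ≤ D) (v : X → ℚ) (hv0 : v ≠ 0)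
    (hv : ∀ g, ∑ a, v a * δ g a = 0) :
    ∃ t : X → ℤ, t ≠ 0 ∧ (∀ a, ((|t a| : ℤ) : ℝ) ≤
      ((Fintype.card X : ℝ) * D) ^ (Fintype.card X)) ∧ ∀ g, ∑ a, t a * δ g a = 0 := by
  classical
  let r : G → (X → ℚ) := fun g a => δ g a
  obtain ⟨b, hb1, hb2, hb3⟩ := exists_linearIndependent ℚ (Set.range r)
  have hfin : Finite b := hb3.finite
  let _ : Fintype b := Fintype.ofFinite b
  have hch : ∀ x : b, ∃ g, r g = x.1 := fun x => hb1 x.2
  choose gg hgg using hch
  let A : Matrix b X ℤ := fun x a => δ (gg x) a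
  -- the solutions of the chosen equations
  have hall : ∀ t : X → ℤ, A.mulVec t = 0 → ∀ g, ∑ a, t a * δ g a = 0 := by
    intro t ht g
    have h1 : ∀ y ∈ Submodule.span ℚ (Set.range r), ∑ a, (t a : ℚ) * y a = 0 := by
      intro y hy
      rw [← hb2] at hy
      induction hy using Submodule.span_induction with
      | mem y h =>
        have h2 := congrFun ht ⟨y, h⟩
        rw [Matrix.mulVec, dotProduct] at h2
        have h3 := congrArg (fun z : ℤ => (z : ℚ)) h2
        simp only [Int.cast_sum, Int.cast_mul, Pi.zero_apply, Int.cast_zero] at h3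
        rw [← h3]
        refine Finset.sum_congr rfl fun a _ => ?_
        have h4 := congrFun (hgg ⟨y, h⟩) a
        change (δ (gg ⟨y, h⟩) a : ℚ) = y a at h4
        rw [← h4, mul_comm]
      | zero => simp
      | add y z _ _ hy hz =>
        simp only [Pi.add_apply, mul_add, Finset.sum_add_distrib]
        rw [hy, hz, add_zero]
      | smul c y _ hy =>
        have : ∑ a, (t a : ℚ) * (c • y) a = c * ∑ a, (t a : ℚ) * y a := by
          rw [Finset.mul_sum]
          refine Finset.sum_congr rfl fun a _ => ?_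
          rw [Pi.smul_apply, smul_eq_mul]
          ring
        rw [this, hy, mul_zero]
    have h2 := h1 (r g) (Submodule.subset_span ⟨g, rfl⟩)
    have h3 : ((∑ a, t a * δ g a : ℤ) : ℚ) = 0 := by
      rw [← h2]
      push_cast
      rfl
    exact_mod_cast h3
  have hcard : Fintype.card b < Fintype.card X := by
    let φ : (X → ℚ) →ₗ[ℚ] ℚ :=
      { toFun := fun w => ∑ a, v a * w a
        map_add' := fun w w' => by
          simp only [Pi.add_apply, mul_add, Finset.sum_add_distrib]
        map_smul' := fun c w => by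
          simp only [Pi.smul_apply, smul_eq_mul, RingHom.id_apply, Finset.mul_sum]
          exact Finset.sum_congr rfl fun a _ => by ring }
    have hmem : ∀ x : b, x.1 ∈ LinearMap.ker φ := by
      intro x
      rw [LinearMap.mem_ker]
      change ∑ a, v a * x.1 a = 0
      rw [← hgg x]
      exact hv _
    have hlt : LinearMap.ker φ ≠ ⊤ := by
      intro h
      obtain ⟨a, ha⟩ := Function.ne_iff.1 hv0
      have h1 : Pi.single a (1 : ℚ) ∈ LinearMap.ker φ := by rw [h]; trivial
      rw [LinearMap.mem_ker] at h1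
      change ∑ a', v a' * (Pi.single a (1 : ℚ) : X → ℚ) a' = 0 at h1
      rw [Finset.sum_eq_single a (fun a' _ h => by rw [Pi.single_eq_of_ne h, mul_zero])
        (fun h => absurd (Finset.mem_univ _) h), Pi.single_eq_same, mul_one] at h1
      exact ha h1
    have hli : LinearIndependent ℚ (fun x : b => (⟨x.1, hmem x⟩ : LinearMap.ker φ)) :=
      LinearIndependent.of_comp (LinearMap.ker φ).subtype hb3
    calc Fintype.card b ≤ finrank ℚ (LinearMap.ker φ) := hli.fintype_card_le_finrank
      _ < finrank ℚ (X → ℚ) := Submodule.finrank_lt hlt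
      _ = Fintype.card X := finrank_fintype_fun_eq_card ℚ
  have hn1 : (1 : ℝ) ≤ (Fintype.card X : ℝ) := by
    have : 1 ≤ Fintype.card X := by omega
    exact_mod_cast this
  have hD1 : (1 : ℝ) ≤ (D : ℝ) := by exact_mod_cast hD
  by_cases h0 : Fintype.card b = 0
  · obtain ⟨a, ha⟩ := Function.ne_iff.1 hv0
    refine ⟨Pi.single a 1, ?_, ?_, ?_⟩
    · intro h
      have := congrFun h a
      rw [Pi.single_eq_same] at this
      exact one_ne_zero this
    · intro a'
      have h1 : (1 : ℝ) ≤ ((Fintype.card X : ℝ) * D) ^ (Fintype.card X) :=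
        one_le_pow₀ (by nlinarith)
      refine le_trans ?_ h1
      by_cases h : a' = a
      · subst h
        rw [Pi.single_eq_same]
        simp
      · rw [Pi.single_eq_of_ne h]
        simp
    · have hE : IsEmpty b := Fintype.card_eq_zero_iff.1 h0
      exact hall _ (by
        funext x
        exact (hE.false x).elim)
  · obtain ⟨t, ht0, htA, htn⟩ := Int.Matrix.exists_ne_zero_int_vec_norm_le A hcard
      (Nat.pos_of_ne_zero h0)
    refine ⟨t, ht0, fun a => ?_, hall t htA⟩
    have h1 : ((|t a| : ℤ) : ℝ) ≤ ‖t‖ := by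
      have h2 := norm_le_pi_norm t a
      rwa [Int.norm_eq_abs, ← Int.cast_abs] at h2
    refine h1.trans (htn.trans ?_)
    have hA : max 1 ‖A‖ ≤ (D : ℝ) := by
      refine max_le hD1 ?_
      rw [Matrix.norm_le_iff (by positivity)]
      intro x a
      rw [Int.norm_eq_abs, ← Int.cast_abs]
      exact_mod_cast hδ (gg x) a
    have hbase : (1 : ℝ) ≤ (Fintype.card X : ℝ) * max 1 ‖A‖ :=
      one_le_mul_of_one_le_of_one_le hn1 (le_max_left _ _)
    have hexp : (Fintype.card b : ℝ) / ((Fintype.card X : ℝ) - Fintype.card b) ≤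
        (Fintype.card X : ℝ) := by
      have h2 : (1 : ℝ) ≤ (Fintype.card X : ℝ) - Fintype.card b := by
        have : ((Fintype.card b + 1 : ℕ) : ℝ) ≤ (Fintype.card X : ℝ) := by exact_mod_cast hcard
        push_cast at this
        linarith
      have h3 : (Fintype.card b : ℝ) / ((Fintype.card X : ℝ) - Fintype.card b) ≤
          (Fintype.card b : ℝ) := div_le_self (by positivity) h2
      have h4 : (Fintype.card b : ℝ) ≤ (Fintype.card X : ℝ) := by exact_mod_cast hcard.le
      linarith
    calc ((Fintype.card X : ℝ) * max 1 ‖A‖) ^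
          ((Fintype.card b : ℝ) / ((Fintype.card X : ℝ) - Fintype.card b)) ≤
          ((Fintype.card X : ℝ) * max 1 ‖A‖) ^ (Fintype.card X : ℝ) :=
          Real.rpow_le_rpow_of_exponent_le hbase hexp
      _ = ((Fintype.card X : ℝ) * max 1 ‖A‖) ^ (Fintype.card X) := Real.rpow_natCast _ _
      _ ≤ ((Fintype.card X : ℝ) * D) ^ (Fintype.card X) := by
          refine pow_le_pow_left₀ (by positivity) ?_ _
          exact mul_le_mul_of_nonneg_left hA (by positivity)

/-- Small integral solutions that are not in the kernel of a linear map. -/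
theorem small_solution {X : Type} [Fintype X] [DecidableEq X] {G : Type} (δ : G → X → ℤ) (D : ℕ)
    (hD : 1 ≤ D) (hδ : ∀ g a, |δ g a| ≤ D) {V : Type} [AddCommGroup V] [Module ℚ V]
    (f : (X → ℚ) →ₗ[ℚ] V) (v : X → ℚ) (hv : ∀ g, ∑ a, v a * δ g a = 0) (hf : f v ≠ 0) :
    ∃ m : X → ℤ, (∀ a, |m a| ≤ ((Fintype.card X * D) ^ (Fintype.card X) : ℕ)) ∧
      (∀ g, ∑ a, m a * δ g a = 0) ∧ f (fun a => (m a : ℚ)) ≠ 0 := by
  classical
  obtain ⟨k, hk⟩ : ∃ k, (Finset.univ.filter fun a => v a ≠ 0).card = k := ⟨_, rfl⟩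
  induction k using Nat.strong_induction_on generalizing v with
  | _ k ih =>
  have hsmall : ∀ (u : X → ℚ) (a₀ : X), (∀ a, v a = 0 → u a = 0) → v a₀ ≠ 0 → u a₀ = 0 →
      (Finset.univ.filter fun a => u a ≠ 0).card < k := by
    intro u a₀ h1 h2 h3
    rw [← hk]
    refine Finset.card_lt_card (Finset.ssubset_iff_subset_ne.2 ⟨?_, ?_⟩)
    · intro a ha
      rw [Finset.mem_filter] at ha ⊢
      exact ⟨Finset.mem_univ _, fun h => ha.2 (h1 a h)⟩
    · intro h
      have h4 : a₀ ∈ Finset.univ.filter fun a => v a ≠ 0 := by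
        rw [Finset.mem_filter]
        exact ⟨Finset.mem_univ _, h2⟩
      rw [← h, Finset.mem_filter] at h4
      exact h4.2 h3
  by_cases hw : ∃ w : X → ℚ, (∀ g, ∑ a, w a * δ g a = 0) ∧ (∀ a, v a = 0 → w a = 0) ∧
      ¬ ∃ t : ℚ, w = t • v
  · obtain ⟨w, hw1, hw2, hw3⟩ := hw
    have hw0 : w ≠ 0 := fun h => hw3 ⟨0, by rw [h, zero_smul]⟩
    obtain ⟨a₀, ha₀⟩ := Function.ne_iff.1 hw0
    have hva₀ : v a₀ ≠ 0 := fun h => ha₀ (hw2 _ h)
    rw [Pi.zero_apply] at ha₀
    let t : ℚ := v a₀ / w a₀
    have ht : t ≠ 0 := div_ne_zero hva₀ ha₀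
    let u : X → ℚ := v - t • w
    have hu1 : ∀ g, ∑ a, u a * δ g a = 0 := by
      intro g
      have : ∑ a, u a * δ g a = ∑ a, v a * δ g a - t * ∑ a, w a * δ g a := by
        rw [Finset.mul_sum, ← Finset.sum_sub_distrib]
        refine Finset.sum_congr rfl fun a _ => ?_
        change (v a - t * w a) * _ = _
        ring
      rw [this, hv, hw1, mul_zero, sub_zero]
    have hu2 : ∀ a, v a = 0 → u a = 0 := by
      intro a ha
      change v a - t * w a = 0
      rw [ha, hw2 a ha, mul_zero, sub_zero]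
    have hu3 : u a₀ = 0 := by
      change v a₀ - v a₀ / w a₀ * w a₀ = 0
      rw [div_mul_cancel₀ _ ha₀, sub_self]
    by_cases hfu : f u = 0
    · have hu0 : u ≠ 0 := by
        intro h
        apply hw3
        refine ⟨t⁻¹, ?_⟩
        have h1 : v = t • w := sub_eq_zero.1 h
        rw [h1, smul_smul, inv_mul_cancel₀ ht, one_smul]
      obtain ⟨a₁, ha₁⟩ := Function.ne_iff.1 hu0
      rw [Pi.zero_apply] at ha₁
      have hva₁ : v a₁ ≠ 0 := fun h => ha₁ (hu2 _ h)
      let s : ℚ := v a₁ / u a₁
      let v' : X → ℚ := v - s • u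
      refine ih _ (hsmall v' a₁ ?_ hva₁ ?_) v' ?_ ?_ rfl
      · intro a ha
        change v a - s * u a = 0
        rw [ha, hu2 a ha, mul_zero, sub_zero]
      · change v a₁ - v a₁ / u a₁ * u a₁ = 0
        rw [div_mul_cancel₀ _ ha₁, sub_self]
      · intro g
        have : ∑ a, v' a * δ g a = ∑ a, v a * δ g a - s * ∑ a, u a * δ g a := by
          rw [Finset.mul_sum, ← Finset.sum_sub_distrib]
          refine Finset.sum_congr rfl fun a _ => ?_
          change (v a - s * u a) * _ = _
          ring
        rw [this, hv, hu1, mul_zero, sub_zero]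
      · change f (v - s • u) ≠ 0
        rw [map_sub, map_smul, hfu, smul_zero, sub_zero]
        exact hf
    · exact ih _ (hsmall u a₀ hu2 hva₀ hu3) u hu1 hfu rfl
  · push Not at hw
    have hv0 : v ≠ 0 := fun h => hf (by rw [h, map_zero])
    let Y := {a : X // v a ≠ 0}
    have hY : ∀ F : X → ℚ, (∀ a, v a = 0 → F a = 0) → ∑ a, F a = ∑ y : Y, F y.1 := by
      intro F hF
      rw [← Finset.sum_subtype (Finset.univ.filter fun a => v a ≠ 0) (by simp)]
      rw [Finset.sum_filter]
      refine Finset.sum_congr rfl fun a _ => ?_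
      by_cases h : v a = 0
      · rw [if_neg (by simpa using h), hF a h]
      · rw [if_pos h]
    have hvY : ∀ g, ∑ y : Y, v y.1 * δ g y.1 = 0 := by
      intro g
      exact (hY _ fun a ha => by rw [ha, zero_mul]).symm.trans (hv g)
    have hvY0 : (fun y : Y => v y.1) ≠ 0 := by
      obtain ⟨a, ha⟩ := Function.ne_iff.1 hv0
      intro h
      exact ha (congrFun h ⟨a, ha⟩)
    obtain ⟨t, ht0, htb, hteq⟩ := siegel_rows (fun g (y : Y) => δ g y.1) D hD
      (fun g y => hδ g y.1) (fun y => v y.1) hvY0 hvY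
    let m : X → ℤ := fun a => if h : v a ≠ 0 then t ⟨a, h⟩ else 0
    have hmY : ∀ y : Y, m y.1 = t y := fun y => dif_pos y.2
    have hm0 : ∀ a, v a = 0 → m a = 0 := fun a ha => dif_neg (by simpa using ha)
    have hmeq : ∀ g, ∑ a, m a * δ g a = 0 := by
      intro g
      have h1 := hY (fun a => ((m a * δ g a : ℤ) : ℚ)) fun a ha => by
        rw [hm0 a ha, zero_mul, Int.cast_zero]
      have h2 : ((∑ a, m a * δ g a : ℤ) : ℚ) = 0 := by
        rw [Int.cast_sum, h1, ← Int.cast_sum]
        simp only [hmY]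
        rw [hteq g, Int.cast_zero]
      exact_mod_cast h2
    have hcY : Fintype.card Y ≤ Fintype.card X := Fintype.card_subtype_le _
    refine ⟨m, fun a => ?_, hmeq, ?_⟩
    · by_cases h : v a = 0
      · rw [hm0 a h, abs_zero]
        exact Int.natCast_nonneg _
      · have h1 := htb ⟨a, h⟩
        have h2 : m a = t ⟨a, h⟩ := hmY ⟨a, h⟩
        rw [h2]
        have h3 : (((|t ⟨a, h⟩| : ℤ)) : ℝ) ≤ (((Fintype.card X * D) ^ (Fintype.card X) : ℕ) : ℝ) := by
          refine h1.trans ?_
          push_cast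
          have hD1 : (1 : ℝ) ≤ (D : ℝ) := by exact_mod_cast hD
          have hpos : 0 < Fintype.card Y := Fintype.card_pos_iff.2 ⟨⟨a, h⟩⟩
          have hX1 : (1 : ℝ) ≤ (Fintype.card X : ℝ) := by
            exact_mod_cast (by omega : 1 ≤ Fintype.card X)
          have hYX : (Fintype.card Y : ℝ) ≤ (Fintype.card X : ℝ) := by exact_mod_cast hcY
          calc ((Fintype.card Y : ℝ) * D) ^ (Fintype.card Y) ≤
                ((Fintype.card X : ℝ) * D) ^ (Fintype.card Y) := by
                refine pow_le_pow_left₀ (by positivity) ?_ _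
                exact mul_le_mul_of_nonneg_right hYX (by positivity)
            _ ≤ ((Fintype.card X : ℝ) * D) ^ (Fintype.card X) := by
                refine pow_le_pow_right₀ ?_ hcY
                nlinarith
        exact_mod_cast h3
    · obtain ⟨s, hs⟩ := hw (fun a => (m a : ℚ)) (fun g => by
          have := congrArg (fun z : ℤ => (z : ℚ)) (hmeq g)
          push_cast at this
          exact this) (fun a ha => by rw [hm0 a ha, Int.cast_zero])
      rw [hs, map_smul]
      refine smul_ne_zero ?_ hf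
      rintro rfl
      rw [zero_smul] at hs
      apply ht0
      funext y
      have h1 := congrFun hs y.1
      rw [hmY, Pi.zero_apply] at h1
      rw [Pi.zero_apply]
      exact_mod_cast h1

end

end Pool.Agent.X259.T
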