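import Pool.Agent.X259.T.T1

/-!
# Products of determinants as tensors
-/

set_option autoImplicit false
set_option linter.unusedSectionVars false
set_option linter.unusedDecidableInType false
set_option linter.unusedFintypeInType false

namespace Pool.Agent.X259.T

open Matrix Finset

noncomputable section

variable {R : Type} [Fintype R] [DecidableEq R] {k : Type} [Field k]

/-- The determinant of the columns of `V` as a tensor. -/
def Dt {n : ℕ} (V : Matrix R (Fin n) k) : (Fin n → R) → k := fun I =>
  Matrix.det (Matrix.of fun j l => V (I l) j)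

lemma Dt_map {n : ℕ} {k' : Type} [Field k'] (g : k →+* k') (V : Matrix R (Fin n) k)
    (I : Fin n → R) : Dt (V.map g) I = g (Dt V I) := by
  rw [Dt, Dt, RingHom.map_det]
  rfl

lemma dk_Dt {n : ℕ} (V : Matrix R (Fin n) ℂ) (X : Matrix R R ℂ) (Y : Matrix (Fin n) (Fin n) ℂ)
    (h : X * V = V * Y) : dk (Fin n) X *ᵥ Dt V = Y.trace • Dt V := by
  funext I
  rw [dk_mulVec]
  let M : Matrix (Fin n) (Fin n) ℂ := Matrix.of fun j l => V (I l) j
  have h1 : ∀ l, ∑ y, X (I l) y * Dt V (Function.update I l y) =
      (M.updateCol l fun j => (X * V) (I l) j).det := by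
    intro l
    have h2 : ∀ y, Dt V (Function.update I l y) = (M.updateCol l fun j => V y j).det := by
      intro y
      rw [Dt]
      congr 1
      ext j l'
      rw [Matrix.updateCol_apply]
      by_cases hl : l' = l
      · subst hl
        rw [if_pos rfl, Matrix.of_apply, Function.update_self]
      · rw [if_neg hl, Matrix.of_apply, Function.update_of_ne hl]
        rfl
    simp only [h2]
    have h3 : (fun j => (X * V) (I l) j) = ∑ y, X (I l) y • fun j => V y j := by
      funext j
      rw [Matrix.mul_apply, Finset.sum_apply]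
      exact Finset.sum_congr rfl fun y _ => rfl
    rw [h3, ← Matrix.cramer_apply, map_sum, Finset.sum_apply]
    refine Finset.sum_congr rfl fun y _ => ?_
    rw [map_smul, Pi.smul_apply, smul_eq_mul, Matrix.cramer_apply]
  simp only [h1]
  have h4 : ∀ l, (M.updateCol l fun j => (X * V) (I l) j).det =
      (M.adjugate * (Yᵀ * M)) l l := by
    intro l
    rw [← Matrix.cramer_apply, Matrix.cramer_eq_adjugate_mulVec, Matrix.mul_apply, Matrix.mulVec,
      dotProduct]
    refine Finset.sum_congr rfl fun j _ => ?_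
    congr 1
    rw [h, Matrix.mul_apply, Matrix.mul_apply]
    refine Finset.sum_congr rfl fun i _ => ?_
    rw [Matrix.transpose_apply, mul_comm]
    rfl
  simp only [h4]
  change (M.adjugate * (Yᵀ * M)).trace = _
  rw [Matrix.trace_mul_comm, mul_assoc, Matrix.mul_adjugate, Matrix.mul_smul, mul_one,
    Matrix.trace_smul, Matrix.trace_transpose, Pi.smul_apply, smul_eq_mul, smul_eq_mul, mul_comm]
  rfl

lemma Dt_ne {n : ℕ} (V : Matrix R (Fin n) k) (C : Matrix (Fin n) R k) (h : C * V = 1) :
    ∃ I, Dt V I ≠ 0 := by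
  by_contra hcon
  push Not at hcon
  have h1 : (C * V).det = ∑ I : Fin n → R, (∏ l, C l (I l)) * Dt V I := by
    have h2 : C * V = fun l => ∑ x, C l x • (V x : Fin n → k) := by
      ext l j
      rw [Matrix.mul_apply]
      rw [Finset.sum_apply]
      rfl
    rw [h2]
    change Matrix.detRowAlternating (fun l => ∑ x, C l x • (V x : Fin n → k)) = _
    rw [← AlternatingMap.coe_multilinearMap, MultilinearMap.map_sum]
    refine Finset.sum_congr rfl fun I _ => ?_
    rw [MultilinearMap.map_smul_univ, smul_eq_mul]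
    congr 1
    rw [Dt, ← Matrix.det_transpose]
    rfl
  rw [h, Matrix.det_one, Finset.sum_eq_zero fun I _ => by rw [hcon I, mul_zero]] at h1
  exact one_ne_zero h1

variable {s : Type} [Fintype s] [DecidableEq s] {n : s → ℕ}

/-- The product of the determinants. -/
def BT (V : ∀ a : s, Matrix R (Fin (n a)) k) : ((Σ a : s, Fin (n a)) → R) → k := fun I =>
  ∏ a, Dt (V a) fun l => I ⟨a, l⟩

lemma BT_map {k' : Type} [Field k'] (g : k →+* k') (V : ∀ a : s, Matrix R (Fin (n a)) k)
    (I : (Σ a : s, Fin (n a)) → R) : BT (fun a => (V a).map g) I = g (BT V I) := by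
  rw [BT, BT, map_prod]
  exact Finset.prod_congr rfl fun a _ => Dt_map g _ _

lemma BT_ne (V : ∀ a : s, Matrix R (Fin (n a)) k) (C : ∀ a : s, Matrix (Fin (n a)) R k)
    (h : ∀ a, C a * V a = 1) : ∃ I, BT V I ≠ 0 := by
  choose J hJ using fun a => Dt_ne (V a) (C a) (h a)
  exact ⟨fun p => J p.1 p.2, Finset.prod_ne_zero_iff.2 fun a _ => hJ a⟩

lemma dk_BT (V : ∀ a : s, Matrix R (Fin (n a)) ℂ) (X : Matrix R R ℂ) (w : s → ℂ)
    (h : ∀ a, dk (Fin (n a)) X *ᵥ Dt (V a) = w a • Dt (V a)) :
    dk (Σ a : s, Fin (n a)) X *ᵥ BT V = (∑ a, w a) • BT V := by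
  funext I
  rw [dk_mulVec, Fintype.sum_sigma, Pi.smul_apply, smul_eq_mul, Finset.sum_mul]
  refine Finset.sum_congr rfl fun a _ => ?_
  have h1 : ∀ (l : Fin (n a)) (y : R), BT V (Function.update I ⟨a, l⟩ y) =
      Dt (V a) (Function.update (fun l => I ⟨a, l⟩) l y) *
        ∏ a' ∈ Finset.univ.erase a, Dt (V a') fun l => I ⟨a', l⟩ := by
    intro l y
    rw [BT, ← Finset.mul_prod_erase _ _ (Finset.mem_univ a)]
    congr 1
    · congr 1
      funext l'
      by_cases hl : l' = l
      · subst hl
        rw [Function.update_self, Function.update_self]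
      · rw [Function.update_of_ne hl, Function.update_of_ne]
        intro h'
        apply hl
        rw [Sigma.mk.injEq] at h'
        exact eq_of_heq h'.2
    · refine Finset.prod_congr rfl fun a' ha' => ?_
      congr 1
      funext l'
      rw [Function.update_of_ne]
      intro h'
      rw [Sigma.mk.injEq] at h'
      exact (Finset.ne_of_mem_erase ha') h'.1
  simp only [h1]
  have h2 := congrFun (h a) (fun l => I ⟨a, l⟩)
  rw [dk_mulVec, Pi.smul_apply, smul_eq_mul] at h2
  have h3 : BT V I = (Dt (V a) fun l => I ⟨a, l⟩) *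
      ∏ a' ∈ Finset.univ.erase a, Dt (V a') fun l => I ⟨a', l⟩ := by
    rw [BT, ← Finset.mul_prod_erase _ _ (Finset.mem_univ a)]
  rw [h3, ← mul_assoc, ← h2, Finset.sum_mul]
  refine Finset.sum_congr rfl fun l _ => ?_
  rw [Finset.sum_mul]
  refine Finset.sum_congr rfl fun y _ => ?_
  ring

/-- The factorization of an idempotent matrix. -/
lemma exists_factor (e : Matrix R R k) (he : e * e = e) :
    ∃ (n : ℕ) (V : Matrix R (Fin n) k) (C : Matrix (Fin n) R k), e = V * C ∧ C * V = 1 := by
  let U : Submodule k (R → k) := LinearMap.range (Matrix.toLin' e)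
  let u := Module.finBasis k U
  let V : Matrix R (Fin (Module.finrank k U)) k := fun x j => (u j : R → k) x
  have hU : ∀ w, Matrix.toLin' e w ∈ U := fun w => LinearMap.mem_range_self _ w
  let C : Matrix (Fin (Module.finrank k U)) R k := fun j y =>
    u.repr ⟨Matrix.toLin' e (Pi.single y 1), hU _⟩ j
  have hV : ∀ w : U, (w : R → k) = V *ᵥ (fun j => u.repr w j) := by
    intro w
    conv_lhs => rw [← u.sum_repr w]
    funext x
    rw [Submodule.coe_sum, Finset.sum_apply, Matrix.mulVec, dotProduct]
    refine Finset.sum_congr rfl fun j _ => ?_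
    rw [Submodule.coe_smul, Pi.smul_apply, smul_eq_mul, mul_comm]
  have he1 : e = V * C := by
    ext x y
    have h1 := congrFun (hV ⟨Matrix.toLin' e (Pi.single y 1), hU _⟩) x
    have h2 : (Matrix.toLin' e (Pi.single y 1)) x = e x y := by
      rw [Matrix.toLin'_apply, Matrix.mulVec_single_one]
      rfl
    rw [Matrix.mul_apply]
    exact h2.symm.trans h1
  have hfix : ∀ w : U, e *ᵥ (w : R → k) = w := by
    rintro ⟨w, w', rfl⟩
    change e *ᵥ (Matrix.toLin' e w') = Matrix.toLin' e w'
    rw [Matrix.toLin'_apply, Matrix.mulVec_mulVec, he]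
  refine ⟨_, V, C, he1, ?_⟩
  -- `V * (C * V) = V` and `V` is injective
  have h2 : V * (C * V) = V := by
    rw [← Matrix.mul_assoc, ← he1]
    ext x j
    exact congrFun (hfix (u j)) x
  have hinj : ∀ c : Fin (Module.finrank k U) → k, V *ᵥ c = 0 → c = 0 := by
    intro c hc
    have h3 : ∑ j, c j • u j = 0 := by
      apply Subtype.ext
      rw [Submodule.coe_sum, Submodule.coe_zero, ← hc]
      funext x
      rw [Finset.sum_apply, Matrix.mulVec, dotProduct]
      refine Finset.sum_congr rfl fun j _ => ?_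
      rw [Submodule.coe_smul, Pi.smul_apply, smul_eq_mul, mul_comm]
    funext j
    exact Fintype.linearIndependent_iff.1 u.linearIndependent c h3 j
  ext i j
  have h4 : V *ᵥ (fun i => (C * V - 1 : Matrix _ _ k) i j) = 0 := by
    have h5 : V * (C * V - 1 : Matrix _ _ k) = 0 := by
      rw [Matrix.mul_sub, h2, Matrix.mul_one, sub_self]
    funext x
    exact congrFun (congrFun h5 x) j
  have h5 := congrFun (hinj _ h4) i
  exact sub_eq_zero.1 h5

end

end Pool.Agent.X259.T
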