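import Pool.Agent.X259.T.T26

/-!
# Traces of idempotents and of complex structures; polynomials in diagonalizable matrices
-/

set_option autoImplicit false
set_option linter.unusedSectionVars false
set_option linter.unusedDecidableInType false
set_option linter.unusedFintypeInType false

namespace Pool.Agent.X259.T

open Matrix Finset

noncomputable section

variable {R : Type} [Fintype R] [DecidableEq R] {k : Type} [Field k]

lemma le_of_left_inv {n : ℕ} {V : Matrix R (Fin n) k} {C : Matrix (Fin n) R k} (h : C * V = 1) :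
    n ≤ Fintype.card R := by
  have hinj : Function.Injective (Matrix.toLin' V) := by
    refine Function.LeftInverse.injective (g := Matrix.toLin' C) fun w => ?_
    rw [Matrix.toLin'_apply, Matrix.toLin'_apply, Matrix.mulVec_mulVec, h, Matrix.one_mulVec]
  have h1 := LinearMap.finrank_le_finrank_of_injective hinj
  rwa [Module.finrank_fintype_fun_eq_card, Module.finrank_fintype_fun_eq_card,
    Fintype.card_fin] at h1

lemma trace_factor {n : ℕ} {V : Matrix R (Fin n) k} {C : Matrix (Fin n) R k} {e : Matrix R R k}
    (he : e = V * C) (h : C * V = 1) : e.trace = n := by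
  rw [he, Matrix.trace_mul_comm, h, Matrix.trace_one, Fintype.card_fin]

lemma idem_trace (e : Matrix R R ℂ) (he : e * e = e) :
    ∃ r : ℕ, r ≤ Fintype.card R ∧ e.trace = r := by
  obtain ⟨n, V, C, h1, h2⟩ := exists_factor e he
  exact ⟨n, le_of_left_inv h2, trace_factor h1 h2⟩

/-- The trace of a complex structure. -/
lemma i_trace (M : Matrix R R ℂ) (hM : M * M = -1) :
    ∃ δ : ℤ, |δ| ≤ (Fintype.card R : ℤ) ∧ M.trace = Complex.I * δ := by
  have h1 : ((1 / 2 : ℂ) • (1 - Complex.I • M)) * ((1 / 2 : ℂ) • (1 - Complex.I • M)) =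
      (1 / 2 : ℂ) • (1 - Complex.I • M) := by
    have h2 : (1 - Complex.I • M) * (1 - Complex.I • M) = (2 : ℂ) • (1 - Complex.I • M) := by
      rw [sub_mul, mul_sub, mul_sub, one_mul, mul_one, one_mul, Matrix.smul_mul, Matrix.mul_smul,
        hM, smul_smul, Complex.I_mul_I, neg_smul, one_smul, neg_neg, two_smul]
      abel
    rw [Matrix.smul_mul, Matrix.mul_smul, h2, smul_smul, smul_smul]
    congr 1
    norm_num
  obtain ⟨r, hr, htr⟩ := idem_trace _ h1
  refine ⟨2 * r - Fintype.card R, ?_, ?_⟩
  · rw [abs_le]
    constructor <;> omega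
  · rw [Matrix.trace_smul, Matrix.trace_sub, Matrix.trace_one, Matrix.trace_smul, smul_eq_mul,
      smul_eq_mul] at htr
    push_cast
    have hI := Complex.I_mul_I
    linear_combination (2 * Complex.I) * htr + M.trace * hI

/-- The action on the image of an idempotent. -/
lemma comm_factor {n : ℕ} {V : Matrix R (Fin n) k} {C : Matrix (Fin n) R k} {e X : Matrix R R k}
    (he : e = V * C) (h : C * V = 1) (hX : X * e = e * X) :
    X * V = V * (C * X * V) ∧ (C * X * V).trace = (X * e).trace := by
  have h1 : e * V = V := by rw [he, Matrix.mul_assoc, h, Matrix.mul_one]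
  constructor
  · calc X * V = X * (e * V) := by rw [h1]
      _ = (X * e) * V := by rw [Matrix.mul_assoc]
      _ = (e * X) * V := by rw [hX]
      _ = V * (C * X * V) := by rw [he]; simp only [Matrix.mul_assoc]
  · rw [Matrix.trace_mul_comm, he, ← Matrix.mul_assoc, ← Matrix.mul_assoc, Matrix.trace_mul_comm,
      ← Matrix.mul_assoc]

/-- The trace of a complex structure on the image of an idempotent. -/
lemma i_trace_idem (N e : Matrix R R ℂ) (hN : N * N = -1) (he : e * e = e) (hc : N * e = e * N) :
    ∃ δ : ℤ, |δ| ≤ (Fintype.card R : ℤ) ∧ (N * e).trace = Complex.I * δ := by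
  obtain ⟨n, V, C, h1, h2⟩ := exists_factor e he
  obtain ⟨h3, h4⟩ := comm_factor h1 h2 hc
  have h5 : (C * N * V) * (C * N * V) = -1 := by
    calc (C * N * V) * (C * N * V) = C * N * (V * (C * N * V)) := by simp only [Matrix.mul_assoc]
      _ = C * N * (N * V) := by rw [h3]
      _ = C * (N * N) * V := by simp only [Matrix.mul_assoc]
      _ = -1 := by rw [hN, Matrix.mul_neg, Matrix.mul_one, Matrix.neg_mul, h2]
  obtain ⟨δ, hδ, htr⟩ := i_trace _ h5
  refine ⟨δ, ?_, by rw [← h4, htr]⟩
  rw [Fintype.card_fin] at hδ
  have := le_of_left_inv h2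
  omega

lemma aeval_diag {Q Q' : Matrix R R ℂ} (h : Q' * Q = 1) (h' : Q * Q' = 1) (μ : R → ℂ)
    (p : Polynomial ℂ) : Polynomial.aeval (Q * Matrix.diagonal μ * Q') p =
      Q * Matrix.diagonal (fun x => p.eval (μ x)) * Q' := by
  induction p using Polynomial.induction_on' with
  | add p q hp hq =>
    rw [map_add, hp, hq, ← add_mul, ← mul_add, Matrix.diagonal_add]
    congr 3
    funext x
    rw [Polynomial.eval_add]
  | monomial n a =>
    rw [Polynomial.aeval_monomial]
    have h1 : (Q * Matrix.diagonal μ * Q') ^ n = Q * Matrix.diagonal (fun x => μ x ^ n) * Q' := by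
      induction n with
      | zero =>
        simp only [pow_zero]
        rw [Matrix.diagonal_one, mul_one, h']
      | succ n ih =>
        rw [pow_succ, ih]
        calc Q * Matrix.diagonal (fun x => μ x ^ n) * Q' * (Q * Matrix.diagonal μ * Q') =
            Q * (Matrix.diagonal (fun x => μ x ^ n) * ((Q' * Q) * Matrix.diagonal μ)) * Q' := by
              simp only [mul_assoc]
          _ = _ := by
            rw [h, one_mul, Matrix.diagonal_mul_diagonal]
            congr 3
    rw [h1, ← Algebra.smul_def]
    have h2 : (fun x => (Polynomial.monomial n a).eval (μ x)) = fun x => a * μ x ^ n := by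
      funext x
      rw [Polynomial.eval_monomial]
    have h3 : Matrix.diagonal (fun x => a * μ x ^ n) = a • Matrix.diagonal (fun x => μ x ^ n) := by
      ext i j
      by_cases hij : i = j
      · subst hij
        simp
      · simp [Matrix.diagonal_apply_ne _ hij]
    rw [h2, h3, Matrix.mul_smul, Matrix.smul_mul]

lemma charpoly_diag {Q Q' : Matrix R R ℂ} (h : Q' * Q = 1) (μ : R → ℂ) :
    (Q * Matrix.diagonal μ * Q').charpoly = ∏ x, (Polynomial.X - Polynomial.C (μ x)) := by
  rw [Matrix.charpoly_mul_comm, ← mul_assoc, h, one_mul, Matrix.charpoly,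
    Matrix.charmatrix_diagonal]
  rw [Matrix.det_diagonal]

end

end Pool.Agent.X259.T
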