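import Pool.Agent.X259.T.T27

/-!
# Spectral projectors of rational matrices over number fields
-/

set_option autoImplicit false
set_option linter.unusedSectionVars false
set_option linter.unusedDecidableInType false
set_option linter.unusedFintypeInType false

namespace Pool.Agent.X259.T

open Matrix Finset Polynomial

noncomputable section

variable {R : Type} [Fintype R] [DecidableEq R]

/-- The field of the eigenvalues. -/
def KK (μ : R → ℂ) : IntermediateField ℚ ℂ := IntermediateField.adjoin ℚ (Set.range μ)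

/-- The eigenvalues. -/
def ev (μ : R → ℂ) (x : R) : KK μ := ⟨μ x, IntermediateField.subset_adjoin ℚ _ ⟨x, rfl⟩⟩

lemma ev_coe (μ : R → ℂ) (x : R) : ((ev μ x : KK μ) : ℂ) = μ x := rfl

/-- The spectral projector. -/
def Ez (Q Q' : Matrix R R ℂ) (μ : R → ℂ) (z : ℂ) : Matrix R R ℂ :=
  Q * Matrix.diagonal (fun x => if μ x = z then 1 else 0) * Q'

variable {Pq : Matrix R R ℚ} {Q Q' : Matrix R R ℂ} {μ : R → ℂ} (h1 : Q' * Q = 1)
  (h2 : Q * Q' = 1) (hP : Pq.map (algebraMap ℚ ℂ) = Q * Matrix.diagonal μ * Q')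

include h1 in
lemma Ez_mul (z w : ℂ) : Ez Q Q' μ z * Ez Q Q' μ w = if z = w then Ez Q Q' μ z else 0 := by
  have h3 : Ez Q Q' μ z * Ez Q Q' μ w = Q * (Matrix.diagonal (fun x => if μ x = z then 1 else 0) *
      Matrix.diagonal (fun x => if μ x = w then 1 else 0)) * Q' := by
    rw [Ez, Ez]
    calc _ = Q * (Matrix.diagonal (fun x => if μ x = z then 1 else 0) * ((Q' * Q) *
        Matrix.diagonal (fun x => if μ x = w then 1 else 0))) * Q' := by simp only [mul_assoc]
      _ = _ := by rw [h1, one_mul]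
  rw [h3, Matrix.diagonal_mul_diagonal]
  split_ifs with h
  · subst h
    rw [Ez]
    congr 3
    funext x
    split_ifs <;> simp
  · have h4 : (fun x => (if μ x = z then (1 : ℂ) else 0) * if μ x = w then 1 else 0) = 0 := by
      funext x
      by_cases hx : μ x = z
      · have h5 : ¬ μ x = w := fun h' => h (hx.symm.trans h')
        simp [h5]
      · simp [hx]
    rw [h4]
    simp

include h2 in
lemma Ez_sum : ∑ z ∈ Finset.univ.image μ, Ez Q Q' μ z = 1 := by
  have h3 : ∑ z ∈ Finset.univ.image μ, Ez Q Q' μ z = Q * (∑ z ∈ Finset.univ.image μ,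
      Matrix.diagonal (fun x => if μ x = z then (1 : ℂ) else 0)) * Q' := by
    rw [Finset.mul_sum, Finset.sum_mul]
    rfl
  have h4 : ∑ z ∈ Finset.univ.image μ,
      Matrix.diagonal (fun x => if μ x = z then (1 : ℂ) else 0) = (1 : Matrix R R ℂ) := by
    ext x y
    rw [Matrix.sum_apply]
    by_cases h : x = y
    · subst h
      simp only [Matrix.diagonal_apply_eq, Matrix.one_apply_eq]
      rw [Finset.sum_eq_single (μ x)]
      · rw [if_pos rfl]
      · intro z _ hz
        rw [if_neg (Ne.symm hz)]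
      · intro hx
        exact absurd (Finset.mem_image_of_mem _ (Finset.mem_univ x)) hx
    · rw [Matrix.one_apply_ne h]
      exact Finset.sum_eq_zero fun z _ => Matrix.diagonal_apply_ne _ h
  rw [h3, h4, mul_one, h2]

include h1 h2 hP in
lemma Ez_P (z : ℂ) : Pq.map (algebraMap ℚ ℂ) * Ez Q Q' μ z = z • Ez Q Q' μ z := by
  rw [hP, Ez]
  calc _ = Q * (Matrix.diagonal μ * ((Q' * Q) *
        Matrix.diagonal (fun x => if μ x = z then 1 else 0))) * Q' := by simp only [mul_assoc]
    _ = Q * Matrix.diagonal (fun x => μ x * if μ x = z then 1 else 0) * Q' := by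
        rw [h1, one_mul, Matrix.diagonal_mul_diagonal]
    _ = Q * (z • Matrix.diagonal (fun x => if μ x = z then 1 else 0)) * Q' := by
        congr 2
        ext i j
        by_cases hij : i = j
        · subst hij
          rw [Matrix.diagonal_apply_eq, Matrix.smul_apply, Matrix.diagonal_apply_eq, smul_eq_mul]
          by_cases h : μ i = z
          · rw [if_pos h, h]
          · rw [if_neg h, mul_zero, mul_zero]
        · rw [Matrix.diagonal_apply_ne _ hij, Matrix.smul_apply, Matrix.diagonal_apply_ne _ hij,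
            smul_zero]
    _ = _ := by rw [Matrix.mul_smul, Matrix.smul_mul]

include h1 h2 hP in
lemma Ez_comm (Y : Matrix R R ℂ) (hY : Y * Pq.map (algebraMap ℚ ℂ) = Pq.map (algebraMap ℚ ℂ) * Y)
    (z : ℂ) : Y * Ez Q Q' μ z = Ez Q Q' μ z * Y := by
  rw [hP] at hY
  have h3 : (Q' * Y * Q) * Matrix.diagonal μ = Matrix.diagonal μ * (Q' * Y * Q) := by
    calc (Q' * Y * Q) * Matrix.diagonal μ = Q' * Y * Q * Matrix.diagonal μ * (Q' * Q) := by
          rw [h1, mul_one]
      _ = Q' * (Y * (Q * Matrix.diagonal μ * Q')) * Q := by simp only [mul_assoc]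
      _ = Q' * ((Q * Matrix.diagonal μ * Q') * Y) * Q := by rw [hY]
      _ = (Q' * Q) * Matrix.diagonal μ * (Q' * Y * Q) := by simp only [mul_assoc]
      _ = _ := by rw [h1, one_mul]
  have h4 : (Q' * Y * Q) * Matrix.diagonal (fun x => if μ x = z then (1 : ℂ) else 0) =
      Matrix.diagonal (fun x => if μ x = z then (1 : ℂ) else 0) * (Q' * Y * Q) := by
    ext x y
    have h5 := congrFun (congrFun h3 x) y
    rw [Matrix.mul_diagonal, Matrix.diagonal_mul] at h5 ⊢
    by_cases hxy : (Q' * Y * Q) x y = 0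
    · rw [hxy, zero_mul, mul_zero]
    · have h6 : μ y = μ x := mul_left_cancel₀ hxy (by rw [h5, mul_comm])
      rw [h6, mul_comm]
  rw [Ez]
  calc Y * (Q * Matrix.diagonal (fun x => if μ x = z then (1 : ℂ) else 0) * Q') =
      (Q * Q') * Y * (Q * Matrix.diagonal (fun x => if μ x = z then (1 : ℂ) else 0) * Q') := by
        rw [h2, one_mul]
    _ = Q * ((Q' * Y * Q) * Matrix.diagonal (fun x => if μ x = z then (1 : ℂ) else 0)) * Q' := by
        simp only [mul_assoc]
    _ = Q * (Matrix.diagonal (fun x => if μ x = z then (1 : ℂ) else 0) * (Q' * Y * Q)) * Q' := by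
        rw [h4]
    _ = (Q * Matrix.diagonal (fun x => if μ x = z then (1 : ℂ) else 0) * Q') * Y * (Q * Q') := by
        simp only [mul_assoc]
    _ = _ := by rw [h2, mul_one]

include h1 in
lemma Ez_trace (z : ℂ) : (Ez Q Q' μ z).trace = ((Finset.univ.filter fun x => μ x = z).card : ℂ) := by
  rw [Ez, Matrix.trace_mul_comm, ← mul_assoc, h1, one_mul, Matrix.trace_diagonal,
    Finset.sum_ite, Finset.sum_const_zero, add_zero, Finset.sum_const, nsmul_eq_mul, mul_one]

include h1 hP in
lemma charpoly_eq : Pq.charpoly.map (algebraMap ℚ ℂ) = ∏ x, (X - C (μ x)) := by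
  rw [← Matrix.charpoly_map, hP, charpoly_diag h1]

include h1 hP in
lemma ev_fin : FiniteDimensional ℚ (KK μ) := by
  refine IntermediateField.finiteDimensional_adjoin ?_
  rintro _ ⟨x, rfl⟩
  refine ⟨Pq.charpoly, Matrix.charpoly_monic _, ?_⟩
  rw [← Polynomial.eval_map, charpoly_eq h1 hP, Polynomial.eval_prod]
  exact Finset.prod_eq_zero (Finset.mem_univ x) (by simp)

include h1 hP in
lemma ev_perm (g : KK μ →ₐ[ℚ] ℂ) : (∏ x, (X - C (g (ev μ x))) : ℂ[X]) = ∏ x, (X - C (μ x)) := by
  have h3 : Pq.charpoly.map (algebraMap ℚ (KK μ)) = ∏ x, (X - C (ev μ x)) := by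
    apply Polynomial.map_injective (algebraMap (KK μ) ℂ) (algebraMap (KK μ) ℂ).injective
    rw [Polynomial.map_map, ← IsScalarTower.algebraMap_eq, charpoly_eq h1 hP, Polynomial.map_prod]
    refine Finset.prod_congr rfl fun x _ => ?_
    rw [Polynomial.map_sub, Polynomial.map_X, Polynomial.map_C]
    rfl
  have h4 := congrArg (Polynomial.map (g : KK μ →+* ℂ)) h3
  rw [Polynomial.map_map, Polynomial.map_prod] at h4
  have h5 : (g : KK μ →+* ℂ).comp (algebraMap ℚ (KK μ)) = algebraMap ℚ ℂ := g.comp_algebraMap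
  rw [h5, charpoly_eq h1 hP] at h4
  rw [h4]
  refine Finset.prod_congr rfl fun x _ => ?_
  rw [Polynomial.map_sub, Polynomial.map_X, Polynomial.map_C]
  rfl

include h1 hP in
lemma ev_image (g : KK μ →ₐ[ℚ] ℂ) :
    (Finset.univ.image (ev μ)).image g = Finset.univ.image μ := by
  have h3 := congrArg Polynomial.roots (ev_perm h1 hP g)
  have h4 : ∀ f : R → ℂ, (∏ x, (X - C (f x)) : ℂ[X]).roots = Finset.univ.val.map f := by
    intro f
    rw [Polynomial.roots_prod _ _ (Finset.prod_ne_zero_iff.2 fun x _ => Polynomial.X_sub_C_ne_zero _)]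
    simp only [Polynomial.roots_X_sub_C]
    exact Multiset.bind_singleton _ _
  rw [h4, h4] at h3
  ext z
  have h5 : z ∈ Finset.univ.val.map (fun x => g (ev μ x)) ↔ z ∈ Finset.univ.val.map μ := by rw [h3]
  simp only [Multiset.mem_map, Finset.mem_val, Finset.mem_univ, true_and] at h5
  simp only [Finset.mem_image, Finset.mem_univ, true_and, exists_exists_eq_and]
  exact h5

lemma map_aeval {K : Type} [Field K] [Algebra ℚ K] (g : K →ₐ[ℚ] ℂ) (p : K[X]) :
    (Polynomial.aeval (Pq.map (algebraMap ℚ K)) p).map g =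
      Polynomial.aeval (Pq.map (algebraMap ℚ ℂ)) (p.map (g : K →+* ℂ)) := by
  have h3 : Pq.map (algebraMap ℚ ℂ) = (g : K →+* ℂ).mapMatrix (Pq.map (algebraMap ℚ K)) := by
    ext i j
    rw [RingHom.mapMatrix_apply, Matrix.map_apply, Matrix.map_apply, Matrix.map_apply]
    exact (g.commutes (Pq i j)).symm
  rw [h3]
  change (g : K →+* ℂ).mapMatrix (Polynomial.aeval (Pq.map (algebraMap ℚ K)) p) = _
  rw [Polynomial.aeval_def, Polynomial.aeval_def, Polynomial.hom_eval₂, Polynomial.eval₂_map]
  congr 1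
  ext a i j
  by_cases hij : i = j
  · subst hij
    simp [Matrix.algebraMap_matrix_apply]
  · simp [Matrix.algebraMap_matrix_apply, hij]

include h1 h2 hP in
/-- The spectral projectors are defined over the field of the eigenvalues. -/
lemma exists_e (a : KK μ) (ha : a ∈ Finset.univ.image (ev μ)) :
    ∃ e : Matrix R R (KK μ), ∀ g : KK μ →ₐ[ℚ] ℂ, e.map g = Ez Q Q' μ (g a) := by
  refine ⟨Polynomial.aeval (Pq.map (algebraMap ℚ (KK μ)))
    (Lagrange.basis (Finset.univ.image (ev μ)) id a), fun g => ?_⟩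
  rw [map_aeval, hP, aeval_diag h1 h2, Ez]
  congr 3
  funext x
  have hx : μ x ∈ (Finset.univ.image (ev μ)).image g := by
    rw [ev_image h1 hP]
    exact Finset.mem_image_of_mem _ (Finset.mem_univ x)
  obtain ⟨a', ha', hx'⟩ := Finset.mem_image.1 hx
  rw [← hx']
  have h3 : ((Lagrange.basis (Finset.univ.image (ev μ)) id a).map (g : KK μ →+* ℂ)).eval (g a') =
      g ((Lagrange.basis (Finset.univ.image (ev μ)) id a).eval a') :=
    Polynomial.eval_map_apply (g : KK μ →+* ℂ) a'
  rw [h3]
  by_cases h : a' = a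
  · subst h
    rw [if_pos rfl]
    have h4 := Lagrange.eval_basis_self (v := (id : KK μ → KK μ)) (s := Finset.univ.image (ev μ))
      (i := a') (fun _ _ _ _ h => h) ha'
    rw [id] at h4
    rw [h4, map_one]
  · have h6 : ¬ g a' = g a := fun h' => h (g.injective h')
    rw [if_neg h6]
    have h4 := Lagrange.eval_basis_of_ne (v := (id : KK μ → KK μ)) (s := Finset.univ.image (ev μ))
      (i := a) (j := a') (Ne.symm h) ha'
    rw [id] at h4
    rw [h4, map_zero]

end

end Pool.Agent.X259.T
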