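import Pool.Agent.X259.T.T2

/-!
# The invariants of the Lie algebra are in every family
-/

set_option autoImplicit false
set_option linter.unusedSectionVars false
set_option linter.unusedDecidableInType false
set_option linter.unusedFintypeInType false

namespace Pool.Agent.X259.T

open Matrix Finset Pool.Agent.H204R3.SP Pool.Agent.H204R3.GP

noncomputable section

variable {R : Type} [Fintype R] [DecidableEq R] {Q : Type} [DecidableEq Q]
  {cls : R → Q} {inv : R → R} {jj : R → ℂ} {C : ∀ κ : Type, Submodule ℂ ((κ → R) → ℂ)}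

/-- The standard bijection. -/
def eqm (m : ℕ) : (Fin m × Fin 2) ⊕ Fin 2 ≃ Fin (m + 1) × Fin 2 where
  toFun := Sum.elim (fun p => (p.1.castSucc, p.2)) (fun i => (Fin.last m, i))
  invFun := fun p => Fin.lastCases (motive := fun _ => (Fin m × Fin 2) ⊕ Fin 2)
    (Sum.inr p.2) (fun j => Sum.inl (j, p.2)) p.1
  left_inv := by
    rintro (⟨i, j⟩ | i)
    · simp
    · simp
  right_inv := by
    rintro ⟨i, j⟩
    refine Fin.lastCases ?_ (fun l => ?_) i
    · simp
    · simp

lemma std_mem (h : Fam cls inv jj C) (m : ℕ) (c : Fin m → Q) :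
    matG cls inv jj (Equiv.refl (Fin m × Fin 2)) c ∈ C (Fin m × Fin 2) := by
  induction m with
  | zero =>
    have h1 := h.ri (Equiv.equivOfIsEmpty (Fin 0) (Fin 0 × Fin 2)) h.one
    convert h1 using 1
    funext I
    simp [matG, ri]
  | succ m ih =>
    have h1 := h.ri (eqm m) (h.tp (ih fun s => c s.castSucc) (h.fm (c (Fin.last m))))
    convert h1 using 1
    funext I
    rw [matG, Fin.prod_univ_castSucc]
    rfl

lemma matG_mem (h : Fam cls inv jj C) {κ : Type} {m : ℕ} (e : Fin m × Fin 2 ≃ κ) (c : Fin m → Q) :
    matG cls inv jj e c ∈ C κ := h.ri e (std_mem h m c)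

/-- The generators of the Lie algebra. -/
def XX (inv : R → R) (jj : R → ℂ) (b c : R) : Matrix R R ℂ := fun x y =>
  JJ inv jj b x * (if y = c then 1 else 0) + JJ inv jj c x * (if y = b then 1 else 0)

lemma XX_mulVec {κ : Type} [Fintype κ] [DecidableEq κ] (b c : R) (F : (κ → R) → ℂ) (I : κ → R) :
    (dk κ (XX inv jj b c) *ᵥ F) I = ∑ k, (JJ inv jj b (I k) * F (Function.update I k c) +
      JJ inv jj c (I k) * F (Function.update I k b)) := by
  rw [dk_mulVec]
  refine Finset.sum_congr rfl fun k _ => ?_
  simp only [XX, add_mul, Finset.sum_add_distrib]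
  congr 1
  · rw [Finset.sum_eq_single c]
    · rw [if_pos rfl, mul_one]
    · intro y _ hy
      rw [if_neg hy, mul_zero, zero_mul]
    · intro h
      exact absurd (Finset.mem_univ _) h
  · rw [Finset.sum_eq_single b]
    · rw [if_pos rfl, mul_one]
    · intro y _ hy
      rw [if_neg hy, mul_zero, zero_mul]
    · intro h
      exact absurd (Finset.mem_univ _) h

/-- The component of a given type. -/
def tc (cls : R → Q) {κ : Type} [Fintype κ] (t : κ → Q) (F : (κ → R) → ℂ) : (κ → R) → ℂ :=
  fun I => if (fun k => cls (I k)) = t then F I else 0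

lemma tc_mem (hB : Bas cls inv jj) {κ : Type} [Fintype κ] [DecidableEq κ] (F : (κ → R) → ℂ)
    (hF : ∀ b c, cls (inv b) = cls c → dk κ (XX inv jj b c) *ᵥ F = 0) (t : κ → Q) :
    tc cls t F ∈ InvG cls inv jj κ t := by
  refine ⟨fun b c hbc I => ?_, fun I hI k => ?_⟩
  · have h1 := congrFun (hF b c hbc) I
    rw [XX_mulVec, Pi.zero_apply] at h1
    have hbc' : cls (inv c) = cls b := by
      have := hB.cls _ _ hbc
      rw [hB.inv2] at this
      exact this.symm
    have h2 : ∀ k, (JJ inv jj b (I k) * tc cls t F (Function.update I k c) +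
        JJ inv jj c (I k) * tc cls t F (Function.update I k b)) =
        if (fun k => cls (I k)) = t then (JJ inv jj b (I k) * F (Function.update I k c) +
      JJ inv jj c (I k) * F (Function.update I k b)) else 0 := by
      intro k
      have h3 : ∀ b' c' : R, cls (inv b') = cls c' → JJ inv jj b' (I k) *
          tc cls t F (Function.update I k c') = if (fun k => cls (I k)) = t then
            JJ inv jj b' (I k) * F (Function.update I k c') else 0 := by
        intro b' c' h'
        unfold JJ
        by_cases hk : I k = inv b'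
        · rw [if_pos hk]
          have h4 : (fun l => cls (Function.update I k c' l)) = fun l => cls (I l) := by
            funext l
            by_cases hl : l = k
            · subst hl
              rw [Function.update_self, hk, h']
            · rw [Function.update_of_ne hl]
          rw [tc, h4]
          split_ifs with h5
          · rfl
          · rw [mul_zero]
        · rw [if_neg hk, zero_mul, zero_mul]
          split_ifs <;> rfl
      rw [h3 b c hbc, h3 c b hbc']
      split_ifs
      · rfl
      · rw [add_zero]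
    rw [Finset.sum_congr rfl fun k _ => h2 k]
    split_ifs
    · exact h1
    · exact Finset.sum_const_zero
  · by_contra h
    apply hI
    rw [tc, if_neg]
    intro h'
    exact h (congrFun h' k)

lemma lie_mem (hB : Bas cls inv jj) (h : Fam cls inv jj C) {κ : Type} [Fintype κ] [DecidableEq κ]
    {m : ℕ} (hκ : Fintype.card κ = 2 * m) (F : (κ → R) → ℂ)
    (hF : ∀ b c, cls (inv b) = cls c → dk κ (XX inv jj b c) *ᵥ F = 0) : F ∈ C κ := by
  have h1 : F = ∑ t ∈ Finset.univ.image (fun I : κ → R => fun k => cls (I k)), tc cls t F := by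
    funext I
    rw [Finset.sum_apply, Finset.sum_eq_single (fun k => cls (I k))]
    · rw [tc, if_pos rfl]
    · intro t _ ht
      rw [tc, if_neg (Ne.symm ht)]
    · intro hI
      exact absurd (Finset.mem_image_of_mem _ (Finset.mem_univ I)) hI
  rw [h1]
  refine Submodule.sum_mem _ fun t _ => ?_
  have hj0 : ∀ x, jj x ≠ 0 := by
    intro x
    rcases hB.sq x with h2 | h2 <;> rw [h2] <;> norm_num
  have h2 := fftG (Ω := ℂ) hB.inv2 hB.neg hj0 hB.cls m κ hκ t (tc_mem hB F hF t)
  refine (Submodule.span_le.2 ?_ : MatG cls inv jj κ m ≤ C κ) h2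
  rintro _ ⟨e, c, rfl⟩
  exact matG_mem h e c

end

end Pool.Agent.X259.T
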