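import Pool.Agent.X259.T.T24
import Pool.Agent.X259.T.T29

/-!
# The centre of the Lie algebra of the Hodge group
-/

set_option autoImplicit false
set_option linter.unusedSectionVars false
set_option linter.unusedDecidableInType false
set_option linter.unusedFintypeInType false

namespace Pool.Agent.X259.T

open Matrix Finset Module Pool.Agent.H204R3.SP Pool.Agent.H204R3.GP Pool.Agent.W516

noncomputable section

variable {R : Type} [Fintype R] [DecidableEq R] {κ : Type} [Fintype κ] [DecidableEq κ]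
  {W T : Type} [AddCommGroup W] [Module ℚ W] [AddCommGroup T] [Module ℂ T]
  {per : W →+ T} {b : Basis R ℚ W} {b' : Basis R ℝ T}

lemma dk_gr (Ψ : MultilinearMap ℝ (fun _ : κ => T) ℝ) (z : ℂ) (J : κ → R) :
    (dk κ (Nz b' z) *ᵥ gr b' Ψ) J =
      ((∑ k, Ψ (Function.update (fun k => b' (J k)) k (z • b' (J k))) : ℝ) : ℂ) := by
  rw [dk_mulVec, Complex.ofReal_sum]
  refine Finset.sum_congr rfl fun k _ => ?_
  have h1 : Ψ (Function.update (fun k => b' (J k)) k (z • b' (J k))) =
      ∑ y, b'.repr (z • b' (J k)) y * Ψ (fun l => b' (Function.update J k y l)) := by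
    conv_lhs => rw [← b'.sum_repr (z • b' (J k))]
    rw [MultilinearMap.map_update_sum]
    refine Finset.sum_congr rfl fun y _ => ?_
    rw [MultilinearMap.map_update_smul, smul_eq_mul]
    congr 2
    funext l
    by_cases hl : l = k
    · subst hl
      rw [Function.update_self, Function.update_self]
    · rw [Function.update_of_ne hl, Function.update_of_ne hl]
  rw [h1, Complex.ofReal_sum]
  refine Finset.sum_congr rfl fun y _ => ?_
  rw [Complex.ofReal_mul]
  rfl

lemma inv_iff_dk (Ψ : MultilinearMap ℝ (fun _ : κ => T) ℝ) :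
    (∀ u : κ → T, ∑ j, Ψ (Function.update u j (Complex.I • u j)) = 0) ↔
      dk κ (Nz b' Complex.I) *ᵥ gr b' Ψ = 0 := by
  constructor
  · intro h
    funext J
    rw [dk_gr, h]
    simp
  · intro h
    let m : T →ₗ[ℝ] T :=
      { toFun := fun x => Complex.I • x
        map_add' := fun _ _ => smul_add _ _ _
        map_smul' := fun _ _ => smul_comm _ _ _ }
    let Φ : MultilinearMap ℝ (fun _ : κ => T) ℝ := ∑ k, Ψ.compLinearMap
      (Function.update (fun _ : κ => (LinearMap.id : T →ₗ[ℝ] T)) k m)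
    have hΦ : ∀ v, Φ v = ∑ k, Ψ (Function.update v k (Complex.I • v k)) := by
      intro v
      rw [_root_.sum_apply]
      refine Finset.sum_congr rfl fun k _ => ?_
      rw [MultilinearMap.compLinearMap_apply]
      congr 1
      funext l
      by_cases hl : l = k
      · subst hl
        rw [Function.update_self, Function.update_self]
        rfl
      · rw [Function.update_of_ne hl, Function.update_of_ne hl]
        rfl
    have h0 : Φ = 0 := by
      refine Basis.ext_multilinear (fun _ => b') fun J => ?_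
      rw [hΦ]
      have h1 := congrFun h J
      rw [dk_gr] at h1
      exact Complex.ofReal_injective (by rw [h1]; simp)
    intro v
    rw [← hΦ, h0]
    rfl

/-- Hodge tensors in terms of the complex structure as a derivation. -/
theorem hodge_iff_dk (hb : ∀ i, b' i = per (b i)) (ψ : MultilinearMap ℚ (fun _ : κ => W) ℚ) :
    IsHodgeTensor per ψ ↔ dk κ (Nz b' Complex.I) *ᵥ gt b ψ = 0 := by
  constructor
  · rintro ⟨Ψ, hΨ, hinv⟩
    have h1 : gt b ψ = gr b' Ψ := by
      funext J
      rw [gt, gr, ← Complex.ofReal_ratCast, ← hΨ]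
      simp only [hb]
    rw [h1]
    exact (inv_iff_dk Ψ).1 ((DR.invariant_iff Ψ).1 hinv)
  · intro h
    have : FiniteDimensional ℚ W := Module.Finite.of_basis b
    let Ψ : MultilinearMap ℝ (fun _ : κ => T) ℝ :=
      (bcm (Ω := ℝ) b ψ).compLinearMap (fun _ => (DR.eqT b b').toLinearMap)
    have hbas : ∀ I : κ → R, Ψ (fun l => b' (I l)) = ((ψ (fun l => b (I l)) : ℚ) : ℝ) := by
      intro I
      have h0 : Ψ (fun l => b' (I l)) = bcm (Ω := ℝ) b ψ (fun l => DR.eqT b b' (b' (I l))) := rfl
      rw [h0]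
      simp only [DR.eqT_basis]
      rw [bcm_one]
      rfl
    have h1 : gt b ψ = gr b' Ψ := by
      funext J
      rw [gt, gr, hbas, Complex.ofReal_ratCast]
    rw [h1] at h
    refine ⟨Ψ, fun v => ?_, (DR.invariant_iff Ψ).2 ((inv_iff_dk Ψ).2 h)⟩
    apply Complex.ofReal_injective
    rw [gr_eq_sum b' Ψ, ← h1, Complex.ofReal_ratCast, gt_eq_sum b]
    refine Finset.sum_congr rfl fun J _ => ?_
    congr 1
    refine Finset.prod_congr rfl fun k _ => ?_
    rw [per_repr per b b' hb, Complex.ofReal_ratCast]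

/-- Hodge endomorphisms commute with the complex structure. -/
lemma hodgeEnd_comm (hb : ∀ i, b' i = per (b i)) {P : Module.End ℚ W} (hP : IsHodgeEnd per P)
    (z : ℂ) : Nz b' z * mW b P = mW b P * Nz b' z := by
  obtain ⟨P', hP'⟩ := hP
  have hPr : ∀ i j, b'.repr (P' (b' i)) j = ((b.repr (P (b i)) j : ℚ) : ℝ) := by
    intro i j
    rw [hb, hP', per_repr per b b' hb]
  ext i j
  rw [Matrix.mul_apply, Matrix.mul_apply]
  have e1 : ((b'.repr (P' (z • b' i)) j : ℝ) : ℂ) = ∑ k, Nz b' z i k * mW b P k j := by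
    conv_lhs => rw [← b'.sum_repr (z • b' i)]
    rw [map_sum, map_sum, Finset.sum_apply', Complex.ofReal_sum]
    refine Finset.sum_congr rfl fun k _ => ?_
    have h1 : P' (b'.repr (z • b' i) k • b' k) = b'.repr (z • b' i) k • P' (b' k) := by
      have := P'.map_smul ((b'.repr (z • b' i) k : ℝ) : ℂ) (b' k)
      exact this
    rw [h1, map_smul, Finsupp.smul_apply, smul_eq_mul, Complex.ofReal_mul, hPr,
      Complex.ofReal_ratCast]
    rfl
  have e2 : ((b'.repr (z • P' (b' i)) j : ℝ) : ℂ) = ∑ k, mW b P i k * Nz b' z k j := by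
    conv_lhs => rw [← b'.sum_repr (P' (b' i))]
    rw [Finset.smul_sum, map_sum, Finset.sum_apply', Complex.ofReal_sum]
    refine Finset.sum_congr rfl fun k _ => ?_
    rw [smul_comm, map_smul, Finsupp.smul_apply, smul_eq_mul, Complex.ofReal_mul, hPr,
      Complex.ofReal_ratCast]
    rfl
  rw [← e1, ← e2, P'.map_smul]

lemma Nz_neg_one : Nz b' (-1) = -1 := by
  ext i j
  simp only [Nz]
  rw [neg_one_smul, map_neg, Finsupp.neg_apply, Basis.repr_self, Matrix.neg_apply,
    Matrix.one_apply, Finsupp.single_apply]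
  split_ifs <;> simp

lemma trace_mW (Z : Module.End ℚ W) : (mW b Z).trace = ((LinearMap.trace ℚ W Z : ℚ) : ℂ) := by
  rw [LinearMap.trace_eq_matrix_trace ℚ b Z, Matrix.trace, Matrix.trace, Rat.cast_sum]
  refine Finset.sum_congr rfl fun i _ => ?_
  rw [Matrix.diag_apply, Matrix.diag_apply, LinearMap.toMatrix_apply]
  rfl

lemma lam_trace (lam : ℂ →ₗ[ℚ] ℚ) (Z : Module.End ℚ W) (Y : Matrix R R ℂ) :
    lam ((mW b Z * Y).trace) = LinearMap.trace ℚ W (cmE b lam Y * Z) := by
  apply Rat.cast_injective (α := ℂ)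
  rw [← trace_mW (b := b), mW_comp, Matrix.trace, Matrix.trace, map_sum, Rat.cast_sum]
  refine Finset.sum_congr rfl fun i _ => ?_
  rw [Matrix.diag_apply, Matrix.diag_apply, Matrix.mul_apply, Matrix.mul_apply, map_sum,
    Rat.cast_sum]
  refine Finset.sum_congr rfl fun j _ => ?_
  rw [mW_cmE]
  simp only [mW]
  rw [lam_rat_mul, Rat.cast_mul]

variable {Q : Type} [DecidableEq Q] {ω₀ : W →ₗ[ℚ] W →ₗ[ℚ] ℚ} {cls : R → Q}
  {inv : R → R} {jj : R → ℂ} {S S' : Matrix R R ℂ} (hf : Frame per ω₀ b b' cls inv jj S S')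

include hf in
/-- Rational skew matrices that commute with the complex structure are skew-Hermitian. -/
lemma skewHerm {P : Module.End ℚ W} (hP : IsHodgeEnd per P)
    (hsk : ∀ u v, ω₀ (P u) v = -ω₀ u (P v)) :
    (S * mW b P * S')ᴴ = -(S * mW b P * S') := by
  let bar : Matrix R R ℂ → Matrix R R ℂ := fun M => M.map (starRingEnd ℂ)
  have hbar : ∀ M N : Matrix R R ℂ, bar (M * N) = bar M * bar N := fun M N =>
    Matrix.map_mul
  have h1 : Jm inv jj * bar S = S * Nz b' (-Complex.I) := by
    ext x j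
    rw [← hf.star x j, Matrix.mul_apply, Finset.sum_eq_single (inv x)]
    · have e : Jm inv jj x (inv x) = jj x := by simp [Jm, JJ]
      rw [e]
      rfl
    · intro y _ hy
      have e : Jm inv jj x y = 0 := by simp [Jm, JJ, hy]
      rw [e, zero_mul]
    · intro h
      exact absurd (Finset.mem_univ _) h
  have h2 : bar (mW b P) = mW b P := by
    ext i j
    change (starRingEnd ℂ) ((b.repr (P (b i)) j : ℚ) : ℂ) = _
    rw [map_ratCast]
    rfl
  have h3 : bar S * bar S' = 1 := by
    rw [← hbar, hf.one]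
    exact Matrix.map_one _ (map_zero _) (map_one _)
  have h4 : Nz b' (-Complex.I) * bar S' = S' * Jm inv jj := by
    calc Nz b' (-Complex.I) * bar S' = (S' * S) * Nz b' (-Complex.I) * bar S' := by
          rw [hf.one', one_mul]
      _ = S' * (S * Nz b' (-Complex.I)) * bar S' := by simp only [mul_assoc]
      _ = S' * (Jm inv jj * bar S) * bar S' := by rw [h1]
      _ = S' * Jm inv jj * (bar S * bar S') := by simp only [mul_assoc]
      _ = _ := by rw [h3, mul_one]
  have h5 : Jm inv jj * bar (S * mW b P * S') = (S * mW b P * S') * Jm inv jj := by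
    calc Jm inv jj * bar (S * mW b P * S') = (Jm inv jj * bar S) * mW b P * bar S' := by
          rw [hbar, hbar, h2]
          simp only [mul_assoc]
      _ = S * (Nz b' (-Complex.I) * mW b P) * bar S' := by
          rw [h1]
          simp only [mul_assoc]
      _ = S * mW b P * (Nz b' (-Complex.I) * bar S') := by
          rw [hodgeEnd_comm hf.hb hP]
          simp only [mul_assoc]
      _ = _ := by rw [h4]; simp only [mul_assoc]
  have h6 : (S * mW b P * S') * Jm inv jj = -(Jm inv jj * (S * mW b P * S')ᵀ) := by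
    have h7 : mW b P * Om b ω₀ = -(Om b ω₀ * (mW b P)ᵀ) := by
      ext i j
      rw [Matrix.neg_apply, Matrix.mul_apply, Matrix.mul_apply]
      have e1 : ((ω₀ (P (b i)) (b j) : ℚ) : ℂ) = ∑ k, mW b P i k * Om b ω₀ k j := by
        conv_lhs => rw [← b.sum_repr (P (b i))]
        rw [map_sum, LinearMap.sum_apply, Rat.cast_sum]
        refine Finset.sum_congr rfl fun k _ => ?_
        rw [map_smul, LinearMap.smul_apply, smul_eq_mul, Rat.cast_mul]
        rfl
      have e2 : ((ω₀ (b i) (P (b j)) : ℚ) : ℂ) = ∑ k, Om b ω₀ i k * (mW b P)ᵀ k j := by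
        conv_lhs => rw [← b.sum_repr (P (b j))]
        rw [map_sum, Rat.cast_sum]
        refine Finset.sum_congr rfl fun k _ => ?_
        rw [map_smul, smul_eq_mul, Rat.cast_mul, Matrix.transpose_apply, mul_comm]
        rfl
      rw [← e1, ← e2, hsk, Rat.cast_neg]
    have h8 : Om b ω₀ * Sᵀ = S' * Jm inv jj := by
      calc Om b ω₀ * Sᵀ = (S' * S) * Om b ω₀ * Sᵀ := by rw [hf.one', one_mul]
        _ = S' * (S * Om b ω₀ * Sᵀ) := by simp only [mul_assoc]
        _ = _ := by rw [hf.form]
    have h9 : S'ᵀ * Sᵀ = 1 := by rw [← Matrix.transpose_mul, hf.one, Matrix.transpose_one]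
    calc (S * mW b P * S') * Jm inv jj = S * (mW b P * Om b ω₀) * Sᵀ := by
          rw [mul_assoc (S * mW b P), ← h8]
          simp only [mul_assoc]
      _ = -(S * Om b ω₀ * ((Sᵀ * S'ᵀ) * ((mW b P)ᵀ * Sᵀ))) := by
          rw [h7, ← Matrix.transpose_mul S' S, hf.one', Matrix.transpose_one, one_mul]
          simp only [mul_neg, neg_mul, mul_assoc]
      _ = -((S * Om b ω₀ * Sᵀ) * (S * mW b P * S')ᵀ) := by
          rw [Matrix.transpose_mul, Matrix.transpose_mul]
          simp only [mul_assoc]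
      _ = _ := by rw [hf.form]
  have h7 : bar (S * mW b P * S') = -(S * mW b P * S')ᵀ := by
    have h8 : Jm inv jj * bar (S * mW b P * S') = Jm inv jj * -(S * mW b P * S')ᵀ := by
      rw [h5, h6, mul_neg]
    have h9 : Jm inv jj * (Jm inv jj * bar (S * mW b P * S')) =
        Jm inv jj * (Jm inv jj * -(S * mW b P * S')ᵀ) := by rw [h8]
    rw [← mul_assoc, ← mul_assoc, Jm_sq hf.bas, neg_one_mul, neg_one_mul] at h9
    exact neg_injective h9
  have h8 : (S * mW b P * S')ᴴ = (bar (S * mW b P * S'))ᵀ := rfl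
  rw [h8, h7, Matrix.transpose_neg, Matrix.transpose_transpose]

/-- Diagonalization of a skew-Hermitian matrix. -/
lemma exists_diag_skew {H : Matrix R R ℂ} (hH : Hᴴ = -H) :
    ∃ (U : Matrix R R ℂ) (U' : Matrix R R ℂ) (μ : R → ℂ), U' * U = 1 ∧ U * U' = 1 ∧
      H = U * Matrix.diagonal μ * U' := by
  have h1 : (Complex.I • H).IsHermitian := by
    change (Complex.I • H)ᴴ = Complex.I • H
    rw [Matrix.conjTranspose_smul, hH]
    simp
  have h2 := h1.spectral_theorem
  rw [Unitary.conjStarAlgAut_apply] at h2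
  have h3 : star (h1.eigenvectorUnitary : Matrix R R ℂ) * (h1.eigenvectorUnitary : Matrix R R ℂ) = 1 :=
    Unitary.coe_star_mul_self _
  have h4 : (h1.eigenvectorUnitary : Matrix R R ℂ) * star (h1.eigenvectorUnitary : Matrix R R ℂ) = 1 :=
    Unitary.coe_mul_star_self _
  refine ⟨h1.eigenvectorUnitary, star (h1.eigenvectorUnitary : Matrix R R ℂ),
    fun x => -Complex.I * (h1.eigenvalues x : ℂ), h3, h4, ?_⟩
  have h5 : H = -Complex.I • (Complex.I • H) := by
    rw [smul_smul, neg_mul, Complex.I_mul_I, neg_neg, one_smul]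
  refine h5.trans ((congrArg (fun M => -Complex.I • M) h2).trans ?_)
  have h6 : Matrix.diagonal (fun x => -Complex.I * (h1.eigenvalues x : ℂ)) =
      -Complex.I • Matrix.diagonal (RCLike.ofReal ∘ h1.eigenvalues) := by
    ext i j
    by_cases hij : i = j
    · subst hij
      simp
    · simp [Matrix.diagonal_apply_ne _ hij]
  rw [h6, Matrix.mul_smul, Matrix.smul_mul]

end

end Pool.Agent.X259.T
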