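import Pool.Agent.X259.T.T30

/-!
# Central elements that kill all Hodge classes of bounded degree
-/

set_option autoImplicit false
set_option linter.unusedSectionVars false
set_option linter.unusedDecidableInType false
set_option linter.unusedFintypeInType false

namespace Pool.Agent.X259.T

open Matrix Finset Module Pool.Agent.H204R3.SP Pool.Agent.H204R3.GP Pool.Agent.W516

noncomputable section

variable {R : Type} [Fintype R] [DecidableEq R] {κ : Type} [Fintype κ] [DecidableEq κ]
  {W T : Type} [AddCommGroup W] [Module ℚ W] [AddCommGroup T] [Module ℂ T]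
  {per : W →+ T} {b : Basis R ℚ W} {b' : Basis R ℝ T}
  {Q : Type} [DecidableEq Q] {ω₀ : W →ₗ[ℚ] W →ₗ[ℚ] ℚ} {cls : R → Q}
  {inv : R → R} {jj : R → ℂ} {S S' : Matrix R R ℂ} (hf : Frame per ω₀ b b' cls inv jj S S')

lemma Nz_I_sq : Nz b' Complex.I * Nz b' Complex.I = -1 := by
  rw [← Nz_mul, Complex.I_mul_I, Nz_neg_one]

lemma Nz_trace : (Nz b' Complex.I).trace = 0 := by
  obtain ⟨δ, -, hδ⟩ := i_trace (Nz b' Complex.I) Nz_I_sq
  have h1 : (Nz b' Complex.I).trace.im = 0 := by
    rw [Matrix.trace, Complex.im_sum]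
    refine Finset.sum_eq_zero fun i _ => ?_
    rw [Matrix.diag_apply, Nz, Complex.ofReal_im]
  have h2 : (δ : ℝ) = 0 := by
    rw [hδ] at h1
    simpa using h1
  have h3 : δ = 0 := by exact_mod_cast h2
  rw [hδ, h3, Int.cast_zero, mul_zero]

/-- The components of the complex structure are in the Lie algebra of the Hodge group. -/
lemma cmE_Nz_mem (hb : ∀ i, b' i = per (b i)) (lam : ℂ →ₗ[ℚ] ℚ) :
    cmE b lam (Nz b' Complex.I) ∈ LQ per := fun m ψ hψ =>
  (dk_iff b (Nz b' Complex.I) ψ).1 ((hodge_iff_dk hb ψ).1 hψ) lam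

/-- Elements orthogonal to the Lie algebra of the Hodge group. -/
lemma trace_Nz_zero (hb : ∀ i, b' i = per (b i)) {P : Module.End ℚ W}
    (horth : ∀ Z ∈ LQ per, LinearMap.trace ℚ W (Z * P) = 0) :
    (Nz b' Complex.I * mW b P).trace = 0 := by
  rw [Matrix.trace_mul_comm]
  refine eq_zero_of_comp fun lam => ?_
  rw [lam_trace]
  exact horth _ (cmE_Nz_mem hb lam)

include hf in
lemma trace_skew {P : Module.End ℚ W} (hP : IsHodgeEnd per P)
    (hsk : ∀ u v, ω₀ (P u) v = -ω₀ u (P v)) : (mW b P).trace = 0 := by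
  have h1 : (S * mW b P * S').trace = (mW b P).trace := by
    rw [Matrix.trace_mul_comm, ← mul_assoc, hf.one', one_mul]
  have h2 := congrArg Matrix.trace (skewHerm hf hP hsk)
  rw [Matrix.trace_conjTranspose, Matrix.trace_neg, h1, trace_mW] at h2
  rw [trace_mW]
  have h3 : star ((LinearMap.trace ℚ W P : ℚ) : ℂ) = ((LinearMap.trace ℚ W P : ℚ) : ℂ) :=
    map_ratCast (starRingEnd ℂ) _
  rw [h3] at h2
  exact self_eq_neg.1 h2

include hf in
/-- Skew Hodge endomorphisms which are orthogonal to the Lie algebra of the Hodge group and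
annihilate all Hodge classes of bounded degree are zero. -/
theorem center_zero (P : Module.End ℚ W) (hP : IsHodgeEnd per P)
    (hsk : ∀ u v, ω₀ (P u) v = -ω₀ u (P v))
    (horth : ∀ Z ∈ LQ per, LinearMap.trace ℚ W (Z * P) = 0)
    (hkill : ∀ m, 2 * m ≤ 4 * (Fintype.card R * Fintype.card R) ^ (Fintype.card R) *
      Fintype.card R → ∀ ψ : RF W m, IsHodgeTensor per ψ → Kills P ψ) : P = 0 := by
  by_contra hne
  let Pq : Matrix R R ℚ := fun i j => b.repr (P (b i)) j
  have hPq : Pq.map (algebraMap ℚ ℂ) = mW b P := by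
    ext i j
    change algebraMap ℚ ℂ (b.repr (P (b i)) j) = _
    rw [eq_ratCast]
    rfl
  obtain ⟨U, U', μ, hU1, hU2, hH⟩ := exists_diag_skew (skewHerm hf hP hsk)
  have hQ1 : (U' * S) * (S' * U) = 1 := by
    calc (U' * S) * (S' * U) = U' * (S * S') * U := by simp only [mul_assoc]
      _ = 1 := by rw [hf.one, mul_one, hU1]
  have hQ2 : (S' * U) * (U' * S) = 1 := by
    calc (S' * U) * (U' * S) = S' * (U * U') * S := by simp only [mul_assoc]
      _ = 1 := by rw [hU2, mul_one, hf.one']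
  have hQ3 : Pq.map (algebraMap ℚ ℂ) = (S' * U) * Matrix.diagonal μ * (U' * S) := by
    rw [hPq]
    calc mW b P = (S' * S) * mW b P * (S' * S) := by rw [hf.one', one_mul, mul_one]
      _ = S' * (S * mW b P * S') * S := by simp only [mul_assoc]
      _ = S' * (U * Matrix.diagonal μ * U') * S := by rw [← hH]
      _ = _ := by simp only [mul_assoc]
  obtain ⟨K, _, _, _, g₀, κ, _, _, F, heven, hcard, hN, hPF⟩ := exists_tensor hQ1 hQ2 hQ3
    (Nz b' Complex.I) Nz_I_sq (by rw [hPq]; exact hodgeEnd_comm hf.hb hP _) Nz_trace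
    (by rw [hPq]; exact trace_Nz_zero hf.hb horth) (by rw [hPq]; exact trace_skew hf hP hsk)
    (by
      rw [hPq]
      intro h0
      apply hne
      apply mW_inj b
      rw [h0]
      ext i j
      simp [mW])
  apply hPF
  rw [hPq]
  obtain ⟨m, hm⟩ := heven
  have hcard2 : Fintype.card κ = Fintype.card (Fin m × Fin 2) := by
    rw [hm, Fintype.card_prod, Fintype.card_fin, Fintype.card_fin]
    ring
  let e : κ ≃ Fin m × Fin 2 := Fintype.equivOfCardEq hcard2
  funext J
  refine eq_zero_of_comp fun lam => ?_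
  apply Rat.cast_injective (α := ℂ)
  rw [← lam_dk' lam P (fun J => g₀ (F J)) J]
  -- the rational components
  let G : (κ → R) → ℚ := fun J => lam (g₀ (F J))
  have hG : gt b (mkc b G) = fun J => ((lam (g₀ (F J)) : ℚ) : ℂ) := gt_mkc b G
  have hGN : dk κ (Nz b' Complex.I) *ᵥ gt b (mkc b G) = 0 := by
    let φ : K →ₗ[ℚ] ℂ := (Algebra.linearMap ℚ ℂ) ∘ₗ lam ∘ₗ g₀.toLinearMap
    obtain ⟨c, hc⟩ := emb_span φ
    have h1 : gt b (mkc b G) = ∑ g : K →ₐ[ℚ] ℂ, c g • fun J => g (F J) := by
      rw [hG]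
      funext J
      have h2 := hc (F J)
      change algebraMap ℚ ℂ (lam (g₀ (F J))) = _ at h2
      rw [eq_ratCast] at h2
      rw [h2, Finset.sum_apply]
      rfl
    rw [h1, Matrix.mulVec_sum]
    refine Finset.sum_eq_zero fun g _ => ?_
    rw [Matrix.mulVec_smul, hN g, smul_zero]
  have h3 : IsHodgeTensor per ((mkc b G).domDomCongr e : RF W m) := by
    rw [hodge_iff_dk hf.hb, gt_dom, dk_ri, hGN]
    rfl
  have h4 := (kills_iff b P _).1 (hkill m (by omega) _ h3)
  rw [gt_dom, dk_ri, hG] at h4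
  have h5 := congrFun h4 (fun k => J (e.symm k))
  simp only [ri, Equiv.symm_apply_apply, Pi.zero_apply] at h5
  rw [Rat.cast_zero]
  exact h5

end

end Pool.Agent.X259.T
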