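import Pool.Agent.X259.T.T31

/-!
# The centre of the Lie algebra of the Hodge group, bound for the degree
-/

set_option autoImplicit false
set_option linter.unusedSectionVars false
set_option linter.unusedDecidableInType false
set_option linter.unusedFintypeInType false

namespace Pool.Agent.X259.T

open Matrix Finset Module Pool.Agent.H204R3.SP Pool.Agent.H204R3.GP Pool.Agent.W516
open scoped ComplexOrder

noncomputable section

variable {R : Type} [Fintype R] [DecidableEq R]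
  {W T : Type} [AddCommGroup W] [Module ℚ W] [AddCommGroup T] [Module ℂ T]
  {per : W →+ T} {b : Basis R ℚ W} {b' : Basis R ℝ T}
  {Q : Type} [DecidableEq Q] {ω₀ : W →ₗ[ℚ] W →ₗ[ℚ] ℚ} {cls : R → Q}
  {inv : R → R} {jj : R → ℂ} {S S' : Matrix R R ℂ} (hf : Frame per ω₀ b b' cls inv jj S S')

/-- The Lie algebra of the Hodge group. -/
def LS (per : W →+ T) : Submodule ℚ (Module.End ℚ W) where
  carrier := LQ per
  add_mem' := by
    intro Z Z' hZ hZ' m ψ hψ v
    have h1 := hZ m ψ hψ v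
    have h2 := hZ' m ψ hψ v
    simp only [LinearMap.add_apply, MultilinearMap.map_update_add, Finset.sum_add_distrib]
    rw [h1, h2, add_zero]
  zero_mem' := by
    intro m ψ hψ v
    refine Finset.sum_eq_zero fun k _ => ?_
    rw [LinearMap.zero_apply]
    exact ψ.map_update_zero v k
  smul_mem' := by
    intro c Z hZ m ψ hψ v
    have h1 := hZ m ψ hψ v
    simp only [LinearMap.smul_apply, MultilinearMap.map_update_smul]
    rw [← Finset.smul_sum, h1, smul_zero]

lemma mem_LS {Z : Module.End ℚ W} : Z ∈ LS per ↔ Z ∈ LQ per := Iff.rfl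

include b in
lemma LQ_bracket {Z Z' : Module.End ℚ W} (hZ : Z ∈ LQ per) (hZ' : Z' ∈ LQ per) :
    Z * Z' - Z' * Z ∈ LQ per := by
  intro m ψ hψ
  have h0 : mW b (Z * Z' - Z' * Z) = mW b Z' * mW b Z - mW b Z * mW b Z' := by
    rw [← mW_comp, ← mW_comp]
    ext i j
    simp only [mW, Matrix.sub_apply, LinearMap.sub_apply, map_sub, Finsupp.sub_apply, Rat.cast_sub]
  rw [kills_iff b, h0, dk_bracket, Matrix.sub_mulVec, ← Matrix.mulVec_mulVec,
    ← Matrix.mulVec_mulVec, (kills_iff b Z ψ).1 (hZ m ψ hψ), (kills_iff b Z' ψ).1 (hZ' m ψ hψ),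
    Matrix.mulVec_zero, Matrix.mulVec_zero, sub_zero]

include hf in
lemma LQ_nondeg (hBf : Fam cls inv jj (Fm S b (Hd per))) {X : Module.End ℚ W} (hX : X ∈ LQ per)
    (h : ∀ Z ∈ LQ per, LinearMap.trace ℚ W (Z * X) = 0) : X = 0 := by
  have h1 := conj_mem_LL hf hX
  have h2 := LL_star hf.bas hBf h1
  set A := S * mW b X * S' with hA
  have h3 : (mW b X * (S' * Aᴴ * S)).trace = 0 := by
    refine eq_zero_of_comp fun lam => ?_
    rw [lam_trace]
    exact h _ fun m ψ hψ => kills_of_LL hf hBf h2 lam m ψ hψ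
  have h4 : (A * Aᴴ).trace = 0 := by
    rw [← h3]
    calc (A * Aᴴ).trace = (S * (mW b X * S' * Aᴴ)).trace := by
          rw [hA]
          simp only [mul_assoc]
      _ = ((mW b X * S' * Aᴴ) * S).trace := Matrix.trace_mul_comm _ _
      _ = _ := by simp only [mul_assoc]
  have h5 : A = 0 := Matrix.trace_mul_conjTranspose_self_eq_zero_iff.1 h4
  apply mW_inj b
  have h6 : mW b (0 : Module.End ℚ W) = 0 := by
    ext i j
    simp [mW]
  rw [h6]
  calc mW b X = (S' * S) * mW b X * (S' * S) := by rw [hf.one', one_mul, mul_one]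
    _ = S' * A * S := by rw [hA]; simp only [mul_assoc]
    _ = 0 := by rw [h5, mul_zero, zero_mul]

include hf in
/-- **The centre.** A skew endomorphism which is central in the endomorphisms of the Hodge structure
and annihilates all Hodge classes of bounded degree annihilates all Hodge classes. -/
theorem center_all (hcl : ∀ x y, cls x = cls y) (hper : DR.IsRationalStructure per)
    (hωH : IsHodgeBilinear per ω₀) {ι : Type} [Fintype ι] [DecidableEq ι] {β β' : ι → W}
    (hβ : ∀ w : W, w = ∑ i, ω₀ w (β' i) • β i)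
    (P : Module.End ℚ W) (hP : IsHodgeEnd per P) (hsk : ∀ u v, ω₀ (P u) v = -ω₀ u (P v))
    (hkill : ∀ m, 2 * m ≤ 4 * (Fintype.card R * Fintype.card R) ^ (Fintype.card R) *
      Fintype.card R → ∀ ψ : RF W m, IsHodgeTensor per ψ → Kills P ψ) : P ∈ LQ per := by
  have hfd : FiniteDimensional ℚ W := Module.Finite.of_basis b
  have hBf := fam hf hcl hβ (closed_hd hf hωH hβ) (fun m ψ hψ => hψ)
  let tf : Module.End ℚ W →ₗ[ℚ] Module.End ℚ W →ₗ[ℚ] ℚ :=
    (LinearMap.mul ℚ (Module.End ℚ W)).compr₂ (LinearMap.trace ℚ W)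
  have htf : ∀ X Y, tf X Y = LinearMap.trace ℚ W (X * Y) := fun X Y => rfl
  let B : LS per →ₗ[ℚ] Module.Dual ℚ (LS per) := tf.domRestrict₁₂ (LS per) (LS per)
  have hB : ∀ X Y, B X Y = LinearMap.trace ℚ W (X.1 * Y.1) := fun X Y => rfl
  have hinj : Function.Injective B := by
    rw [← LinearMap.ker_eq_bot, LinearMap.ker_eq_bot']
    intro X hX
    apply Subtype.ext
    refine LQ_nondeg hf hBf X.2 fun Z hZ => ?_
    rw [LinearMap.trace_mul_comm, ← hB X ⟨Z, hZ⟩, hX]
    rfl
  have hsurj : Function.Surjective B :=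
    (LinearMap.injective_iff_surjective_of_finrank_eq_finrank Subspace.dual_finrank_eq.symm).1 hinj
  obtain ⟨P₀, hP₀⟩ := hsurj ((tf P).domRestrict (LS per))
  have h1 : ∀ Z ∈ LQ per, LinearMap.trace ℚ W (P₀.1 * Z) = LinearMap.trace ℚ W (P * Z) := by
    intro Z hZ
    have h2 := congrArg (fun f : Module.Dual ℚ (LS per) => f ⟨Z, hZ⟩) hP₀
    exact h2
  have hPcomm : ∀ Z ∈ LQ per, Z * P = P * Z := fun Z hZ =>
    DR.comm_hodgeEnd per ω₀ (fun u hu => om_nd hf hu) hωH Z hZ hP
  -- the projection is central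
  have h2 : ∀ Z ∈ LQ per, Z * P₀.1 = P₀.1 * Z := by
    intro Z hZ
    have h3 : Z * P₀.1 - P₀.1 * Z ∈ LQ per := LQ_bracket (b := b) hZ P₀.2
    have h4 : Z * P₀.1 - P₀.1 * Z = 0 := by
      refine LQ_nondeg hf hBf h3 fun Z' hZ' => ?_
      have e1 : LinearMap.trace ℚ W (Z' * (Z * P₀.1)) =
          LinearMap.trace ℚ W (P₀.1 * (Z' * Z)) := by
        rw [← mul_assoc, LinearMap.trace_mul_comm]
      have e2 : LinearMap.trace ℚ W (Z' * (P₀.1 * Z)) =
          LinearMap.trace ℚ W (P₀.1 * (Z * Z')) := by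
        rw [LinearMap.trace_mul_comm, mul_assoc]
      have h5 : LinearMap.trace ℚ W (Z' * (Z * P₀.1 - P₀.1 * Z)) =
          LinearMap.trace ℚ W (P₀.1 * (Z' * Z - Z * Z')) := by
        rw [mul_sub, mul_sub, map_sub, map_sub, e1, e2]
      have e3 : LinearMap.trace ℚ W (P * (Z' * Z)) = LinearMap.trace ℚ W (P * (Z * Z')) := by
        calc LinearMap.trace ℚ W (P * (Z' * Z)) = LinearMap.trace ℚ W (Z' * (P * Z)) := by
              rw [← mul_assoc, ← hPcomm Z' hZ', mul_assoc]
          _ = LinearMap.trace ℚ W ((P * Z) * Z') := LinearMap.trace_mul_comm _ _ _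
          _ = _ := by rw [mul_assoc]
      rw [h5, h1 _ (LQ_bracket (b := b) hZ' hZ), mul_sub, map_sub, e3, sub_self]
    exact sub_eq_zero.1 h4
  have hH₀ : IsHodgeEnd per P₀.1 := hodgeEnd_of_comm hf hper hωH _ h2
  have hsk₀ : ∀ u v, ω₀ (P₀.1 u) v = -ω₀ u (P₀.1 v) := by
    intro u v
    have h3 := (DR.kills_one2 ω₀ P₀.1).1 (P₀.2 1 _ (DR.one2_hodge per ω₀ hωH)) u v
    linarith [h3]
  have h3 : P - P₀.1 = 0 := by
    refine center_zero hf (P - P₀.1) ?_ ?_ ?_ ?_
    · obtain ⟨f, hf1⟩ := hP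
      obtain ⟨f', hf2⟩ := hH₀
      exact ⟨f - f', fun w => by
        rw [LinearMap.sub_apply, LinearMap.sub_apply, map_sub, hf1, hf2]⟩
    · intro u v
      rw [LinearMap.sub_apply, LinearMap.sub_apply, map_sub, map_sub, LinearMap.sub_apply, hsk,
        hsk₀]
      ring
    · intro Z hZ
      rw [mul_sub, map_sub, LinearMap.trace_mul_comm ℚ Z P, LinearMap.trace_mul_comm ℚ Z P₀.1,
        h1 Z hZ, sub_self]
    · intro m hm ψ hψ v
      have h4 := hkill m hm ψ hψ v
      have h5 := P₀.2 m ψ hψ v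
      simp only [LinearMap.sub_apply, MultilinearMap.map_update_sub, Finset.sum_sub_distrib]
      rw [h4, h5, sub_zero]
  rw [sub_eq_zero.1 h3]
  exact P₀.2

end

end Pool.Agent.X259.T
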