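import Pool.Agent.X259.T.T32

/-!
# Numerical bounds, and the theorem that one power decides
-/

set_option autoImplicit false
set_option linter.unusedSectionVars false
set_option linter.unusedDecidableInType false
set_option linter.unusedFintypeInType false

namespace Pool.Agent.X259.T

open Matrix Finset Module Pool.Agent.H204R3.SP Pool.Agent.H204R3.GP Pool.Agent.W516

noncomputable section

lemma num_of_log {d m : ℕ} {δ : ℝ} (hd : 0 < d) (hδd : δ ≤ d)
    (h : (d : ℝ) * d * Real.log (m + 1) < 2 * m * (δ / d)) :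
    ((m : ℝ) + 1) ^ (d * d) * ((d : ℝ) - δ) ^ (2 * m) < (d : ℝ) ^ (2 * m) := by
  have hd' : (0 : ℝ) < d := by exact_mod_cast hd
  have hm' : (0 : ℝ) < (m : ℝ) + 1 := by positivity
  have h0 : (d : ℝ) - δ ≤ d * Real.exp (-(δ / d)) := by
    have h1 := Real.add_one_le_exp (-(δ / d))
    have h2 : (d : ℝ) - δ = d * (-(δ / d) + 1) := by
      field_simp
      ring
    rw [h2]
    exact mul_le_mul_of_nonneg_left h1 hd'.le
  have h1 : ((d : ℝ) - δ) ^ (2 * m) ≤ (d * Real.exp (-(δ / d))) ^ (2 * m) :=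
    pow_le_pow_left₀ (by linarith) h0 _
  have h2 : ((m : ℝ) + 1) ^ (d * d) = Real.exp ((d : ℝ) * d * Real.log (m + 1)) := by
    have h3 : (d : ℝ) * d = ((d * d : ℕ) : ℝ) := by push_cast; ring
    rw [h3, Real.exp_nat_mul, Real.exp_log hm']
  have h3 : (d * Real.exp (-(δ / d))) ^ (2 * m) =
      (d : ℝ) ^ (2 * m) * Real.exp (-(2 * m * (δ / d))) := by
    rw [mul_pow, ← Real.exp_nat_mul]
    congr 2
    push_cast
    ring
  calc ((m : ℝ) + 1) ^ (d * d) * ((d : ℝ) - δ) ^ (2 * m) ≤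
      Real.exp ((d : ℝ) * d * Real.log (m + 1)) *
        ((d : ℝ) ^ (2 * m) * Real.exp (-(2 * m * (δ / d)))) := by
        rw [h2]
        refine mul_le_mul_of_nonneg_left ?_ (Real.exp_pos _).le
        rw [← h3]
        exact h1
    _ = (d : ℝ) ^ (2 * m) * Real.exp ((d : ℝ) * d * Real.log (m + 1) - 2 * m * (δ / d)) := by
        rw [sub_eq_add_neg, Real.exp_add]
        ring
    _ < (d : ℝ) ^ (2 * m) * 1 := by
        refine mul_lt_mul_of_pos_left ?_ (by positivity)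
        rw [Real.exp_lt_one_iff]
        linarith
    _ = _ := mul_one _

lemma log_mono {c a : ℝ} {M m : ℕ} (hM : 0 < M) (hc : 0 ≤ c) (h : c * Real.log (M + 1) < a * M)
    (hm : M ≤ m) : c * Real.log (m + 1) < a * m := by
  have hM' : (0 : ℝ) < M := by exact_mod_cast hM
  have hM1 : (0 : ℝ) < (M : ℝ) + 1 := by positivity
  have hm1 : (0 : ℝ) < (m : ℝ) + 1 := by positivity
  have hmM : (M : ℝ) ≤ m := by exact_mod_cast hm
  have h1 : Real.log (m + 1) ≤ Real.log (M + 1) + (m - M) / (M + 1) := by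
    have h2 : Real.log (m + 1) = Real.log (M + 1) + Real.log ((m + 1) / (M + 1)) := by
      rw [Real.log_div hm1.ne' hM1.ne']
      ring
    have h3 := Real.log_le_sub_one_of_pos (div_pos hm1 hM1)
    have h4 : ((m : ℝ) + 1) / (M + 1) - 1 = (m - M) / (M + 1) := by
      field_simp
      ring
    rw [h2]
    linarith
  have h2 : c / (M + 1) ≤ a := by
    have h3 := Real.one_sub_inv_le_log_of_pos hM1
    have h4 : 1 - ((M : ℝ) + 1)⁻¹ = M / (M + 1) := by
      field_simp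
      ring
    rw [h4] at h3
    have h5 : c * (M / (M + 1)) < a * M := lt_of_le_of_lt (mul_le_mul_of_nonneg_left h3 hc) h
    have h6 : c * (M / (M + 1)) = (c / (M + 1)) * M := by ring
    rw [h6] at h5
    exact (lt_of_mul_lt_mul_right h5 hM'.le).le
  calc c * Real.log (m + 1) ≤ c * (Real.log (M + 1) + (m - M) / (M + 1)) :=
        mul_le_mul_of_nonneg_left h1 hc
    _ = c * Real.log (M + 1) + (c / (M + 1)) * (m - M) := by ring
    _ < a * M + a * (m - M) := by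
        refine add_lt_add_of_lt_of_le h ?_
        exact mul_le_mul_of_nonneg_right h2 (by linarith)
    _ = a * m := by ring

/-- The bound without factors of type IV. -/
lemma num_four {d m : ℕ} (hd : 2 ≤ d) (hm : d ^ 3 * (Nat.log 2 d + 1) ≤ m) :
    ((m : ℝ) + 1) ^ (d * d) *
      ((d : ℝ) - 2 * (1 - Real.cos (2 * Real.pi / (4 : ℕ)))) ^ (2 * m) < (d : ℝ) ^ (2 * m) := by
  have hcos : Real.cos (2 * Real.pi / (4 : ℕ)) = 0 := by
    have h1 : 2 * Real.pi / ((4 : ℕ) : ℝ) = Real.pi / 2 := by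
      push_cast
      ring
    rw [h1, Real.cos_pi_div_two]
  rw [hcos, sub_zero, mul_one]
  have hd0 : (0 : ℝ) < d := by
    have : 0 < d := by omega
    exact_mod_cast this
  have hd2 : (2 : ℝ) ≤ d := by exact_mod_cast hd
  refine num_of_log (by omega) hd2 ?_
  set L := Nat.log 2 d + 1 with hL
  have hM0 : 0 < d ^ 3 * L := by
    have : 0 < d := by omega
    positivity
  have hdL : d < 2 ^ L := Nat.lt_pow_succ_log_self (by norm_num) d
  have hLL : L < 2 ^ L := Nat.lt_two_pow_self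
  have hM16 : d ^ 3 * L + 1 ≤ 16 ^ L := by
    have h1 : d ^ 3 ≤ (2 ^ L) ^ 3 := Nat.pow_le_pow_left hdL.le 3
    have h2 : d ^ 3 * L < (2 ^ L) ^ 3 * 2 ^ L :=
      Nat.mul_lt_mul_of_le_of_lt h1 hLL (by positivity)
    have h3 : (2 ^ L) ^ 3 * 2 ^ L = 16 ^ L := by
      rw [← pow_succ, ← pow_mul, mul_comm, pow_mul]
      norm_num
    omega
  have hlog : Real.log (((d ^ 3 * L : ℕ) : ℝ) + 1) < 4 * L := by
    have h1 : (((d ^ 3 * L : ℕ) : ℝ) + 1) ≤ (16 : ℝ) ^ L := by exact_mod_cast hM16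
    have h2 : Real.log (((d ^ 3 * L : ℕ) : ℝ) + 1) ≤ L * Real.log 16 := by
      rw [← Real.log_pow]
      exact Real.log_le_log (by positivity) h1
    have h3 : Real.log 16 < 4 := by
      have h4 : (16 : ℝ) = 2 ^ 4 := by norm_num
      rw [h4, Real.log_pow]
      have h5 := Real.log_two_lt_d9
      push_cast
      linarith
    have h4 : (0 : ℝ) < L := by
      have : 0 < L := by omega
      exact_mod_cast this
    nlinarith
  have h1 : (d : ℝ) * d * Real.log (((d ^ 3 * L : ℕ) : ℝ) + 1) < (4 / d) * ((d ^ 3 * L : ℕ) : ℝ) := by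
    have h2 : (4 / (d : ℝ)) * ((d ^ 3 * L : ℕ) : ℝ) = (d : ℝ) * d * (4 * L) := by
      push_cast
      field_simp
    rw [h2]
    exact mul_lt_mul_of_pos_left hlog (by positivity)
  have h2 := log_mono hM0 (by positivity) h1 hm
  have h3 : 2 * (m : ℝ) * (2 / d) = (4 / d) * m := by
    field_simp
    ring
  rw [h3]
  exact h2

/-- The bound in general. -/
lemma num_gen {d m : ℕ} (hd : 2 ≤ d) (hm : d ^ (4 * d + 9) ≤ m) :
    ((m : ℝ) + 1) ^ (d * d) *
      ((d : ℝ) - 2 * (1 - Real.cos (2 * Real.pi / (4 * (d * d) ^ d * d : ℕ)))) ^ (2 * m) <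
        (d : ℝ) ^ (2 * m) := by
  have hd0 : (0 : ℝ) < d := by
    have : 0 < d := by omega
    exact_mod_cast this
  have hd2 : (2 : ℝ) ≤ d := by exact_mod_cast hd
  set N : ℕ := 4 * (d * d) ^ d * d with hN
  have hN4 : 4 ≤ N := by
    rw [hN]
    have h1 : 1 ≤ (d * d) ^ d * d := by
      have : 0 < d := by omega
      exact Nat.succ_le_of_lt (by positivity)
    nlinarith
  have hNR : (4 : ℝ) ≤ N := by exact_mod_cast hN4
  have hN0 : (0 : ℝ) < N := by linarith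
  have hNsq : (N : ℝ) ^ 2 = 16 * (d : ℝ) ^ (4 * d + 2) := by
    rw [hN]
    push_cast
    ring
  have hx0 : 0 ≤ 2 * Real.pi / N := by positivity
  have hxpi : 2 * Real.pi / N ≤ Real.pi / 2 := by
    rw [div_le_div_iff₀ hN0 (by norm_num)]
    have := Real.pi_pos
    nlinarith
  have hcos0 : 0 ≤ Real.cos (2 * Real.pi / N) := by
    apply Real.cos_nonneg_of_neg_pi_div_two_le_of_le
    · have := Real.pi_pos
      linarith
    · exact hxpi
  have hcos1 : 8 / (N : ℝ) ^ 2 ≤ 1 - Real.cos (2 * Real.pi / N) := by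
    have h1 := Real.cos_le_one_sub_mul_cos_sq (x := 2 * Real.pi / N) (by
      rw [abs_of_nonneg hx0]
      have := Real.pi_pos
      linarith)
    have h2 : 2 / Real.pi ^ 2 * (2 * Real.pi / N) ^ 2 = 8 / (N : ℝ) ^ 2 := by
      have := Real.pi_ne_zero
      field_simp
      ring
    rw [h2] at h1
    linarith
  refine num_of_log (by omega) (by linarith) ?_
  have hM0 : 0 < d ^ (4 * d + 9) := by
    have : 0 < d := by omega
    positivity
  have hlog : Real.log (((d ^ (4 * d + 9) : ℕ) : ℝ) + 1) < 2 * (d : ℝ) ^ 4 := by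
    have h1 : (((d ^ (4 * d + 9) : ℕ) : ℝ) + 1) ≤ (d : ℝ) ^ (4 * d + 10) := by
      have h2 : (1 : ℝ) ≤ (d : ℝ) ^ (4 * d + 9) := one_le_pow₀ (by linarith)
      have h3 : (d : ℝ) ^ (4 * d + 10) = (d : ℝ) ^ (4 * d + 9) * d := pow_succ _ _
      rw [h3]
      push_cast
      nlinarith
    have h2 : Real.log (((d ^ (4 * d + 9) : ℕ) : ℝ) + 1) ≤ (4 * d + 10) * Real.log d := by
      have h3 := Real.log_le_log (by positivity) h1
      rw [Real.log_pow] at h3
      push_cast at h3 ⊢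
      exact h3
    have h3 : Real.log d ≤ d - 1 := Real.log_le_sub_one_of_pos hd0
    have h4 : (4 * (d : ℝ) + 10) * Real.log d ≤ (4 * d + 10) * (d - 1) :=
      mul_le_mul_of_nonneg_left h3 (by positivity)
    have h5 : (4 * (d : ℝ) + 10) * (d - 1) < 2 * (d : ℝ) ^ 4 := by
      have h6 : (4 : ℝ) ≤ (d : ℝ) ^ 2 := by nlinarith
      nlinarith
    linarith
  have h1 : (d : ℝ) * d * Real.log (((d ^ (4 * d + 9) : ℕ) : ℝ) + 1) <
      (32 / (d * (N : ℝ) ^ 2)) * ((d ^ (4 * d + 9) : ℕ) : ℝ) := by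
    have h2 : (32 / (d * (N : ℝ) ^ 2)) * ((d ^ (4 * d + 9) : ℕ) : ℝ) =
        (d : ℝ) * d * (2 * (d : ℝ) ^ 4) := by
      rw [hNsq]
      push_cast
      rw [div_mul_eq_mul_div, div_eq_iff (by positivity)]
      ring
    rw [h2]
    exact mul_lt_mul_of_pos_left hlog (by positivity)
  have h2 := log_mono hM0 (by positivity) h1 hm
  refine lt_of_lt_of_le h2 ?_
  have h3 : 2 * (m : ℝ) * (2 * (1 - Real.cos (2 * Real.pi / N)) / d) =
      (4 / d) * m * (1 - Real.cos (2 * Real.pi / N)) := by ring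
  have h4 : 32 / (d * (N : ℝ) ^ 2) * m = (4 / d) * m * (8 / (N : ℝ) ^ 2) := by
    field_simp
    ring
  rw [h3, h4]
  exact mul_le_mul_of_nonneg_left hcos1 (by positivity)

variable {W T : Type} [AddCommGroup W] [Module ℚ W] [AddCommGroup T] [Module ℂ T]
  {per : W →+ T} {ω₀ : W →ₗ[ℚ] W →ₗ[ℚ] ℚ}

theorem center_all' [FiniteDimensional ℚ W] (hper : DR.IsRationalStructure per)
    (hω : ∃ E : T →ₗ[ℝ] T →ₗ[ℝ] ℝ, (∀ x y, E (per x) (per y) = ω₀ x y) ∧
      (∀ z : ℂ, ‖z‖ = 1 → ∀ u v, E (z • u) (z • v) = E u v) ∧ (∀ u, E u u = 0) ∧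
      ∀ u, u ≠ 0 → 0 < E (Complex.I • u) u)
    {ι : Type} [Fintype ι] [DecidableEq ι] {β β' : ι → W}
    (hβ : ∀ w : W, w = ∑ i, ω₀ w (β' i) • β i)
    (P : Module.End ℚ W) (hP : IsHodgeEnd per P) (hsk : ∀ u v, ω₀ (P u) v = -ω₀ u (P v))
    (hkill : ∀ m, 2 * m ≤ 4 * (finrank ℚ W * finrank ℚ W) ^ (finrank ℚ W) * finrank ℚ W →
      ∀ ψ : RF W m, IsHodgeTensor per ψ → Kills P ψ) : P ∈ LQ per := by
  obtain ⟨g, b, b', S, S', hf⟩ := exists_frame per ω₀ hper hω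
  have hωH : IsHodgeBilinear per ω₀ := by
    obtain ⟨E, hE, hinv, _⟩ := hω
    exact ⟨E, hE, hinv⟩
  rw [finrank_eq_card_basis b] at hkill
  exact center_all hf (fun _ _ => rfl) hper hωH hβ P hP hsk hkill

/-- **One power decides, for all abelian varieties.** -/
theorem hodge_power [FiniteDimensional ℚ W] (hper : DR.IsRationalStructure per)
    (hω : ∃ E : T →ₗ[ℝ] T →ₗ[ℝ] ℝ, (∀ x y, E (per x) (per y) = ω₀ x y) ∧
      (∀ z : ℂ, ‖z‖ = 1 → ∀ u v, E (z • u) (z • v) = E u v) ∧ (∀ u, E u u = 0) ∧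
      ∀ u, u ≠ 0 → 0 < E (Complex.I • u) u)
    {ι : Type} [Fintype ι] [DecidableEq ι] {β β' : ι → W}
    (hβ : ∀ w : W, w = ∑ i, ω₀ w (β' i) • β i)
    {C : ∀ m : ℕ, Submodule ℚ (RF W m)} (hC : Closed ω₀ β β' C)
    (hH : ∀ m, ∀ ψ ∈ C m, IsHodgeTensor per ψ) (hd : 2 ≤ finrank ℚ W) {m : ℕ}
    (hm : finrank ℚ W ^ (4 * finrank ℚ W + 9) ≤ m)
    (heq : ∀ ψ : RF W m, IsHodgeTensor per ψ → ψ ∈ C m) (m' : ℕ) (ψ : RF W m')
    (hψ : IsHodgeTensor per ψ) : ψ ∈ C m' := by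
  have hN4 : 4 ≤ 4 * (finrank ℚ W * finrank ℚ W) ^ (finrank ℚ W) * finrank ℚ W := by
    have h1 : 1 ≤ (finrank ℚ W * finrank ℚ W) ^ (finrank ℚ W) * finrank ℚ W := by
      have : 0 < finrank ℚ W := by omega
      exact Nat.succ_le_of_lt (by positivity)
    nlinarith
  refine one_power hper hω hβ hC hH hN4 (fun P hP _ hsk hkill m ψ hψ =>
    center_all' hper hω hβ P hP hsk hkill m ψ hψ) ?_ (num_gen hd hm) heq m' ψ hψ
  refine le_trans ?_ (Nat.mul_le_mul_left 2 hm)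
  have h1 : (finrank ℚ W * finrank ℚ W) ^ (finrank ℚ W) * finrank ℚ W =
      finrank ℚ W ^ (2 * finrank ℚ W + 1) := by ring
  rw [mul_assoc, h1]
  have h2 : finrank ℚ W ^ (4 * finrank ℚ W + 9) =
      finrank ℚ W ^ (2 * finrank ℚ W + 1) * finrank ℚ W ^ (2 * finrank ℚ W + 8) := by
    rw [← pow_add]
    congr 1
    ring
  rw [h2]
  have h3 : 2 ≤ finrank ℚ W ^ (2 * finrank ℚ W + 8) :=
    le_trans hd (Nat.le_self_pow (by omega) _)
  nlinarith [Nat.zero_le (finrank ℚ W ^ (2 * finrank ℚ W + 1))]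

/-- **One power decides, without factors of type IV.** -/
theorem hodge_power_four [FiniteDimensional ℚ W] (hper : DR.IsRationalStructure per)
    (hω : ∃ E : T →ₗ[ℝ] T →ₗ[ℝ] ℝ, (∀ x y, E (per x) (per y) = ω₀ x y) ∧
      (∀ z : ℂ, ‖z‖ = 1 → ∀ u v, E (z • u) (z • v) = E u v) ∧ (∀ u, E u u = 0) ∧
      ∀ u, u ≠ 0 → 0 < E (Complex.I • u) u)
    {ι : Type} [Fintype ι] [DecidableEq ι] {β β' : ι → W}
    (hβ : ∀ w : W, w = ∑ i, ω₀ w (β' i) • β i)
    {C : ∀ m : ℕ, Submodule ℚ (RF W m)} (hC : Closed ω₀ β β' C)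
    (hH : ∀ m, ∀ ψ ∈ C m, IsHodgeTensor per ψ) (hd : 2 ≤ finrank ℚ W)
    (hZ : ∀ P : Module.End ℚ W, IsHodgeEnd per P →
      (∀ P' : Module.End ℚ W, IsHodgeEnd per P' → P * P' = P' * P) →
      (∀ u v, ω₀ (P u) v = -ω₀ u (P v)) → P = 0) {m : ℕ}
    (hm : finrank ℚ W ^ 3 * (Nat.log 2 (finrank ℚ W) + 1) ≤ m)
    (heq : ∀ ψ : RF W m, IsHodgeTensor per ψ → ψ ∈ C m) (m' : ℕ) (ψ : RF W m')
    (hψ : IsHodgeTensor per ψ) : ψ ∈ C m' := by
  refine one_power hper hω hβ hC hH (le_refl 4) (fun P hP hc hsk _ m ψ _ v => ?_) ?_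
    (num_four hd hm) heq m' ψ hψ
  · rw [hZ P hP hc hsk]
    refine Finset.sum_eq_zero fun k _ => ?_
    rw [LinearMap.zero_apply]
    exact ψ.map_update_zero v k
  · have h1 : 2 ^ 3 ≤ finrank ℚ W ^ 3 := Nat.pow_le_pow_left hd 3
    nlinarith [Nat.zero_le (Nat.log 2 (finrank ℚ W))]

end

end Pool.Agent.X259.T
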