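import Pool.Agent.X259.T.T33
import Pool.Agent.W516.MT.Defs

/-!
# The Lie algebra of the Hodge group is cut out in bounded degree; dual families
-/

set_option autoImplicit false
set_option linter.unusedSectionVars false
set_option linter.unusedDecidableInType false
set_option linter.unusedFintypeInType false

namespace Pool.Agent.X259.T

open Matrix Finset Module Pool.Agent.H204R3.SP Pool.Agent.H204R3.GP Pool.Agent.W516

noncomputable section

variable {W T : Type} [AddCommGroup W] [Module ℚ W] [AddCommGroup T] [Module ℂ T]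
  {per : W →+ T} {ω₀ : W →ₗ[ℚ] W →ₗ[ℚ] ℚ}

/-- The Riemann form is nondegenerate. -/
lemma rf_nd [FiniteDimensional ℚ W] (hper : DR.IsRationalStructure per)
    (hω : MTD.IsRiemannForm per ω₀) {u : W} (hu : ∀ v, ω₀ u v = 0) : u = 0 := by
  obtain ⟨g, b, b', S, S', hf⟩ := exists_frame per ω₀ hper hω
  exact om_nd hf hu

/-- Dual families for the Riemann form. -/
lemma exists_dual [FiniteDimensional ℚ W] (hper : DR.IsRationalStructure per)
    (hω : MTD.IsRiemannForm per ω₀) :
    ∃ β β' : Fin (finrank ℚ W) → W, ∀ w : W, w = ∑ i, ω₀ w (β' i) • β i := by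
  have halt : ∀ u v, ω₀ u v = -ω₀ v u := by
    obtain ⟨E, hE, -, hE0, -⟩ := hω
    intro u v
    have h1 := hE0 (per u + per v)
    simp only [map_add, LinearMap.add_apply, hE0, hE, zero_add, add_zero] at h1
    have h2 : ((ω₀ u v : ℚ) : ℝ) = ((-ω₀ v u : ℚ) : ℝ) := by
      push_cast
      linarith
    exact_mod_cast h2
  have hinj : Function.Injective ω₀.flip := by
    rw [← LinearMap.ker_eq_bot, LinearMap.ker_eq_bot']
    intro v hv
    refine rf_nd hper hω fun u => ?_
    rw [halt, neg_eq_zero]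
    exact congrArg (fun f : W →ₗ[ℚ] ℚ => f u) hv
  have hsurj : Function.Surjective ω₀.flip :=
    (LinearMap.injective_iff_surjective_of_finrank_eq_finrank Subspace.dual_finrank_eq.symm).1 hinj
  let b := Module.finBasis ℚ W
  choose β' hβ' using fun i => hsurj (b.coord i)
  refine ⟨b, β', fun w => ?_⟩
  conv_lhs => rw [← b.sum_repr w]
  refine Finset.sum_congr rfl fun i _ => ?_
  have h1 : ω₀ w (β' i) = b.coord i w := congrArg (fun f : W →ₗ[ℚ] ℚ => f w) (hβ' i)
  rw [h1, Basis.coord_apply]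

/-- The Hodge classes are a closed family. -/
lemma closed_hodge [FiniteDimensional ℚ W] (hper : DR.IsRationalStructure per)
    (hω : MTD.IsRiemannForm per ω₀) {ι : Type} [Fintype ι] [DecidableEq ι] {β β' : ι → W}
    (hβ : ∀ w : W, w = ∑ i, ω₀ w (β' i) • β i) : Closed ω₀ β β' (Hd per) := by
  obtain ⟨g, b, b', S, S', hf⟩ := exists_frame per ω₀ hper hω
  have hωH : IsHodgeBilinear per ω₀ := by
    obtain ⟨E, hE, hinv, _⟩ := hω
    exact ⟨E, hE, hinv⟩
  exact closed_hd hf hωH hβ

/-- The Lie algebra of the Hodge group is cut out by the Hodge classes of degree `N`. -/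
theorem lieQ_of [FiniteDimensional ℚ W] (hper : DR.IsRationalStructure per)
    (hω : MTD.IsRiemannForm per ω₀)
    {ι : Type} [Fintype ι] [DecidableEq ι] {β β' : ι → W}
    (hβ : ∀ w : W, w = ∑ i, ω₀ w (β' i) • β i) {N : ℕ} (hN : 4 ≤ N)
    (hZ : ∀ P : Module.End ℚ W, IsHodgeEnd per P →
      (∀ P' : Module.End ℚ W, IsHodgeEnd per P' → P * P' = P' * P) →
      (∀ u v, ω₀ (P u) v = -ω₀ u (P v)) →
      (∀ m, 2 * m ≤ N → ∀ ψ : RF W m, IsHodgeTensor per ψ → Kills P ψ) →
      ∀ m, ∀ ψ : RF W m, IsHodgeTensor per ψ → Kills P ψ)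
    (X : Module.End ℚ W) (hX : ∀ m, 2 * m ≤ N → ∀ ψ : RF W m, IsHodgeTensor per ψ → Kills X ψ) :
    X ∈ LQ per := by
  obtain ⟨g, b, b', S, S', hf⟩ := exists_frame per ω₀ hper hω
  have hωH : IsHodgeBilinear per ω₀ := by
    obtain ⟨E, hE, hinv, _⟩ := hω
    exact ⟨E, hE, hinv⟩
  have hdet := lieDet_hd hf (fun _ _ => rfl) hper hωH hβ hN hZ
  have hSS : S' * (S * mW b X * S') * S = mW b X := by
    calc _ = (S' * S) * mW b X * (S' * S) := by simp only [mul_assoc]
      _ = _ := by rw [hf.one', one_mul, mul_one]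
  intro m ψ hψ
  have h1 := hdet (S * mW b X * S') (fun n hn F hF => ?_)
  · have h2 : S * mW b X * S' ∈ LL (Fm S b (Hd per)) := fun n F hF => h1 n F hF
    have h3 := LL_gen (fam hf (fun _ _ => rfl) hβ (closed_hd hf hωH hβ) (fun m ψ hψ => hψ)) h2
      (gen_mem (S := S) (b := b) (C := Hd per) (Equiv.refl (Fin m × Fin 2)) hψ)
    have h4 : kr (Fin m × Fin 2) S *ᵥ (dk (Fin m × Fin 2) (mW b X) *ᵥ gt b ψ) = 0 := by
      rw [← hSS, ← conj_dk hf]
      exact h3
    exact (kills_iff b X ψ).2 (kr_injS hf h4)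
  · induction hF using Submodule.span_induction with
    | mem F h' =>
      obtain ⟨m', e, ψ', hψ', rfl⟩ := h'
      have hc := Fintype.card_congr e
      rw [Fintype.card_prod, Fintype.card_fin, Fintype.card_fin, Fintype.card_fin] at hc
      rw [dk_ri, conj_dk hf, hSS, (kills_iff b X ψ').1 (hX m' (by omega) ψ' hψ'),
        Matrix.mulVec_zero]
      rfl
    | zero => rw [Matrix.mulVec_zero]
    | add a c _ _ ha hc => rw [Matrix.mulVec_add, ha, hc, add_zero]
    | smul c a _ ha => rw [Matrix.mulVec_smul, ha, smul_zero]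

lemma finrank_two [FiniteDimensional ℚ W] (hper : DR.IsRationalStructure per) {g : ℕ}
    (hT : finrank ℂ T = g) : finrank ℚ W = 2 * g := by
  obtain ⟨b, b', -⟩ := hper
  have h1 : finrank ℝ T = finrank ℚ W := by
    rw [finrank_eq_card_basis b', Fintype.card_fin]
  rw [← h1, finrank_real_of_complex, hT]

end

end Pool.Agent.X259.T
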