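import Pool.Agent.X259.T.T34

/-!
# From a power to a smaller power
-/

set_option autoImplicit false
set_option linter.unusedSectionVars false
set_option linter.unusedDecidableInType false
set_option linter.unusedFintypeInType false

namespace Pool.Agent.X259.T

open Matrix Finset Module TensorProduct Pool.Agent.H204R3.SP Pool.Agent.H204R3.GP Pool.Agent.W516

noncomputable section

/-- Multiplication by a bilinear form. -/
lemma exists_mulForm {K V : Type} [Field K] [AddCommGroup V] [Module K V]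
    (ω : V →ₗ[K] V →ₗ[K] K) {m : ℕ} (φ : MultilinearMap K (fun _ : Fin m × Fin 2 => V) K) :
    ∃ φ' : MultilinearMap K (fun _ : Fin (m + 1) × Fin 2 => V) K, ∀ v : Fin (m + 1) × Fin 2 → V,
      φ' v = φ (fun p => v (Fin.castSucc p.1, p.2)) * ω (v (Fin.last m, 0)) (v (Fin.last m, 1)) := by
  let B : MultilinearMap K (fun _ : Fin 1 × Fin 2 => V) K :=
    MultilinearMap.mk' (fun v => ω (v (0, 0)) (v (0, 1)))
      (fun v i x y => by
        obtain ⟨a, c⟩ := i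
        obtain rfl : a = 0 := Subsingleton.elim _ _
        fin_cases c
        · simp [Function.update]
        · simp [Function.update])
      (fun v i c x => by
        obtain ⟨a, d⟩ := i
        obtain rfl : a = 0 := Subsingleton.elim _ _
        fin_cases d
        · simp [Function.update]
        · simp [Function.update])
  refine ⟨((LinearMap.mul' K K).compMultilinearMap (φ.domCoprod B)).domDomCongr (e0 m 1),
    fun v => ?_⟩
  rw [MultilinearMap.domDomCongr_apply, LinearMap.compMultilinearMap_apply,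
    MultilinearMap.domCoprod_apply, LinearMap.mul'_apply]
  simp only [e0_inl, e0_inr]
  rfl

variable {W T : Type} [AddCommGroup W] [Module ℚ W] [AddCommGroup T] [Module ℂ T]
  {per : W →+ T} {ω₀ : W →ₗ[ℚ] W →ₗ[ℚ] ℚ}

lemma sum_dual [FiniteDimensional ℚ W] {ι : Type} [Fintype ι] {β β' : ι → W}
    (hβ : ∀ w : W, w = ∑ i, ω₀ w (β' i) • β i) : ∑ i, ω₀ (β i) (β' i) = finrank ℚ W := by
  have h1 : (LinearMap.id : W →ₗ[ℚ] W) = ∑ i, (ω₀.flip (β' i)).smulRight (β i) := by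
    ext w
    rw [LinearMap.id_apply, LinearMap.sum_apply]
    exact hβ w
  have h2 := congrArg (LinearMap.trace ℚ W) h1
  rw [LinearMap.trace_id, map_sum] at h2
  rw [h2]
  refine Finset.sum_congr rfl fun i _ => ?_
  rw [LinearMap.trace_smulRight]
  rfl

/-- Classes which become members of the family after the multiplication by the polarization. -/
lemma down_rat [FiniteDimensional ℚ W] (hd : finrank ℚ W ≠ 0) {ι : Type} [Fintype ι]
    {β β' : ι → W} (hβ : ∀ w : W, w = ∑ i, ω₀ w (β' i) • β i)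
    {C : ∀ m : ℕ, Submodule ℚ (RF W m)} (hC : Closed ω₀ β β' C) {m : ℕ} (ψ : RF W m)
    (ψ' : RF W (m + 1)) (hψ : ∀ v : Fin (m + 1) × Fin 2 → W, ψ' v =
      ψ (fun p => v (Fin.castSucc p.1, p.2)) * ω₀ (v (Fin.last m, 0)) (v (Fin.last m, 1)))
    (h : ψ' ∈ C (m + 1)) : ψ ∈ C m := by
  have h1 : (finrank ℚ W : ℚ) • ψ ∈ C m := by
    refine hC.contr m ψ' h _ fun v => ?_
    rw [_root_.smul_apply, smul_eq_mul, ← sum_dual hβ, Finset.sum_mul]
    refine Finset.sum_congr rfl fun i _ => ?_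
    rw [hψ]
    simp [ext2, mul_comm]
  have h2 : ψ = (finrank ℚ W : ℚ)⁻¹ • ((finrank ℚ W : ℚ) • ψ) := by
    rw [smul_smul, inv_mul_cancel₀ (by exact_mod_cast hd), one_smul]
  rw [h2]
  exact Submodule.smul_mem _ _ h1

variable {ℓ : ℕ} [Fact ℓ.Prime] {Γ : Type} [Group Γ]

/-- The Tate classes, from a power to smaller powers. -/
theorem tate_down [FiniteDimensional ℚ W] (hd : finrank ℚ W ≠ 0) {ι : Type} [Fintype ι]
    {β β' : ι → W} (hβ : ∀ w : W, w = ∑ i, ω₀ w (β' i) • β i)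
    {C : ∀ m : ℕ, Submodule ℚ (RF W m)} (hC : Closed ω₀ β β' C)
    (ρ : Representation ℚ_[ℓ] Γ (ℚ_[ℓ] ⊗[ℚ] W)) (χ : Γ →* ℚ_[ℓ])
    (ω : ℚ_[ℓ] ⊗[ℚ] W →ₗ[ℚ_[ℓ]] ℚ_[ℓ] ⊗[ℚ] W →ₗ[ℚ_[ℓ]] ℚ_[ℓ])
    (hωω : ∀ u v : W, ω ((1 : ℚ_[ℓ]) ⊗ₜ[ℚ] u) ((1 : ℚ_[ℓ]) ⊗ₜ[ℚ] v) = ((ω₀ u v : ℚ) : ℚ_[ℓ]))
    (hωρ : ∀ s u v, ω (ρ s u) (ρ s v) = χ s * ω u v) {m m' : ℕ} (hm : m' ≤ m)
    (h : ∀ φ : MultilinearMap ℚ_[ℓ] (fun _ : Fin m × Fin 2 => ℚ_[ℓ] ⊗[ℚ] W) ℚ_[ℓ],
      IsTateTensor ρ χ m φ → ∀ lam : ℚ_[ℓ] →ₗ[ℚ] ℚ, DR.fcmp lam φ ∈ C m) :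
    ∀ φ : MultilinearMap ℚ_[ℓ] (fun _ : Fin m' × Fin 2 => ℚ_[ℓ] ⊗[ℚ] W) ℚ_[ℓ],
      IsTateTensor ρ χ m' φ → ∀ lam : ℚ_[ℓ] →ₗ[ℚ] ℚ, DR.fcmp lam φ ∈ C m' := by
  induction m, hm using Nat.le_induction with
  | base => exact h
  | succ n hn ih =>
    refine ih fun φ hφ lam => ?_
    obtain ⟨φ', hφ'⟩ := exists_mulForm ω φ
    have h1 : IsTateTensor ρ χ (n + 1) φ' := by
      obtain ⟨Δ, hΔ, h2⟩ := hφ
      refine ⟨Δ, hΔ, fun s hs v => ?_⟩
      rw [hφ', hφ', hωρ, h2 s hs, pow_succ]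
      ring
    refine down_rat hd hβ hC (DR.fcmp lam φ) (DR.fcmp lam φ') (fun v => ?_) (h φ' h1 lam)
    rw [DR.fcmp_apply, DR.fcmp_apply, hφ', hωω]
    have h3 : ∀ x : ℚ_[ℓ], ∀ q : ℚ, lam (x * (q : ℚ_[ℓ])) = lam x * q := by
      intro x q
      have h4 : x * (q : ℚ_[ℓ]) = q • x := by rw [Rat.smul_def, mul_comm]
      rw [h4, map_smul, smul_eq_mul, mul_comm]
    rw [h3]

end

end Pool.Agent.X259.T
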