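import Pool.Agent.X259.T.T3

/-!
# The compact group of the automorphisms of the form
-/

set_option autoImplicit false
set_option linter.unusedSectionVars false
set_option linter.unusedDecidableInType false
set_option linter.unusedFintypeInType false

namespace Pool.Agent.X259.T

open Matrix Finset Pool.Agent.H204R3.SP Pool.Agent.H204R3.GP

noncomputable section

variable {R : Type} [Fintype R] [DecidableEq R] {Q : Type} [DecidableEq Q]
  {cls : R → Q} {inv : R → R} {jj : R → ℂ} {C : ∀ κ : Type, Submodule ℂ ((κ → R) → ℂ)}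

/-- The unitary matrices which fix the tensors in `S`. -/
def stabG (S : Set (Σ n : ℕ, (Fin n → R) → ℂ)) : Subgroup (Matrix.unitaryGroup R ℂ) where
  carrier := {g | ∀ s ∈ S, kr (Fin s.1) (g : Matrix R R ℂ) *ᵥ s.2 = s.2}
  one_mem' := fun s _ => by
    rw [show ((1 : Matrix.unitaryGroup R ℂ) : Matrix R R ℂ) = 1 from rfl, kr_one,
      Matrix.one_mulVec]
  mul_mem' := fun {a b} ha hb s hs => by
    rw [show ((a * b : Matrix.unitaryGroup R ℂ) : Matrix R R ℂ) = (a : Matrix R R ℂ) * b from rfl,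
      kr_mul, ← Matrix.mulVec_mulVec, hb s hs, ha s hs]
  inv_mem' := fun {a} ha s hs => by
    have h1 := ha s hs
    have h2 : ((a⁻¹ : Matrix.unitaryGroup R ℂ) : Matrix R R ℂ) * (a : Matrix R R ℂ) = 1 := by
      have := congrArg (fun x : Matrix.unitaryGroup R ℂ => (x : Matrix R R ℂ)) (inv_mul_cancel a)
      exact this
    conv_lhs => rw [← h1]
    rw [Matrix.mulVec_mulVec, ← kr_mul, h2, kr_one, Matrix.one_mulVec]

lemma mem_stabG {S : Set (Σ n : ℕ, (Fin n → R) → ℂ)} {g : Matrix.unitaryGroup R ℂ} :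
    g ∈ stabG S ↔ ∀ s ∈ S, kr (Fin s.1) (g : Matrix R R ℂ) *ᵥ s.2 = s.2 := Iff.rfl

/-- The tensors of a family. -/
def tens (C : ∀ κ : Type, Submodule ℂ ((κ → R) → ℂ)) : Set (Σ n : ℕ, (Fin n → R) → ℂ) :=
  {s | s.2 ∈ C (Fin s.1)}

lemma mem_stab (h : Fam cls inv jj C) {g : Matrix.unitaryGroup R ℂ} :
    g ∈ stabG (tens C) ↔ ∀ (κ : Type) [Fintype κ] [DecidableEq κ] (F : (κ → R) → ℂ), F ∈ C κ →
      kr κ (g : Matrix R R ℂ) *ᵥ F = F := by
  constructor
  · intro hg κ _ _ F hF
    let e : κ ≃ Fin (Fintype.card κ) := Fintype.equivFin κ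
    have h1 := hg ⟨_, ri e F⟩ (h.ri e hF)
    change kr (Fin (Fintype.card κ)) (g : Matrix R R ℂ) *ᵥ ri e F = ri e F at h1
    rw [kr_ri] at h1
    funext I
    have h2 := congrFun h1 (fun k => I (e.symm k))
    simp only [ri, Equiv.symm_apply_apply] at h2
    exact h2
  · intro hg s hs
    exact hg _ _ hs

/-- The components of the form. -/
def forms (cls : R → Q) (inv : R → R) (jj : R → ℂ) : Set (Σ n : ℕ, (Fin n → R) → ℂ) :=
  {s | ∃ c, s = ⟨2, fm cls inv jj c⟩}

lemma stab_le (h : Fam cls inv jj C) : stabG (tens C) ≤ stabG (forms cls inv jj) := by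
  rintro g hg _ ⟨c, rfl⟩
  exact hg ⟨2, _⟩ (h.fm c)

/-- The matrix of the form. -/
def Jm (inv : R → R) (jj : R → ℂ) : Matrix R R ℂ := fun x y => JJ inv jj x y

/-- The projection on a class. -/
def Pm (cls : R → Q) (c : Q) : Matrix R R ℂ := Matrix.diagonal fun x => if cls x = c then 1 else 0

lemma kr_two (g : Matrix R R ℂ) (M : Matrix R R ℂ) (I : Fin 2 → R) :
    (kr (Fin 2) g *ᵥ fun J => M (J 0) (J 1)) I = (g * M * gᵀ) (I 0) (I 1) := by
  rw [kr_mulVec, ← (finTwoArrowEquiv R).symm.sum_comp, Fintype.sum_prod_type,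
    Matrix.mul_apply, Finset.sum_comm]
  refine Finset.sum_congr rfl fun y _ => ?_
  rw [Matrix.mul_apply, Finset.sum_mul]
  refine Finset.sum_congr rfl fun x _ => ?_
  rw [Fin.prod_univ_two, Matrix.transpose_apply]
  simp only [finTwoArrowEquiv_symm_apply, Matrix.cons_val_zero, Matrix.cons_val_one]
  ring

lemma fm_eq (c : Q) : fm cls inv jj c = fun J => (Pm cls c * Jm inv jj) (J 0) (J 1) := by
  funext J
  rw [Pm, Matrix.diagonal_mul, fm]
  split_ifs
  · rw [one_mul]
    rfl
  · rw [zero_mul]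

lemma mem_forms {g : Matrix.unitaryGroup R ℂ} : g ∈ stabG (forms cls inv jj) ↔
    ∀ c, (g : Matrix R R ℂ) * (Pm cls c * Jm inv jj) * (g : Matrix R R ℂ)ᵀ =
      Pm cls c * Jm inv jj := by
  constructor
  · intro hg c
    have h1 := hg ⟨2, fm cls inv jj c⟩ ⟨c, rfl⟩
    change kr (Fin 2) (g : Matrix R R ℂ) *ᵥ fm cls inv jj c = fm cls inv jj c at h1
    ext x y
    have h2 := congrFun h1 ![x, y]
    rw [fm_eq, kr_two] at h2
    exact h2
  · rintro hg _ ⟨c, rfl⟩
    change kr (Fin 2) (g : Matrix R R ℂ) *ᵥ fm cls inv jj c = fm cls inv jj c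
    rw [fm_eq]
    funext I
    rw [kr_two, hg c]

lemma Jm_sq (hB : Bas cls inv jj) : Jm inv jj * Jm inv jj = -1 := by
  ext x z
  rw [Matrix.mul_apply, Finset.sum_eq_single (inv x)]
  · change (if inv x = inv x then jj x else 0) * (if z = inv (inv x) then jj (inv x) else 0) = _
    rw [if_pos rfl, hB.inv2, hB.neg, Matrix.neg_apply]
    by_cases h : z = x
    · rw [if_pos h, h, Matrix.one_apply_eq]
      rcases hB.sq x with h1 | h1 <;> rw [h1] <;> norm_num
    · rw [if_neg h, Matrix.one_apply_ne (Ne.symm h), mul_zero, neg_zero]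
  · intro y _ hy
    simp only [Jm, JJ]
    rw [if_neg hy, zero_mul]
  · intro h
    exact absurd (Finset.mem_univ _) h

lemma Jm_unit (hB : Bas cls inv jj) : IsUnit (Jm inv jj) := by
  refine ⟨⟨Jm inv jj, -Jm inv jj, ?_, ?_⟩, rfl⟩
  · rw [mul_neg, Jm_sq hB, neg_neg]
  · rw [neg_mul, Jm_sq hB, neg_neg]

lemma Jm_inv (hB : Bas cls inv jj) : (Jm inv jj)⁻¹ = -Jm inv jj := by
  refine Matrix.inv_eq_right_inv ?_
  rw [mul_neg, Jm_sq hB, neg_neg]

lemma Jm_star (hB : Bas cls inv jj) : (Jm inv jj)ᴴ = -Jm inv jj := by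
  ext x y
  rw [Matrix.conjTranspose_apply, Matrix.neg_apply]
  simp only [Jm, JJ]
  have hr : ∀ z, star (jj z) = jj z := by
    intro z
    rcases hB.sq z with h1 | h1 <;> rw [h1] <;> simp
  by_cases h : x = inv y
  · rw [if_pos h, hr, if_pos (by rw [h, hB.inv2]), h, hB.neg, neg_neg]
  · rw [if_neg h, star_zero, if_neg (fun h' => h (by rw [h', hB.inv2])), neg_zero]

/-- The elements of the Lie algebra. -/
def IsLie (cls : R → Q) (inv : R → R) (jj : R → ℂ) (X : Matrix R R ℂ) : Prop :=
  (∀ c, Commute X (Pm cls c)) ∧ X * Jm inv jj = -(Jm inv jj * Xᵀ)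

lemma XX_isLie (hB : Bas cls inv jj) (b c : R) (hbc : cls (inv b) = cls c) :
    IsLie cls inv jj (XX inv jj b c) := by
  have hbc' : cls (inv c) = cls b := by
    have := hB.cls _ _ hbc
    rw [hB.inv2] at this
    exact this.symm
  constructor
  · intro d
    change _ * _ = _ * _
    ext x y
    rw [Pm, Matrix.mul_diagonal, Matrix.diagonal_mul]
    have h1 : XX inv jj b c x y ≠ 0 → cls x = cls y := by
      intro h
      simp only [XX, JJ] at h
      by_contra hxy
      apply h
      have e1 : (if x = inv b then jj b else 0) * (if y = c then (1 : ℂ) else 0) = 0 := by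
        split_ifs with h2 h3
        · exact absurd (by rw [h2, h3, hbc]) hxy
        · rw [mul_zero]
        · rw [zero_mul]
        · rw [zero_mul]
      have e2 : (if x = inv c then jj c else 0) * (if y = b then (1 : ℂ) else 0) = 0 := by
        split_ifs with h2 h3
        · exact absurd (by rw [h2, h3, hbc']) hxy
        · rw [mul_zero]
        · rw [zero_mul]
        · rw [zero_mul]
      rw [e1, e2, add_zero]
    by_cases h : XX inv jj b c x y = 0
    · rw [h, mul_zero, zero_mul]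
    · rw [h1 h, mul_comm]
  · ext x y
    rw [Matrix.neg_apply, Matrix.mul_apply, Matrix.mul_apply]
    simp only [Matrix.transpose_apply, XX, Jm, add_mul, mul_add, Finset.sum_add_distrib]
    have h1 : ∀ b' c' : R, ∑ z, JJ inv jj b' x * (if z = c' then (1 : ℂ) else 0) *
        JJ inv jj z y = JJ inv jj b' x * JJ inv jj c' y := by
      intro b' c'
      rw [Finset.sum_eq_single c']
      · rw [if_pos rfl, mul_one]
      · intro z _ hz
        rw [if_neg hz, mul_zero, zero_mul]
      · intro h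
        exact absurd (Finset.mem_univ _) h
    have h2 : ∀ b' c' : R, ∑ z, JJ inv jj x z * (JJ inv jj b' y * (if z = c' then (1 : ℂ) else 0)) =
        JJ inv jj b' y * JJ inv jj x c' := by
      intro b' c'
      rw [Finset.sum_eq_single c']
      · rw [if_pos rfl, mul_one, mul_comm]
      · intro z _ hz
        rw [if_neg hz, mul_zero, mul_zero]
      · intro h
        exact absurd (Finset.mem_univ _) h
    have h3 : ∀ u v : R, JJ inv jj u v = -JJ inv jj v u := by
      intro u v
      simp only [JJ]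
      by_cases h : v = inv u
      · rw [if_pos h, h, if_pos (by rw [hB.inv2]), hB.neg, neg_neg]
      · rw [if_neg h, if_neg (fun h' => h (by rw [h', hB.inv2])), neg_zero]
    rw [h1, h1, h2, h2, h3 x c, h3 x b]
    ring

lemma lie_star (hB : Bas cls inv jj) {X : Matrix R R ℂ} (hX : IsLie cls inv jj X) :
    IsLie cls inv jj Xᴴ := by
  constructor
  · intro c
    have h1 : (Pm cls c)ᴴ = Pm cls c := by
      rw [Pm, Matrix.diagonal_conjTranspose]
      congr 1
      funext x
      change star (if cls x = c then (1 : ℂ) else 0) = _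
      split_ifs <;> simp
    have h2 := congrArg Matrix.conjTranspose (hX.1 c).eq
    rw [Matrix.conjTranspose_mul, Matrix.conjTranspose_mul, h1] at h2
    exact h2.symm
  · have h1 := congrArg Matrix.conjTranspose hX.2
    rw [Matrix.conjTranspose_neg, Matrix.conjTranspose_mul, Matrix.conjTranspose_mul, Jm_star hB,
      neg_mul, mul_neg, neg_neg] at h1
    -- h1 : -(J * Xᴴ) = Xᵀᴴ * J
    have h2 : Jm inv jj * _ * Jm inv jj = Jm inv jj * _ * Jm inv jj :=
      congrArg (fun M => Jm inv jj * M * Jm inv jj) h1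
    rw [mul_neg, neg_mul, ← mul_assoc, Jm_sq hB, neg_mul, one_mul, neg_mul, neg_neg,
      mul_assoc, mul_assoc, Jm_sq hB, mul_neg, mul_one, mul_neg] at h2
    rw [h2]
    rfl

lemma lie_smul {X : Matrix R R ℂ} (hX : IsLie cls inv jj X) (a : ℂ) :
    IsLie cls inv jj (a • X) := by
  refine ⟨fun c => (hX.1 c).smul_left a, ?_⟩
  rw [Matrix.smul_mul, hX.2, Matrix.transpose_smul, Matrix.mul_smul, smul_neg]

lemma lie_add {X Y : Matrix R R ℂ} (hX : IsLie cls inv jj X) (hY : IsLie cls inv jj Y) :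
    IsLie cls inv jj (X + Y) := by
  refine ⟨fun c => (hX.1 c).add_left (hY.1 c), ?_⟩
  rw [add_mul, hX.2, hY.2, Matrix.transpose_add, mul_add, neg_add]

section exp

open scoped Matrix.Norms.Frobenius

/-- The exponential of a skew-Hermitian element of the Lie algebra. -/
lemma exp_mem (hB : Bas cls inv jj) {X : Matrix R R ℂ} (hX : IsLie cls inv jj X) (hs : Xᴴ = -X) :
    ∃ g ∈ stabG (forms cls inv jj), (g : Matrix R R ℂ) = NormedSpace.exp X := by
  have h1 : NormedSpace.exp X * (NormedSpace.exp X)ᴴ = 1 := by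
    rw [← Matrix.exp_conjTranspose, hs, ← Matrix.exp_add_of_commute _ _ (Commute.refl X).neg_right,
      add_neg_cancel, NormedSpace.exp_zero]
  refine ⟨⟨NormedSpace.exp X, Matrix.mem_unitaryGroup_iff.2 h1⟩, mem_forms.2 fun c => ?_, rfl⟩
  change NormedSpace.exp X * (Pm cls c * Jm inv jj) * (NormedSpace.exp X)ᵀ = _
  have h2 : NormedSpace.exp X * Jm inv jj * (NormedSpace.exp X)ᵀ = Jm inv jj := by
    have h3 : Jm inv jj * Xᵀ * (Jm inv jj)⁻¹ = -X := by
      rw [Jm_inv hB, mul_neg, ← neg_mul, ← hX.2, mul_assoc, Jm_sq hB, mul_neg, mul_one]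
    have h4 := Matrix.exp_conj (Jm inv jj) Xᵀ (Jm_unit hB)
    rw [h3, Matrix.exp_transpose] at h4
    have h5 : Jm inv jj * (NormedSpace.exp X)ᵀ = NormedSpace.exp (-X) * Jm inv jj := by
      rw [h4, mul_assoc, Jm_inv hB, neg_mul, Jm_sq hB, neg_neg, mul_one]
    rw [mul_assoc, h5, ← mul_assoc, ← Matrix.exp_add_of_commute _ _ (Commute.refl X).neg_right,
      add_neg_cancel, NormedSpace.exp_zero, one_mul]
  have h6 : Commute (NormedSpace.exp X) (Pm cls c) := (hX.1 c).exp_left
  rw [← mul_assoc, h6.eq, mul_assoc, mul_assoc, ← mul_assoc (NormedSpace.exp X), h2]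

lemma krf_deriv {κ : Type} [Fintype κ] [DecidableEq κ] (X : Matrix R R ℂ) (F : (κ → R) → ℂ)
    (I : κ → R) : HasDerivAt (fun t : ℝ => (kr κ (NormedSpace.exp (t • X)) *ᵥ F) I)
      ((dk κ X *ᵥ F) I) 0 := by
  have h1 : HasDerivAt (fun t : ℝ => NormedSpace.exp (t • X))
      (NormedSpace.exp ((0 : ℝ) • X) * X) 0 := hasDerivAt_exp_smul_const X (0 : ℝ)
  rw [zero_smul, NormedSpace.exp_zero, one_mul] at h1
  have h2 : ∀ i j : R, HasDerivAt (fun t : ℝ => (NormedSpace.exp (t • X)) i j) (X i j) 0 := by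
    intro i j
    let T : Matrix R R ℂ →L[ℝ] ℂ := LinearMap.toContinuousLinearMap
      ((LinearMap.proj j : (R → ℂ) →ₗ[ℝ] ℂ).comp (LinearMap.proj i : (R → R → ℂ) →ₗ[ℝ] (R → ℂ)))
    exact T.hasFDerivAt.comp_hasDerivAt (0 : ℝ) h1
  have h3 : ∀ J : κ → R, HasDerivAt (fun t : ℝ => (∏ k, (NormedSpace.exp (t • X)) (I k) (J k)) * F J)
      ((∑ k, krf (Function.update (fun _ : κ => (1 : Matrix R R ℂ)) k X) I J) * F J) 0 := by
    intro J
    have h4 := HasDerivAt.fun_finsetProd (u := (Finset.univ : Finset κ))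
      (f := fun k (t : ℝ) => (NormedSpace.exp (t • X)) (I k) (J k))
      (f' := fun k => X (I k) (J k)) (x := (0 : ℝ)) (fun k _ => h2 (I k) (J k))
    have h5 : (∑ i, (∏ j ∈ Finset.univ.erase i, (NormedSpace.exp ((0 : ℝ) • X)) (I j) (J j)) •
        X (I i) (J i)) = ∑ k, krf (Function.update (fun _ : κ => (1 : Matrix R R ℂ)) k X) I J := by
      refine Finset.sum_congr rfl fun k _ => ?_
      rw [krf_apply, ← Finset.mul_prod_erase _ _ (Finset.mem_univ k), Function.update_self,
        smul_eq_mul, mul_comm]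
      congr 1
      refine Finset.prod_congr rfl fun j hj => ?_
      rw [Function.update_of_ne (Finset.ne_of_mem_erase hj), zero_smul, NormedSpace.exp_zero]
    rw [h5] at h4
    exact h4.mul_const (F J)
  have h6 := HasDerivAt.fun_sum (u := (Finset.univ : Finset (κ → R))) (fun J _ => h3 J)
  have h7 : (∑ J : κ → R, (∑ k, krf (Function.update (fun _ : κ => (1 : Matrix R R ℂ)) k X) I J) *
      F J) = (dk κ X *ᵥ F) I := by
    rw [dk, Matrix.mulVec, dotProduct]
    simp only [Matrix.sum_apply]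
  rw [h7] at h6
  exact h6

lemma dk_smul_add {κ : Type} [Fintype κ] [DecidableEq κ] (X Y : Matrix R R ℂ) (a : ℂ)
    (F : (κ → R) → ℂ) : dk κ (X + a • Y) *ᵥ F = dk κ X *ᵥ F + a • (dk κ Y *ᵥ F) := by
  funext I
  rw [Pi.add_apply, Pi.smul_apply, dk_mulVec, dk_mulVec, dk_mulVec, smul_eq_mul, Finset.mul_sum,
    ← Finset.sum_add_distrib]
  refine Finset.sum_congr rfl fun k _ => ?_
  rw [Finset.mul_sum, ← Finset.sum_add_distrib]
  refine Finset.sum_congr rfl fun y _ => ?_
  rw [Matrix.add_apply, Matrix.smul_apply, smul_eq_mul]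
  ring

lemma dk_zero_of_inv (hB : Bas cls inv jj) {κ : Type} [Fintype κ] [DecidableEq κ]
    (F : (κ → R) → ℂ)
    (hF : ∀ g ∈ stabG (forms cls inv jj), kr κ (g : Matrix R R ℂ) *ᵥ F = F) {X : Matrix R R ℂ}
    (hX : IsLie cls inv jj X) : dk κ X *ᵥ F = 0 := by
  have key : ∀ Y : Matrix R R ℂ, IsLie cls inv jj Y → Yᴴ = -Y → dk κ Y *ᵥ F = 0 := by
    intro Y hY hs
    funext I
    have h1 := krf_deriv (κ := κ) Y F I
    have h2 : (fun t : ℝ => (kr κ (NormedSpace.exp (t • Y)) *ᵥ F) I) = fun _ => F I := by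
      funext t
      have h3 : IsLie cls inv jj (t • Y) := by
        have := lie_smul hY (t : ℂ)
        rwa [Complex.coe_smul] at this
      obtain ⟨g, hg, hg'⟩ := exp_mem hB h3 (by
        rw [Matrix.conjTranspose_smul, hs, smul_neg]
        rfl)
      rw [← hg', hF g hg]
    rw [h2] at h1
    exact h1.unique (hasDerivAt_const _ _)
  have h1 := key ((1 / 2 : ℂ) • (X + (-1 : ℂ) • Xᴴ)) (lie_smul (lie_add hX
    (lie_smul (lie_star hB hX) _)) _) (by
      rw [Matrix.conjTranspose_smul, Matrix.conjTranspose_add, Matrix.conjTranspose_smul,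
        Matrix.conjTranspose_conjTranspose]
      ext x y
      simp only [Matrix.smul_apply, Matrix.add_apply, Matrix.neg_apply, smul_eq_mul]
      simp
      ring)
  have h2 := key ((-Complex.I / 2 : ℂ) • (X + Xᴴ)) (lie_smul (lie_add hX (lie_star hB hX)) _) (by
      rw [Matrix.conjTranspose_smul, Matrix.conjTranspose_add, Matrix.conjTranspose_conjTranspose]
      ext x y
      simp only [Matrix.smul_apply, Matrix.add_apply, Matrix.neg_apply, smul_eq_mul]
      simp
      ring)
  have h3 : X = (1 / 2 : ℂ) • (X + (-1 : ℂ) • Xᴴ) + Complex.I • ((-Complex.I / 2 : ℂ) • (X + Xᴴ)) := by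
    ext x y
    simp only [Matrix.smul_apply, Matrix.add_apply, smul_eq_mul]
    have := Complex.I_mul_I
    linear_combination ((-1 / 2 : ℂ) * (X x y + Xᴴ x y)) * this * (-1)
  rw [h3, dk_smul_add, h1, h2, smul_zero, add_zero]

end exp

/-- **First fundamental theorem** for the compact group. -/
theorem fft_mem (hB : Bas cls inv jj) (h : Fam cls inv jj C) {κ : Type} [Fintype κ]
    [DecidableEq κ] (F : (κ → R) → ℂ)
    (hF : ∀ g ∈ stabG (forms cls inv jj), kr κ (g : Matrix R R ℂ) *ᵥ F = F) : F ∈ C κ := by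
  rcases Nat.even_or_odd' (Fintype.card κ) with ⟨m, hm | hm⟩
  · exact lie_mem hB h hm F fun b c hbc => dk_zero_of_inv hB F hF (XX_isLie hB b c hbc)
  · have h1 : (-1 : Matrix.unitaryGroup R ℂ) ∈ stabG (forms cls inv jj) := by
      rw [mem_forms]
      intro c
      change (-1 : Matrix R R ℂ) * _ * (-1 : Matrix R R ℂ)ᵀ = _
      rw [Matrix.transpose_neg, Matrix.transpose_one, neg_mul, one_mul, mul_neg, mul_one, neg_neg]
    have h2 := hF _ h1
    have h3 : F = 0 := by
      funext I
      have h4 := congrFun h2 I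
      have h5 : ((-1 : Matrix.unitaryGroup R ℂ) : Matrix R R ℂ) = Matrix.diagonal fun _ => -1 := by
        change (-1 : Matrix R R ℂ) = _
        ext i j
        by_cases hij : i = j
        · subst hij
          simp
        · simp [Matrix.one_apply_ne hij, Matrix.diagonal_apply_ne _ hij]
      rw [h5, kr_diagonal_mulVec, Finset.prod_const, Finset.card_univ, hm, pow_succ, pow_mul] at h4
      simp at h4
      rw [Pi.zero_apply]
      have h6 : (2 : ℂ) * F I = 0 := by linear_combination -h4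
      exact (mul_eq_zero.1 h6).resolve_left two_ne_zero
    rw [h3]
    exact Submodule.zero_mem _

end

end Pool.Agent.X259.T
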