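import Pool.Agent.X259.T.T4

/-!
# Averages over a compact group
-/

set_option autoImplicit false
set_option linter.unusedSectionVars false
set_option linter.unusedDecidableInType false
set_option linter.unusedFintypeInType false

namespace Pool.Agent.X259.T

open Matrix Finset MeasureTheory

noncomputable section

variable {R : Type} [Fintype R] [DecidableEq R]
  {G : Type} [Group G] [TopologicalSpace G] [IsTopologicalGroup G] [CompactSpace G]
  [MeasurableSpace G] [BorelSpace G]

variable (G) in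
/-- The normalized Haar measure. -/
abbrev hm : Measure G := Measure.haarMeasure ⊤

instance : IsProbabilityMeasure (hm G) := ⟨by
  have := Measure.haarMeasure_self (K₀ := (⊤ : TopologicalSpace.PositiveCompacts G))
  exact this⟩

lemma integrable_of_continuous {f : G → ℂ} (hf : Continuous f) : Integrable f (hm G) :=
  hf.integrable_of_hasCompactSupport (HasCompactSupport.of_compactSpace f)

/-- The average of the tensor powers. -/
def av (κ : Type) [Fintype κ] (r : G → Matrix R R ℂ) : Matrix (κ → R) (κ → R) ℂ :=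
  fun I J => ∫ g, kr κ (r g) I J ∂(hm G)

variable {κ : Type} [Fintype κ] [DecidableEq κ] {r : G →* Matrix R R ℂ} (hr : Continuous r)

include hr in
lemma kr_cont (I J : κ → R) : Continuous fun g => kr κ (r g) I J := by
  change Continuous fun g => ∏ k, r g (I k) (J k)
  refine continuous_finsetProd _ fun k _ => ?_
  exact (continuous_apply (J k)).comp ((continuous_apply (I k)).comp hr)

include hr in
lemma krmv_cont (F : (κ → R) → ℂ) (I : κ → R) : Continuous fun g => (kr κ (r g) *ᵥ F) I := by
  change Continuous fun g => ∑ J, kr κ (r g) I J * F J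
  exact continuous_finsetSum _ fun J _ => (kr_cont hr I J).mul continuous_const

include hr in
lemma av_mulVec (F : (κ → R) → ℂ) (I : κ → R) :
    (av κ r *ᵥ F) I = ∫ g, (kr κ (r g) *ᵥ F) I ∂(hm G) := by
  change ∑ J, (∫ g, kr κ (r g) I J ∂(hm G)) * F J = ∫ g, ∑ J, kr κ (r g) I J * F J ∂(hm G)
  rw [integral_finsetSum]
  · exact Finset.sum_congr rfl fun J _ => (integral_mul_const _ _).symm
  · exact fun J _ => (integrable_of_continuous (kr_cont hr I J)).mul_const _

include hr in
lemma av_inv (q : G) : kr κ (r q) * av κ r = av κ r := by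
  ext I J
  rw [Matrix.mul_apply]
  change ∑ L, kr κ (r q) I L * (∫ g, kr κ (r g) L J ∂(hm G)) = ∫ g, kr κ (r g) I J ∂(hm G)
  have h1 : ∑ L, kr κ (r q) I L * (∫ g, kr κ (r g) L J ∂(hm G)) =
      ∫ g, ∑ L, kr κ (r q) I L * kr κ (r g) L J ∂(hm G) := by
    rw [integral_finsetSum]
    · exact Finset.sum_congr rfl fun L _ => (integral_const_mul _ _).symm
    · exact fun L _ => (integrable_of_continuous (kr_cont hr L J)).const_mul _
  rw [h1, ← integral_mul_left_eq_self (μ := hm G) (fun g => kr κ (r g) I J) q]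
  refine integral_congr_ae (Filter.Eventually.of_forall fun g => ?_)
  simp only
  rw [map_mul, kr_mul, Matrix.mul_apply]

include hr in
lemma av_fix (F : (κ → R) → ℂ) (hF : ∀ g, kr κ (r g) *ᵥ F = F) : av κ r *ᵥ F = F := by
  funext I
  rw [av_mulVec hr]
  simp only [hF]
  rw [integral_const]
  simp

include hr in
lemma av_mem (F : (κ → R) → ℂ) (g : G) : kr κ (r g) *ᵥ (av κ r *ᵥ F) = av κ r *ᵥ F := by
  rw [Matrix.mulVec_mulVec, av_inv hr]

include hr in
lemma av_trace (q : G) : (∫ g, (r (q * g)).trace ^ Fintype.card κ ∂(hm G)) = (av κ r).trace := by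
  have h1 : ∀ g, (r g).trace ^ Fintype.card κ = ∑ I, kr κ (r g) I I := fun g =>
    (kr_trace (κ := κ) (r g)).symm
  have h2 : (∫ g, (r (q * g)).trace ^ Fintype.card κ ∂(hm G)) =
      ∫ g, (r g).trace ^ Fintype.card κ ∂(hm G) :=
    integral_mul_left_eq_self (μ := hm G) (fun g => (r g).trace ^ Fintype.card κ) q
  rw [h2]
  simp only [h1]
  rw [integral_finsetSum]
  · rfl
  · exact fun I _ => integrable_of_continuous (kr_cont hr I I)

/-- The hermitian product. -/
def ip {κ : Type} [Fintype κ] [DecidableEq κ] (F F' : (κ → R) → ℂ) : ℂ := ∑ I, F I * star (F' I)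

lemma ip_self {F : (κ → R) → ℂ} (h : ip F F = 0) : F = 0 := by
  rw [ip] at h
  have h1 : ∀ I, F I * star (F I) = ((‖F I‖ ^ 2 : ℝ) : ℂ) := by
    intro I
    have := Complex.mul_conj (F I)
    rw [Complex.normSq_eq_norm_sq] at this
    exact this
  rw [Finset.sum_congr rfl fun I _ => h1 I, ← Complex.ofReal_sum] at h
  have h2 : ∑ I, ‖F I‖ ^ 2 = 0 := by exact_mod_cast h
  funext I
  have h3 := (Finset.sum_eq_zero_iff_of_nonneg fun I _ => by positivity).1 h2 I (Finset.mem_univ _)
  have h4 : ‖F I‖ = 0 := by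
    exact pow_eq_zero_iff (two_ne_zero) |>.1 h3
  exact norm_eq_zero.1 h4

lemma ip_add_left (F F' F'' : (κ → R) → ℂ) : ip (F + F') F'' = ip F F'' + ip F' F'' := by
  simp only [ip, Pi.add_apply, add_mul, Finset.sum_add_distrib]

lemma ip_smul_left (a : ℂ) (F F' : (κ → R) → ℂ) : ip (a • F) F' = a * ip F F' := by
  simp only [ip, Pi.smul_apply, smul_eq_mul, Finset.mul_sum, mul_assoc]

lemma ip_star (F F' : (κ → R) → ℂ) : star (ip F F') = ip F' F := by
  rw [ip, star_sum]
  refine Finset.sum_congr rfl fun I _ => ?_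
  rw [star_mul', star_star, mul_comm]

lemma ip_kr {g : Matrix R R ℂ} (F F' : (κ → R) → ℂ) :
    ip (kr κ g *ᵥ F) F' = ip F (kr κ gᴴ *ᵥ F') := by
  have h1 : ip (kr κ g *ᵥ F) F' = ∑ I, ∑ J, kr κ g I J * F J * star (F' I) := by
    rw [ip]
    refine Finset.sum_congr rfl fun I _ => ?_
    change (∑ J, kr κ g I J * F J) * _ = _
    rw [Finset.sum_mul]
  have h2 : ip F (kr κ gᴴ *ᵥ F') = ∑ J, ∑ I, kr κ g I J * F J * star (F' I) := by
    rw [ip]
    refine Finset.sum_congr rfl fun J _ => ?_
    change F J * star (∑ I, kr κ gᴴ J I * F' I) = _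
    rw [star_sum, Finset.mul_sum]
    refine Finset.sum_congr rfl fun I _ => ?_
    rw [kr_conjTranspose, Matrix.conjTranspose_apply, star_mul', star_star]
    ring
  rw [h1, h2, Finset.sum_comm]

include hr in
/-- The average is the orthogonal projection on the invariants. -/
lemma ip_av (hu : ∀ g, r g * (r g)ᴴ = 1) (F F' : (κ → R) → ℂ) (hF' : ∀ g, kr κ (r g) *ᵥ F' = F') :
    ip (av κ r *ᵥ F) F' = ip F F' := by
  have h1 : ∀ g, ip (kr κ (r g) *ᵥ F) F' = ip F F' := by
    intro g
    rw [ip_kr]
    congr 1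
    have h2 : (r g)ᴴ * r g = 1 := mul_eq_one_comm.1 (hu g)
    conv_lhs => rw [← hF' g]
    rw [Matrix.mulVec_mulVec, ← kr_mul, h2, kr_one, Matrix.one_mulVec]
  have h2 : ip (av κ r *ᵥ F) F' = ∫ g, ip (kr κ (r g) *ᵥ F) F' ∂(hm G) := by
    simp only [ip]
    rw [integral_finsetSum]
    · refine Finset.sum_congr rfl fun I _ => ?_
      rw [av_mulVec hr, integral_mul_const]
    · exact fun I _ => (integrable_of_continuous (krmv_cont hr F I)).mul_const _
  rw [h2]
  simp only [h1]
  rw [integral_const]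
  simp

end

end Pool.Agent.X259.T
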