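import Pool.Agent.X259.T.T5

/-!
# A family is the family of the invariants of its group
-/

set_option autoImplicit false
set_option linter.unusedSectionVars false
set_option linter.unusedDecidableInType false
set_option linter.unusedFintypeInType false

namespace Pool.Agent.X259.T

open Matrix Finset MeasureTheory Pool.Agent.H204R3.SP

noncomputable section

variable {R : Type} [Fintype R] [DecidableEq R] {Q : Type} [DecidableEq Q]
  {cls : R → Q} {inv : R → R} {jj : R → ℂ} {C : ∀ κ : Type, Submodule ℂ ((κ → R) → ℂ)}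
  {κ : Type} [Fintype κ] [DecidableEq κ] {μ : Type} [Fintype μ] [DecidableEq μ]

lemma jj_sq (hB : Bas cls inv jj) (x : R) : jj x * jj x = 1 := by
  rcases hB.sq x with h | h <;> rw [h] <;> norm_num

lemma jj_inv (hB : Bas cls inv jj) (x : R) : (jj x)⁻¹ = jj x := by
  rcases hB.sq x with h | h <;> rw [h] <;> norm_num

/-- The involution on words. -/
def ie (hB : Bas cls inv jj) (κ : Type) : (κ → R) ≃ (κ → R) where
  toFun I := fun k => inv (I k)
  invFun I := fun k => inv (I k)
  left_inv I := by funext k; exact hB.inv2 _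
  right_inv I := by funext k; exact hB.inv2 _

lemma form_of_mem {g : Matrix.unitaryGroup R ℂ} (hg : g ∈ stabG (forms cls inv jj)) :
    (g : Matrix R R ℂ) * Jm inv jj * (g : Matrix R R ℂ)ᵀ = Jm inv jj := by
  classical
  have h1 := mem_forms.1 hg
  have h2 : Jm inv jj = ∑ c ∈ Finset.univ.image cls, Pm cls c * Jm inv jj := by
    rw [← Finset.sum_mul]
    have h3 : ∑ c ∈ Finset.univ.image cls, Pm cls c = (1 : Matrix R R ℂ) := by
      ext x y
      rw [Matrix.sum_apply]
      by_cases h : x = y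
      · subst h
        rw [Matrix.one_apply_eq, Finset.sum_eq_single (cls x)]
        · rw [Pm, Matrix.diagonal_apply_eq, if_pos rfl]
        · intro c _ hc
          rw [Pm, Matrix.diagonal_apply_eq, if_neg (Ne.symm hc)]
        · intro hx
          exact absurd (Finset.mem_image_of_mem _ (Finset.mem_univ x)) hx
      · rw [Matrix.one_apply_ne h]
        exact Finset.sum_eq_zero fun c _ => Matrix.diagonal_apply_ne _ h
    rw [h3, one_mul]
  conv_lhs => rw [h2]
  conv_rhs => rw [h2]
  rw [Finset.mul_sum, Finset.sum_mul]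
  exact Finset.sum_congr rfl fun c _ => h1 c

lemma g_star (hB : Bas cls inv jj) {g : Matrix.unitaryGroup R ℂ}
    (hg : g ∈ stabG (forms cls inv jj)) (x y : R) :
    star ((g : Matrix R R ℂ) (inv y) (inv x)) = jj x * jj y * (g : Matrix R R ℂ) y x := by
  have h1 := form_of_mem hg
  have hu : (g : Matrix R R ℂ)ᴴ * (g : Matrix R R ℂ) = 1 := Matrix.mem_unitaryGroup_iff'.1 g.2
  have h2 : Jm inv jj * (g : Matrix R R ℂ)ᵀ = (g : Matrix R R ℂ)ᴴ * Jm inv jj := by
    rw [← h1]
    rw [← mul_assoc, ← mul_assoc, hu, one_mul, h1]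
  have h3 := congrFun (congrFun h2 (inv x)) y
  rw [Matrix.mul_apply, Matrix.mul_apply, Finset.sum_eq_single x, Finset.sum_eq_single (inv y)]
    at h3
  · change (if x = inv (inv x) then jj (inv x) else 0) * _ =
      _ * (if y = inv (inv y) then jj (inv y) else 0) at h3
    rw [if_pos (hB.inv2 x).symm, if_pos (hB.inv2 y).symm, hB.neg, hB.neg,
      Matrix.transpose_apply, Matrix.conjTranspose_apply] at h3
    have e1 := jj_sq hB y
    linear_combination (jj y) * h3 - (star ((g : Matrix R R ℂ) (inv y) (inv x))) * e1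
  · intro z _ hz
    change _ * (if y = inv z then jj z else 0) = 0
    rw [if_neg (fun h => hz (by rw [h, hB.inv2])), mul_zero]
  · intro h
    exact absurd (Finset.mem_univ _) h
  · intro z _ hz
    change (if z = inv (inv x) then jj (inv x) else 0) * _ = 0
    rw [if_neg (fun h => hz (by rw [h, hB.inv2])), zero_mul]
  · intro h
    exact absurd (Finset.mem_univ _) h

lemma st_kr (hB : Bas cls inv jj) {g : Matrix.unitaryGroup R ℂ}
    (hg : g ∈ stabG (forms cls inv jj)) (F : (κ → R) → ℂ) :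
    st inv jj (kr κ (g : Matrix R R ℂ) *ᵥ F) = kr κ (g : Matrix R R ℂ) *ᵥ st inv jj F := by
  funext I
  rw [kr_mulVec]
  change (∏ k, jj (I k)) * star ((kr κ (g : Matrix R R ℂ) *ᵥ F) _) = _
  rw [kr_mulVec, star_sum, Finset.mul_sum, ← (ie hB κ).sum_comp]
  refine Finset.sum_congr rfl fun J _ => ?_
  change (∏ k, jj (I k)) * star ((∏ k, (g : Matrix R R ℂ) (inv (I k)) (inv (J k))) *
    F (fun k => inv (J k))) = _ * ((∏ k, jj (J k)) * star (F fun k => inv (J k)))
  rw [star_mul', star_prod]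
  simp only [g_star hB hg]
  rw [Finset.prod_mul_distrib, Finset.prod_mul_distrib]
  have e1 : (∏ k, jj (I k)) * (∏ k, jj (I k)) = 1 := by
    rw [← Finset.prod_mul_distrib]
    exact Finset.prod_eq_one fun k _ => jj_sq hB _
  linear_combination ((∏ k, jj (J k)) * (∏ k, (g : Matrix R R ℂ) (I k) (J k)) *
    star (F fun k => inv (J k))) * e1

lemma star_kr (hB : Bas cls inv jj) {g : Matrix.unitaryGroup R ℂ}
    (hg : g ∈ stabG (forms cls inv jj)) (F : (κ → R) → ℂ) (I : κ → R) :
    star ((kr κ (g : Matrix R R ℂ) *ᵥ F) I) = (∏ k, jj (inv (I k))) *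
      (kr κ (g : Matrix R R ℂ) *ᵥ st inv jj F) (fun k => inv (I k)) := by
  rw [← st_kr hB hg]
  change _ = _ * ((∏ k, jj (inv (I k))) * star ((kr κ (g : Matrix R R ℂ) *ᵥ F)
    (fun k => inv (inv (I k)))))
  have h1 : (fun k => inv (inv (I k))) = I := by
    funext k
    exact hB.inv2 _
  have e1 : (∏ k, jj (inv (I k))) * (∏ k, jj (inv (I k))) = 1 := by
    rw [← Finset.prod_mul_distrib]
    exact Finset.prod_eq_one fun k _ => jj_sq hB _
  rw [h1, ← mul_assoc, e1, one_mul]

/-- The orthogonality. -/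
lemma ip_tp (hB : Bas cls inv jj) (h : Fam cls inv jj C) {F : (κ → R) → ℂ}
    (hF : ∀ a ∈ C κ, ip a F = 0) {a : (μ → R) → ℂ} (ha : a ∈ C μ) {D : (κ ⊕ μ → R) → ℂ}
    (hD : D ∈ C (κ ⊕ μ)) : ip (tp (st inv jj F) a) D = 0 := by
  set E := st inv jj D with hE
  have hEC : E ∈ C (κ ⊕ μ) := h.st hD
  have h1 : ip (tp (st inv jj F) a) D = ∑ K : κ ⊕ μ → R, (∏ k, jj (K k)) *
      (tp (st inv jj F) a (fun k => inv (K k)) * E K) := by
    rw [ip, ← (ie hB (κ ⊕ μ)).sum_comp]
    refine Finset.sum_congr rfl fun K _ => ?_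
    change tp (st inv jj F) a (fun k => inv (K k)) * star (D fun k => inv (K k)) =
      (∏ k, jj (K k)) * (tp (st inv jj F) a (fun k => inv (K k)) *
        ((∏ k, jj (K k)) * star (D fun k => inv (K k))))
    have e1 : (∏ k, jj (K k)) * (∏ k, jj (K k)) = 1 := by
      rw [← Finset.prod_mul_distrib]
      exact Finset.prod_eq_one fun k _ => jj_sq hB _
    linear_combination -(tp (st inv jj F) a (fun k => inv (K k)) *
      star (D fun k => inv (K k))) * e1
  rw [h1, sum_elim]
  have h2 : ∀ I : κ → R, ∑ J : μ → R, (∏ k, jj ((Sum.elim I J : κ ⊕ μ → R) k)) *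
      (tp (st inv jj F) a (fun k => inv ((Sum.elim I J : κ ⊕ μ → R) k)) * E (Sum.elim I J)) =
      (∏ _k : κ, (-1 : ℂ)) * (pr inv jj a E I * star (F I)) := by
    intro I
    rw [pr, Finset.sum_mul, Finset.mul_sum]
    refine Finset.sum_congr rfl fun J _ => ?_
    rw [Fintype.prod_sum_type]
    simp only [Sum.elim_inl, Sum.elim_inr, jj_inv hB]
    change (∏ k, jj (I k)) * (∏ k, jj (J k)) * (((∏ k, jj (inv (I k))) *
      star (F fun k => inv (inv (I k)))) * a (fun k => inv (J k)) * E (Sum.elim I J)) = _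
    have h3 : (fun k => inv (inv (I k))) = I := by
      funext k
      exact hB.inv2 _
    have e1 : (∏ k, jj (I k)) * (∏ k, jj (inv (I k))) = ∏ _k : κ, (-1 : ℂ) := by
      rw [← Finset.prod_mul_distrib]
      refine Finset.prod_congr rfl fun k _ => ?_
      rw [hB.neg, mul_neg, jj_sq hB]
    rw [h3, ← e1]
    ring
  rw [Finset.sum_congr rfl fun I _ => h2 I, ← Finset.mul_sum]
  have h3 := hF _ (pr_mem h ha hEC)
  rw [ip] at h3
  rw [h3, mul_zero]

lemma exists_proj (S : Submodule ℂ ((κ → R) → ℂ)) (F : (κ → R) → ℂ) :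
    ∃ F' ∈ S, ∀ a ∈ S, ip a (F - F') = 0 := by
  let L := WithLp.linearEquiv 2 ℂ ((κ → R) → ℂ)
  let S' : Submodule ℂ (EuclideanSpace ℂ (κ → R)) := S.comap L.toLinearMap
  obtain ⟨y, hy, z, hz, hyz⟩ := Submodule.exists_add_mem_mem_orthogonal (K := S') (L.symm F)
  refine ⟨L y, hy, fun a ha => ?_⟩
  have h1 : F - L y = L z := by
    have h2 : F = L y + L z := by
      rw [← map_add, ← hyz, LinearEquiv.apply_symm_apply]
    rw [h2, add_sub_cancel_left]
  rw [h1]
  have h2 := (Submodule.mem_orthogonal' S' z).1 hz (L.symm a) (by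
    change L (L.symm a) ∈ S
    rwa [LinearEquiv.apply_symm_apply])
  rw [EuclideanSpace.inner_eq_star_dotProduct] at h2
  rw [ip]
  exact h2

end

end Pool.Agent.X259.T
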