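import Pool.Agent.X259.T.T6

/-!
# A family is the family of the invariants of its group, second part
-/

set_option autoImplicit false
set_option linter.unusedSectionVars false
set_option linter.unusedDecidableInType false
set_option linter.unusedFintypeInType false

namespace Pool.Agent.X259.T

open Matrix Finset MeasureTheory Pool.Agent.H204R3.SP

noncomputable section

variable {R : Type} [Fintype R] [DecidableEq R] {Q : Type} [DecidableEq Q]
  {cls : R → Q} {inv : R → R} {jj : R → ℂ} {C : ∀ κ : Type, Submodule ℂ ((κ → R) → ℂ)}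
  {κ : Type} [Fintype κ] [DecidableEq κ] {μ : Type} [Fintype μ] [DecidableEq μ]
  {G : Type} [Group G] [TopologicalSpace G] [IsTopologicalGroup G] [CompactSpace G]
  [MeasurableSpace G] [BorelSpace G]
  {r : G →* Matrix R R ℂ} (hr : Continuous r)

variable (C r) in
/-- Two elements are equivalent if they act in the same way on the tensors of the family. -/
def sd : Setoid G where
  r g g' := ∀ s ∈ tens C, kr (Fin s.1) (r g) *ᵥ s.2 = kr (Fin s.1) (r g') *ᵥ s.2
  iseqv := ⟨fun _ _ _ => rfl, fun h s hs => (h s hs).symm, fun h h' s hs =>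
    (h s hs).trans (h' s hs)⟩

lemma sd_gen (h : Fam cls inv jj C) {g g' : G} (hg : (sd C r).r g g') {a : (κ → R) → ℂ}
    (ha : a ∈ C κ) : kr κ (r g) *ᵥ a = kr κ (r g') *ᵥ a := by
  let e : κ ≃ Fin (Fintype.card κ) := Fintype.equivFin κ
  have h1 := hg ⟨_, ri e a⟩ (h.ri e ha)
  change kr (Fin (Fintype.card κ)) (r g) *ᵥ ri e a = kr (Fin (Fintype.card κ)) (r g') *ᵥ ri e a at h1
  rw [kr_ri, kr_ri] at h1
  funext I
  have h2 := congrFun h1 (fun k => I (e.symm k))
  simp only [ri, Equiv.symm_apply_apply] at h2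
  exact h2

/-- A function which is constant on the classes. -/
def lf (f : G → ℂ) (hf : Continuous f) (hc : ∀ g g', (sd C r).r g g' → f g = f g') :
    C(Quotient (sd C r), ℂ) := ⟨Quotient.lift f hc, hf.quotient_lift hc⟩

/-- The matrix coefficients of the tensors in the family. -/
def IsB (f : C(Quotient (sd C r), ℂ)) : Prop :=
  ∃ (κ : Type) (_ : Fintype κ) (_ : DecidableEq κ) (a : (κ → R) → ℂ) (b : (κ → R) → ℂ),
    a ∈ C κ ∧ ∀ g : G, f (Quotient.mk _ g) = ∑ I, b I * (kr κ (r g) *ᵥ a) I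

lemma IsB.mul (h : Fam cls inv jj C) {f f' : C(Quotient (sd C r), ℂ)} (hf : IsB f) (hf' : IsB f') :
    IsB (f * f') := by
  obtain ⟨κ, _, _, a, b, ha, hab⟩ := hf
  obtain ⟨κ', _, _, a', b', ha', hab'⟩ := hf'
  refine ⟨κ ⊕ κ', inferInstance, inferInstance, tp a a', tp b b', h.tp ha ha', fun g => ?_⟩
  rw [ContinuousMap.mul_apply, hab, hab', kr_tp, sum_elim, Finset.sum_mul_sum]
  refine Finset.sum_congr rfl fun I _ => Finset.sum_congr rfl fun J _ => ?_
  rw [tp_apply, tp_apply]
  ring

lemma IsB.one (h : Fam cls inv jj C) : IsB (1 : C(Quotient (sd C r), ℂ)) := by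
  refine ⟨Fin 0, inferInstance, inferInstance, fun _ => 1, fun _ => 1, h.one, fun g => ?_⟩
  rw [ContinuousMap.one_apply, Fintype.sum_eq_single (fun k => k.elim0)]
  · rw [kr_mulVec, Fintype.sum_eq_single (fun k => k.elim0)]
    · simp
    · intro J hJ
      exact absurd (Subsingleton.elim _ _) hJ
  · intro J hJ
    exact absurd (Subsingleton.elim _ _) hJ

lemma IsB_star (hB : Bas cls inv jj) (h : Fam cls inv jj C)
    (hG : ∀ g, ∃ u ∈ stabG (forms cls inv jj), (u : Matrix R R ℂ) = r g)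
    {f : C(Quotient (sd C r), ℂ)} (hf : IsB f) : IsB (star f) := by
  obtain ⟨κ, _, _, a, b, ha, hab⟩ := hf
  refine ⟨κ, inferInstance, inferInstance, st inv jj a,
    fun I => (∏ k, jj (I k)) * star (b fun k => inv (I k)), h.st ha, fun g => ?_⟩
  rw [ContinuousMap.star_apply, hab, star_sum, ← (ie hB κ).sum_comp]
  obtain ⟨u, hu, hu'⟩ := hG g
  refine Finset.sum_congr rfl fun I _ => ?_
  change star (b (fun k => inv (I k)) * (kr κ (r g) *ᵥ a) (fun k => inv (I k))) = _
  rw [star_mul', ← hu', star_kr hB hu]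
  simp only [hB.inv2]
  ring

/-- The submonoid of the matrix coefficients. -/
def mB (C : ∀ κ : Type, Submodule ℂ ((κ → R) → ℂ)) (r : G →* Matrix R R ℂ)
    (h : Fam cls inv jj C) : Submonoid C(Quotient (sd C r), ℂ) where
  carrier := {f | IsB f}
  mul_mem' := fun hf hf' => IsB.mul h hf hf'
  one_mem' := IsB.one h

/-- The star subalgebra of the matrix coefficients. -/
def aB (hB : Bas cls inv jj) (h : Fam cls inv jj C)
    (hG : ∀ g, ∃ u ∈ stabG (forms cls inv jj), (u : Matrix R R ℂ) = r g) :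
    StarSubalgebra ℂ C(Quotient (sd C r), ℂ) where
  toSubalgebra := Algebra.adjoin ℂ (mB C r h : Set C(Quotient (sd C r), ℂ))
  star_mem' := by
    intro f hf
    change star f ∈ Algebra.adjoin ℂ (mB C r h : Set C(Quotient (sd C r), ℂ))
    induction hf using Algebra.adjoin_induction with
    | mem f hf => exact Algebra.subset_adjoin (IsB_star hB h hG hf)
    | algebraMap c =>
      rw [← algebraMap_star_comm]
      exact Subalgebra.algebraMap_mem _ _
    | add f f' _ _ hf hf' =>
      rw [star_add]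
      exact Subalgebra.add_mem _ hf hf'
    | mul f f' _ _ hf hf' =>
      rw [star_mul]
      exact Subalgebra.mul_mem _ hf' hf

include hr in
lemma aB_dense (hB : Bas cls inv jj) (h : Fam cls inv jj C)
    (hG : ∀ g, ∃ u ∈ stabG (forms cls inv jj), (u : Matrix R R ℂ) = r g) :
    (aB (r := r) hB h hG).topologicalClosure = ⊤ := by
  apply ContinuousMap.starSubalgebra_topologicalClosure_eq_top_of_separatesPoints
  intro x y hxy
  induction x using Quotient.inductionOn with | _ g
  induction y using Quotient.inductionOn with | _ g'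
  have h1 : ¬ (sd C r).r g g' := fun hgg => hxy (Quotient.sound hgg)
  change ¬ ∀ s ∈ tens C, kr (Fin s.1) (r g) *ᵥ s.2 = kr (Fin s.1) (r g') *ᵥ s.2 at h1
  push Not at h1
  obtain ⟨⟨n, a⟩, ha, hne⟩ := h1
  obtain ⟨I, hI⟩ := Function.ne_iff.1 hne
  change a ∈ C (Fin n) at ha
  let f : C(Quotient (sd C r), ℂ) := lf (fun g => (kr (Fin n) (r g) *ᵥ a) I) (krmv_cont hr a I)
    (fun g g' hgg => by rw [sd_gen h hgg ha])
  refine ⟨f, ⟨f, ?_, rfl⟩, hI⟩
  refine Algebra.subset_adjoin ⟨Fin n, inferInstance, inferInstance, a, fun J => if J = I then 1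
    else 0, ha, fun g => ?_⟩
  rw [Finset.sum_eq_single I]
  · change _ = (if I = I then (1 : ℂ) else 0) * _
    rw [if_pos rfl, one_mul]
    rfl
  · intro J _ hJ
    change (if J = I then (1 : ℂ) else 0) * _ = 0
    rw [if_neg hJ, zero_mul]
  · intro hI
    exact absurd (Finset.mem_univ _) hI

include hr in
/-- The orthogonality of the matrix coefficients. -/
lemma orth (hB : Bas cls inv jj) (h : Fam cls inv jj C)
    (hG : ∀ g, ∃ u ∈ stabG (forms cls inv jj), (u : Matrix R R ℂ) = r g)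
    (hG' : ∀ u ∈ stabG (forms cls inv jj), ∃ g, r g = (u : Matrix R R ℂ))
    {F : (κ → R) → ℂ} (hF : ∀ a ∈ C κ, ip a F = 0) {a : (μ → R) → ℂ} (ha : a ∈ C μ)
    (I : κ → R) (b : (μ → R) → ℂ) :
    ∫ g, star ((kr κ (r g) *ᵥ F) I) * ∑ J, b J * (kr μ (r g) *ᵥ a) J ∂(hm G) = 0 := by
  have h1 : av (κ ⊕ μ) r *ᵥ tp (st inv jj F) a = 0 := by
    apply ip_self
    have hinv : ∀ g, kr (κ ⊕ μ) (r g) *ᵥ (av (κ ⊕ μ) r *ᵥ tp (st inv jj F) a) =
        av (κ ⊕ μ) r *ᵥ tp (st inv jj F) a := av_mem hr _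
    have hu : ∀ g, r g * (r g)ᴴ = 1 := by
      intro g
      obtain ⟨u, -, hu⟩ := hG g
      rw [← hu]
      exact Matrix.mem_unitaryGroup_iff.1 u.2
    rw [ip_av hr hu _ _ hinv]
    refine ip_tp hB h hF ha (fft_mem hB h _ fun u hu => ?_)
    obtain ⟨g, hg⟩ := hG' u hu
    rw [← hg]
    exact hinv g
  have h2 : ∀ g, star ((kr κ (r g) *ᵥ F) I) * ∑ J, b J * (kr μ (r g) *ᵥ a) J =
      ∑ J, ((∏ k, jj (inv (I k))) * b J) *
        (kr (κ ⊕ μ) (r g) *ᵥ tp (st inv jj F) a) (Sum.elim (fun k => inv (I k)) J) := by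
    intro g
    obtain ⟨u, hu, hu'⟩ := hG g
    rw [Finset.mul_sum]
    refine Finset.sum_congr rfl fun J _ => ?_
    rw [kr_tp, tp_apply, ← hu', star_kr hB hu]
    ring
  simp only [h2]
  rw [integral_finsetSum]
  · refine Finset.sum_eq_zero fun J _ => ?_
    rw [integral_const_mul, ← av_mulVec hr, h1, Pi.zero_apply, mul_zero]
  · exact fun J _ => (integrable_of_continuous (krmv_cont hr _ _)).const_mul _

include hr in
/-- A tensor which is fixed by the group of the family and orthogonal to the family is zero. -/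
lemma zero_of_orth (hB : Bas cls inv jj) (h : Fam cls inv jj C)
    (hG : ∀ g, ∃ u ∈ stabG (forms cls inv jj), (u : Matrix R R ℂ) = r g)
    (hG' : ∀ u ∈ stabG (forms cls inv jj), ∃ g, r g = (u : Matrix R R ℂ))
    {F : (κ → R) → ℂ} (hF : ∀ a ∈ C κ, ip a F = 0)
    (hinv : ∀ g g', (sd C r).r g g' → kr κ (r g) *ᵥ F = kr κ (r g') *ᵥ F) : F = 0 := by
  funext I
  let f : C(Quotient (sd C r), ℂ) := lf (fun g => (kr κ (r g) *ᵥ F) I) (krmv_cont hr F I)
    (fun g g' hgg => by rw [hinv g g' hgg])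
  have hfc : Continuous fun g => (kr κ (r g) *ᵥ F) I := krmv_cont hr F I
  have hfg : ∀ g : G, f (Quotient.mk _ g) = (kr κ (r g) *ᵥ F) I := fun _ => rfl
  have hqc : Continuous (Quotient.mk (sd C r)) := continuous_quotient_mk'
  -- the linear functional
  let L₀ : C(Quotient (sd C r), ℂ) →ₗ[ℂ] ℂ :=
    { toFun := fun u => ∫ g, star ((kr κ (r g) *ᵥ F) I) * u (Quotient.mk _ g) ∂(hm G)
      map_add' := fun u v => by
        rw [← integral_add]
        · simp only [ContinuousMap.add_apply, mul_add]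
        · exact integrable_of_continuous (hfc.star.mul (u.continuous.comp hqc))
        · exact integrable_of_continuous (hfc.star.mul (v.continuous.comp hqc))
      map_smul' := fun c u => by
        rw [RingHom.id_apply, smul_eq_mul, ← integral_const_mul]
        simp only [ContinuousMap.smul_apply, smul_eq_mul]
        refine integral_congr_ae (Filter.Eventually.of_forall fun g => ?_)
        simp only
        ring }
  have hbound : ∀ u, ‖L₀ u‖ ≤ ‖f‖ * ‖u‖ := by
    intro u
    have h1 : ∀ g, ‖star ((kr κ (r g) *ᵥ F) I) * u (Quotient.mk _ g)‖ ≤ ‖f‖ * ‖u‖ := by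
      intro g
      rw [norm_mul, norm_star]
      refine mul_le_mul ?_ (u.norm_coe_le_norm _) (norm_nonneg _) (norm_nonneg _)
      rw [← hfg]
      exact f.norm_coe_le_norm _
    have h2 := norm_integral_le_of_norm_le_const (μ := hm G) (Filter.Eventually.of_forall h1)
    rw [probReal_univ, mul_one] at h2
    exact h2
  let L : C(Quotient (sd C r), ℂ) →L[ℂ] ℂ := L₀.mkContinuous ‖f‖ hbound
  have hL : ∀ u, L u = ∫ g, star ((kr κ (r g) *ᵥ F) I) * u (Quotient.mk _ g) ∂(hm G) :=
    fun _ => rfl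
  -- it vanishes on the matrix coefficients
  have hA : ∀ u ∈ Algebra.adjoin ℂ (mB C r h : Set C(Quotient (sd C r), ℂ)), L u = 0 := by
    intro u hu
    have h1 : u ∈ Submodule.span ℂ ((mB C r h : Submonoid C(Quotient (sd C r), ℂ)) :
        Set C(Quotient (sd C r), ℂ)) := by
      have := Algebra.adjoin_eq_span ℂ (mB C r h : Set C(Quotient (sd C r), ℂ))
      rw [Submonoid.closure_eq] at this
      rw [← this]
      exact hu
    clear hu
    induction h1 using Submodule.span_induction with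
    | mem u hu =>
      obtain ⟨μ, _, _, a, b, ha, hab⟩ := hu
      rw [hL]
      simp only [hab]
      exact orth hr hB h hG hG' hF ha I b
    | zero => exact map_zero L
    | add u v _ _ hu hv => rw [map_add, hu, hv, add_zero]
    | smul c u _ hu => rw [map_smul, hu, smul_zero]
  have hf0 : L f = 0 := by
    have hcl : f ∈ (aB (r := r) hB h hG).topologicalClosure := by
      rw [aB_dense hr hB h hG]
      trivial
    have h2 : (aB (r := r) hB h hG : Set C(Quotient (sd C r), ℂ)) ⊆ {u | L u = 0} :=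
      fun u hu => hA u hu
    have h3 : IsClosed {u : C(Quotient (sd C r), ℂ) | L u = 0} :=
      isClosed_eq L.continuous continuous_const
    exact closure_minimal h2 h3 hcl
  rw [hL] at hf0
  have h4 : ∀ g, star ((kr κ (r g) *ᵥ F) I) * f (Quotient.mk _ g) =
      ((‖(kr κ (r g) *ᵥ F) I‖ ^ 2 : ℝ) : ℂ) := by
    intro g
    rw [hfg, mul_comm]
    have := Complex.mul_conj ((kr κ (r g) *ᵥ F) I)
    rw [Complex.normSq_eq_norm_sq] at this
    exact this
  simp only [h4] at hf0
  rw [integral_complex_ofReal] at hf0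
  have h5 : ∫ g, ‖(kr κ (r g) *ᵥ F) I‖ ^ 2 ∂(hm G) = 0 := by exact_mod_cast hf0
  have h6 : (fun g => ‖(kr κ (r g) *ᵥ F) I‖ ^ 2) = fun _ => (0 : ℝ) := by
    have hc : Continuous fun g => ‖(kr κ (r g) *ᵥ F) I‖ ^ 2 := hfc.norm.pow 2
    by_contra hne
    obtain ⟨x, hx⟩ := Function.ne_iff.1 hne
    have h7 := hc.integral_pos_of_hasCompactSupport_nonneg_nonzero (μ := hm G)
      (x := x) (HasCompactSupport.of_compactSpace _) (fun g => by positivity) hx
    rw [h5] at h7
    exact lt_irrefl _ h7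
  have h7 := congrFun h6 1
  simp only [map_one] at h7
  rw [kr_one, Matrix.one_mulVec] at h7
  have h8 : ‖F I‖ = 0 := pow_eq_zero_iff (two_ne_zero) |>.1 h7
  exact norm_eq_zero.1 h8

end

end Pool.Agent.X259.T
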