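import Pool.Agent.X259.T.T7

/-!
# A family is the family of the invariants of its group: the theorem
-/

set_option autoImplicit false
set_option linter.unusedSectionVars false
set_option linter.unusedDecidableInType false
set_option linter.unusedFintypeInType false

namespace Pool.Agent.X259.T

open Matrix Finset MeasureTheory Pool.Agent.H204R3.SP

noncomputable section

variable {R : Type} [Fintype R] [DecidableEq R] {Q : Type} [DecidableEq Q]
  {cls : R → Q} {inv : R → R} {jj : R → ℂ} {C : ∀ κ : Type, Submodule ℂ ((κ → R) → ℂ)}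
  {κ : Type} [Fintype κ] [DecidableEq κ]

instance compactU : CompactSpace (Matrix.unitaryGroup R ℂ) := by
  have hcl : IsClosed ((Matrix.unitaryGroup R ℂ : Set (Matrix R R ℂ))) := by
    have : (Matrix.unitaryGroup R ℂ : Set (Matrix R R ℂ)) = {A | A * star A = 1} := by
      ext A
      exact Matrix.mem_unitaryGroup_iff
    rw [this]
    exact isClosed_eq (continuous_id.mul continuous_star) continuous_const
  have hsub : (Matrix.unitaryGroup R ℂ : Set (Matrix R R ℂ)) ⊆
      Set.pi Set.univ (fun _ : R => Set.pi Set.univ (fun _ : R => Metric.closedBall (0 : ℂ) 1)) := by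
    intro A hA i _ j _
    rw [mem_closedBall_zero_iff]
    exact entry_norm_bound_of_unitary hA i j
  have hc : IsCompact (Set.pi Set.univ
      (fun _ : R => Set.pi Set.univ (fun _ : R => Metric.closedBall (0 : ℂ) 1))) :=
    isCompact_univ_pi fun _ => isCompact_univ_pi fun _ => isCompact_closedBall _ _
  exact isCompact_iff_compactSpace.mp (hc.of_isClosed_subset hcl hsub)

/-- The inclusion of a subgroup of the unitary group. -/
def inc (H : Subgroup (Matrix.unitaryGroup R ℂ)) : H →* Matrix R R ℂ :=
  (Submonoid.subtype (Matrix.unitaryGroup R ℂ)).comp H.subtype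

lemma inc_apply (H : Subgroup (Matrix.unitaryGroup R ℂ)) (g : H) :
    inc H g = ((g : Matrix.unitaryGroup R ℂ) : Matrix R R ℂ) := rfl

lemma inc_cont (H : Subgroup (Matrix.unitaryGroup R ℂ)) : Continuous (inc H) :=
  continuous_subtype_val.comp continuous_subtype_val

lemma stab_closed (S : Set (Σ n : ℕ, (Fin n → R) → ℂ)) :
    IsClosed (stabG S : Set (Matrix.unitaryGroup R ℂ)) := by
  have h1 : (stabG S : Set (Matrix.unitaryGroup R ℂ)) = ⋂ s ∈ S,
      {g : Matrix.unitaryGroup R ℂ | kr (Fin s.1) (g : Matrix R R ℂ) *ᵥ s.2 = s.2} := by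
    ext g
    simp only [SetLike.mem_coe, Set.mem_iInter]
    rfl
  rw [h1]
  refine isClosed_iInter fun s => isClosed_iInter fun _ => isClosed_eq ?_ continuous_const
  refine continuous_pi fun I => ?_
  change Continuous fun g : Matrix.unitaryGroup R ℂ =>
    ∑ J, (∏ k, (g : Matrix R R ℂ) (I k) (J k)) * s.2 J
  refine continuous_finsetSum _ fun J _ => Continuous.mul ?_ continuous_const
  refine continuous_finsetProd _ fun k _ => ?_
  exact (continuous_apply (J k)).comp ((continuous_apply (I k)).comp continuous_subtype_val)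

instance compactStab (S : Set (Σ n : ℕ, (Fin n → R) → ℂ)) : CompactSpace (stabG S) :=
  isCompact_iff_compactSpace.1 (stab_closed S).isCompact

/-- **Tannaka duality**: a family is the family of the invariants of its group. -/
theorem tannaka (hB : Bas cls inv jj) (h : Fam cls inv jj C) (F : (κ → R) → ℂ)
    (hF : ∀ g ∈ stabG (tens C), kr κ (g : Matrix R R ℂ) *ᵥ F = F) : F ∈ C κ := by
  obtain ⟨F', hF', horth⟩ := exists_proj (C κ) F
  let _ : MeasurableSpace (stabG (forms cls inv jj)) := borel _
  have _ : BorelSpace (stabG (forms cls inv jj)) := ⟨rfl⟩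
  have h1 : F - F' = 0 := by
    refine zero_of_orth (r := inc (stabG (forms cls inv jj))) (inc_cont _) hB h
      (fun g => ⟨g, g.2, rfl⟩) (fun u hu => ⟨⟨u, hu⟩, rfl⟩) horth ?_
    intro g g' hgg
    have hmem : (g : Matrix.unitaryGroup R ℂ)⁻¹ * (g' : Matrix.unitaryGroup R ℂ) ∈
        stabG (tens C) := by
      intro s hs
      have h2 := hgg s hs
      rw [inc_apply, inc_apply] at h2
      rw [show (((g : Matrix.unitaryGroup R ℂ)⁻¹ * (g' : Matrix.unitaryGroup R ℂ) :
        Matrix.unitaryGroup R ℂ) : Matrix R R ℂ) = (((g : Matrix.unitaryGroup R ℂ)⁻¹ :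
        Matrix.unitaryGroup R ℂ) : Matrix R R ℂ) * ((g' : Matrix.unitaryGroup R ℂ) :
        Matrix R R ℂ) from rfl, kr_mul, ← Matrix.mulVec_mulVec, ← h2, Matrix.mulVec_mulVec,
        ← kr_mul, ← Submonoid.coe_mul, inv_mul_cancel]
      rw [show ((1 : Matrix.unitaryGroup R ℂ) : Matrix R R ℂ) = 1 from rfl, kr_one,
        Matrix.one_mulVec]
    have h3 : kr κ (((g : Matrix.unitaryGroup R ℂ)⁻¹ * (g' : Matrix.unitaryGroup R ℂ) :
        Matrix.unitaryGroup R ℂ) : Matrix R R ℂ) *ᵥ (F - F') = F - F' := by
      rw [Matrix.mulVec_sub, hF _ hmem, (mem_stab h).1 hmem κ F' hF']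
    rw [inc_apply, inc_apply]
    conv_lhs => rw [← h3]
    rw [Matrix.mulVec_mulVec, ← kr_mul, ← Submonoid.coe_mul, mul_inv_cancel_left]
  rw [sub_eq_zero] at h1
  rw [h1]
  exact hF'

end

end Pool.Agent.X259.T
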