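import Pool.Agent.X259.T.T5

/-!
# A lower bound for the moments of the trace
-/

set_option autoImplicit false
set_option linter.unusedSectionVars false
set_option linter.unusedDecidableInType false
set_option linter.unusedFintypeInType false

namespace Pool.Agent.X259.T

open Matrix Finset MeasureTheory Module

noncomputable section

/-- Functions without topology. -/
def FF {G : Type} (S : Submodule ℂ (G → ℂ)) : Type := S

namespace FF

variable {G : Type} {S : Submodule ℂ (G → ℂ)}

instance : AddCommGroup (FF S) := inferInstanceAs (AddCommGroup S)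
instance : Module ℂ (FF S) := inferInstanceAs (Module ℂ S)

/-- Evaluation. -/
def ev (g : G) : FF S →ₗ[ℂ] ℂ where
  toFun f := (f : S).1 g
  map_add' _ _ := rfl
  map_smul' _ _ := rfl

/-- The function. -/
def mk (f : G → ℂ) (hf : f ∈ S) : FF S := (⟨f, hf⟩ : S)

lemma ev_mk (f : G → ℂ) (hf : f ∈ S) (g : G) : ev g (mk f hf) = f g := rfl

lemma ext' {f f' : FF S} (h : ∀ g, ev g f = ev g f') : f = f' := by
  apply Subtype.ext
  funext g
  exact h g

end FF

variable {G : Type} [Group G] [TopologicalSpace G] [IsTopologicalGroup G] [CompactSpace G]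
  [MeasurableSpace G] [BorelSpace G]

/-- Point evaluation on translation invariant spaces of continuous functions. -/
theorem sup_le (S : Submodule ℂ (G → ℂ)) [FiniteDimensional ℂ S] (hc : ∀ f ∈ S, Continuous f)
    (ht : ∀ f ∈ S, ∀ q, (fun g => f (q * g)) ∈ S) (f : G → ℂ) (hf : f ∈ S) :
    ‖f 1‖ ^ 2 ≤ finrank ℂ S * ∫ g, ‖f g‖ ^ 2 ∂(hm G) := by
  classical
  have hfd : FiniteDimensional ℂ (FF S) := inferInstanceAs (FiniteDimensional ℂ S)
  have hcev : ∀ f : FF S, Continuous fun g => FF.ev g f := fun f => hc _ f.2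
  have hint : ∀ f f' : FF S, Integrable (fun g => star (FF.ev g f) * FF.ev g f') (hm G) :=
    fun f f' => integrable_of_continuous ((hcev f).star.mul (hcev f'))
  have hsq : ∀ (f : FF S) (g : G), star (FF.ev g f) * FF.ev g f = ((‖FF.ev g f‖ ^ 2 : ℝ) : ℂ) := by
    intro f g
    have := Complex.mul_conj (FF.ev g f)
    rw [Complex.normSq_eq_norm_sq] at this
    rw [mul_comm]
    exact this
  let core : InnerProductSpace.Core ℂ (FF S) :=
    { inner := fun f f' => ∫ g, star (FF.ev g f) * FF.ev g f' ∂(hm G)
      conj_inner_symm := fun f f' => by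
        refine (integral_conj (f := fun g => star (FF.ev g f') * FF.ev g f)
          (μ := hm G)).symm.trans ?_
        refine integral_congr_ae (Filter.Eventually.of_forall fun g => ?_)
        simp [mul_comm]
      re_inner_nonneg := fun f => by
        change 0 ≤ RCLike.re (∫ g, star (FF.ev g f) * FF.ev g f ∂(hm G))
        simp only [hsq]
        rw [integral_complex_ofReal]
        have : 0 ≤ ∫ g, ‖FF.ev g f‖ ^ 2 ∂(hm G) := integral_nonneg fun g => by positivity
        simpa using this
      add_left := fun f f' f'' => by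
        change ∫ g, star (FF.ev g (f + f')) * FF.ev g f'' ∂(hm G) = _ + _
        rw [← integral_add (hint _ _) (hint _ _)]
        refine integral_congr_ae (Filter.Eventually.of_forall fun g => ?_)
        simp only [map_add, star_add, add_mul]
      smul_left := fun f f' c => by
        change ∫ g, star (FF.ev g (c • f)) * FF.ev g f' ∂(hm G) = star c * _
        rw [← integral_const_mul]
        refine integral_congr_ae (Filter.Eventually.of_forall fun g => ?_)
        simp only [map_smul, smul_eq_mul, star_mul']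
        ring
      definite := fun f h0 => by
        change ∫ g, star (FF.ev g f) * FF.ev g f ∂(hm G) = 0 at h0
        simp only [hsq] at h0
        rw [integral_complex_ofReal] at h0
        have h5 : ∫ g, ‖FF.ev g f‖ ^ 2 ∂(hm G) = 0 := by exact_mod_cast h0
        apply FF.ext'
        intro g
        rw [map_zero]
        by_contra hne
        have hcc : Continuous fun g => ‖FF.ev g f‖ ^ 2 := (hcev f).norm.pow 2
        have h7 := hcc.integral_pos_of_hasCompactSupport_nonneg_nonzero
          (μ := hm G) (x := g) (HasCompactSupport.of_compactSpace _)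
          (fun g => by positivity) (by simpa using hne)
        rw [h5] at h7
        exact lt_irrefl _ h7 }
  let _ : NormedAddCommGroup (FF S) := @InnerProductSpace.Core.toNormedAddCommGroup ℂ (FF S) _ _ _ core
  let _ : InnerProductSpace ℂ (FF S) := InnerProductSpace.ofCore core.toCore
  have hinner : ∀ f f' : FF S, inner ℂ f f' = ∫ g, star (FF.ev g f) * FF.ev g f' ∂(hm G) :=
    fun _ _ => rfl
  have hnorm : ∀ f : FF S, ‖f‖ ^ 2 = ∫ g, ‖FF.ev g f‖ ^ 2 ∂(hm G) := by
    intro f
    have h1 : ((‖f‖ ^ 2 : ℝ) : ℂ) = inner ℂ f f := by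
      rw [inner_self_eq_norm_sq_to_K]
      push_cast
      rfl
    rw [hinner] at h1
    simp only [hsq] at h1
    rw [integral_complex_ofReal] at h1
    exact_mod_cast h1
  let n := finrank ℂ (FF S)
  let e := stdOrthonormalBasis ℂ (FF S)
  -- translations
  let T₀ : G → (FF S →ₗ[ℂ] FF S) := fun q =>
    { toFun := fun f => FF.mk (fun g => FF.ev (q * g) f) (ht f.1 f.2 q)
      map_add' := fun _ _ => rfl
      map_smul' := fun _ _ => rfl }
  have hT₀ : ∀ q f g, FF.ev g (T₀ q f) = FF.ev (q * g) f := fun _ _ _ => rfl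
  have hTi : ∀ q f f', inner ℂ (T₀ q f) (T₀ q f') = inner ℂ f f' := by
    intro q f f'
    rw [hinner, hinner]
    simp only [hT₀]
    exact integral_mul_left_eq_self (μ := hm G) (fun g => star (FF.ev g f) * FF.ev g f') q
  let T : G → (FF S →ₗᵢ[ℂ] FF S) := fun q => (T₀ q).isometryOfInner (hTi q)
  let T' : G → (FF S ≃ₗᵢ[ℂ] FF S) := fun q => (T q).toLinearIsometryEquiv rfl
  let v := (InnerProductSpace.toDual ℂ (FF S)).symm (LinearMap.toContinuousLinearMap (FF.ev 1))
  have hv : ∀ f, inner ℂ v f = FF.ev 1 f := fun f =>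
    InnerProductSpace.toDual_symm_apply
  have hsum : ∀ q, ∑ i, ‖FF.ev q (e i)‖ ^ 2 = ‖v‖ ^ 2 := by
    intro q
    rw [← (e.map (T' q)).sum_sq_norm_inner_left v]
    refine Finset.sum_congr rfl fun i _ => ?_
    rw [hv, OrthonormalBasis.map_apply]
    have h1 : FF.ev 1 (T' q (e i)) = FF.ev (q * 1) (e i) := rfl
    rw [h1, mul_one]
  have hvn : ‖v‖ ^ 2 = n := by
    have h1 : ∫ q, ∑ i, ‖FF.ev q (e i)‖ ^ 2 ∂(hm G) = ‖v‖ ^ 2 := by
      simp only [hsum]
      rw [integral_const]
      simp
    rw [← h1, integral_finsetSum]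
    · simp only [← hnorm]
      simp [n]
    · intro i _
      have hcc : Continuous fun g => ‖FF.ev g (e i)‖ ^ 2 := (hcev (e i)).norm.pow 2
      exact hcc.integrable_of_hasCompactSupport (HasCompactSupport.of_compactSpace _)
  have h1 := norm_inner_le_norm (𝕜 := ℂ) v (FF.mk f hf)
  rw [hv] at h1
  have h2 : ‖f 1‖ ^ 2 ≤ (‖v‖ * ‖FF.mk f hf‖) ^ 2 := by
    refine pow_le_pow_left₀ (norm_nonneg _) ?_ 2
    exact h1
  rw [mul_pow, hvn, hnorm] at h2
  exact h2

end

end Pool.Agent.X259.T
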